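import Pool.Agent.Lib.MP_557161_ag.HC.St4
import Pool.Agent.Lib.MP_557161_ag.HN.A1

/-!
The cyclic cover over the torus is a cyclic cover of the torus `∏ X ^ a = 1`.
-/

namespace Pool.Agent.Lib.MP_557161_ag.HG.HN.HC

open Pool.Agent.Lib.MP_557161_ag.DL Finset
open A1q (mon mon_ne mon_mon mon_rel sum_rot key)

variable {K : Type} [Field K] {dd : ℕ} {c c' : Cd}

namespace A1r

theorem transfer [FA3 K] {U : ASp K c} {V : ASp K c'} {f : ∀ L : Fld K, c.X L → c'.X L}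
    {g : ∀ L : Fld K, c'.X L → c.X L} (h : Iso U V f g) {τ : ∀ L : Fld K, c.X L → c.X L}
    {τ' : ∀ L : Fld K, c'.X L → c'.X L} (hm : ∀ L x, V.mem L (τ' L x) ↔ V.mem L x)
    (hc : ∀ L x, V.mem L x → g L (τ' L x) = τ L (g L x)) (η : ℂ) (κ : Type) [Fintype κ]
    [DecidableEq κ] (hV : AltV V τ' η κ) : AltS U τ η κ := by
  intro d W j Φ hk ha
  have hr : ∀ σ : Equiv.Perm κ, Reg (V.pi κ) (.pi κ c) fun L x i => g L (x (σ i)) :=
    fun σ _ _ R _ _ m m' e i => h.mg.reg R (m _) (m' _) (e _)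
  have mg : ∀ σ : Equiv.Perm κ, Mp ((V.pi κ).prod W) ((U.pi κ).prod W)
      fun L x => (fun i => g L (x.1 (σ i)), x.2) := fun σ =>
    ⟨fun _ _ R _ _ m m' e => ⟨hr σ R m.1 m'.1 e.1, e.2⟩,
      fun L _ m => ⟨fun i => h.mg.mem L _ (m.1 _), m.2⟩⟩
  have mf : ∀ σ : Equiv.Perm κ, Mp ((U.pi κ).prod W) ((V.pi κ).prod W)
      fun L x => (fun i => f L (x.1 (σ.symm i)), x.2) := fun σ =>
    ⟨fun _ _ R _ _ m m' e => ⟨fun i => h.mf.reg R (m.1 _) (m'.1 _) (e.1 _), e.2⟩,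
      fun L _ m => ⟨fun i => h.mf.mem L _ (m.1 _), m.2⟩⟩
  have pr : ∀ σ : Equiv.Perm κ, Pro ((V.pi κ).prod W) ((U.pi κ).prod W)
      fun L x => (fun i => g L (x.1 (σ i)), x.2) := fun σ =>
    Pro.of_left (mf σ) (mg σ) fun L x m => Prod.ext (funext fun i => by
      simp only [Equiv.apply_symm_apply]
      exact h.fg L _ (m.1 i)) rfl
  obtain ⟨Ψ, hΨ⟩ := Fe.exists_sum Finset.univ fun σ : Equiv.Perm κ =>
    FC1A.smul ((Equiv.Perm.sign σ : ℤ) : ℂ) (Fe.pull (mg σ).mor ((pr σ).mor (mg σ)) Φ)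
  have h1 : ∀ (L : Fld K) (x : κ → c'.X L) (w : d.X L), (∀ i, V.mem L (x i)) → W.mem L w →
      Ψ.a L (x, w) = ∑ σ : Equiv.Perm κ,
        ((Equiv.Perm.sign σ : ℤ) : ℂ) * Φ.a L (fun i => g L (x (σ i)), w) := fun L x w m m' =>
    (hΨ L _).trans (Finset.sum_congr rfl fun σ _ => congrArg (_ * ·)
      (Fe.pull_of_mem (mg σ).mor _ Φ ((ASp.sp_some _).2 ⟨m, m'⟩)))
  have h2 : ∀ (L : Fld K) (x : κ → c'.X L) (w : d.X L), ¬ ((∀ i, V.mem L (x i)) ∧ W.mem L w) →
      Ψ.a L (x, w) = 0 := fun L x w m =>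
    not_not.1 fun e => m ((ASp.sp_some _).1 (Ψ.supp L _ e).2)
  have h3 := hV W j Ψ (fun L x w m₁ m₂ d₁ d₂ e => ?_) (fun i L x w => ?_) (fun σ L x w => ?_)
  · intro L x w
    by_cases m : (∀ i, U.mem L (x i)) ∧ W.mem L w
    · rw [← h3 L (fun i => f L (x i)) w, h1 L _ w (fun i => h.mf.mem L _ (m.1 i)) m.2]
      simp only [h.gf L _ (m.1 _)]
    · refine Finset.sum_eq_zero fun σ _ => mul_eq_zero_of_right _ (not_not.1 fun e => m ?_)
      have := (ASp.sp_some _).1 (Φ.supp L _ e).2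
      exact ⟨fun i => by simpa using this.1 (σ.symm i), this.2⟩
  · by_cases m : (∀ i, V.mem L (x i)) ∧ W.mem L w
    · rw [h1 L x w m.1 m.2]
      exact Finset.sum_eq_zero fun σ _ => mul_eq_zero_of_right _
        (hk L _ w m₁ m₂ (FA3.dm_reg (hr σ) m.1 d₁) d₂ e)
    · exact h2 L x w m
  · have e : (∀ k, V.mem L (Function.update x i (τ' L (x i)) k)) ↔ ∀ k, V.mem L (x k) :=
      forall_congr' fun k => by
        by_cases e : k = i
        · subst e
          rw [Function.update_self, hm]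
        · rw [Function.update_of_ne e]
    by_cases m : (∀ i, V.mem L (x i)) ∧ W.mem L w
    · rw [h1 L x w m.1 m.2, h1 L _ w (e.2 m.1) m.2, Finset.mul_sum]
      refine Finset.sum_congr rfl fun σ _ => ?_
      rw [mul_left_comm, ← ha (σ.symm i) L (fun k => g L (x (σ k))) w]
      congr 3
      funext k
      by_cases e' : k = σ.symm i
      · subst e'
        rw [Function.update_self, Equiv.apply_symm_apply, Function.update_self, hc L _ (m.1 i)]
      · rw [Function.update_of_ne e', Function.update_of_ne fun e'' => e' (by simp [← e''])]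
    · rw [h2 L x w m, h2 L _ w fun m' => m ⟨e.1 m'.1, m'.2⟩, mul_zero]
  · by_cases m : (∀ i, V.mem L (x i)) ∧ W.mem L w
    · rw [h1 L x w m.1 m.2, h1 L _ w (fun i => m.1 _) m.2, Finset.mul_sum]
      refine Fintype.sum_equiv (Equiv.mulLeft σ) _ _ fun ρ => ?_
      have : ((Equiv.Perm.sign σ : ℤ) : ℂ) * ((Equiv.Perm.sign σ : ℤ) : ℂ) = 1 := by
        rw [← Int.cast_mul, ← Units.val_mul, Int.units_mul_self, Units.val_one, Int.cast_one]
      rw [Equiv.coe_mulLeft, Equiv.Perm.sign_mul, Units.val_mul, Int.cast_mul, ← mul_assoc,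
        ← mul_assoc, this, one_mul]
      rfl
    · rw [h2 L x w m, h2 L _ w fun m' => m ⟨fun i => by simpa using m'.1 (σ.symm i), m'.2⟩,
        mul_zero]

theorem ex1 {a m : ℕ} (h : a.Coprime m) (ha : 0 < a) (hm : 0 < m) (g : ℕ) :
    ∃ f j, a * f = g + m * j := by
  obtain ⟨k, hk⟩ := Nat.exists_eq_succ_of_ne_zero (Nat.totient_pos.2 hm).ne'
  have h1 := Nat.ModEq.pow_totient h
  have h2 : 1 ≤ a ^ m.totient := Nat.one_le_pow _ _ ha
  obtain ⟨j, hj⟩ := (Nat.modEq_iff_dvd' h2).1 h1.symm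
  have h3 : a ^ (k + 1) = 1 + m * j := by rw [hk] at hj h2; rw [← hj]; exact (Nat.add_sub_cancel' h2).symm
  exact ⟨a ^ k * g, j * g, by rw [← mul_assoc, ← pow_succ', h3]; ring⟩

variable (G : GD K dd)

theorem hwZ (j : Vr dd) : (G.n : ℤ) * G.w j = G.u * G.a j + G.a (j - 1) := by
  exact_mod_cast G.hw j

theorem swZ : ∑ j, (G.w j : ℤ) = G.u + 1 := by exact_mod_cast G.sw.trans G.hu.symm

theorem sum_a : ∑ i, G.a i = G.n := by
  have h : (G.n : ℤ) * (G.u + 1) = (∑ i, (G.a i : ℤ)) * (G.u + 1) := by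
    rw [← swZ, mul_sum, sum_congr rfl fun j _ => hwZ G j, sum_add_distrib, ← mul_sum,
      sum_rot fun j => (G.a j : ℤ), swZ]
    ring
  exact_mod_cast (mul_right_cancel₀ (by omega) h).symm

theorem exists_p : ∃ p : Vr dd → ℤ, ∑ j, G.a j * p j = 1 := by
  obtain ⟨q, hq⟩ := gcd_eq_sum_mul univ fun j => (G.a j : ℤ)
  have h0 : (univ.gcd fun j => (G.a j : ℤ)).natAbs ∣ univ.gcd G.a := Finset.dvd_gcd fun j hj =>
    Int.natCast_dvd_natCast.1 (Int.natAbs_dvd.2 (Finset.gcd_dvd hj))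
  have h1 := Nat.dvd_one.1 (h0.trans G.cop.dvd)
  have h2 := Int.finsetGcd_nonneg (s := univ) (f := fun j => (G.a j : ℤ))
  exact ⟨q, by omega⟩

theorem geom : ∑ i ∈ range (2 * dd + 1), (-(G.u : ℤ)) ^ i = G.n := by
  have h1 := mul_neg_geom_sum (-(G.u : ℤ)) (2 * dd + 1)
  have h2 : (G.n : ℤ) * (G.u + 1) = G.u ^ (2 * dd + 1) + 1 := by exact_mod_cast G.hn
  rw [(odd_two_mul_add_one dd).neg_pow] at h1
  exact mul_right_cancel₀ (b := (G.u : ℤ) + 1) (by omega) (by linear_combination h1 - h2)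

theorem psi_w : ∑ j : Vr dd, (∑ i ∈ range j, (-(G.u : ℤ)) ^ i) * G.w j = 1 - G.a (Fin.last _) := by
  have h1 := A1q.psi (G.u : ℤ) fun j => (G.a j : ℤ)
  have h2 : ∑ j, (G.a j : ℤ) = G.n := by exact_mod_cast sum_a G
  have hn : (G.n : ℤ) ≠ 0 := fun e => G.ch (by simp [Int.natCast_eq_zero.1 e])
  simp only [← hwZ, mul_left_comm _ (G.n : ℤ)] at h1
  rw [← mul_sum, geom, h2] at h1
  exact mul_left_cancel₀ hn (by linear_combination h1)

theorem exists_mat : ∃ M N : Matrix (Vr dd) (Vr dd) ℤ, M * N = 1 ∧ N * M = 1 ∧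
    (∀ l, N 0 l = G.a l) ∧ ∀ (F : Type) [Field F] (x : Vr dd → F), (∀ i, x i ≠ 0) → x 0 = 1 →
      ∀ l, mon M x l * ∏ i, x i ^ G.w i = x l ^ G.u * x (l + 1) := by
  obtain ⟨p, hp⟩ := exists_p G
  let M : Matrix (Vr dd) (Vr dd) ℤ := Matrix.of fun l j => if j = 0 then p l else
    (if l = j then (G.u : ℤ) else 0) + (if l = j - 1 then 1 else 0) - G.w j
  have hM : ∀ (R : Type) [CommRing R] (c : Vr dd → R) (j : Vr dd), ∑ l, c l * (M l j : R) =
      if j = 0 then ∑ l, c l * p l else G.u * c j + c (j - 1) - (∑ l, c l) * G.w j :=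
    fun R _ c j => by
      split_ifs with e
      · simp [M, e]
      · simp [M, e, mul_sub, mul_add, sum_add_distrib, sum_mul, mul_comm]
  have hd : IsUnit M.det := by
    rw [Int.isUnit_iff_natAbs_eq]
    by_contra c
    obtain ⟨r, hr, hd⟩ := Nat.exists_prime_and_dvd c
    have := Fact.mk hr
    have e : (M.map (Int.cast : ℤ → ZMod r)).det = 0 := by
      rw [← Int.cast_det, ZMod.intCast_zmod_eq_zero_iff_dvd]
      exact Int.natCast_dvd.2 hd
    obtain ⟨v, v0, hv⟩ := Matrix.exists_vecMul_eq_zero_iff.2 e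
    have h1 : ∀ j, ∑ l, v l * (M l j : ZMod r) = 0 := fun j => congrFun hv j
    refine v0 (key (u := (G.u : ZMod r)) (n := G.n) (a := fun j => G.a j) (w := fun j => G.w j)
      (p := fun j => p j) (fun j => ?_) ?_ ?_ ?_ ?_ ?_ fun j e => ?_)
    · exact_mod_cast congrArg (Int.cast : ℤ → ZMod r) (hwZ G j)
    · exact_mod_cast congrArg (Int.cast : ℤ → ZMod r) (swZ G)
    · exact_mod_cast congrArg (Int.cast : ℤ → ZMod r) (geom G)
    · exact_mod_cast congrArg (Int.cast : ℤ → ZMod r) (psi_w G)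
    · exact_mod_cast congrArg (Int.cast : ℤ → ZMod r) hp
    · exact (if_pos rfl).symm.trans ((hM _ v 0).symm.trans (h1 0))
    · exact sub_eq_zero.1 ((if_neg e).symm.trans ((hM _ v j).symm.trans (h1 j)))
  refine ⟨M, M⁻¹, M.mul_nonsing_inv hd, M.nonsing_inv_mul hd, fun l => ?_, fun F _ x h h0 l => ?_⟩
  · have e : Matrix.vecMul (fun j => (G.a j : ℤ)) M = Pi.single 0 1 := funext fun j => by
      refine (hM ℤ (fun j => (G.a j : ℤ)) j).trans ?_
      have h2 : ∑ j, (G.a j : ℤ) = G.n := by exact_mod_cast sum_a G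
      split_ifs with e
      · simpa [e] using hp
      · rw [Pi.single_eq_of_ne e, h2, hwZ, sub_self]
    have := congrArg (fun y => Matrix.vecMul y M⁻¹ l) e
    simp only [Matrix.vecMul_vecMul, M.mul_nonsing_inv hd, Matrix.vecMul_one,
      Matrix.single_one_vecMul] at this
    exact this.symm
  · have e : ∀ j, x j ^ M l j * x j ^ G.w j =
        (if l = j then x j ^ G.u else 1) * if l + 1 = j then x j else 1 := fun j => by
      by_cases c : j = 0
      · simp [c, h0]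
      · have := h j
        simp only [M, Matrix.of_apply, if_neg c, zpow_sub₀ this, zpow_add₀ this, zpow_natCast,
          eq_sub_iff_add_eq]
        rw [div_mul_cancel₀ _ (pow_ne_zero _ this)]
        split_ifs <;> simp
    rw [mon, ← prod_mul_distrib, prod_congr rfl fun j _ => e j, prod_mul_distrib]
    simp

theorem cop_dd : G.m.Coprime (2 * dd + 1) := by
  refine (Nat.Prime.coprime_iff_not_dvd G.pm).2 fun h => G.nd (Dvd.dvd.mul_right ?_ _)
  rw [← ZMod.natCast_eq_zero_iff] at h ⊢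
  have h1 : -(G.u : ZMod G.m) = 1 := by
    have : ((G.u + 1 : ℕ) : ZMod G.m) = 0 := by rw [G.hu]; simp
    push_cast at this
    linear_combination -this
  have h2 := congrArg (Int.cast : ℤ → ZMod G.m) (geom G)
  push_cast at h2
  rw [← h2, h1]
  simpa using h

theorem exists_hd : ∃ H : HD K dd, H.aa none = G.n ∧ H.m = G.m ∧ (∀ l, H.aa (some l) = G.a l) ∧
    H.lam = G.lam := by
  have ea : ∀ l, 2 * (G.a l / 2) + 1 = G.a l := fun l => by
    have := Nat.odd_iff.1 (G.od l); omega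
  have en : 2 * (∑ l, G.a l / 2 + dd) + 1 = G.n := by
    rw [← sum_a, ← sum_congr rfl fun l _ => ea l, sum_add_distrib, ← mul_sum]
    simp only [sum_const, card_univ, Fintype.card_fin, smul_eq_mul]
    omega
  have ch := G.ch
  simp only [Nat.cast_mul, Nat.cast_prod, ne_eq, mul_eq_zero, not_or, prod_eq_zero_iff] at ch
  obtain ⟨M, g, hg⟩ := ex1 (cop_dd G) G.pm.pos (Nat.succ_pos _) 1
  have hf : ∀ l, ∃ f j, G.a l * f = g + G.m * j := fun l =>
    ex1 ((Nat.Prime.coprime_iff_not_dvd G.pm).2 fun h =>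
      G.nd ((h.trans (dvd_prod_of_mem _ (mem_univ l))).mul_left _)).symm (G.od l).pos G.pm.pos g
  choose f j hf using hf
  refine ⟨⟨G.m, g, M, fun l => l.elim (∑ l, G.a l / 2 + dd) fun l => G.a l / 2, f, j, G.lam, rfl,
    by rw [hg, add_comm], fun l => ?_, G.l0, ch.1.1.1, ?_, ?_⟩, en, rfl, ea, rfl⟩
  · simp only [Option.elim, ea]
    exact hf l
  · rintro (_ | l)
    · exact en.symm ▸ ch.1.2
    · exact (ea l).symm ▸ fun e => ch.2 ⟨l, mem_univ _, e⟩
  · simp only [Option.elim, en, ea]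
    exact G.disc

theorem aeval_br (L : Fld K) (x : Vr dd → L) : MvPolynomial.aeval x (brF G.u G.w G.lam) =
    ∑ i, x i ^ G.u * x (i + 1) + algebraMap K L G.lam * ∏ i, x i ^ G.w i := by
  simp [brF]

/-- The factor that normalises the last coordinate. -/
noncomputable def rr (g M : ℕ) {F : Type} [Field F] (x : Vr dd → F) : F :=
  (∏ i, x i) ^ (G.e * g) / (∏ i, x i ^ G.w i) ^ M

theorem pw_ne {F : Type} [Field F] {x : Vr dd → F} (h : ∀ i, x i ≠ 0) : ∏ i, x i ^ G.w i ≠ 0 :=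
  prod_ne_zero_iff.2 fun i _ => pow_ne_zero _ (h i)

theorem rr_ne (g M : ℕ) {F : Type} [Field F] {x : Vr dd → F} (h : ∀ i, x i ≠ 0) :
    rr G g M x ≠ 0 :=
  div_ne_zero (pow_ne_zero _ (prod_ne_zero_iff.2 fun i _ => h i)) (pow_ne_zero _ (pw_ne G h))

theorem rr_rel (g M : ℕ) {L L' : Fld K} (R : Rel L L') {x : Vr dd → L} {x' : Vr dd → L'}
    (e : ∀ i, R.r (x i) (x' i)) (h : ∀ i, x' i ≠ 0) : R.r (rr G g M x) (rr G g M x') :=
  Rel.div (Rel.pow (Rel.prod _ fun i _ => e i) _)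
    (Rel.pow (Rel.prod _ fun i _ => Rel.pow (e i) _) _) (pow_ne_zero _ (pw_ne G h))

theorem rr_pow {g M : ℕ} (hg : (2 * dd + 1) * g + 1 = G.m * M) {F : Type} [Field F]
    {x X : Vr dd → F} (h : ∀ i, x i ≠ 0)
    (e : ∀ l, X l * ∏ i, x i ^ G.w i = x l ^ G.u * x (l + 1)) :
    rr G g M x ^ G.m * ∏ i, x i ^ G.w i = (∏ l, X l) ^ g := by
  have h1 : (∏ l, X l) * (∏ i, x i ^ G.w i) ^ (2 * dd + 1) = (∏ i, x i) ^ (G.m * G.e) := by
    have e1 : ∏ l, x (l + 1) = ∏ l, x l := Equiv.prod_comp (Equiv.addRight (1 : Vr dd)) x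
    have e2 := prod_congr (rfl : (univ : Finset (Vr dd)) = univ) fun l _ => e l
    rw [prod_mul_distrib, prod_mul_distrib, prod_const, card_univ, Fintype.card_fin, prod_pow, e1,
      ← pow_succ, G.hu] at e2
    exact e2
  have h2 := pw_ne G h
  rw [rr, div_pow, ← pow_mul, ← pow_mul, mul_comm M, ← hg, div_mul_eq_mul_div,
    div_eq_iff (pow_ne_zero _ h2), show G.e * g * G.m = G.m * G.e * g by ring, pow_mul, ← h1,
    mul_pow, ← pow_mul, pow_succ, mul_assoc]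

end A1r

open A1r in
theorem A1_thm [FW0 K] : A1 K dd := ⟨fun G => by
  obtain ⟨H, hn, hm, ha, hl⟩ := exists_hd G
  obtain ⟨M, N, e1, e2, e3, e4⟩ := exists_mat G
  refine ⟨H, hn, hm, fun ζ η hζ κ _ _ => ?_⟩
  have hg := H.hg
  rw [hm] at hg
  have e5 : ∀ (L : Fld K) (x : Vr dd → L), ∏ i, x i ^ H.aa (some i) = mon N x 0 := fun L x =>
    prod_congr rfl fun i _ => by rw [e3, ha, zpow_natCast]
  refine transfer (U := G.UU) (V := H.U3) (τ := mlt ζ) (τ' := mlt ζ)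
    (f := fun _ x => (mon M x.1, x.2 * rr G H.g H.M x.1))
    (g := fun _ x => (mon N x.1, x.2 / rr G H.g H.M (mon N x.1)))
    ⟨⟨fun _ L R _ _ _ m e => ⟨mon_rel R M e.1 m.1.2, R.mul e.2 (rr_rel G _ _ R e.1 m.1.2)⟩,
        fun L x m => ?_⟩,
      ⟨fun _ _ R _ _ _ m e => ⟨mon_rel R N e.1 m.1.1.2, Rel.div e.2
        (rr_rel G _ _ R (mon_rel R N e.1 m.1.1.2) (mon_ne N m.1.1.2))
        (rr_ne G _ _ (mon_ne N m.1.1.2))⟩, fun L x m => ?_⟩,
      fun L x m => ?_, fun L x m => ?_⟩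
    (fun L x => and_congr Iff.rfl (by
      simp only [mlt, mul_pow, ← map_pow, hm, hζ, map_one, one_mul])) (fun L x _ => ?_) η κ
  · refine ⟨⟨⟨trivial, mon_ne M m.1.2⟩, (e5 L _).trans ?_⟩, ?_⟩
    · rw [mon_mon e2 m.1.2]
      exact m.2.1
    · change (x.2 * rr G H.g H.M x.1) ^ H.m =
        (∏ i, mon M x.1 i) ^ H.g * (∑ i, mon M x.1 i + algebraMap K L H.lam)
      rw [hm, mul_pow, m.2.2, aeval_br, ← rr_pow G hg m.1.2 (e4 L x.1 m.1.2 m.2.1), hl]
      simp only [← e4 L x.1 m.1.2 m.2.1, ← sum_mul]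
      ring
  · have h0 : mon N x.1 0 = 1 := (e5 L _).symm.trans m.1.2
    have h1 := mon_ne N m.1.1.2
    refine ⟨⟨trivial, h1⟩, h0, ?_⟩
    change (x.2 / rr G H.g H.M (mon N x.1)) ^ G.m = _
    have h2 : x.2 ^ H.m = (∏ i, x.1 i) ^ H.g * (∑ i, x.1 i + algebraMap K L H.lam) := m.2
    have h3 := rr_pow G hg h1 (e4 L _ h1 h0)
    rw [mon_mon e1 m.1.1.2] at h3
    rw [div_pow, div_eq_iff (pow_ne_zero _ (rr_ne G _ _ h1)), ← hm, h2, hm, ← h3, aeval_br, hl]
    simp only [← e4 L _ h1 h0, mon_mon e1 m.1.1.2, ← sum_mul]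
    ring
  · refine Prod.ext (mon_mon e2 m.1.2) ?_
    simp only [mon_mon e2 m.1.2]
    exact mul_div_cancel_right₀ _ (rr_ne G _ _ m.1.2)
  · refine Prod.ext (mon_mon e1 m.1.1.2) ?_
    exact div_mul_cancel₀ _ (rr_ne G _ _ (mon_ne N m.1.1.2))
  · exact Prod.ext rfl (mul_div_assoc _ _ _)⟩

end Pool.Agent.Lib.MP_557161_ag.HG.HN.HC
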