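import Pool.Agent.Lib.MP_557161_ag.HC.St4
import Pool.Agent.Lib.MP_557161_ag.HG.A2a

/-!
Passage from the cyclic cover of the torus to an Artin-Schreier cover.
-/

namespace Pool.Agent.Lib.MP_557161_ag.HG.HN.HC

open Pool.Agent.Lib.MP_557161_ag.DL

namespace A2c

variable {K : Type} [Field K] {p dd : ℕ}

variable (H : HD K dd) (κ : Type) [Fintype κ]

/-- The base with the zero phase. -/
noncomputable def E0 : Ph K (.pi κ (xz dd)) := ⟨H.V3.pi κ, fun _ _ => 0, fun _ _ R _ _ _ _ _ => R.zero⟩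

variable {κ}

/-- The equations of the cyclic cover. -/
def ff (L : Fld K) (x : (Cd.pi κ (xz dd)).X L) (i : κ) : L :=
  (∏ l, (x i).1 l) ^ H.g * (∑ l, (x i).1 l + algebraMap K L H.lam) - (x i).2 ^ H.m

lemma ff_reg : Reg (E0 H κ).S (.vec κ) (ff H) := fun _ _ R _ _ _ _ e i =>
  Rel.sub (R.mul (Rel.pow (Rel.prod _ fun l _ => (e i).1 l) _)
    (R.add (Rel.sum _ fun l _ => (e i).1 l) (R.const _))) (Rel.pow (e i).2 _)

variable [DecidableEq κ]

/-- The scaling of one coordinate. -/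
def sc (i : κ) {L : Type} [Field L] (t : L) (x : (Cd.pi κ (xz dd)).X L) : (Cd.pi κ (xz dd)).X L :=
  Function.update x i ((x i).1, t * (x i).2)

lemma sc_rel (i : κ) {M L : Fld K} {R : Rel M L} {t : M} {t' : L} {x : (Cd.pi κ (xz dd)).X M}
    {x' : (Cd.pi κ (xz dd)).X L} (h : R.r t t') (e : (Cd.pi κ (xz dd)).lift R.r x x') :
    (Cd.pi κ (xz dd)).lift R.r (sc i t x) (sc i t' x') :=
  Rel.update (q := fun _ => (xz dd).lift R.r) e i ⟨(e i).1, R.mul h (e i).2⟩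

lemma sc_mem (i : κ) {L : Fld K} (t : L) {x : (Cd.pi κ (xz dd)).X L} (h : (E0 H κ).S.mem L x) :
    (E0 H κ).S.mem L (sc i t x) := fun k => by
  by_cases e : k = i
  · subst e
    rw [sc, Function.update_self]
    exact h k
  · rw [sc, Function.update_of_ne e]
    exact h k

lemma sc_sc (i : κ) {L : Type} [Field L] (s t : L) (x : (Cd.pi κ (xz dd)).X L) :
    sc i s (sc i t x) = sc i (s * t) x := by
  simp only [sc, Function.update_self, Function.update_idem, mul_assoc]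

lemma sc_one (i : κ) {L : Type} [Field L] (x : (Cd.pi κ (xz dd)).X L) : sc i 1 x = x := by
  simp only [sc, one_mul, Function.update_eq_self]

lemma sc_mlt (i : κ) (ζ : K) (L : Fld K) (x : (Cd.pi κ (xz dd)).X L) :
    sc i (algebraMap K L ζ) x = Function.update x i (mlt ζ L (x i)) := rfl

lemma ff_sc {i k : κ} (e : k ≠ i) {L : Fld K} (t : L) (x : (Cd.pi κ (xz dd)).X L) :
    ff H L (sc i t x) k = ff H L x k := by
  simp only [ff, sc, Function.update_of_ne e]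

lemma ff_mlt {ζ : K} (hζ : ζ ^ H.m = 1) (i k : κ) {L : Fld K} (x : (Cd.pi κ (xz dd)).X L) :
    ff H L (sc i (algebraMap K L ζ) x) k = ff H L x k := by
  by_cases e : k = i
  · subst e
    simp only [ff, sc, Function.update_self, mul_pow, ← map_pow, hζ, map_one, one_mul]
  · exact ff_sc H e _ x

variable [FC1 K p] [FC2 K p] {d : Cd} {W : ASp K d} {j : ℕ}

/-- Functionals with a nontrivial eigenvalue vanish on the coordinate hyperplanes. -/
lemma van_hyp {ζ : K} {η : ℂ} (hζ : ζ ≠ 0) (hη : η ≠ 1)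
    (Ψ : NF p j ((E0 H κ).lin (ff H) (ff_reg H)) W) (i : κ)
    (hΨ : Ψ.Eqv (fun L x => (sc i (algebraMap K L ζ) x.1, x.2)) η) (L : Fld K)
    (x : (Cd.pi κ (xz dd)).X L)
    (s : κ → L) (y : L) (w : d.X L) (hs : s i = 0) : Ψ.b L (x, s) y w = 0 := by
  by_contra h
  have hx := (FC1.mem Ψ h).2.1
  let E := (E0 H κ).lin (ff H) (ff_reg H)
  let E' := E.res (E.S.cl (fun _ x => x.2 i = 0) fun _ _ _ _ _ _ _ e h => Rel.eq_zero (e.2 i) h)
    fun _ _ h => h.1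
  obtain ⟨Ψ', h1⟩ := FC1.pull (E := E) (E' := E') (f := fun _ x => x)
    ⟨⟨Reg.id _, fun _ _ h => h.1⟩, fun _ _ _ => rfl⟩
    (fun _ _ _ z _ m m' e => ⟨z, ⟨m', Rel.eq_zero (e.2 i) m.2⟩, e⟩) Ψ
  have mm : ∀ (L : Fld K) (t : L) x, E'.S.mem L x → E'.S.mem L (sc i t x.1, x.2) :=
    fun L t x m => ⟨⟨sc_mem H i t m.1.1, trivial⟩, m.2⟩
  have h2 := FC2.conn (E := E') (.gm K) (fun _ z => (sc i z.1 z.2.1, z.2.2))
    (fun _ z => (sc i z.1⁻¹ z.2.1, z.2.2))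
    ⟨fun _ _ _ _ _ _ _ e => ⟨sc_rel i e.1 e.2.1, e.2.2⟩, fun L z m => mm L _ _ m.2⟩
    ⟨fun _ _ R _ _ _ m' e => ⟨sc_rel i (R.inv e.1 m'.1) e.2.1, e.2.2⟩, fun L z m => mm L _ _ m.2⟩
    (fun L t x ht m => ⟨Prod.ext (by
        show sc i t⁻¹ (sc i t x.1) = x.1
        rw [sc_sc, inv_mul_cancel₀ ht, sc_one]) rfl,
      congrArg (0 + ·) (Finset.sum_congr rfl fun k _ => by
        show x.2 k * ff H L (sc i t x.1) k = x.2 k * ff H L x.1 k
        by_cases e : k = i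
        · rw [e, show x.2 i = 0 from m.2, zero_mul, zero_mul]
        · rw [ff_sc H e])⟩)
    (fun L T hT (e : T = 0) => hT (e ▸ isAlgebraic_zero)) ζ 1 hζ
    one_ne_zero Ψ' L (x, s) y w ⟨hx, hs⟩
  rw [h1 _ _ _ _ (mm L _ _ ⟨hx, hs⟩), h1 _ _ _ _ (mm L _ _ ⟨hx, hs⟩), map_one, sc_one,
    hΨ L (x, s) y w hx] at h2
  exact hη (mul_right_cancel₀ h (h2.trans (one_mul _).symm))

end A2c

open A2c in
theorem A2a_thm {K : Type} [Field K] [Base K] {p dd : ℕ} [Fact p.Prime] [CharP K p] [FW0 K]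
    [FWp K p] : A2a K p dd where
  red H κ _ _ ζ η hζ hη hST d W j Φ hk ha hσ L x w := by
    have z0 : ζ ≠ 0 := fun e => by
      rw [e, zero_pow H.m_pos.ne'] at hζ
      exact zero_ne_one hζ
    have hZ : ∀ L x, ((E0 H κ).zer (ff H) (ff_reg H)).S.mem L x ↔ (H.U3.pi κ).mem L x :=
      fun L x => ⟨fun h i => ⟨h.1 i, (sub_eq_zero.1 (h.2 i)).symm⟩,
        fun h => ⟨fun i => (h i).1, fun i => sub_eq_zero.2 (h i).2.symm⟩⟩
    obtain ⟨Φ0, h0⟩ := A2.exists_nf (p := p) hZ (fun _ _ => rfl) Φ hk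
    obtain ⟨Ψ, hv, he⟩ := FC5.s5 (ff H) (ff_reg H) Φ0
    have pm : ∀ σ : Equiv.Perm κ, Mp (E0 H κ).S (E0 H κ).S fun _ x i => x (σ i) :=
      fun σ => ⟨fun _ _ _ _ _ _ _ e i => e _, fun _ _ m i => m _⟩
    have e1 := fun σ : Equiv.Perm κ => he _ _ σ ((Equiv.Perm.sign σ : ℤ) : ℂ)
      ⟨pm σ, pm σ⁻¹, fun _ x _ => funext fun i => congrArg x (σ.apply_symm_apply i),
        fun _ x _ => funext fun i => congrArg x (σ.symm_apply_apply i)⟩
      (fun _ _ _ => ⟨rfl, fun _ => rfl⟩) fun L x y w _ => by rw [h0, h0, hσ, mul_left_comm]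
    have sm : ∀ (i : κ) (ξ : K), Mp (E0 H κ).S (E0 H κ).S fun L x => sc i (algebraMap K L ξ) x :=
      fun i ξ => ⟨fun _ _ R _ _ _ _ e => sc_rel i (R.const ξ) e, fun _ _ m => sc_mem H i _ m⟩
    have e2 : ∀ i, Ψ.Eqv (fun L x => (sc i (algebraMap K L ζ) x.1, x.2)) η := fun i => he _ _ 1 η
      ⟨sm i ζ, sm i ζ⁻¹, fun L x _ => by
        rw [sc_sc, ← map_mul, inv_mul_cancel₀ z0, map_one, sc_one], fun L x _ => by
        rw [sc_sc, ← map_mul, mul_inv_cancel₀ z0, map_one, sc_one]⟩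
      (fun _ x _ => ⟨rfl, fun k => ff_mlt H hζ i k x⟩) fun L x y w _ => by
        rw [h0, h0, sc_mlt, ha, mul_left_comm]
    have hz := fun i => van_hyp H z0 hη Ψ i (e2 i)
    let E := (E0 H κ).lin (ff H) (ff_reg H)
    let E' := E.res (E.S.opn (fun _ x => ∀ i, x.2 i ≠ 0)
      fun _ _ _ _ _ _ _ e h i => Rel.ne_zero (e.2 i) (h i)) fun _ _ h => h.1
    have hs : ∀ L x y w, Ψ.b L x y w ≠ 0 → E'.S.mem L x := fun L x y w h =>
      ⟨(FC1.mem Ψ h).2.1, fun i e => h (hz i L x.1 x.2 y w e)⟩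
    obtain ⟨Ψ', h1⟩ := FC1.res (E := E) (E' := E')
      ⟨⟨Reg.id _, fun _ _ h => h.1⟩, fun _ _ _ => rfl⟩ Ψ hs
    have mg : Mp (H.E3 κ).S E'.S fun _ x => (fun i => (x i).1, fun i => (x i).2) :=
      ⟨fun _ _ _ _ _ _ _ e => ⟨fun i => (e i).1, fun i => (e i).2⟩,
        fun _ _ m => ⟨⟨fun i => (m i).1, trivial⟩, fun i => (m i).2⟩⟩
    obtain ⟨Ψ3, h3⟩ := FC1.pull (E := E') (E' := H.E3 κ) ⟨mg, fun _ _ _ => zero_add _⟩
      (Pro.of_left (g := fun _ x i => (x.1 i, x.2 i))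
        ⟨fun _ _ _ _ _ _ _ e i => ⟨e.1 i, e.2 i⟩, fun _ _ m i => ⟨m.1.1 i, m.2 i⟩⟩ mg
        fun _ _ _ => rfl) Ψ'
    have h4 := hST W _ Ψ3 (fun σ L x y w m => by
      rw [h3 _ _ _ _ fun i => m (σ i), h3 _ _ _ _ m, h1, h1]
      exact e1 σ L (fun i => (x i).1, fun i => (x i).2) y w (mg.mem _ _ m).1) fun i L x y w m => by
      have e : (fun k => (Function.update x i (mlt ζ L (x i).1, (x i).2) k).1,
          fun k => (Function.update x i (mlt ζ L (x i).1, (x i).2) k).2) =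
          (sc i (algebraMap K L ζ) fun k => (x k).1, fun k => (x k).2) := by
        rw [sc_mlt]
        refine Prod.ext (funext fun k => ?_) (funext fun k => ?_) <;> by_cases e : k = i <;>
          simp [e]
      have m' : E'.S.mem L (sc i (algebraMap K L ζ) fun k => (x k).1, fun k => (x k).2) :=
        ⟨⟨sc_mem H i _ fun k => (m k).1, trivial⟩, fun k => (m k).2⟩
      rw [← e] at m'
      rw [h3 _ _ _ _ fun k => ⟨m'.1.1 k, m'.2 k⟩, h3 _ _ _ _ m, h1, h1, e]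
      exact e2 i L (fun i => (x i).1, fun i => (x i).2) y w (mg.mem _ _ m).1
    have h5 : ∀ L x y w, Ψ.b L x y w = 0 := fun L x y w => by_contra fun h => by
      have m := hs L x y w h
      exact h ((h1 L x y w).symm.trans ((h3 L (fun i => (x.1 i, x.2 i)) y w
        fun i => ⟨m.1.1 i, m.2 i⟩).symm.trans (h4 _ _ _ _)))
    by_contra h
    obtain ⟨hL, m⟩ := Φ.supp L _ h
    have := hv L _ _ _ x 0 w (FA1.fr_free κ hL) ((hZ L x).2 ((ASp.sp_some _).1 m).1)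
    rw [h5, h0, A2.eps_zero, one_mul] at this
    exact mul_ne_zero (pow_ne_zero _ (neg_ne_zero.2 one_ne_zero)) h this.symm

end Pool.Agent.Lib.MP_557161_ag.HG.HN.HC
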