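import Pool.Agent.Lib.MP_557161_ag.HC.St4
import Pool.Agent.Lib.MP_557161_ag.HG.A5a

/-!
Separation of the variables of degree `m`.
-/

namespace Pool.Agent.Lib.MP_557161_ag.HG.HN.HC

open Pool.Agent.Lib.MP_557161_ag.DL

open Pool.Agent.Lib.MP_557161_ag.HG.A5aa (s2 s2_r s2_l s2_o s2_ext s2_sum int_root ex_root)

variable {K : Type} [Field K] {dd : ℕ}

namespace A2bc

lemma orb {F α : Type} [Field F] {ξ : F} {m : ℕ} (hm : 0 < m) (hξ : IsPrimitiveRoot ξ m)
    (G : F → F → α) (hG : ∀ u w, G (ξ * u) w = G u (ξ * w)) {u u' v v' : F} (e : u * u' = v * v')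
    (e1 : v ^ m = u ^ m) (e2 : v' ^ m = u' ^ m) : G v v' = G u u' := by
  have : NeZero m := ⟨hm.ne'⟩
  have ex : ∀ a b : F, a ^ m = b ^ m → ∃ c, a = ξ ^ c * b := fun a b h => by
    by_cases b0 : b = 0
    · rw [b0, zero_pow hm.ne'] at h
      exact ⟨0, by rw [b0, pow_eq_zero_iff hm.ne' |>.1 h, mul_zero]⟩
    obtain ⟨c, -, hc⟩ := hξ.eq_pow_of_pow_eq_one
      (show (a / b) ^ m = 1 by rw [div_pow, h, div_self (pow_ne_zero _ b0)])
    exact ⟨c, by rw [hc, div_mul_cancel₀ _ b0]⟩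
  have it : ∀ (c : ℕ) u w, G (ξ ^ c * u) w = G u (ξ ^ c * w) := fun c => by
    induction c with
    | zero => simp
    | succ c ih => intro u w; rw [pow_succ', mul_assoc, hG, ih, ← mul_assoc, ← pow_succ, pow_succ']
  obtain ⟨c, rfl⟩ := ex v u e1
  by_cases u0 : u = 0
  · obtain ⟨c', rfl⟩ := ex v' u' e2
    rw [← it, u0, mul_zero, mul_zero]
  · rw [it, mul_left_cancel₀ u0 (show u * u' = u * (ξ ^ c * v') by rw [e]; ring)]

lemma ex_root0 {F : Type} [Field F] [IsAlgClosed F] (c e : F) {a : ℕ} (ha : 0 < a) :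
    ∃ u u' : F, u * u' = c ∧ u ^ a + u' ^ a = e := by
  by_cases hc : c = 0
  · obtain ⟨u, hu⟩ := IsAlgClosed.exists_pow_nat_eq e ha
    exact ⟨u, 0, by rw [hc, mul_zero], by rw [hu, zero_pow ha.ne', add_zero]⟩
  · exact ex_root hc e ha

lemma s2_s2 {I F : Type} [DecidableEq I] {a b : I} (h : a ≠ b) (y : I → F) (u u' v v' : F) :
    s2 a b (s2 a b y u u') v v' = s2 a b y v v' :=
  s2_ext h (s2_l h) s2_r fun c h1 h2 => by rw [s2_o h1 h2, s2_o h1 h2]

lemma s2_self {I F : Type} [DecidableEq I] (a b : I) (y : I → F) : s2 a b y (y a) (y b) = y := by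
  simp [s2]

variable (H : HD K dd) (γ : K) {L : Fld K}

/-- The constant that normalises the coordinate `π none`. -/
def cc : K := -(H.aa none : K) / H.lam

/-- The map on one copy. -/
def f1 (L : Fld K) (v : L) (y : (HN.HD.ysh dd).X L) : ((xz dd).prod .one).X L :=
  ((fun l => H.aa (some l) * y.1 (some l) / (algebraMap K L (cc H) * y.1 none),
    v * (algebraMap K L γ * y.2) / (algebraMap K L (cc H) * y.1 none) ^ H.M),
    (algebraMap K L (cc H) * y.1 none) ^ (H.m * H.M) / (algebraMap K L γ * y.2) ^ H.m)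

/-- The scale. -/
def sA {L : Fld K} (z : ((xz dd).prod .one).X L) : L := z.2 * (∏ l, z.1.1 l) ^ H.g

/-- The inverse map on one copy. -/
def g1 (L : Fld K) (z : ((xz dd).prod .one).X L) (r : L) : (HN.HD.ysh dd).X L :=
  (fun l => l.elim (sA H z / algebraMap K L (cc H)) fun l => z.1.1 l * sA H z / H.aa (some l), r)

lemma aa_ne (L : Fld K) (l : Option (Vr dd)) : (H.aa l : L) ≠ 0 := by
  rw [← map_natCast (algebraMap K L)]
  exact (map_ne_zero _).2 (H.ch l)

lemma cc_ne (L : Fld K) : algebraMap K L (cc H) ≠ 0 :=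
  (map_ne_zero _).2 (div_ne_zero (neg_ne_zero.2 (H.ch none)) H.l0)

lemma sum_aa : ∑ l, H.aa (some l) = H.aa none := by
  have := H.hb
  simp only [HD.aa, Finset.sum_add_distrib, ← Finset.mul_sum, Finset.sum_const, Finset.card_univ,
    Fintype.card_fin, smul_eq_mul]
  omega

lemma ty_ne {y : (HN.HD.ysh dd).X L} (h : H.TY.mem L y) : y.2 ≠ 0 := fun e =>
  pow_ne_zero _ (Finset.prod_ne_zero_iff.2 fun l _ => h.1.2 (some l))
    (by rw [← h.2.1, e, zero_pow H.m_pos.ne'])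

lemma sA_ne {z : ((xz dd).prod .one).X L} (h : (H.V3.prod (.gm K)).mem L z) : sA H z ≠ 0 :=
  mul_ne_zero h.2 (pow_ne_zero _ (Finset.prod_ne_zero_iff.2 fun l _ => h.1.1.2 l))

lemma t_eq (L : Fld K) : algebraMap K L H.t * ∏ l, (H.aa (some l) : L) ^ H.aa (some l) =
    algebraMap K L (cc H) ^ H.aa none := by
  rw [HD.t, map_div₀, map_prod, map_pow]
  simp only [map_pow, map_natCast]
  exact div_mul_cancel₀ _ (Finset.prod_ne_zero_iff.2 fun l _ => pow_ne_zero _ (aa_ne H L _))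

lemma prod_mul (X : Vr dd → L) (A : L) : ∏ l, X l * A = (∏ l, X l) * A ^ (2 * dd + 1) := by
  rw [Finset.prod_mul_distrib, Finset.prod_const, Finset.card_univ, Fintype.card_fin]

lemma rel_sA {M : Fld K} (R : Rel M L) {z : ((xz dd).prod .one).X M} {z' : ((xz dd).prod .one).X L}
    (e : ((xz dd).prod .one).lift R.r z z') : R.r (sA H z) (sA H z') :=
  R.mul e.2 (Rel.pow (Rel.prod _ fun l _ => e.1.1 l) _)

variable {H γ} (hγ : γ ^ H.m = (∏ l, (H.aa (some l) : K)) ^ H.g)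

include hγ

lemma ga_eq (L : Fld K) : algebraMap K L γ ^ H.m = (∏ l, (H.aa (some l) : L)) ^ H.g := by
  rw [← map_pow, hγ, map_pow, map_prod]
  simp only [map_natCast]

lemma ga_ne (L : Fld K) : algebraMap K L γ ≠ 0 := fun e =>
  pow_ne_zero _ (Finset.prod_ne_zero_iff.2 fun l _ => aa_ne H L (some l))
    (by rw [← ga_eq hγ L, e, zero_pow H.m_pos.ne'])

lemma f1_rho (v : L) {y : (HN.HD.ysh dd).X L} (h : H.TY.mem L y) :
    (algebraMap K L γ * y.2) ^ H.m =
      (∏ l, (f1 H γ L v y).1.1 l * (algebraMap K L (cc H) * y.1 none)) ^ H.g := by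
  have h1 := mul_ne_zero (cc_ne H L) (h.1.2 none)
  simp only [f1, div_mul_cancel₀ _ h1]
  rw [mul_pow, ga_eq hγ, h.2.1, Finset.prod_mul_distrib, mul_pow]

lemma f1_sA (v : L) {y : (HN.HD.ysh dd).X L} (h : H.TY.mem L y) :
    sA H (f1 H γ L v y) = algebraMap K L (cc H) * y.1 none := by
  have h1 := pow_ne_zero H.m (mul_ne_zero (ga_ne hγ L) (ty_ne H h))
  have h2 := f1_rho hγ v h
  rw [prod_mul, mul_pow _ _ H.g, ← pow_mul] at h2
  rw [sA]
  change _ / _ * _ = _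
  rw [div_mul_eq_mul_div, div_eq_iff h1, h2, ← H.hg, pow_succ]
  ring

lemma f1_mem (v : L) {y : (HN.HD.ysh dd).X L} (h : H.TY.mem L y) :
    (H.V3.prod (.gm K)).mem L (f1 H γ L v y) := by
  have h1 := mul_ne_zero (cc_ne H L) (h.1.2 none)
  refine ⟨⟨⟨trivial, fun l => div_ne_zero (mul_ne_zero (aa_ne H L _) (h.1.2 _)) h1⟩, ?_⟩,
    div_ne_zero (pow_ne_zero _ h1) (pow_ne_zero _ (mul_ne_zero (ga_ne hγ L) (ty_ne H h)))⟩
  show ∏ l, (H.aa (some l) * y.1 (some l) / (algebraMap K L (cc H) * y.1 none)) ^ H.aa (some l) = 1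
  simp only [div_pow, mul_pow _ (y.1 (some _))]
  rw [Finset.prod_div_distrib, Finset.prod_mul_distrib, Finset.prod_pow_eq_pow_sum, sum_aa, h.2.2,
    div_eq_one_iff_eq (pow_ne_zero _ h1), mul_pow, ← t_eq H L]
  ring

lemma f1_ph (v : L) {y : (HN.HD.ysh dd).X L} (h : H.TY.mem L y) :
    (f1 H γ L v y).2 * ((∏ l, (f1 H γ L v y).1.1 l) ^ H.g *
      (∑ l, (f1 H γ L v y).1.1 l + algebraMap K L H.lam) - (f1 H γ L v y).1.2 ^ H.m) =
      -v ^ H.m + ∑ l, sgO l * (H.aa l * y.1 l) := by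
  have h1 := mul_ne_zero (cc_ne H L) (h.1.2 none)
  have h2 := pow_ne_zero H.m (mul_ne_zero (ga_ne hγ L) (ty_ne H h))
  have h3 : algebraMap K L (cc H) * algebraMap K L H.lam = -(H.aa none : L) := by
    rw [← map_mul, cc, div_mul_cancel₀ _ H.l0, map_neg, map_natCast]
  have h4 : (f1 H γ L v y).2 * (f1 H γ L v y).1.2 ^ H.m = v ^ H.m := by
    have := pow_ne_zero (H.m * H.M) h1
    simp only [f1]
    rw [div_pow, ← pow_mul, mul_comm H.M, mul_pow v]
    field_simp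
  rw [mul_sub, ← mul_assoc, h4, show (f1 H γ L v y).2 * _ = _ from f1_sA hγ v h,
    Fintype.sum_option]
  simp only [f1, sgO, Option.elim, one_mul, ← Finset.sum_div]
  rw [mul_add, mul_div_cancel₀ _ h1]
  linear_combination y.1 none * h3

lemma g1_mem {z : ((xz dd).prod .one).X L} (h : (H.V3.prod (.gm K)).mem L z) {r : L}
    (e : (algebraMap K L γ * r) ^ H.m = (∏ l, z.1.1 l * sA H z) ^ H.g) : H.TY.mem L (g1 H L z r) := by
  have h1 := sA_ne H h
  have h2 : ∏ l, (H.aa (some l) : L) ≠ 0 := Finset.prod_ne_zero_iff.2 fun l _ => aa_ne H L _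
  refine ⟨⟨trivial, ?_⟩, ?_, ?_⟩
  · rintro (_ | l)
    exacts [div_ne_zero h1 (cc_ne H L), div_ne_zero (mul_ne_zero (h.1.1.2 l) h1) (aa_ne H L _)]
  · show r ^ H.m = (∏ l, z.1.1 l * sA H z / H.aa (some l)) ^ H.g
    rw [Finset.prod_div_distrib, div_pow, ← e, mul_pow, ga_eq hγ,
      mul_div_cancel_left₀ _ (pow_ne_zero _ h2)]
  show ∏ l, (z.1.1 l * sA H z / H.aa (some l)) ^ H.aa (some l) =
    _ * (sA H z / algebraMap K L (cc H)) ^ H.aa none
  simp only [div_pow, mul_pow (z.1.1 _)]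
  rw [Finset.prod_div_distrib, Finset.prod_mul_distrib, Finset.prod_pow_eq_pow_sum, sum_aa, h.1.2,
    div_eq_iff (Finset.prod_ne_zero_iff.2 fun l _ => pow_ne_zero _ (aa_ne H L _)), mul_right_comm,
    t_eq H L, mul_div_cancel₀ _ (pow_ne_zero _ (cc_ne H L)), one_mul]

omit hγ in
lemma rho_ne {z : ((xz dd).prod .one).X L} (h : (H.V3.prod (.gm K)).mem L z) {r : L}
    (e : r ^ H.m = (∏ l, z.1.1 l * sA H z) ^ H.g) : r ≠ 0 := fun e' =>
  pow_ne_zero _ (Finset.prod_ne_zero_iff.2 fun l _ => mul_ne_zero (h.1.1.2 l) (sA_ne H h))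
    (by rw [← e, e', zero_pow H.m_pos.ne'])

omit hγ in
lemma fg {z : ((xz dd).prod .one).X L} (h : (H.V3.prod (.gm K)).mem L z) {r : L}
    (e : (algebraMap K L γ * r) ^ H.m = (∏ l, z.1.1 l * sA H z) ^ H.g) :
    f1 H γ L (z.1.2 * sA H z ^ H.M / (algebraMap K L γ * r)) (g1 H L z r) = z := by
  have h1 := rho_ne h e
  have h2 := sA_ne H h
  have h4 : algebraMap K L (cc H) * (sA H z / algebraMap K L (cc H)) = sA H z :=
    mul_div_cancel₀ _ (cc_ne H L)
  have h5 : ∏ l, z.1.1 l ≠ 0 := Finset.prod_ne_zero_iff.2 fun l _ => h.1.1.2 l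
  simp only [f1, g1, Option.elim, h4]
  refine Prod.ext (Prod.ext (funext fun l => ?_) ?_) ?_
  · have h3 := aa_ne H L (some l)
    field_simp
  · rw [div_mul_cancel₀ _ h1, mul_div_cancel_right₀ _ (pow_ne_zero _ h2)]
  · rw [e, prod_mul, mul_pow, ← pow_mul, ← H.hg, pow_succ,
      div_eq_iff (mul_ne_zero (pow_ne_zero _ h5) (pow_ne_zero _ h2))]
    nth_rewrite 2 [sA]
    ring

lemma gf (v : L) {y : (HN.HD.ysh dd).X L} (h : H.TY.mem L y) :
    (f1 H γ L v y).1.2 * sA H (f1 H γ L v y) ^ H.M / (algebraMap K L γ * y.2) = v ∧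
      g1 H L (f1 H γ L v y) y.2 = y := by
  have h1 := mul_ne_zero (ga_ne hγ L) (ty_ne H h)
  have h2 := mul_ne_zero (cc_ne H L) (h.1.2 none)
  rw [g1, f1_sA hγ v h]
  refine ⟨?_, Prod.ext (funext ?_) rfl⟩
  · simp only [f1]
    rw [div_mul_cancel₀ _ (pow_ne_zero _ h2), mul_div_cancel_right₀ _ h1]
  rintro (_ | l)
  · exact mul_div_cancel_left₀ _ (cc_ne H L)
  simp only [f1, Option.elim]
  rw [div_mul_cancel₀ _ h2, mul_div_cancel_left₀ _ (aa_ne H L (some l))]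

variable (H γ) (κ : Type) [Fintype κ]

/-- The map from `EY` to `E3`. -/
def ff (L : Fld K) (x : ((Cd.vec κ).prod (.pi κ (HN.HD.ysh dd))).X L) :
    (Cd.pi κ ((xz dd).prod .one)).X L :=
  fun i => f1 H γ L (x.1 i) (x.2 i)

variable {H γ}

lemma pmp : PMp (H.EY κ) (H.E3 κ) (ff H γ κ) where
  reg _ L R _ _ _ m' e i := by
    have h1 := mul_ne_zero (ga_ne hγ L) (ty_ne H (m'.2 i))
    have h2 := R.mul (R.const γ) (e.2 i).2
    have h3 := mul_ne_zero (cc_ne H L) ((m'.2 i).1.2 none)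
    have h4 := R.mul (R.const (cc H)) ((e.2 i).1 none)
    exact ⟨⟨fun l => Rel.div (R.mul (R.natCast _) ((e.2 i).1 _)) h4 h3,
      Rel.div (R.mul (e.1 i) h2) (Rel.pow h4 _) (pow_ne_zero _ h3)⟩,
      Rel.div (Rel.pow h4 _) (Rel.pow h2 _) (pow_ne_zero _ h1)⟩
  mem _ _ m i := f1_mem hγ _ (m.2 i)
  ph L x m := by
    refine (Finset.sum_congr rfl fun i _ => f1_ph hγ (x.1 i) (m.2 i)).trans ?_
    rw [Finset.sum_add_distrib, Finset.sum_neg_distrib]
    rfl

lemma pro : Pro (H.EY κ).S (H.E3 κ).S (ff H γ κ) := by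
  intro M O x z _ hx hz e
  have h0 := fun i => rel_sA H (Rel.ofPl O) (e i)
  have h5 : ∀ i, (Rel.ofPl O).r ((algebraMap K M γ * (x.2 i).2) ^ H.m)
      ((∏ l, (z i).1.1 l * sA H (z i)) ^ H.g) := fun i => by
    rw [f1_rho hγ (x.1 i) (hx.2 i), ← f1_sA hγ (x.1 i) (hx.2 i)]
    exact Rel.pow (Rel.prod _ fun l _ => (Rel.ofPl O).mul ((e i).1.1 l) (h0 i)) _
  have h1 : ∀ i, (Rel.ofPl O).r (x.2 i).2 (O.rd (x.2 i).2) := fun i => by
    have h : (algebraMap K M γ * (x.2 i).2) ^ H.m ∈ O.O := (h5 i).1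
    rw [← O.O.valuation_le_one_iff, map_pow, pow_le_one_iff H.m_pos.ne',
      O.O.valuation_le_one_iff] at h
    have := mul_mem (O.const γ⁻¹) h
    rw [map_inv₀, inv_mul_cancel_left₀ (ga_ne hγ M)] at this
    exact ⟨this, rfl⟩
  have h2 := fun i => (Rel.ofPl O).mul ((Rel.ofPl O).const γ) (h1 i)
  have h3 := fun i => Rel.eq (Rel.pow (h2 i) H.m) (h5 i) rfl
  refine ⟨(fun i => (z i).1.2 * sA H (z i) ^ H.M / (algebraMap K O.res γ * O.rd (x.2 i).2),
    fun i => g1 H _ (z i) (O.rd (x.2 i).2)), ⟨trivial, fun i => g1_mem hγ (hz i) (h3 i)⟩,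
    fun i => ?_, fun i => ?_⟩
  · rw [← (gf hγ (x.1 i) (hx.2 i)).1]
    exact Rel.div ((Rel.ofPl O).mul (e i).1.2 (Rel.pow (h0 i) _)) (h2 i) (rho_ne (hz i) (h3 i))
  · rw [← (gf hγ (x.1 i) (hx.2 i)).2]
    refine ⟨?_, h1 i⟩
    rintro (_ | l)
    exacts [Rel.div (h0 i) ((Rel.ofPl O).const _) (cc_ne H _),
      Rel.div ((Rel.ofPl O).mul ((e i).1.1 l) (h0 i)) ((Rel.ofPl O).natCast _) (aa_ne H _ _)]

lemma srj : Srj (H.EY κ).S (H.E3 κ).S (ff H γ κ) := by
  intro L _ z hz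
  choose r hr using fun i =>
    IsAlgClosed.exists_pow_nat_eq ((∏ l, (z i).1.1 l * sA H (z i)) ^ H.g) H.m_pos
  have h1 : ∀ i, (algebraMap K L γ * (r i / algebraMap K L γ)) ^ H.m = _ := fun i => by
    rw [mul_div_cancel₀ _ (ga_ne hγ L), hr]
  exact ⟨(fun i => (z i).1.2 * sA H (z i) ^ H.M / (algebraMap K L γ * (r i / algebraMap K L γ)),
    fun i => g1 H _ (z i) (r i / algebraMap K L γ)), ⟨trivial, fun i => g1_mem hγ (hz i) (h1 i)⟩,
    funext fun i => fg (hz i) (h1 i)⟩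

omit hγ

variable {κ} [DecidableEq κ] {p j : ℕ} {d : Cd} {W : ASp K d} (H) (a b : κ)

/-- The quotient. -/
noncomputable def E2 : Ph K ((Cd.vec κ).prod (.pi κ (HN.HD.ysh dd))) where
  S := (H.EY κ).S
  φ _ x := -(x.1 b + ∑ i ∈ (Finset.univ.erase a).erase b, x.1 i ^ H.m) +
    ∑ i, ∑ l, sgO l * (H.aa l * (x.2 i).1 l)
  reg _ _ R _ _ _ _ e := R.add (Rel.neg (R.add (e.1 b) (Rel.sum _ fun i _ => Rel.pow (e.1 i) _)))
    (Rel.sum _ fun i _ => Rel.sum _ fun l _ => R.mul (rel_sgO R l) (R.mul (R.natCast _) ((e.2 i).1 l)))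

/-- The quotient map. -/
def qm (L : Fld K) (x : ((Cd.vec κ).prod (.pi κ (HN.HD.ysh dd))).X L) :
    ((Cd.vec κ).prod (.pi κ (HN.HD.ysh dd))).X L :=
  (s2 a b x.1 (x.1 a * x.1 b) (x.1 a ^ H.m + x.1 b ^ H.m), x.2)

variable {H a b}

lemma rel_s2 {M : Fld K} {R : Rel M L} {v : κ → M} {v' : κ → L} {u w : M} {u' w' : L}
    (e : ∀ i, R.r (v i) (v' i)) (h1 : R.r u u') (h2 : R.r w w') (i : κ) :
    R.r (s2 a b v u w i) (s2 a b v' u' w' i) :=
  Rel.update (q := fun _ => R.r) (Rel.update (q := fun _ => R.r) e a h1) b h2 i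

lemma van_E2 [h2 : FC2 K p] (W : ASp K d) : Van p (E2 H a b) W :=
  h2.kill (fun _ x => (Function.update x.2.1 b (x.2.1 b - x.1), x.2.2))
    ⟨fun _ _ R _ _ _ _ e => ⟨Rel.update (q := fun _ => R.r) e.2.1 b (Rel.sub (e.2.1 b) e.1), e.2.2⟩,
      fun _ _ m => ⟨trivial, m.2.2⟩⟩
    fun L t x _ => ⟨by simp, by simp, by
      simp only [E2, Function.update_self]
      rw [Finset.sum_congr rfl fun i k => by
        rw [Function.update_of_ne (Finset.ne_of_mem_erase k)]]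
      ring⟩

lemma pmp_qm (h : a ≠ b) : PMp (H.EY κ) (E2 H a b) (qm H a b) where
  reg _ _ R _ _ _ _ e := ⟨rel_s2 e.1 (R.mul (e.1 a) (e.1 b))
    (R.add (Rel.pow (e.1 a) _) (Rel.pow (e.1 b) _)), e.2⟩
  mem _ _ m := ⟨trivial, m.2⟩
  ph L x _ := by
    have := s2_sum (y := x.1) (u := x.1 a) (u' := x.1 b) h fun _ (z : L) => z ^ H.m
    rw [s2_self] at this
    simp only [E2, qm, HD.EY, s2_r]
    rw [this, Finset.sum_congr rfl fun i k => by
      rw [s2_o (Finset.ne_of_mem_erase (Finset.mem_of_mem_erase k)) (Finset.ne_of_mem_erase k)]]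

lemma pro_qm (h : a ≠ b) : Pro (H.EY κ).S (E2 H a b).S (qm H a b) := by
  intro M O x z _ _ mz e
  have e1 := e.1 a
  have e2 := e.1 b
  rw [qm] at e1 e2
  dsimp only at e1 e2
  rw [s2_l h] at e1
  rw [s2_r] at e2
  have r1 : (Rel.ofPl O).r _ _ := ⟨int_root O H.m_pos e1 e2, rfl⟩
  have r2 : (Rel.ofPl O).r _ _ :=
    ⟨int_root O H.m_pos (mul_comm (x.1 a) _ ▸ e1) (add_comm (x.1 a ^ H.m) _ ▸ e2), rfl⟩
  have r3 := rel_s2 (a := a) (b := b) e.1 r1 r2
  rw [qm] at r3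
  dsimp only at r3
  rw [s2_s2 h, s2_self] at r3
  exact ⟨(s2 a b z.1 _ _, z.2), ⟨trivial, mz.2⟩, r3, e.2⟩

lemma srj_qm (h : a ≠ b) : Srj (H.EY κ).S (E2 H a b).S (qm H a b) := by
  intro L _ z mz
  obtain ⟨u, u', e1, e2⟩ := ex_root0 (z.1 a) (z.1 b) H.m_pos
  refine ⟨(s2 a b z.1 u u', z.2), ⟨trivial, mz.2⟩, ?_⟩
  rw [qm]
  dsimp only
  rw [s2_l h, s2_r, s2_s2 h, e1, e2, s2_self]

lemma swap_neg [FC1 K p] [FC2 K p] {ζ : K} {η : ℂ} (hζ : IsPrimitiveRoot ζ H.m)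
    (Ψ : NF p j (H.EY κ) W) (hv : ∀ i, Ψ.Eqv
      (fun L x => (Function.update x.1 i (algebraMap K L ζ * x.1 i), x.2)) η) (h : a ≠ b)
    (L : Fld K) (x y w) (m : (H.EY κ).S.mem L x) :
    Ψ.b L (fun k => x.1 (Equiv.swap a b k), x.2) y w = -Ψ.b L x y w := by
  have ms : Mp (H.EY κ).S (H.EY κ).S fun _ x => (fun k => x.1 (Equiv.swap a b k), x.2) :=
    ⟨fun _ _ _ _ _ _ _ e => ⟨fun k => e.1 _, e.2⟩, fun _ _ m => ⟨trivial, m.2⟩⟩
  obtain ⟨Ψ', h1⟩ := FC1.pull (E := H.EY κ) (E' := H.EY κ) ⟨ms, fun L x _ =>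
    congrArg (fun s => -s + _) (Equiv.sum_comp (Equiv.swap a b) fun k => x.1 k ^ H.m)⟩
    (Pro.of_left ms ms fun _ x _ => by simp) Ψ
  obtain ⟨Θ, h2⟩ := FC1.sum Finset.univ (fun _ : Bool => 1) fun t => if t then Ψ' else Ψ
  have h3 : ∀ L x y w, (H.EY κ).S.mem L x → Θ.b L x y w =
      Ψ.b L (s2 a b x.1 (x.1 b) (x.1 a), x.2) y w + Ψ.b L (s2 a b x.1 (x.1 a) (x.1 b), x.2) y w :=
    fun L x y w m => by
      rw [h2, Fintype.sum_bool, if_pos rfl, if_neg (by simp), one_mul, one_mul, h1 L x y w m,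
        s2_self, s2_ext (z := fun k => x.1 (Equiv.swap a b k)) (y := x.1) (u := x.1 b)
          (u' := x.1 a) h (by simp) (by simp) fun c h1 h2 => by
            rw [Equiv.swap_apply_of_ne_of_ne h1 h2]]
  obtain ⟨Ξ, h4⟩ := FC1.desc (pmp_qm h) (pro_qm h) (srj_qm h) Θ fun L x x' y w m m' e => by
    have e0 : x.2 = x'.2 := (Prod.ext_iff.1 e).2
    have e3 : ∀ u u', s2 a b x.1 u u' = s2 a b x'.1 u u' := fun u u' => by
      simpa only [qm, s2_s2 h] using congrArg (fun z => s2 a b z.1 u u') e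
    have e1 := congrArg (fun z => z.1 a) e
    have e2 := congrArg (fun z => z.1 b) e
    simp only [qm, s2_l h, s2_r] at e1 e2
    have key := @orb L ℂ _ _ _ H.m_pos (hζ.map_of_injective (algebraMap K L).injective)
      (fun u u' => Ψ.b L (s2 a b x.1 u u', x.2) y w) fun u u' => by
        have a1 := hv a L (s2 a b x.1 u u', x.2) y w ⟨trivial, m.2⟩
        have a2 := hv b L (s2 a b x.1 u u', x.2) y w ⟨trivial, m.2⟩
        dsimp only at a1 a2 ⊢
        rw [s2_l h, s2_ext (z := Function.update _ a _) (y := x.1) (u' := u') h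
          (Function.update_self ..) (by rw [Function.update_of_ne h.symm, s2_r]) fun c h1 h2 => by
            rw [Function.update_of_ne h1, s2_o h1 h2]] at a1
        rw [s2_r, s2_ext (z := Function.update _ b _) (y := x.1) (u := u) h
          (by rw [Function.update_of_ne h, s2_l h]) (Function.update_self ..) fun c h1 h2 => by
            rw [Function.update_of_ne h2, s2_o h1 h2]] at a2
        rw [a1, a2]
    rw [h3 L x y w m, h3 L x' y w m', ← e3, ← e3, ← e0]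
    generalize x.1 a = u, x.1 b = u', x'.1 a = v, x'.1 b = v' at e1 e2 ⊢
    have e4 : (v ^ H.m - u ^ H.m) * (v ^ H.m - u' ^ H.m) = 0 := by
      have := congrArg (· ^ H.m) e1
      simp only [mul_pow] at this
      linear_combination this - v ^ H.m * e2
    rcases mul_eq_zero.1 e4 with e5 | e5
    · have e6 : v' ^ H.m = u' ^ H.m := by linear_combination -e2 - e5
      rw [key e1 (sub_eq_zero.1 e5) e6, key (u := u') (u' := u) (v := v') (v' := v)
        (by linear_combination e1) e6 (sub_eq_zero.1 e5)]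
    · have e6 : v' ^ H.m = u ^ H.m := by linear_combination -e2 - e5
      rw [key (u := u') (u' := u) (v := v) (v' := v') (by linear_combination e1)
        (sub_eq_zero.1 e5) e6, key (u := u) (u' := u') (v := v') (v' := v)
        (by linear_combination e1) e6 (sub_eq_zero.1 e5), add_comm]
  have h5 := (h4 L x y w m).symm.trans (van_E2 W j Ξ L _ y w)
  rw [h2, Fintype.sum_bool, if_pos rfl, if_neg (by simp), one_mul, one_mul, h1 L x y w m] at h5
  exact eq_neg_of_add_eq_zero_left h5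

end A2bc

open A2bc in
theorem A2b_thm [Base K] {p : ℕ} [FC1 K p] [FC2 K p] : A2b K p dd where
  red H κ _ _ ζ η hζ _ h5 d W j Φ hσ hz := by
    obtain ⟨γ, hγ⟩ := IsAlgClosed.exists_pow_nat_eq ((∏ l, (H.aa (some l) : K)) ^ H.g) H.m_pos
    have pm := pmp hγ κ
    obtain ⟨Ψ, hΨ⟩ := FC1.pull pm (pro hγ κ) Φ
    have z1 : ∀ L : Fld K, algebraMap K L ζ ^ H.m = 1 := fun L => by
      rw [← map_pow, hζ.pow_eq_one, map_one]
    have hv : ∀ i, Ψ.Eqv (fun L x => (Function.update x.1 i (algebraMap K L ζ * x.1 i), x.2)) η :=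
      fun i L x y w m => by
        rw [hΨ L _ y w m, hΨ L (Function.update x.1 i (algebraMap K L ζ * x.1 i), x.2) y w
          ⟨trivial, m.2⟩, ← hz i L _ y w (pm.mem L x m)]
        congr 1
        funext k
        by_cases e : k = i
        · subst e
          simp [ff, f1, mlt, mul_assoc, mul_div_assoc]
        · simp [ff, Function.update_of_ne e]
    have hp : ∀ (σ : Equiv.Perm κ) L x y w, (H.EY κ).S.mem L x →
        Ψ.b L (fun k => x.1 (σ k), x.2) y w = ((Equiv.Perm.sign σ : ℤ) : ℂ) * Ψ.b L x y w := by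
      intro σ
      induction σ using Equiv.Perm.swap_induction_on with
      | one => intro L x y w _; simp
      | swap_mul σ a b hab ih =>
        intro L x y w m
        refine (ih L (fun k => x.1 (Equiv.swap a b k), x.2) y w ⟨trivial, m.2⟩).trans ?_
        rw [swap_neg hζ Ψ hv hab L x y w m, Equiv.Perm.sign_mul, Equiv.Perm.sign_swap hab]
        simp
    have h0 := h5 W j Ψ (fun σ L x y w m => ?_) (fun i L x y w m => ?_)
    · intro L x y w
      by_contra e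
      exact e ((FC1.srj pm.toMp (srj hγ κ) (Reg.id _) (Reg.id _) Φ Φ 0 (fun L x y w m => by
        rw [← hΨ L x y w m, h0, zero_mul]) L x y w (FC1.mem Φ e).2.1).trans (zero_mul _))
    · have h1 := hp σ⁻¹ L x y w m
      have h2 := hσ σ L _ y w (pm.mem L (fun k => x.1 (σ⁻¹ k), x.2) ⟨trivial, m.2⟩)
      rw [← hΨ L (fun k => x.1 (σ⁻¹ k), x.2) y w ⟨trivial, m.2⟩, h1, ← mul_assoc,
        Equiv.Perm.sign_inv, ← Int.cast_mul, ← Units.val_mul, Int.units_mul_self] at h2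
      rw [hΨ L (cperm σ L x) y w ⟨trivial, fun i => m.2 (σ i)⟩]
      simp only [ff, Equiv.Perm.inv_def, Equiv.symm_apply_apply, Units.val_one, Int.cast_one,
        one_mul] at h2 ⊢
      exact h2
    · have m' : (H.EY κ).S.mem L (cact i (mlt ζ) L x) := ⟨trivial, fun k => by
        by_cases e : k = i
        · subst e
          simp only [cact, Function.update_self]
          exact ⟨(m.2 k).1, ((mul_pow _ _ _).trans (by rw [z1, one_mul])).trans (m.2 k).2.1,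
            (m.2 k).2.2⟩
        · simp only [cact, Function.update_of_ne e]
          exact m.2 k⟩
      rw [hΨ L _ y w m, hΨ L _ y w m', ← hz i L _ y w (pm.mem L x m)]
      congr 1
      funext k
      by_cases e : k = i
      · subst e
        simp only [ff, f1, mlt, cact, Function.update_self, mul_pow, z1, one_mul]
        refine Prod.ext (Prod.ext rfl ?_) rfl
        dsimp only
        ring
      · simp [ff, cact, Function.update_of_ne e]

end Pool.Agent.Lib.MP_557161_ag.HG.HN.HC
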