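import Pool.Agent.Lib.MP_557161_ag.HC.St4
import Pool.Agent.Lib.MP_557161_ag.HG.A5a

/-!
Repeated characters do not contribute.
-/

namespace Pool.Agent.Lib.MP_557161_ag.HG.HN.HC

open Pool.Agent.Lib.MP_557161_ag.DL

open Pool.Agent.Lib.MP_557161_ag.HG.A5aa (s2 s2_r s2_l s2_o s2_prod s2_sum sh st st_i st_l st_r st_st
  st_self st_swap st_mul rel_st int_root ex_root)

namespace A5ac

variable {K : Type} [Field K] {dd : ℕ} {κ : Type} [DecidableEq κ]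

variable (H : HD K dd) [Fintype κ] (i : κ) {l : Option (Vr dd)} {k k' : Fin (H.aa l)} {L : Fld K}

lemma blk (h : k ≠ k') (y : H.Ix → L) {u u' v v' : L} (e : u * u' = v * v') (l' : Option (Vr dd))
    (n : ℕ) : ∏ c, s2 ⟨l, k⟩ ⟨l, k'⟩ y u u' ⟨l', c⟩ ^ n = ∏ c, s2 ⟨l, k⟩ ⟨l, k'⟩ y v v' ⟨l', c⟩ ^ n := by
  have h1 : ∀ g : H.Ix → L, ∏ c, g ⟨l', c⟩ = ∏ a : H.Ix, if a.1 = l' then g a else 1 := fun g => by
    rw [Fintype.prod_sigma, Finset.prod_eq_single l' (fun b _ hb => by simp [hb]) (by simp)]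
    simp
  have h2 : (⟨l, k⟩ : H.Ix) ≠ ⟨l, k'⟩ := by simpa using h
  rw [Finset.prod_pow, Finset.prod_pow, h1, h1,
    s2_prod h2 fun (a : H.Ix) (z : L) => if a.1 = l' then z else 1,
    s2_prod h2 fun (a : H.Ix) (z : L) => if a.1 = l' then z else 1]
  split_ifs
  · rw [e]
  · rfl

variable {H i} {x : (sh κ H.Ix).X L} {u u' v v' : L}

lemma st_mem (h : k ≠ k') (e : u * u' = v * v')
    (m : (H.EU κ).S.mem L (st i ⟨l, k⟩ ⟨l, k'⟩ x u u')) :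
    (H.EU κ).S.mem L (st i ⟨l, k⟩ ⟨l, k'⟩ x v v') := by
  have h2 : (⟨l, k⟩ : H.Ix) ≠ ⟨l, k'⟩ := by simpa using h
  refine ⟨trivial, fun i' => ?_⟩
  have := m.2 i'
  by_cases hi : i' = i
  · subst hi
    rw [st_i] at this ⊢
    have h0 : v * v' ≠ 0 := e ▸ mul_ne_zero ((s2_l h2).symm.trans_ne (this.1.2 ⟨l, k⟩))
      (s2_r.symm.trans_ne (this.1.2 ⟨l, k'⟩))
    refine ⟨⟨trivial, fun a => ?_⟩, ?_⟩
    · change s2 _ _ _ _ _ a ≠ 0
      by_cases e1 : a = ⟨l, k⟩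
      · rw [e1, s2_l h2]
        exact left_ne_zero_of_mul h0
      by_cases e2 : a = ⟨l, k'⟩
      · rw [e2, s2_r]
        exact right_ne_zero_of_mul h0
      exact ((s2_o e1 e2).trans (s2_o e1 e2).symm).trans_ne (this.1.2 a)
    · simpa only [← blk H h _ e] using this.2
  · simpa only [st, Function.update_of_ne hi] using this

lemma st_mem' (h : k ≠ k') (e : (x.2 i).1 ⟨l, k⟩ * (x.2 i).1 ⟨l, k'⟩ = v * v')
    (m : (H.EU κ).S.mem L x) : (H.EU κ).S.mem L (st i ⟨l, k⟩ ⟨l, k'⟩ x v v') :=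
  st_mem h e (by rwa [st_self])

lemma st_ph (h : k ≠ k') : ∃ c : L, ∀ u u' : L, (H.EU κ).φ L (st i ⟨l, k⟩ ⟨l, k'⟩ x u u') =
    c + sgO l * (u ^ H.aa l + u' ^ H.aa l) := by
  have h2 : (⟨l, k⟩ : H.Ix) ≠ ⟨l, k'⟩ := by simpa using h
  refine ⟨(H.EU κ).φ L (st i ⟨l, k⟩ ⟨l, k'⟩ x 0 0), fun u u' => ?_⟩
  simp only [HD.EU, st, Function.apply_update fun _ (y : H.ush.X L) =>
    ∑ a : H.Ix, sgO a.1 * y.1 a ^ H.aa a.1, Finset.sum_update_of_mem (Finset.mem_univ i),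
    s2_sum h2 fun (a : H.Ix) (z : L) => sgO a.1 * z ^ H.aa a.1, zero_pow (Nat.succ_ne_zero _)]
  ring

variable (H i k k')

/-- The quotient. -/
noncomputable def E2 : Ph K ((sh κ H.Ix).prod .one) where
  S := ((H.EU κ).S.prod (.univ K .one)).cl (fun _ x => (x.1.2 i).1 ⟨l, k'⟩ = 1)
    fun _ _ R _ _ _ _ e h => Rel.eq ((e.1.2 i).1 _) R.one h
  φ L x := (H.EU κ).φ L x.1 + sgO l * (x.2 - ((x.1.2 i).1 ⟨l, k⟩ ^ H.aa l + 1))
  reg _ _ R _ _ m m' e := R.add ((H.EU κ).reg R m.1.1 m'.1.1 e.1) (R.mul (rel_sgO R l)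
    (Rel.sub e.2 (R.add (Rel.pow ((e.1.2 i).1 _) _) R.one)))

/-- The quotient map. -/
noncomputable def qm (L : Fld K) (x : (sh κ H.Ix).X L) : ((sh κ H.Ix).prod .one).X L :=
  (st i ⟨l, k⟩ ⟨l, k'⟩ x ((x.2 i).1 ⟨l, k⟩ * (x.2 i).1 ⟨l, k'⟩) 1,
    (x.2 i).1 ⟨l, k⟩ ^ H.aa l + (x.2 i).1 ⟨l, k'⟩ ^ H.aa l)

variable {H i k k'}

omit [DecidableEq κ] in
lemma van_E2 {p : ℕ} [h2 : FC2 K p] {d : Cd} (W : ASp K d) : Van p (E2 H i k k') W :=
  h2.kill (fun _ x => (x.2.1, x.2.2 + sgO l * x.1))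
    ⟨fun _ _ R _ _ _ _ e => ⟨e.2.1, R.add e.2.2 (R.mul (rel_sgO R l) e.1)⟩, fun _ _ m => m.2⟩
    fun L t x _ => ⟨by simp, by simp, by
      have : (sgO l : L) * sgO l = 1 := by cases l <;> simp [sgO]
      simp only [E2]
      linear_combination t * this⟩

lemma pmp_qm (h : k ≠ k') : PMp (H.EU κ) (E2 H i k k') (qm H i k k') where
  reg _ _ R _ _ _ _ e := ⟨rel_st e (R.mul ((e.2 i).1 _) ((e.2 i).1 _)) R.one,
    R.add (Rel.pow ((e.2 i).1 _) _) (Rel.pow ((e.2 i).1 _) _)⟩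
  mem L x m := ⟨⟨st_mem' h (mul_one _).symm m, trivial⟩, st_r⟩
  ph L x _ := by
    obtain ⟨c, hc⟩ := st_ph (i := i) (x := x) h
    conv_rhs => rw [← st_self (i := i) (q := ⟨l, k⟩) (q' := ⟨l, k'⟩) (x := x), hc]
    simp only [E2, qm, hc, st_l (show (⟨l, k⟩ : H.Ix) ≠ ⟨l, k'⟩ by simpa using h)]
    ring

lemma pro_qm (h : k ≠ k') : Pro (H.EU κ).S (E2 H i k k').S (qm H i k k') := by
  intro M O x z _ _ mz e
  have h2 : (⟨l, k⟩ : H.Ix) ≠ ⟨l, k'⟩ := by simpa using h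
  have e1 := (e.1.2 i).1 ⟨l, k⟩
  rw [qm, st_l h2] at e1
  have r1 : (Rel.ofPl O).r _ _ := ⟨int_root O (Nat.succ_pos _) e1 e.2, rfl⟩
  have e2 : (Rel.ofPl O).r (_ + _) _ := e.2
  rw [add_comm] at e2
  have r2 : (Rel.ofPl O).r _ _ :=
    ⟨int_root O (Nat.succ_pos _) (mul_comm ((x.2 i).1 ⟨l, k⟩) _ ▸ e1) e2, rfl⟩
  have r3 := rel_st (i := i) (q := ⟨l, k⟩) (q' := ⟨l, k'⟩) e.1 r1 r2
  rw [qm, st_st h2, st_self] at r3
  refine ⟨_, st_mem' h ?_ mz.1.1, r3⟩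
  rw [show (z.1.2 i).1 ⟨l, k'⟩ = 1 from mz.2, mul_one]
  exact Rel.eq e1 ((Rel.ofPl O).mul r1 r2) rfl

lemma srj_qm (h : k ≠ k') : Srj (H.EU κ).S (E2 H i k k').S (qm H i k k') := by
  intro L _ z mz
  have h2 : (⟨l, k⟩ : H.Ix) ≠ ⟨l, k'⟩ := by simpa using h
  have h1 : (z.1.2 i).1 ⟨l, k'⟩ = 1 := mz.2
  obtain ⟨u, u', e1, e2⟩ := ex_root ((mz.1.1.2 i).1.2 ⟨l, k⟩) z.2 (Nat.succ_pos (2 * H.b l))
  refine ⟨st i ⟨l, k⟩ ⟨l, k'⟩ z.1 u u', st_mem' h (by rw [h1, mul_one, e1]) mz.1.1, ?_⟩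
  rw [qm, st_l h2, st_r, st_st h2, e1, e2, ← h1, st_self]

end A5ac

open A5ac in
theorem A5a_thm {K : Type} [Field K] [Base K] {p dd : ℕ} [Fact p.Prime] [CharP K p] [FW0 K]
    [hw : FWp K p] : A5a K p dd where
  rep H κ _ _ d W j Φ i l k k' ξ h hξ h1 h2 L x y w := by
    have hq : (⟨l, k⟩ : H.Ix) ≠ ⟨l, k'⟩ := by simpa using h
    have key : ∀ (L : Fld K) (x : (sh κ H.Ix).X L) (y : L) (w : d.X L) (u u' v v' : L),
        (H.EU κ).S.mem L (st i ⟨l, k⟩ ⟨l, k'⟩ x u u') → u * u' = v * v' →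
        v ^ H.aa l = u ^ H.aa l → Φ.b L (st i ⟨l, k⟩ ⟨l, k'⟩ x v v') y w =
          Φ.b L (st i ⟨l, k⟩ ⟨l, k'⟩ x u u') y w := fun L x y w u u' v v' m e e' => by
      have u0 : u ≠ 0 := (st_l hq).symm.trans_ne ((m.2 i).1.2 ⟨l, k⟩)
      have z0 : algebraMap K L ξ ≠ 0 := (map_ne_zero _).2 (hξ.ne_zero (Nat.succ_ne_zero _))
      obtain ⟨c, -, hc⟩ := (hξ.map_of_injective (algebraMap K L).injective).eq_pow_of_pow_eq_one
        (show (v / u) ^ H.aa l = 1 by rw [div_pow, e', div_self (pow_ne_zero _ u0)])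
      obtain rfl : v = algebraMap K L ξ ^ c * u := by rw [hc, div_mul_cancel₀ _ u0]
      clear hc e'
      induction c generalizing v' with
      | zero =>
        rw [pow_zero, one_mul] at e ⊢
        rw [mul_left_cancel₀ u0 e]
      | succ c ih =>
        have e2 : u * u' = algebraMap K L ξ ^ c * u * (algebraMap K L ξ * v') := by
          rw [e]
          ring
        have := h2 L _ y w (st_mem h e2 m)
        rw [st_mul hq, one_mul, inv_mul_cancel_left₀ z0, ← mul_assoc, ← pow_succ'] at this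
        exact this.trans (ih _ e2)
    obtain ⟨Ψ, hΨ⟩ := hw.c1.desc (pmp_qm (i := i) h) (pro_qm h) (srj_qm h) Φ
      fun L x x' y w m _ e => by
        have e1 := congrArg (fun z => (z.1.2 i).1 ⟨l, k⟩) e
        have e2 := congrArg Prod.snd e
        have e3 := congrArg (fun z => st i ⟨l, k⟩ ⟨l, k'⟩ z.1 ((x'.2 i).1 ⟨l, k⟩) ((x'.2 i).1 ⟨l, k'⟩)) e
        simp only [qm, st_l hq, st_st hq, st_self] at e1 e2 e3
        rw [← st_self (i := i) (q := ⟨l, k⟩) (q' := ⟨l, k'⟩) (x := x)] at m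
        rw [← e3]
        conv_lhs => rw [← st_self (i := i) (q := ⟨l, k⟩) (q' := ⟨l, k'⟩) (x := x)]
        generalize (x.2 i).1 ⟨l, k⟩ = u, (x.2 i).1 ⟨l, k'⟩ = u', (x'.2 i).1 ⟨l, k⟩ = v,
          (x'.2 i).1 ⟨l, k'⟩ = v' at m e1 e2 ⊢
        have e4 : (v ^ H.aa l - u ^ H.aa l) * (v ^ H.aa l - u' ^ H.aa l) = 0 := by
          have := congrArg (· ^ H.aa l) e1
          simp only [mul_pow] at this
          linear_combination this - v ^ H.aa l * e2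
        rcases mul_eq_zero.1 e4 with e5 | e5
        · exact (key L x y w u u' v v' m e1 (sub_eq_zero.1 e5)).symm
        · have := h1 L _ y w m
          rw [st_swap hq, one_mul] at this
          exact this.symm.trans (key L x y w u' u v v' (st_mem h (mul_comm _ _) m)
            ((mul_comm _ _).trans e1) (sub_eq_zero.1 e5)).symm
    by_contra h0
    exact h0 ((hΨ L x y w (hw.c1.mem Φ h0).2.1).symm.trans (van_E2 W j Ψ L _ y w))

end Pool.Agent.Lib.MP_557161_ag.HG.HN.HC
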