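import Pool.Agent.Lib.MP_557161_ag.HC.St4
import Pool.Agent.Lib.MP_557161_ag.HG.FC1

/-!
Phases that differ by `h ^ Q - h` are equivalent.
-/

namespace Pool.Agent.Lib.MP_557161_ag.HG.HN.HC

open Pool.Agent.Lib.MP_557161_ag.DL

namespace ASa

variable {K : Type} [Field K] {p : ℕ} {c d : Cd}

/-- The translation of the covering coordinate. -/
abbrev tr (d : Cd) (k : ∀ L : Fld K, c.X L → L) (L : Fld K)
    (z : ((c.prod .one).prod d).X L) : ((c.prod .one).prod d).X L :=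
  ((z.1.1, z.1.2 + k L z.1.1), z.2)

variable [Fact p.Prime] [CharP K p] {E E' : Ph K c} {k : ∀ L : Fld K, c.X L → L}

lemma chL (p : ℕ) [CharP K p] (L : Fld K) : CharP L p :=
  charP_of_injective_algebraMap (algebraMap K L).injective p

lemma eqn {L : Fld K} (y a : L) : (y + a) ^ p - (y + a) = y ^ p - y + (a ^ p - a) := by
  have := chL (K := K) p L
  rw [add_pow_char]
  ring

theorem shift [FA3 K] (hk : Reg E.S .one k) (hS : ∀ L x, E'.S.mem L x ↔ E.S.mem L x)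
    (hφ : ∀ L x, E.S.mem L x → E'.φ L x = E.φ L x + (k L x ^ p - k L x)) (W : ASp K d)
    (hv : Van p E W) : Van p E' W := by
  intro j Φ
  have hm : Mp ((E.tot p).prod W) ((E'.tot p).prod W) (tr d k) :=
    ⟨fun _ _ R _ _ m m' e => ⟨⟨e.1.1, R.add e.1.2 (hk R m.1.1.1 m'.1.1.1 e.1.1)⟩, e.2⟩,
      fun L z m => ⟨⟨⟨(hS L _).2 m.1.1.1, trivial⟩, by
        have h1 : z.1.2 ^ p - z.1.2 = E.φ L z.1.1 := m.1.2
        change (z.1.2 + k L z.1.1) ^ p - (z.1.2 + k L z.1.1) = E'.φ L z.1.1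
        rw [eqn, h1, hφ L _ m.1.1.1]⟩, m.2⟩⟩
  have hp : Pro ((E.tot p).prod W) ((E'.tot p).prod W) (tr d k) := fun M O x z _ m m' e => by
    have h0 := (hS _ _).1 m'.1.1.1
    have h1 : (Rel.ofPl O).r x.1.2 (z.1.2 - k _ z.1.1) := by
      have := Rel.sub (R := Rel.ofPl O) e.1.2 (hk _ m.1.1.1 h0 e.1.1)
      rwa [show (tr d k M x).1.2 = x.1.2 + k M x.1.1 from rfl, add_sub_cancel_right] at this
    exact ⟨((z.1.1, z.1.2 - k _ z.1.1), z.2), ⟨⟨⟨h0, trivial⟩,
      Rel.eq (Rel.sub (Rel.pow h1 p) h1) (E.reg _ m.1.1.1 h0 e.1.1) m.1.2⟩, m'.2⟩,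
      ⟨e.1.1, h1⟩, e.2⟩
  let θ := Φ.toFe.pull hm.mor (hp.mor _)
  have h1 : ∀ L x y w, E.S.mem L x → θ.v L (some ((x, y), w)) = Φ.b L x (y + k L x) w := by
    intro L x y w hx
    by_cases m : ((E.tot p).prod W).sp.mem (L := L) (some ((x, y), w))
    · exact Fe.pull_of_mem _ _ _ m
    · rw [not_not.1 fun e => m (θ.supp _ _ e).2]
      by_contra e
      obtain ⟨-, -, a, b⟩ := FC1A.supp Φ.toPre (Ne.symm e)
      rw [eqn, hφ L x hx] at a
      exact m (FC1A.mem_iff.2 ⟨hx, add_right_cancel a, b⟩)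
  let Ψ : NF p j E W := ⟨θ, fun L x y w => by
    by_cases hx : E.S.mem L x
    · simp only [h1 L x _ w hx, add_right_comm y]
      exact Φ.nt L x (y + k L x) w
    · exact Finset.sum_eq_zero fun _ _ => not_not.1 fun e => hx (FC1A.supp θ.toPre e).2.1,
    fun L x y w m₁ m₂ a b e => by
      by_contra e'
      exact e' ((h1 L x y w (FC1A.supp θ.toPre e').2.1).trans (Φ.kills L x _ w m₁ m₂ a b e))⟩
  intro L x y w
  by_contra e
  have hx := (hS _ _).1 (FC1A.supp Φ.toPre e).2.1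
  have h2 := h1 L x (y - k L x) w hx
  rw [sub_add_cancel] at h2
  exact e (h2.symm.trans (hv j Ψ L x _ w))

lemma tele {L : Fld K} (a : L) (s : ℕ) :
    (∑ i ∈ Finset.range s, a ^ p ^ i) ^ p - ∑ i ∈ Finset.range s, a ^ p ^ i = a ^ p ^ s - a := by
  have := chL (K := K) p L
  induction s with
  | zero => simp [(Fact.out : p.Prime).ne_zero]
  | succ s ih =>
    rw [Finset.sum_range_succ, eqn, ih, ← pow_mul, ← pow_succ]
    ring

lemma neg_eqn {L : Fld K} (a : L) : (-a) ^ p - -a = -(a ^ p - a) := by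
  have := eqn (p := p) a (-a)
  rw [add_neg_cancel, zero_pow (Fact.out : p.Prime).ne_zero, sub_zero] at this
  linear_combination -this

end ASa

theorem AS_thm {K : Type} [Field K] [Base K] {p : ℕ} [Fact p.Prime] [CharP K p] [FW0 K] :
    AS K p where
  shift {N c d E E' W} h s hh hS hE := by
    have hS' : ∀ L x, (E'.kum N).S.mem L x ↔ (E.kum N).S.mem L x := fun L x =>
      ⟨fun m => ⟨⟨(hS L _).1 m.1.1, trivial⟩,
        (show x.2 ^ N = E'.g L x.1 from m.2).trans (hE L _ ((hS L _).1 m.1.1)).1⟩,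
      fun m => ⟨⟨(hS L _).2 m.1.1, trivial⟩,
        (show x.2 ^ N = E.g L x.1 from m.2).trans (hE L _ m.1.1).1.symm⟩⟩
    have hr : Reg (E.kum N).S .one fun L x => ∑ i ∈ Finset.range s, h L x.1 ^ p ^ i :=
      fun _ _ R _ _ m m' e => Rel.sum _ fun i _ => Rel.pow (hh R m.1.1 m'.1.1 e.1) _
    refine ⟨ASa.shift hr hS' (fun L x m => ?_) W,
      ASa.shift (E := E'.kum N) (E' := E.kum N)
        (k := fun L (x : (c.prod .one).X L) => -∑ i ∈ Finset.range s, h L x.1 ^ p ^ i)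
        (fun _ _ R _ _ m m' e => Rel.neg (hr R ((hS' _ _).1 m) ((hS' _ _).1 m') e))
        (fun L x => (hS' L x).symm) (fun L x m => ?_) W⟩
    · rw [ASa.tele]
      exact (hE L _ m.1.1).2
    · rw [ASa.neg_eqn, ASa.tele]
      have := (hE L _ ((hS L _).1 m.1.1)).2
      change E.φ L x.1 = E'.φ L x.1 + _
      rw [this]
      ring

end Pool.Agent.Lib.MP_557161_ag.HG.HN.HC
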