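import Pool.Agent.Lib.MP_557161_ag.HC.AS

/-!
Invariance of the vanishing on tori under Frobenius.
-/

namespace Pool.Agent.Lib.MP_557161_ag.HG.HN.HC

open Pool.Agent.Lib.MP_557161_ag.DL

namespace TFa

variable {K : Type} [Field K]

lemma mem_of_pow {M : Fld K} (O : Pl M) {a : M} {n : ℕ} (hn : n ≠ 0) (h : a ^ n ∈ O.O) :
    a ∈ O.O := by
  rw [← O.O.valuation_le_one_iff] at h ⊢
  rwa [map_pow, pow_le_one_iff_of_nonneg zero_le hn] at h

end TFa

theorem TF_thm {K : Type} [Field K] [Base K] {p : ℕ} [Fact p.Prime] [CharP K p] [FWp K p]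
    [AS K p] : TF K p where
  frob {N} hN cc d C W I _ E s hv := by
    have hq : ∀ i, p ^ s i ≠ 0 := fun i => pow_ne_zero _ (Fact.out : p.Prime).ne_zero
    have hψ : Reg (tor C fun i => p ^ s i * E i).S .one
        fun L x => ∑ i, (x.2 i ^ p ^ s i - x.2 i) :=
      fun _ _ _ _ _ _ _ e => Rel.sum _ fun i _ => Rel.sub (Rel.pow (e.2 i) _) (e.2 i)
    have h1 : EVan p N ((tor C fun i => p ^ s i * E i).addφ _ hψ) W := by
      refine (AS.shift (E := tor C fun i => p ^ s i * E i)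
        (E' := (tor C fun i => p ^ s i * E i).addφ _ hψ)
        (fun L x => ∑ i, ∑ t ∈ Finset.range (s i), x.2 i ^ p ^ t) 1
        (fun _ _ _ _ _ _ _ e => Rel.sum _ fun i _ => Rel.sum _ fun t _ => Rel.pow (e.2 i) _)
        (fun _ _ => Iff.rfl) fun L x _ => ⟨rfl, ?_⟩).1 hv
      have := ASa.chL (K := K) p L
      change _ + ∑ i, (x.2 i ^ p ^ s i - x.2 i) = _
      rw [pow_one, sum_pow_char, ← Finset.sum_sub_distrib]
      simp only [ASa.tele]
    refine FC7.img hN (E' := (tor C fun i => p ^ s i * E i).addφ _ hψ)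
      (f := fun L x => (x.1, fun i => x.2 i ^ p ^ s i)) (h := fun _ _ => 1)
      ⟨⟨⟨fun _ _ _ _ _ _ _ e => ⟨e.1, fun i => Rel.pow (e.2 i) _⟩,
        fun L x m => ⟨m.1, trivial, fun i => pow_ne_zero _ (m.2.2 i)⟩⟩, fun L x _ => ?_⟩,
        fun _ _ R _ _ _ _ _ => R.one, fun L x _ => ?_⟩ ?_ ?_ h1
    · change C.φ L x.1 + ∑ i, x.2 i ^ p ^ s i =
        C.φ L x.1 + ∑ i, x.2 i + ∑ i, (x.2 i ^ p ^ s i - x.2 i)
      rw [Finset.sum_sub_distrib]
      ring
    · change C.g L x.1 * ∏ i, (x.2 i ^ p ^ s i) ^ E i =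
        C.g L x.1 * (∏ i, x.2 i ^ (p ^ s i * E i)) * 1 ^ N
      simp only [pow_mul, one_pow, mul_one]
    · rintro M O x z - _ hz ⟨e1, e2⟩
      have e3 : ∀ i, (Rel.ofPl O).r (x.2 i) (O.rd (x.2 i)) := fun i =>
        ⟨TFa.mem_of_pow O (hq i) (e2 i).1, rfl⟩
      refine ⟨(z.1, fun i => O.rd (x.2 i)), ⟨hz.1, trivial, fun i h => hz.2.2 i ?_⟩, e1, e3⟩
      exact (Rel.eq (e2 i) (Rel.pow (e3 i) _) rfl).trans
        (by rw [show O.rd (x.2 i) = 0 from h, zero_pow (hq i)])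
    · rintro L _ ⟨x, w⟩ hz
      choose u hu using fun i => IsAlgClosed.exists_pow_nat_eq (w i) (Nat.pos_of_ne_zero (hq i))
      refine ⟨(x, u), ⟨hz.1, trivial, fun i h => hz.2.2 i ?_⟩, Prod.ext rfl (funext hu)⟩
      exact (hu i).symm.trans (by rw [show u i = 0 from h, zero_pow (hq i)])

end Pool.Agent.Lib.MP_557161_ag.HG.HN.HC
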