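import Pool.Agent.Lib.MP_557161_ag.HC.Itf

/-!
From the cyclic cover to the torus side of the chains: definitions and statements.
-/

namespace Pool.Agent.Lib.MP_557161_ag.HG.HN.HC

open Pool.Agent.Lib.MP_557161_ag.DL MvPolynomial

variable {K : Type} [Field K] {dd : ℕ}

/-- The hypergeometric data. -/
structure HD (K : Type) [Field K] (dd : ℕ) where
  m : ℕ
  g : ℕ
  M : ℕ
  b : Option (Vr dd) → ℕ
  f : Vr dd → ℕ
  j : Vr dd → ℕ
  lam : K
  hb : b none = ∑ l, b (some l) + dd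
  hg : (2 * dd + 1) * g + 1 = m * M
  hf : ∀ l, (2 * b (some l) + 1) * f l = g + m * j l
  l0 : lam ≠ 0
  chm : (m : K) ≠ 0
  ch : ∀ l, ((2 * b l + 1 : ℕ) : K) ≠ 0
  disc : lam ^ (2 * b none + 1) * ∏ l, ((2 * b (some l) + 1 : ℕ) : K) ^ (2 * b (some l) + 1) ≠
    (-((2 * b none + 1 : ℕ) : K)) ^ (2 * b none + 1)

namespace HD

variable (H : HD K dd)

lemma m_pos : 0 < H.m := Nat.pos_of_ne_zero fun h => H.chm (by rw [h, Nat.cast_zero])

/-- The exponents. -/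
abbrev aa (l : Option (Vr dd)) : ℕ := 2 * H.b l + 1

/-- The common denominator. -/
def N : ℕ := H.m * ∏ l, H.aa l

/-- The parameter. -/
def t : K := (-(H.aa none : K) / H.lam) ^ H.aa none / ∏ l, (H.aa (some l) : K) ^ H.aa (some l)

/-- The torus `∏ X ^ a = 1` times the line. -/
noncomputable def V3 : ASp K (xz dd) :=
  ((ASp.univ K (xz dd)).opn (fun _ x => ∀ i, x.1 i ≠ 0)
    fun _ _ _ _ _ _ _ e h i => Rel.ne_zero (e.1 i) (h i)).cl
    (fun _ x => ∏ i, x.1 i ^ H.aa (some i) = 1)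
    fun _ _ R _ _ _ _ e h => Rel.eq (Rel.prod _ fun i _ => Rel.pow (e.1 i) _) R.one h

/-- The cyclic cover of the torus. -/
noncomputable def U3 : ASp K (xz dd) :=
  H.V3.cl (fun L x => x.2 ^ H.m = (∏ i, x.1 i) ^ H.g * (∑ i, x.1 i + algebraMap K L H.lam))
    fun _ _ R _ _ _ _ e h => Rel.eq (Rel.pow e.2 _)
      (R.mul (Rel.pow (Rel.prod _ fun i _ => e.1 i) _)
        (R.add (Rel.sum _ fun i _ => e.1 i) (R.const _))) h

/-- The torus with coordinates `(π, ρ)`. -/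
noncomputable def TY : ASp K (HN.HD.ysh dd) :=
  ((ASp.univ K (HN.HD.ysh dd)).opn (fun _ x => ∀ l, x.1 l ≠ 0)
    fun _ _ _ _ _ _ _ e h i => Rel.ne_zero (e.1 i) (h i)).cl
    (fun L x => x.2 ^ H.m = (∏ l, x.1 (some l)) ^ H.g ∧
      ∏ l, x.1 (some l) ^ H.aa (some l) = algebraMap K L H.t * x.1 none ^ H.aa none)
    fun _ _ R _ _ _ _ e h => ⟨Rel.eq (Rel.pow e.2 _) (Rel.pow (Rel.prod _ fun _ _ => e.1 _) _) h.1,
      Rel.eq (Rel.prod _ fun i _ => Rel.pow (e.1 _) _) (R.mul (R.const _) (Rel.pow (e.1 _) _)) h.2⟩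

/-- The indices of the roots. -/
abbrev Ix : Type := Σ l : Option (Vr dd), Fin (H.aa l)

/-- The shape of points `(u, ρ)`. -/
abbrev ush : Cd := (Cd.vec H.Ix).prod .one

/-- The torus with coordinates `(u, ρ)`. -/
noncomputable def TU : ASp K H.ush :=
  ((ASp.univ K H.ush).opn (fun _ x => ∀ a, x.1 a ≠ 0)
    fun _ _ _ _ _ _ _ e h i => Rel.ne_zero (e.1 i) (h i)).cl
    (fun L x => x.2 ^ H.m = ∏ l, (∏ k, x.1 ⟨some l, k⟩ ^ H.aa (some l)) ^ H.f l ∧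
      ∏ l, ∏ k, x.1 ⟨some l, k⟩ ^ H.aa (some l) =
        algebraMap K L H.t * ∏ k, x.1 ⟨none, k⟩ ^ H.aa none)
    fun _ _ R _ _ _ _ e h =>
      ⟨Rel.eq (Rel.pow e.2 _) (Rel.prod _ fun _ _ => Rel.pow
          (Rel.prod _ fun _ _ => Rel.pow (e.1 _) _) _) h.1,
        Rel.eq (Rel.prod _ fun _ _ => Rel.prod _ fun _ _ => Rel.pow (e.1 _) _)
          (R.mul (R.const _) (Rel.prod _ fun _ _ => Rel.pow (e.1 _) _)) h.2⟩

variable (κ : Type) [Fintype κ]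

/-- The points `((X, z), s)`. -/
noncomputable def E3 : Ph K (.pi κ ((xz dd).prod .one)) where
  S := (H.V3.prod (.gm K)).pi κ
  φ L x := ∑ i, (x i).2 * ((∏ l, (x i).1.1 l) ^ H.g * (∑ l, (x i).1.1 l + algebraMap K L H.lam) -
    (x i).1.2 ^ H.m)
  reg _ _ R _ _ _ _ e := Rel.sum _ fun i _ => R.mul (e i).2
    (Rel.sub (R.mul (Rel.pow (Rel.prod _ fun l _ => (e i).1.1 l) _)
      (R.add (Rel.sum _ fun l _ => (e i).1.1 l) (R.const _))) (Rel.pow (e i).1.2 _))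

/-- The points `(v, (π, ρ))`. -/
noncomputable def EY : Ph K ((Cd.vec κ).prod (.pi κ (HN.HD.ysh dd))) where
  S := (ASp.univ K (.vec κ)).prod (H.TY.pi κ)
  φ _ x := -∑ i, x.1 i ^ H.m + ∑ i, ∑ l, sgO l * (H.aa l * (x.2 i).1 l)
  reg _ _ R _ _ _ _ e := R.add (Rel.neg (Rel.sum _ fun i _ => Rel.pow (e.1 i) _))
    (Rel.sum _ fun i _ => Rel.sum _ fun l _ => R.mul (rel_sgO R l) (R.mul (R.natCast _) ((e.2 i).1 l)))

/-- The points `(v, (u, ρ))`. -/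
noncomputable def EU : Ph K ((Cd.vec κ).prod (.pi κ H.ush)) where
  S := (ASp.univ K (.vec κ)).prod (H.TU.pi κ)
  φ _ x := -∑ i, x.1 i ^ H.m + ∑ i, ∑ a : H.Ix, sgO a.1 * (x.2 i).1 a ^ H.aa a.1
  reg _ _ R _ _ _ _ e := R.add (Rel.neg (Rel.sum _ fun i _ => Rel.pow (e.1 i) _))
    (Rel.sum _ fun i _ => Rel.sum _ fun a _ => R.mul (rel_sgO R _) (Rel.pow ((e.2 i).1 a) _))

end HD

namespace HD

variable (H : HD K dd) (p : ℕ) (κ : Type) [Fintype κ] [DecidableEq κ] (ζ : K) (η : ℂ)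

/-- The vanishing statement on `E3`. -/
def ST3 : Prop :=
  ∀ {d : Cd} (W : ASp K d) (j : ℕ) (Φ : NF p j (H.E3 κ) W),
    (∀ σ : Equiv.Perm κ, Φ.Eqv (fun _ x i => x (σ i)) ((Equiv.Perm.sign σ : ℤ) : ℂ)) →
    (∀ i, Φ.Eqv (fun L x => Function.update x i (mlt ζ L (x i).1, (x i).2)) η) →
    ∀ L x y w, Φ.b L x y w = 0

/-- The vanishing statement on `EY`. -/
def ST5 : Prop :=
  ∀ {d : Cd} (W : ASp K d) (j : ℕ) (Φ : NF p j (H.EY κ) W), (∀ σ, Φ.Eqv (cperm σ) 1) →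
    (∀ i, Φ.Eqv (cact i (mlt ζ)) η) → ∀ L x y w, Φ.b L x y w = 0

/-- The vanishing statement on `EU` for symmetric functionals. -/
def ST8 : Prop :=
  ∀ {d : Cd} (W : ASp K d) (j : ℕ) (Φ : NF p j (H.EU κ) W), (∀ σ, Φ.Eqv (cperm σ) 1) →
    (∀ i, Φ.Eqv (cact i (mlt ζ)) η) →
    (∀ i (σ : Equiv.Perm H.Ix), (∀ a, (σ a).1 = a.1) → Φ.Eqv (cact i (uperm σ)) 1) →
    ∀ L x y w, Φ.b L x y w = 0

open Classical in
/-- The vanishing statement on `EU` for the standard characters. -/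
def ST10 : Prop :=
  ∀ (ζ : K) (ω : ℂ) (c : ℕ), IsPrimitiveRoot ζ H.N → IsPrimitiveRoot ω H.N →
  ∀ {d : Cd} (W : ASp K d) (j : ℕ) (Φ : NF p j (H.EU κ) W), (∀ σ, Φ.Eqv (cperm σ) 1) →
    (∀ i, Φ.Eqv (cact i (mlt (ζ ^ (H.N / H.m)))) (ω ^ (H.N / H.m * c))) →
    (∀ i (a : H.Ix), Φ.Eqv (cact i (umul fun a' => if a' = a then ζ ^ (H.N / H.aa a.1) else 1))
      (ω ^ (H.N / H.aa a.1 * a.2.1))) →
    ∀ L x y w, Φ.b L x y w = 0

end HD

/-- From the cover to the cover of the torus. -/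
class A1 (K : Type) [Field K] (dd : ℕ) : Prop where
  red : ∀ G : GD K dd, ∃ H : HD K dd, H.aa none = G.n ∧ H.m = G.m ∧ ∀ (ζ : K) (η : ℂ),
    ζ ^ G.m = 1 → ∀ (κ : Type) [Fintype κ] [DecidableEq κ],
    AltV H.U3 (mlt ζ) η κ → AltS G.UU (mlt ζ) η κ

/-- Passage to an Artin-Schreier cover. -/
class A2a (K : Type) [Field K] (p dd : ℕ) : Prop where
  red : ∀ (H : HD K dd) (κ : Type) [Fintype κ] [DecidableEq κ] (ζ : K) (η : ℂ), ζ ^ H.m = 1 →
    η ≠ 1 → H.ST3 p κ ζ η → AltV H.U3 (mlt ζ) η κ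

/-- Separation of the variables of degree `m`. -/
class A2b (K : Type) [Field K] (p dd : ℕ) : Prop where
  red : ∀ (H : HD K dd) (κ : Type) [Fintype κ] [DecidableEq κ] (ζ : K) (η : ℂ),
    IsPrimitiveRoot ζ H.m → η ^ H.m = 1 → H.ST5 p κ ζ η → H.ST3 p κ ζ η

/-- The relation of Hasse and Davenport: passage to the roots. -/
class A4 (K : Type) [Field K] (p dd : ℕ) : Prop where
  red : ∀ (H : HD K dd) (κ : Type) [Fintype κ] [DecidableEq κ] (ζ : K) (η : ℂ), ζ ^ H.m = 1 →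
    H.ST8 p κ ζ η → H.ST5 p κ ζ η

open Classical in
/-- Repeated characters do not contribute. -/
class A5a (K : Type) [Field K] (p dd : ℕ) : Prop where
  rep : ∀ (H : HD K dd) (κ : Type) [Fintype κ] [DecidableEq κ] {d : Cd} (W : ASp K d) (j : ℕ)
    (Φ : NF p j (H.EU κ) W) (i : κ) (l : Option (Vr dd)) (k k' : Fin (H.aa l)) (ξ : K), k ≠ k' →
    IsPrimitiveRoot ξ (H.aa l) → Φ.Eqv (cact i (uperm (Equiv.swap ⟨l, k⟩ ⟨l, k'⟩))) 1 →
    Φ.Eqv (cact i (umul fun a => if a = ⟨l, k⟩ then ξ else if a = ⟨l, k'⟩ then ξ⁻¹ else 1)) 1 →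
    ∀ L x y w, Φ.b L x y w = 0

/-- Reduction to the standard characters. -/
class A5 (K : Type) [Field K] (p dd : ℕ) : Prop where
  red : ∀ (H : HD K dd) (κ : Type) [Fintype κ] [DecidableEq κ] (ζ : K) (η : ℂ),
    IsPrimitiveRoot ζ H.m → η ^ H.m = 1 → H.ST10 p κ → H.ST8 p κ ζ η

/-- Descent to the hypergeometric torus. -/
class A6 (K : Type) [Field K] (p dd : ℕ) : Prop where
  van : ∀ (H : HD K dd) (κ : Type) [Fintype κ] [DecidableEq κ], (∃ s, 0 < s ∧ H.m ∣ p ^ s + 1) →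
    Nat.card κ = H.aa none → H.ST10 p κ

/-- Phases that differ by `h ^ Q - h` are equivalent. -/
class AS (K : Type) [Field K] (p : ℕ) : Prop where
  shift : ∀ {N : ℕ} {c d : Cd} {E E' : EqD K c} {W : ASp K d} (h : ∀ L : Fld K, c.X L → L) (s : ℕ),
    Reg E.S .one h → (∀ L x, E'.S.mem L x ↔ E.S.mem L x) →
    (∀ L x, E.S.mem L x → E'.g L x = E.g L x ∧ E'.φ L x = E.φ L x + (h L x ^ p ^ s - h L x)) →
    (EVan p N E W ↔ EVan p N E' W)

/-- A pairing of the indices. -/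
class TP : Prop where
  pair : ∀ {I : Type} [Finite I] (N q : ℕ) (E : I → ℕ) (φ : I → I), Function.Injective φ →
    (∀ i, N ∣ E (φ i) + q * E i) → ∃ (τ : I → I) (s : I → ℕ) (r : ℕ), Function.Involutive τ ∧
      Odd r ∧ ∀ i, (τ i ≠ i → N ∣ q ^ s i * E i + q ^ s (τ i) * E (τ i)) ∧
        (τ i = i → N ∣ (q ^ r + 1) * E i)

/-- Invariance under Frobenius. -/
class TF (K : Type) [Field K] (p : ℕ) : Prop where
  frob : ∀ {N : ℕ}, 0 < N → ∀ {cc d : Cd} (C : EqD K cc) (W : ASp K d) {I : Type} [Fintype I]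
    (E s : I → ℕ), EVan p N (tor C fun i => p ^ s i * E i) W → EVan p N (tor C E) W

/-- Tori whose exponents come in dual pairs or are supersingular. -/
class TH (K : Type) [Field K] (p : ℕ) : Prop where
  van : ∀ {N m s : ℕ}, 0 < N → 0 < s → m ∣ p ^ s + 1 → ∀ {d : Cd} (W : ASp K d) {I κ : Type}
    [Fintype I] [Fintype κ] (E : I → ℕ) (τ : I → I), Function.Involutive τ →
    (∀ i, τ i ≠ i → N ∣ E i + E (τ i)) → (∀ i, τ i = i → N ∣ (p ^ s + 1) * E i) →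
    Even (Nat.card I + Nat.card κ) → ∀ C : EqD K (.vec κ), (∀ L x, C.S.mem L x) →
    (∀ L x, C.φ L x = -∑ i, x i ^ m) → (∃ a : K, ∀ L x, C.g L x = algebraMap K L a) →
    EVan p N (tor C E) W

/-- Tori whose exponents are permuted by minus Frobenius. -/
class TV (K : Type) [Field K] (p : ℕ) : Prop where
  van : ∀ {N m s : ℕ}, 0 < N → 0 < s → m ∣ p ^ s + 1 → ∀ {d : Cd} (W : ASp K d) {I κ : Type}
    [Fintype I] [Fintype κ] (E : I → ℕ) (φ : I → I), Function.Injective φ →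
    (∀ i, N ∣ E (φ i) + p ^ s * E i) →
    Even (Nat.card I + Nat.card κ) → ∀ C : EqD K (.vec κ), (∀ L x, C.S.mem L x) →
    (∀ L x, C.φ L x = -∑ i, x i ^ m) → (∃ a : K, ∀ L x, C.g L x = algebraMap K L a) →
    EVan p N (tor C E) W

theorem TV_thm {K : Type} [Field K] {p : ℕ} [TP] [TF K p] [TH K p] : TV K p where
  van {N m s} hN hs hm d W I κ _ _ E φ hφ hE hev C h1 h2 h3 := by
    obtain ⟨τ, s', r, k1, k2, k3⟩ := TP.pair N (p ^ s) E φ hφ hE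
    refine TF.frob hN C W E (fun i => s * s' i) (TH.van (s := s * r) (m := m) hN
      (mul_pos hs k2.pos) ?_ W _ τ k1 (fun i h => ?_) (fun i h => ?_) hev C h1 h2 h3)
    · rw [pow_mul]
      exact hm.trans (by simpa using k2.nat_add_dvd_pow_add_pow (p ^ s) 1)
    · simpa only [pow_mul] using (k3 i).1 h
    · rw [mul_left_comm, pow_mul p s r]
      exact ((k3 i).2 h).mul_left _

end Pool.Agent.Lib.MP_557161_ag.HG.HN.HC
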