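import Pool.Agent.Lib.MP_557161_ag.HG.TV
import Pool.Agent.Lib.MP_557161_ag.HC.St4

/-!
Tori whose exponents come in dual pairs or are supersingular.
-/

namespace Pool.Agent.Lib.MP_557161_ag.HG.HN.HC

open Pool.Agent.Lib.MP_557161_ag.DL Sum

namespace Th

variable {K : Type} [Field K] {H P F κ I : Type}

theorem mem_of_pow {M : Fld K} {O : Pl M} {a : M} {n : ℕ} (hn : n ≠ 0) (h : a ^ n ∈ O.O) :
    a ∈ O.O := by
  rw [← ValuationSubring.valuation_le_one_iff] at h ⊢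
  rwa [map_pow, pow_le_one_iff hn] at h

/-- Coordinates in which the phase is a sum of powers. -/
def zz (Q : ℕ) (c : K) (L : Fld K) (y : (H ⊕ P → L) × (H ⊕ P → L)) : H ⊕ H → L :=
  Sum.elim (fun a => y.2 (inl a)) fun a => algebraMap K L c * y.2 (inl a) + y.1 (inl a) ^ Q

lemma zz_rel (Q : ℕ) (c : K) {M L : Fld K} {R : Rel M L} {y : (H ⊕ P → M) × (H ⊕ P → M)}
    {y' : (H ⊕ P → L) × (H ⊕ P → L)} (h1 : ∀ s, R.r (y.1 s) (y'.1 s))
    (h2 : ∀ s, R.r (y.2 s) (y'.2 s)) (t : H ⊕ H) : R.r (zz Q c M y t) (zz Q c L y' t) := by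
  cases t
  exacts [h2 _, R.add (R.mul (R.const _) (h2 _)) (Rel.pow (h1 _) _)]

lemma zz_mk {Q : ℕ} (hQ : 0 < Q) (c : K) (L : Fld K) [IsAlgClosed L] (Z : H ⊕ H → L)
    (u v : P → L) : ∃ y : (H ⊕ P → L) × (H ⊕ P → L), zz Q c L y = Z ∧
    (∀ i, y.1 (inr i) = u i) ∧ ∀ i, y.2 (inr i) = v i := by
  choose r hr using fun a => IsAlgClosed.exists_pow_nat_eq
    (Z (inr a) - algebraMap K L c * Z (inl a)) hQ
  refine ⟨(Sum.elim r u, Sum.elim (fun a => Z (inl a)) v), ?_, fun _ => rfl, fun _ => rfl⟩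
  funext t
  cases t <;> simp only [zz, elim_inl, elim_inr, hr, add_sub_cancel]

variable [Fintype H] [Fintype P] [Fintype F] [Fintype κ] [Fintype I]

/-- The base space. -/
noncomputable def bs (H : Type) [Fintype H] (Q : ℕ) (a : K) (ha : a ≠ 0) (e : P → ℕ) :
    EqD K (.vec (H ⊕ P)) :=
  (Tv.bs H a ha e).addφ (fun _ y => ∑ b, y (inl b) ^ (Q * (Q + 1)))
    fun _ _ _ _ _ _ _ e => Rel.sum _ fun _ _ => Rel.pow (e _) _

/-- The equations of the critical points. -/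
def eqn (Q : ℕ) (c : K) (L : Fld K) (y : H ⊕ P → L) : H ⊕ P → L :=
  Sum.elim (fun a => algebraMap K L c * (y (inl a) + y (inl a) ^ (Q * Q))) fun i => y (inr i) + 1

lemma eqn_reg (Q : ℕ) (c : K) (S : ASp K (.vec (H ⊕ P))) : Reg S (.vec (H ⊕ P)) (eqn Q c) :=
  fun _ _ R _ _ _ _ e s => by
    cases s
    exacts [R.mul (R.const _) (R.add (e _) (Rel.pow (e _) _)), R.add (e _) R.one]

/-- The shift of the phase. -/
def sh (c : K) (L : Fld K) (y : (H ⊕ P → L) × (H ⊕ P → L)) : L :=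
  ∑ b, algebraMap K L c * y.2 (inl b) * y.1 (inl b)

lemma sh_reg (c : K) (S : ASp K ((Cd.vec (H ⊕ P)).prod (.vec (H ⊕ P)))) : Reg S .one (sh c) :=
  fun _ _ R _ _ _ _ e => Rel.sum _ fun _ _ => R.mul (R.mul (R.const _) (e.2 _)) (e.1 _)

/-- The linear space with the shifted phase. -/
noncomputable def ls (H : Type) [Fintype H] (Q : ℕ) (c a : K) (ha : a ≠ 0) (e : P → ℕ) :
    EqD K ((Cd.vec (H ⊕ P)).prod (.vec (H ⊕ P))) :=
  ((bs H Q a ha e).lin (eqn Q c) (eqn_reg Q c _)).addφ (fun L y => sh c L y ^ Q - sh c L y)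
    fun _ _ R _ _ m m' e => Rel.sub (Rel.pow (sh_reg c _ R m m' e) _) (sh_reg c _ R m m' e)

/-- The open part of the linear space. -/
noncomputable def us (Q : ℕ) (c a : K) (ha : a ≠ 0) (e : P → ℕ) (σ : F ⊕ κ ≃ H ⊕ H) :
    EqD K ((Cd.vec (H ⊕ P)).prod (.vec (H ⊕ P))) :=
  (ls H Q c a ha e).res ((ls H Q c a ha e).S.opn
    (fun L y => (∀ i, zz Q c L y (σ (inl i)) ≠ 0) ∧ ∀ i, y.2 (inr i) ≠ 0)
    fun _ _ _ _ _ _ _ e h => ⟨fun i => Rel.ne_zero (zz_rel Q c e.1 e.2 _) (h.1 i),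
      fun i => Rel.ne_zero (e.2 _) (h.2 i)⟩) fun _ _ h => h.1

variable {p : ℕ} [FC7 K p] [AS K p] {N : ℕ} {d : Cd} (W : ASp K d)

omit [Fintype F] [Fintype κ] in
lemma van_us (hN : 0 < N) {s : ℕ} (hQ : 1 < p ^ s) {c a : K} (hc : c ≠ 0) (ha : a ≠ 0) (e : P → ℕ)
    (σ : F ⊕ κ ≃ H ⊕ H) : EVan p N (us (p ^ s) c a ha e σ) W := by
  refine FC7.opn (E := ls H (p ^ s) c a ha e) (fun _ _ h => ⟨h.1, rfl, rfl⟩)
    (fun _ _ _ _ h h' e => ⟨h, fun i => Rel.ne_zero (zz_rel _ c e.1 e.2 _) (h'.2.1 i),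
      fun i => Rel.ne_zero (e.2 _) (h'.2.2 i)⟩)
    ((AS.shift (E := (bs H (p ^ s) a ha e).lin (eqn (p ^ s) c) (eqn_reg _ c _))
      (E' := ls H (p ^ s) c a ha e) (sh c) s (sh_reg c _) (fun _ _ => Iff.rfl) fun _ _ _ => ⟨rfl, rfl⟩).1
    ((FC7.lin _ _).2 (FC7.pt hN fun L y h => ⟨algebraicClosure K L, fun t => ?_, ?_⟩)))
  · have := h.2 t
    cases t with
    | inl b =>
      obtain ⟨k, hk⟩ : ∃ k, p ^ s * p ^ s = k + 1 + 1 := ⟨p ^ s * p ^ s - 2, by
        have := Nat.mul_le_mul hQ hQ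
        omega⟩
      have h1 : y (inl b) * (1 + y (inl b) ^ (k + 1)) = 0 := by
        rw [mul_add, mul_one, ← pow_succ', ← hk]
        exact (mul_eq_zero.1 this).resolve_left ((map_ne_zero _).2 hc)
      rcases mul_eq_zero.1 h1 with h1 | h1
      · exact (show y (inl b) = 0 from h1) ▸ zero_mem _
      · exact mem_algebraicClosure_iff'.2 (IsIntegral.of_pow k.succ_pos
          (eq_neg_of_add_eq_zero_right h1 ▸ isIntegral_one.neg))
    | inr i => exact eq_neg_of_add_eq_zero_left (show y (inr i) + 1 = 0 from this) ▸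
        neg_mem (one_mem _)
  · exact (trdeg_eq_zero (R := K) (A := algebraicClosure K L)).le.trans (by simp)

/-- The torus coordinates. -/
def wt (Q : ℕ) (c : K) (σ : F ⊕ κ ≃ H ⊕ H) (L : Fld K) (y : (H ⊕ P → L) × (H ⊕ P → L)) :
    F ⊕ P ⊕ P → L :=
  Sum.elim (fun i => zz Q c L y (σ (inl i)) ^ (Q + 1))
    (Sum.elim (fun i => y.1 (inr i) * y.2 (inr i)) fun i => y.2 (inr i))

theorem core [IsAlgClosed K] [Fact p.Prime] [CharP K p] (hN : 0 < N) {m n s : ℕ} (hs : 0 < s)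
    (hm : p ^ s + 1 = n * m) (E : I → ℕ) (ρ : F ⊕ P ⊕ P ≃ I) (σ : F ⊕ κ ≃ H ⊕ H)
    (hF : ∀ i, N ∣ (p ^ s + 1) * E (ρ (inl i)))
    (hP : ∀ i, N ∣ E (ρ (inr (inl i))) + E (ρ (inr (inr i)))) (C : EqD K (.vec κ))
    (hS : ∀ L x, C.S.mem L x) (hφ : ∀ L x, C.φ L x = -∑ i, x i ^ m) {a : K}
    (hg : ∀ L x, C.g L x = algebraMap K L a) : EVan p N (tor C E) W := by
  have hQ : 1 < p ^ s := Nat.one_lt_pow hs.ne' (Fact.out : p.Prime).one_lt
  have h0 : 0 < n * m := hm ▸ Nat.succ_pos _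
  obtain ⟨j, hj⟩ := IsAlgClosed.exists_pow_nat_eq (-1 : K) (Nat.pos_of_mul_pos_left h0)
  obtain ⟨c, hc⟩ := IsAlgClosed.exists_pow_nat_eq (-1 : K) (p ^ s).succ_pos
  have c0 : c ≠ 0 := fun h => by simp [h] at hc
  have j0 : j ≠ 0 := fun h => by simp [h, (Nat.pos_of_mul_pos_left h0).ne'] at hj
  have hjL : ∀ (L : Fld K) (z : L), (algebraMap K L j * z ^ n) ^ m = -z ^ (p ^ s + 1) :=
    fun L z => by rw [mul_pow, ← map_pow, hj, map_neg, map_one, ← pow_mul, ← hm, neg_one_mul]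
  have ha : a ≠ 0 := by simpa [hg] using C.ne (.base K) 0 (hS _ _)
  choose b hb using hF
  choose b' hb' using hP
  refine FC7.img hN (E' := us (p ^ s) c a ha (fun i => E (ρ (inr (inl i)))) σ)
    (f := fun L y => (fun k => algebraMap K L j * zz (p ^ s) c L y (σ (inr k)) ^ n,
      fun i => wt (p ^ s) c σ L y (ρ.symm i)))
    (h := fun L y => (∏ i, zz (p ^ s) c L y (σ (inl i)) ^ b i) * ∏ i, y.2 (inr i) ^ b' i)
    ⟨⟨⟨fun M L R y y' _ _ e => ⟨fun k => R.mul (R.const j) (Rel.pow (zz_rel _ c e.1 e.2 _) _),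
      fun i => ?_⟩, fun L y h => ⟨hS _ _, trivial, fun i => ?_⟩⟩, fun L y _ => ?_⟩,
      fun M L R y y' _ _ e => R.mul (Rel.prod _ fun i _ => Rel.pow (zz_rel _ c e.1 e.2 _) _)
        (Rel.prod _ fun i _ => Rel.pow (e.2 _) _), fun L y _ => ?_⟩ ?_ ?_
    (van_us W hN hQ c0 ha _ σ)
  · show R.r (wt _ c σ M y (ρ.symm i)) (wt _ c σ L y' (ρ.symm i))
    rcases ρ.symm i with i | i | i
    exacts [Rel.pow (zz_rel _ c e.1 e.2 _) _, R.mul (e.1 _) (e.2 _), e.2 _]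
  · show wt _ c σ L y (ρ.symm i) ≠ 0
    rcases ρ.symm i with i | i | i
    exacts [pow_ne_zero _ (h.2.1 i), mul_ne_zero (h.1.1.2 i) (h.2.2 i), h.2.2 i]
  · show C.φ L _ + ∑ i, wt _ c σ L y (ρ.symm i) = 0 + ∑ b, y.1 (inl b) ^ (p ^ s * (p ^ s + 1)) +
      ∑ t, y.2 t * eqn (p ^ s) c L y.1 t + (sh c L y ^ p ^ s - sh c L y)
    have : CharP L p := charP_of_injective_algebraMap (algebraMap K L).injective p
    have e0 : algebraMap K L c ^ (p ^ s + 1) = -1 := by rw [← map_pow, hc, map_neg, map_one]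
    have e2 : ∀ t, zz (p ^ s) c L y (inl t) ^ (p ^ s + 1) + zz (p ^ s) c L y (inr t) ^ (p ^ s + 1) =
        y.1 (inl t) ^ (p ^ s * (p ^ s + 1)) +
          y.2 (inl t) * (algebraMap K L c * y.1 (inl t) ^ (p ^ s * p ^ s)) +
          (algebraMap K L c * y.2 (inl t) * y.1 (inl t)) ^ p ^ s := fun t => by
      simp only [zz, elim_inl, elim_inr, pow_succ, add_pow_char_pow, mul_pow, pow_mul] at e0 ⊢
      linear_combination y.2 (inl t) ^ p ^ s * y.2 (inl t) * e0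
    have e1 := σ.sum_comp fun t => zz (p ^ s) c L y t ^ (p ^ s + 1)
    rw [Fintype.sum_sum_type, Fintype.sum_sum_type, ← Finset.sum_add_distrib,
      Finset.sum_congr rfl fun t _ => e2 t] at e1
    rw [hφ, ρ.symm.sum_comp (wt _ c σ L y), sh, sum_pow_char_pow]
    simp only [Fintype.sum_sum_type, wt, eqn, elim_inl, elim_inr, hjL, mul_add,
      Finset.sum_add_distrib, Finset.sum_neg_distrib, mul_one, mul_comm (y.1 _),
      mul_left_comm (y.2 _), mul_assoc] at e1 ⊢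
    linear_combination e1
  · show C.g L _ * ∏ i, wt _ c σ L y (ρ.symm i) ^ E i =
      (algebraMap K L a * ∏ i, y.1 (inr i) ^ E (ρ (inr (inl i)))) * _
    rw [hg, ← ρ.prod_comp]
    simp only [Fintype.prod_sum_type, wt, elim_inl, elim_inr, Equiv.symm_apply_apply, mul_pow,
      ← Finset.prod_pow, ← pow_mul, mul_comm _ N, hb, ← hb', pow_add (y.2 _),
      Finset.prod_mul_distrib]
    ring
  · rintro M O y ⟨x', w'⟩ - hy hz ⟨e1, e2⟩
    have e3 : ∀ t, (Rel.ofPl O).r (wt _ c σ M y t) (w' (ρ t)) := fun t => by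
      simpa only [Equiv.symm_apply_apply] using e2 (ρ t)
    have e4 : ∀ i, (Rel.ofPl O).r (y.1 (inr i)) (w' (ρ (inr (inl i))) / w' (ρ (inr (inr i)))) :=
      fun i => mul_div_cancel_right₀ (y.1 (inr i)) (hy.2.2 i) ▸
        Rel.div (e3 (inr (inl i))) (e3 (inr (inr i))) (hz.2.2 _)
    have e5 : ∀ t, zz (p ^ s) c M y t ∈ O.O := fun t => by
      refine mem_of_pow (p ^ s).succ_ne_zero ?_
      obtain ⟨t | t, rfl⟩ := σ.surjective t
      · exact (e3 (inl t)).1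
      · have := neg_mem (pow_mem (e1 t).1 m)
        rwa [hjL, neg_neg] at this
    have e6 : ∀ t, (Rel.ofPl O).r (y.1 t) (O.rd (y.1 t)) := fun t => ⟨by
      cases t with
      | inl t => exact mem_of_pow (n := p ^ s) (by omega) (by
          simpa [zz] using sub_mem (e5 (inr t)) (mul_mem (O.const c) (e5 (inl t))))
      | inr i => exact (e4 i).1, rfl⟩
    have e7 : ∀ t, (Rel.ofPl O).r (y.2 t) (O.rd (y.2 t)) := fun t => ⟨by
      cases t with
      | inl t => exact e5 (inl t)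
      | inr i => exact (e3 (inr (inr i))).1, rfl⟩
    refine ⟨(fun t => O.rd (y.1 t), fun t => O.rd (y.2 t)), ⟨⟨⟨trivial, fun i => ?_⟩, trivial⟩,
      fun i h => hz.2.2 (ρ (inl i)) ?_, fun i => ?_⟩, e6, e7⟩
    · exact (e4 i).2.trans_ne (div_ne_zero (hz.2.2 _) (hz.2.2 _))
    · exact (Rel.eq (e3 (inl i)) (Rel.pow (zz_rel _ c e6 e7 _) _) rfl).trans (by rw [h]; simp)
    · exact (e3 (inr (inr i))).2.trans_ne (hz.2.2 _)
  · rintro L _ ⟨x, w⟩ hz
    choose u hu using fun i => IsAlgClosed.exists_pow_nat_eq (w (ρ (inl i))) (p ^ s).succ_pos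
    choose v hv using fun k => IsAlgClosed.exists_pow_nat_eq (x k / algebraMap K L j)
      (Nat.pos_of_mul_pos_right h0)
    obtain ⟨y, e, e1, e2⟩ := zz_mk (zero_lt_one.trans hQ) c L (fun t => Sum.elim u v (σ.symm t))
      (fun i => w (ρ (inr (inl i))) / w (ρ (inr (inr i)))) fun i => w (ρ (inr (inr i)))
    refine ⟨y, ⟨⟨⟨trivial, fun i => ?_⟩, trivial⟩, fun i => ?_, fun i => ?_⟩,
      Prod.ext (funext fun k => ?_) (funext fun i => ?_)⟩
    · exact (e1 i).trans_ne (div_ne_zero (hz.2.2 _) (hz.2.2 _))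
    · simp only [e, Equiv.symm_apply_apply]
      exact fun h : u i = 0 => hz.2.2 (ρ (inl i)) ((hu i).symm.trans (by rw [h]; simp))
    · exact (e2 i).trans_ne (hz.2.2 _)
    · simp only [e, Equiv.symm_apply_apply, elim_inr, hv]
      exact mul_div_cancel₀ _ ((map_ne_zero _).2 j0)
    · obtain ⟨t, rfl⟩ := ρ.surjective i
      simp only [Equiv.symm_apply_apply, wt, e, e1, e2]
      rcases t with i | i | i
      exacts [hu i, div_mul_cancel₀ _ (hz.2.2 _), rfl]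

end Th

theorem TH_thm {K : Type} [Field K] [Base K] {p : ℕ} [Fact p.Prime] [CharP K p] [FC7 K p]
    [AS K p] : TH K p where
  van {N m s} hN hs hm d W I κ _ _ E τ hτ hE hE' hev C hS hφ := by
    classical
    rintro ⟨a, hg⟩
    obtain ⟨q, ρ, h1, h3, h4⟩ := Tv.exists_split τ hτ
    obtain ⟨n, hn⟩ := hm
    have h5 := Nat.card_congr ρ
    simp only [Nat.card_sum] at h5
    obtain ⟨k, hk⟩ : Even (Nat.card {i // τ i = i} + Nat.card κ) := by
      rw [Nat.even_iff] at hev ⊢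
      omega
    obtain ⟨σ⟩ : Nonempty ({i // τ i = i} ⊕ κ ≃ Fin k ⊕ Fin k) :=
      Finite.card_eq.1 (by simpa only [Nat.card_sum, Nat.card_fin] using hk)
    exact Th.core W hN hs (hn.trans (mul_comm _ _)) E ρ σ (fun i => by simpa only [h1] using hE' i i.2)
      (fun i => by
        rw [h3, h4]
        exact hE i fun e => nomatch ρ.injective ((h4 i).trans (e.trans (h3 i).symm))) C hS hφ hg

end Pool.Agent.Lib.MP_557161_ag.HG.HN.HC
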