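import Pool.Agent.Lib.MP_557161_ag.HN.All1
import Pool.Agent.Lib.MP_557161_ag.HC.A1
import Pool.Agent.Lib.MP_557161_ag.HC.A2a
import Pool.Agent.Lib.MP_557161_ag.HC.A2b
import Pool.Agent.Lib.MP_557161_ag.HC.A4
import Pool.Agent.Lib.MP_557161_ag.HC.A5a
import Pool.Agent.Lib.MP_557161_ag.HC.A5
import Pool.Agent.Lib.MP_557161_ag.HC.A6
import Pool.Agent.Lib.MP_557161_ag.HC.AS
import Pool.Agent.Lib.MP_557161_ag.HC.TF
import Pool.Agent.Lib.MP_557161_ag.HC.TH
import Pool.Agent.Lib.MP_557161_ag.HC.TP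

/-!
The top exterior power of the isotypic parts of the motive of the cyclic cover, assembled.
-/

namespace Pool.Agent.Lib.MP_557161_ag.HG.HN.HC

open Pool.Agent.Lib.MP_557161_ag.DL

theorem ALT_thm {K : Type} [Field K] [Base K] {p dd : ℕ} [Fact p.Prime] [CharP K p] :
    ALT K p dd := by
  have : FW0 K := FW0_thm
  have : FWp K p := FWp_thm
  have : MT K p := MT_all
  have : AS K p := AS_thm
  have : TP := TP_thm
  have : TF K p := TF_thm
  have : TH K p := TH_thm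
  have : TV K p := TV_thm
  have : A3 K := A3_thm
  have : A5a K p dd := A5a_thm
  refine ⟨fun G hs ζ η hζ hη h1 κ _ _ h => ?_⟩
  obtain ⟨H, k1, k2, k3⟩ := (A1_thm (K := K)).red G
  rw [← k2] at hs hζ hη
  exact k3 ζ η (k2 ▸ hζ.pow_eq_one) κ ((A2a_thm (p := p)).red H κ ζ η hζ.pow_eq_one h1
    (A2b_thm.red H κ ζ η hζ hη (A4_thm.red H κ ζ η hζ.pow_eq_one
      (A5_thm.red H κ ζ η hζ hη (A6_thm.van H κ hs (h.trans k1.symm))))))

end Pool.Agent.Lib.MP_557161_ag.HG.HN.HC
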