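import Pool.Agent.Lib.MP_557161_ag.HC.StY
import Pool.Agent.Lib.MP_557161_ag.HN.FN

/-!
Either a polynomial in the graph of Frobenius that does not vanish at `q ^ dd` is rationally
equivalent to a sum of products, or the poles at `q ^ dd` and `-q ^ dd` have total order more than
`3 (m - 1)`.
-/

namespace Pool.Agent.Lib.MP_557161_ag.HG.HN.HC

open Pool.Agent.Lib.MP_557161_ag.DL

namespace FN

lemma sum_eq (x : ℂ →₀ ℤ) (j : ℕ) : (x.sum fun z c => (c : ℂ) * z ^ j) =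
    Finsupp.linearCombination ℤ (fun z : ℂ => z ^ j) x := by
  rw [Finsupp.linearCombination_apply]
  exact Finset.sum_congr rfl fun z _ => (zsmul_eq_mul _ _).symm

lemma sq (ν : ℂ →₀ ℕ) (Q : ℂ) : ∃ μ : ℂ →₀ ℤ, (∀ R, R = Q ∨ R = -Q → (ν 1 : ℤ) ≤ μ R) ∧ ∀ j : ℕ,
    Finsupp.linearCombination ℤ (fun z : ℂ => z ^ j) μ =
      if Even j then 2 * Q ^ j * ν.sum fun z c => c * z ^ (j / 2) else 0 := by
  classical
  refine ⟨ν.sum fun z c => Finsupp.single (Q * z ^ ((2 : ℕ)⁻¹ : ℂ)) (c : ℤ) +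
    Finsupp.single (-(Q * z ^ ((2 : ℕ)⁻¹ : ℂ))) (c : ℤ), fun R hR => ?_, fun j => ?_⟩
  · rw [Finsupp.sum, Finsupp.finsetSum_apply]
    have h0 : ∀ z, (0 : ℤ) ≤ (Finsupp.single (Q * z ^ ((2 : ℕ)⁻¹ : ℂ)) (ν z : ℤ) +
        Finsupp.single (-(Q * z ^ ((2 : ℕ)⁻¹ : ℂ))) (ν z : ℤ) : ℂ →₀ ℤ) R := fun z => by
      simp only [Finsupp.add_apply, Finsupp.single_apply]
      positivity
    by_cases h : (1 : ℂ) ∈ ν.support
    · refine le_trans ?_ (Finset.single_le_sum (fun z _ => h0 z) h)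
      rcases hR with rfl | rfl
      all_goals
        simp only [Finsupp.add_apply, Complex.one_cpow, mul_one, Finsupp.single_eq_same,
          Finsupp.single_apply, le_add_iff_nonneg_right, le_add_iff_nonneg_left]
        positivity
    · rw [Finsupp.notMem_support_iff.1 h]
      exact Finset.sum_nonneg fun z _ => h0 z
  · simp only [Finsupp.sum, map_sum, map_add, Finsupp.linearCombination_single, Finset.mul_sum]
    split_ifs with h
    · refine Finset.sum_congr rfl fun z _ => ?_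
      obtain ⟨i, rfl⟩ := h.two_dvd
      rw [Nat.mul_div_cancel_left _ two_pos, (even_two_mul i).neg_pow, mul_pow, pow_mul (z ^ _),
        Complex.cpow_nat_inv_pow _ two_ne_zero, zsmul_eq_mul]
      push_cast
      ring
    · refine Finset.sum_eq_zero fun z _ => ?_
      rw [(Nat.not_even_iff_odd.1 h).neg_pow, smul_neg, add_neg_cancel]

lemma pair {h : ℕ} (a : ℕ → ℂ) (ha : ∀ s, s ≤ 2 * h + 1 → a (2 * h + 1 - s) = a s) :
    ∑ s ∈ Finset.Ico 1 (2 * h + 1), a s = 2 * ∑ s ∈ Finset.Ico 1 (h + 1), a s := by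
  rw [← Finset.sum_Ico_consecutive a (show 1 ≤ h + 1 by omega) (show h + 1 ≤ 2 * h + 1 by omega),
    two_mul (∑ s ∈ Finset.Ico 1 (h + 1), a s)]
  congr 1
  refine Finset.sum_bij' (M := ℂ) (fun s _ => 2 * h + 1 - s) (fun s _ => 2 * h + 1 - s)
    ?_ ?_ ?_ ?_ ?_
  all_goals simp only [Finset.mem_Ico]
  · omega
  · omega
  · omega
  · omega
  · exact fun s hs => (ha s (by omega)).symm

lemma orth {m : ℕ} (hm : 0 < m) {ω : ℂ} (hω : IsPrimitiveRoot ω m) (a : ℕ → ℂ) :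
    ∑ s ∈ Finset.range m, (∑ t ∈ Finset.range m, (ω ^ s) ^ t * a t) / m = a 0 := by
  have m0 : (m : ℂ) ≠ 0 := Nat.cast_ne_zero.2 hm.ne'
  rw [← Finset.sum_div, Finset.sum_comm, div_eq_iff m0,
    Finset.sum_eq_single_of_mem 0 (Finset.mem_range.2 hm) fun t ht t0 => ?_]
  · simp [mul_comm]
  · have h1 : ω ^ t ≠ 1 := hω.pow_ne_one_of_pos_of_lt t0 (Finset.mem_range.1 ht)
    rw [← Finset.sum_mul, Finset.sum_congr rfl fun s _ => pow_right_comm ω s t, geom_sum_eq h1,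
      pow_right_comm, hω.pow_eq_one, one_pow, sub_self, zero_div, zero_mul]

end FN

open MvPolynomial

variable {k : Type} [Field k] {dd : ℕ}

/-- The cyclic cover over the algebraic closure. -/
noncomputable def GD.up (G : GD k dd) : GD (AlgebraicClosure k) dd where
  m := G.m
  e := G.e
  u := G.u
  n := G.n
  a := G.a
  w := G.w
  lam := algebraMap k _ G.lam
  pos := G.pos
  pm := G.pm
  m2 := G.m2
  hu := G.hu
  hn := G.hn
  hw := G.hw
  od := G.od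
  sw := G.sw
  cop := G.cop
  nd := G.nd
  ch := by
    rw [← map_natCast (algebraMap k (AlgebraicClosure k))]
    exact (map_ne_zero _).2 G.ch
  l0 := (map_ne_zero _).2 G.l0
  disc h := G.disc ((algebraMap k (AlgebraicClosure k)).injective (by simpa using h))

lemma GD.up_F (G : GD k dd) :
    MvPolynomial.map (algebraMap k (AlgebraicClosure k)) G.F = G.up.F := by
  simp only [GD.F, brF, GD.up, map_add, map_sum, map_mul, map_pow, map_prod, map_X, map_C]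

lemma GD.nsq0 [XA (AlgebraicClosure k) dd] (G : GD k dd) (g : MvPolynomial (Vr dd) k) :
    g ^ G.m ≠ G.F :=
  fun h => XA.nsq G.up (.base _) (MvPolynomial.map (algebraMap k (AlgebraicClosure k)) g) (by
    rw [show G.up.m = G.m from rfl, ← map_pow, h, G.up_F]
    exact (MvPolynomial.map_id _).symm)

lemma GD.hI [X0 dd] [XJ dd] (G : GD k dd) : Homog (dpI G.m G.e G.F) := XJ.hom (X0.num G).1 G.homF

lemma GD.hs [X0 dd] [XK dd] (G : GD k dd) (s : G.σ) :
    Algebra.Smooth k (Chart (dpI G.m G.e G.F) s) :=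
  XK.smooth (X0.num G).1 (X0.num G).2.2.2.1 G.homF (fun x hx _ => X0.sm G _ x hx) s

lemma GD.hd [X0 dd] [XJ dd] [XA (AlgebraicClosure k) dd] (G : GD k dd) :
    ∀ P ∈ (dpI G.m G.e G.F).minimalPrimes,
      ringKrullDim (MvPolynomial G.σ k ⧸ P) = (2 * dd + 1 : ℕ) := fun P hP => by
  obtain ⟨h1, h2⟩ := XJ.dim G.pm (X0.num G).1 G.nsq0
  rw [Ideal.minimalPrimes_eq_subsingleton_self] at hP
  rw [Set.mem_singleton_iff.1 hP]
  exact h2

lemma GD.upI_eq [XJ dd] (G : GD k dd) :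
    upI (dpI G.m G.e G.F) = dpI G.up.m G.up.e G.up.F := by
  rw [XJ.up, G.up_F]; rfl

lemma GD.PP_eq (G : GD k dd) (ζ : k) (q : ℕ) : ∃ R : ℕ → Polynomial ℚ, ∀ η : ℂ,
    G.PP ζ η q = fun j => Polynomial.aeval η (R j) := by
  refine ⟨fun j => if j = 0 then Polynomial.C (G.n : ℚ) else (∑ s ∈ Finset.range G.m,
    Polynomial.X ^ s * Polynomial.C (G.fx (q ^ j) (ζ ^ s) : ℚ)) * Polynomial.C (G.m : ℚ)⁻¹,
    fun η => funext fun j => ?_⟩
  unfold GD.PP GD.tr
  split_ifs with h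
  · simp [h]
  · simp [h, div_eq_mul_inv]

variable [Finite k] {p : ℕ} [CharP k p] [XT] [XZ] [X0 dd] [XJ dd] [XK dd] [ZA] [ZB] [ZC] [ZD] [ZE]
  [ZT] [XA (AlgebraicClosure k) dd] [XI (AlgebraicClosure k) p dd] [XV (AlgebraicClosure k) p dd]
  [XF (AlgebraicClosure k) p dd] [ZR (AlgebraicClosure k) p dd] [XQ (AlgebraicClosure k) p dd]

include p in
theorem decomp (G : GD k dd) (hm : G.m ∣ Nat.card k + 1) (L : ℕ → Type) [∀ m, Field (L m)]
    [∀ m, Algebra k (L m)] (hL : ∀ m, Module.finrank k (L m) = m + 1) : ∃ ν : ℂ →₀ ℤ,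
    (∀ m, (points (dpI G.m G.e G.F) (L m) : ℂ) = ν.sum fun z c => c * z ^ (m + 1)) ∧
    (ν ((Nat.card k : ℂ) ^ dd) + ν (-(Nat.card k : ℂ) ^ dd) ≤ 3 * (G.m - 1) →
      ∃ f : Polynomial ℚ, f.eval ((Nat.card k : ℚ) ^ dd) ≠ 0 ∧
      ∀ t, (f.sum fun j a => a • (T0.sm (AlgebraicClosure k) G.hI G.hs G.hd).grC
        (Nat.card k ^ (j + t))) ∈
        RatB (upI (dpI G.m G.e G.F)) ⊔ ⨆ δ, ProdB (upI (dpI G.m G.e G.F)) δ) := by
  classical
  have hq : 1 < Nat.card k := Finite.one_lt_card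
  have q0 : (Nat.card k : ℂ) ≠ 0 := Nat.cast_ne_zero.2 (by omega)
  have Q0 : (Nat.card k : ℂ) ^ dd ≠ 0 := pow_ne_zero _ q0
  have hF : G.up.Fr p (Nat.card k) := by
    have := Fintype.ofFinite k
    obtain ⟨f, -, hf⟩ := FiniteField.card k p
    refine ⟨⟨f, by rw [Nat.card_eq_fintype_card, hf]⟩, ?_⟩
    show algebraMap k _ G.lam ^ _ = algebraMap k _ G.lam
    rw [← map_pow, Nat.card_eq_fintype_card, FiniteField.pow_card]
  have hFq : G.up.Fq p (Nat.card k) := ⟨hF, hm⟩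
  have hY : (T0.sm (AlgebraicClosure k) G.hI G.hs G.hd).I = dpI G.up.m G.up.e G.up.F := G.upI_eq
  obtain ⟨r₀, hr₀⟩ := (X0.num G.up).2.1
  obtain ⟨r, sd, E, h1, h2, h3⟩ := ZA.frob r₀
  choose e he h3 using h3
  have mp : 0 < G.up.m := G.pm.pos
  have : NeZero (G.up.m : AlgebraicClosure k) := ⟨(X0.num G.up).2.2.2.1⟩
  have : NeZero G.up.m := ⟨mp.ne'⟩
  obtain ⟨ζ, hζ⟩ := HasEnoughRootsOfUnity.exists_primitiveRoot (AlgebraicClosure k) G.up.m
  obtain ⟨ω, hω⟩ : ∃ ω : ℂ, IsPrimitiveRoot ω G.up.m := ⟨_, Complex.isPrimitiveRoot_exp _ mp.ne'⟩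
  have hs : ∀ s ∈ Finset.Ico 1 G.up.m, IsPrimitiveRoot (ω ^ s) G.up.m := fun s hs =>
    hω.pow_of_coprime s (Nat.coprime_of_lt_prime (by have := Finset.mem_Ico.1 hs; omega)
      (Finset.mem_Ico.1 hs).2 G.pm).symm
  have gal : ∀ {η η' : ℂ}, IsPrimitiveRoot η G.up.m → IsPrimitiveRoot η' G.up.m → ∀ e,
      dsum E (lamP ((Nat.card k : ℂ) ^ dd) (G.up.PP ζ η (Nat.card k)))
        ((Nat.card k : ℂ) ^ dd) e = 0 →
      dsum E (lamP ((Nat.card k : ℂ) ^ dd) (G.up.PP ζ η' (Nat.card k)))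
        ((Nat.card k : ℂ) ^ dd) e = 0 := fun a b e h => by
    obtain ⟨R, hR⟩ := G.up.PP_eq ζ (Nat.card k)
    have h4 := ZE.gal mp a b R ((Nat.card k : ℚ) ^ dd) E e
    push_cast at h4
    rw [hR] at h ⊢
    exact h4 h
  by_cases hA : ∃ a, (∀ i, Even (a i)) ∧ dsum E (lamP ((Nat.card k : ℂ) ^ dd)
      (G.up.PP ζ ω (Nat.card k))) ((Nat.card k : ℂ) ^ dd) (e a) ≠ 0
  · obtain ⟨a, ha, hA⟩ := hA
    choose! f k1 k2 k3 using fun s (h : s ∈ Finset.Ico 1 G.up.m) =>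
      ZR.rel (p := p) (G := G.up) hq hFq hζ (hs s h).pow_eq_one ((hs s h).ne_one G.pm.one_lt)
        hr₀.symm sd E h1 h2 (e a) (he a ha) fun h' => hA (gal (hs s h) hω _ h')
    obtain ⟨f, h4, h5⟩ := XZ.one
      (RatB (upI (dpI G.m G.e G.F)) ⊔ ⨆ δ, ProdB (upI (dpI G.m G.e G.F)) δ)
      (fun j => (T0.sm (AlgebraicClosure k) G.hI G.hs G.hd).grC (Nat.card k ^ j))
      {(Nat.card k : ℂ) ^ dd, 0} fun β hβ => by
        refine ⟨∏ s ∈ Finset.Ico 1 G.up.m, f s, ?_, fun b hb t => ?_⟩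
        · rw [Polynomial.eval_prod]
          exact Finset.prod_ne_zero_iff.2 fun s h =>
            hβ.elim (fun e => e ▸ k1 s h) fun e => e ▸ k2 s h
        obtain ⟨φ, v, l1, l2⟩ := XQ.brg (p := p) G.up _ hY _ hF hζ hω b hb
        have h4 : ∀ s ∈ Finset.Ico 1 G.up.m, ∀ s' ∈ Finset.Ico 1 G.up.m,
            Polynomial.aeval Fn2.sh (∏ s ∈ Finset.Ico 1 G.up.m, f s) (v s s') = 0 :=
          fun s h s' h' => by
            have h5 : Polynomial.aeval Fn2.sh (f s) (v s s') = 0 := funext fun t => by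
              rw [Fn2.aeval_sh]
              exact k3 s h (φ s s') _ (hs s' h').pow_eq_one (l1 s h s' h').1 (l1 s h s' h').2.1 _
                (l1 s h s' h').2.2 t
            rw [← Finset.prod_erase_mul _ _ h, map_mul, Module.End.mul_apply, h5, map_zero]
        have h5 : Polynomial.aeval Fn2.sh (∏ s ∈ Finset.Ico 1 G.up.m, f s)
            (∑ s ∈ Finset.Ico 1 G.up.m, ∑ s' ∈ Finset.Ico 1 G.up.m, v s s') = 0 := by
          rw [map_sum]
          refine Finset.sum_eq_zero fun s h => ?_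
          rw [map_sum]
          exact Finset.sum_eq_zero (h4 s h)
        have h6 := congrFun h5 t
        rw [Fn2.aeval_sh] at h6
        simp only [Finset.sum_apply, l2] at h6
        rw [Polynomial.sum_def] at h6 ⊢
        simp only [← mul_div_assoc, ← Finset.sum_div] at h6
        exact (div_eq_zero_iff.1 h6).resolve_right (Nat.cast_ne_zero.2 mp.ne')
    have h6 : ∀ x : ℚ, f.eval x = 0 → Polynomial.aeval (x : ℂ) f = 0 := fun x h => by
      have h7 := Polynomial.aeval_algebraMap_apply ℂ x f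
      rwa [Polynomial.coe_aeval_eq_eval, h, map_zero] at h7
    obtain ⟨g, g0, hg⟩ := ZT.rc G.hI G.hs G.hd f (fun h => h4 0 (Or.inr rfl) (by
      simpa using h6 0 (by rwa [← Polynomial.coeff_zero_eq_eval_zero]))) h5 L hL
    obtain ⟨ν, -, hν⟩ := ZD.rat G.hI L hL g g0 hg
    exact ⟨ν, hν, fun _ => ⟨f, fun h => h4 _ (Or.inl rfl) (by simpa using h6 _ h), h5⟩⟩
  · have h4 : ∀ s ∈ Finset.Ico 1 G.up.m, ∃ ν : ℂ →₀ ℕ, 3 ≤ ν 1 ∧ ∀ j : ℕ,
        G.up.PP ζ (ω ^ s) (Nat.card k) (2 * j) =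
          ((Nat.card k : ℂ) ^ dd) ^ (2 * j) * ν.sum fun z c => c * z ^ j := fun s h => by
      obtain ⟨σ, hσ⟩ := ZB.ex fun m =>
        G.up.PP ζ (ω ^ s) (Nat.card k) m / ((Nat.card k : ℂ) ^ dd) ^ m
      obtain ⟨ν, -, l1, l2⟩ := ZC.cnt σ r₀ (fun a ha => by
        have h5 := (h3 a _ _ σ Q0 hσ).symm.trans
          (gal hω (hs s h) _ (by_contra fun h => hA ⟨a, ha, h⟩))
        exact (mul_eq_zero.1 h5).resolve_left (mul_ne_zero (mul_ne_zero (by simp)
          (Nat.cast_ne_zero.2 r₀.factorial_ne_zero)) (pow_ne_zero _ Q0))) (by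
        rw [show chC 0 = chC (0 : ℕ) from rfl, hσ, GD.PP, if_pos rfl, hr₀]
        simp)
      exact ⟨ν, l1, fun j => by rw [← l2, hσ, mul_div_cancel₀ _ (pow_ne_zero _ Q0)]⟩
    choose! ν l1 l2 using h4
    obtain ⟨h, hh⟩ : Odd G.up.m := G.pm.odd_of_ne_two G.m2
    have sub : ∀ s ∈ Finset.Ico 1 (h + 1), s ∈ Finset.Ico 1 G.up.m := fun s hs => by
      rw [Finset.mem_Ico] at hs ⊢
      omega
    obtain ⟨μ, k1, k2⟩ := FN.sq (∑ s ∈ Finset.Ico 1 (h + 1), ν s) ((Nat.card k : ℂ) ^ dd)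
    refine ⟨∑ i ∈ Finset.range (2 * dd + 1), Finsupp.single ((Nat.card k : ℂ) ^ i) 1 + μ,
      fun m => ?_, fun h5 => absurd h5 (not_le.2 ?_)⟩
    · have h5 := congrArg (Nat.cast : ℕ → ℂ)
        (XI.cnt (p := p) G.up _ (Nat.one_lt_pow (Nat.add_one_ne_zero m) hq) (XV.pow hF (m + 1)) hζ)
      have h6 := FN.orth mp hω fun t => G.up.fx (Nat.card k ^ (m + 1)) (ζ ^ t)
      have h7 : ∑ s ∈ Finset.Ico 1 G.up.m, G.up.PP ζ (ω ^ s) (Nat.card k) (m + 1) =
          2 * ∑ s ∈ Finset.Ico 1 (h + 1), G.up.PP ζ (ω ^ s) (Nat.card k) (m + 1) := by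
        rw [← FN.pair _ fun s hs => ?_, hh]
        rw [← hh] at hs ⊢
        rw [← XF.sym (p := p) hFq hζ (η := ω ^ s) (by rw [pow_right_comm, hω.pow_eq_one, one_pow]),
          pow_sub₀ _ (hω.ne_zero mp.ne') hs, hω.pow_eq_one, one_mul]
      rw [Finset.range_eq_Ico, Finset.sum_eq_sum_Ico_succ_bot mp, ← Finset.range_eq_Ico] at h6
      push_cast at h5
      simp only [pow_zero, one_pow, one_mul, h5, zero_add] at h6
      rw [mul_div_cancel_left₀ _ (Nat.cast_ne_zero.2 mp.ne')] at h6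
      rw [(XT.fixed G.hI G.hs G.hd (L m) m (hL m)).trans
        (XI.fix (p := p) G.up _ hY _ (XV.pow hF _)), FN.sum_eq, map_add, map_sum, k2, ← h6]
      simp only [Finsupp.linearCombination_single, one_smul]
      congr 1
      · exact Finset.sum_congr rfl fun i _ => pow_right_comm _ _ _
      refine Eq.trans (Finset.sum_congr rfl fun s _ => ?_) (h7.trans ?_)
      · rw [GD.PP, if_neg m.succ_ne_zero, GD.tr]
      split_ifs with ev
      · obtain ⟨i, hi⟩ := ev.two_dvd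
        rw [hi, Nat.mul_div_cancel_left _ two_pos, ← Finsupp.sum_finset_sum_index (by simp)
          (by simp [add_mul]), mul_assoc, Finset.mul_sum _ _ (_ ^ (2 * i))]
        exact congrArg _ (Finset.sum_congr rfl fun s hs => l2 s (sub s hs) i)
      · rw [Finset.sum_eq_zero fun s h' => XF.odd (p := p) hFq hζ (hs s (sub s h')).pow_eq_one
          ((hs s (sub s h')).ne_one G.pm.one_lt) _ (Nat.not_even_iff_odd.1 ev), mul_zero]
    · have h6 : 3 * h ≤ (∑ s ∈ Finset.Ico 1 (h + 1), ν s) 1 := by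
        rw [Finsupp.finsetSum_apply]
        simpa [mul_comm] using Finset.card_nsmul_le_sum _ (fun s => ν s 1) 3
          fun s hs => l1 s (sub s hs)
      have h7 : (1 : ℤ) ≤ (∑ i ∈ Finset.range (2 * dd + 1),
          Finsupp.single ((Nat.card k : ℂ) ^ i) (1 : ℤ)) ((Nat.card k : ℂ) ^ dd) := by
        rw [Finsupp.finsetSum_apply]
        refine le_trans ?_ (Finset.single_le_sum (fun i _ => ?_)
          (Finset.mem_range.2 (show dd < 2 * dd + 1 by omega)))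
        · rw [Finsupp.single_eq_same]
        · rw [Finsupp.single_apply]
          positivity
      have h8 : (0 : ℤ) ≤ (∑ i ∈ Finset.range (2 * dd + 1),
          Finsupp.single ((Nat.card k : ℂ) ^ i) (1 : ℤ)) (-(Nat.card k : ℂ) ^ dd) := by
        rw [Finsupp.finsetSum_apply]
        refine Finset.sum_nonneg fun i _ => ?_
        rw [Finsupp.single_apply]
        positivity
      have h9 : G.m = 2 * h + 1 := hh
      have k3 := k1 _ (Or.inl rfl)
      have k4 := k1 _ (Or.inr rfl)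
      rw [Finsupp.add_apply, Finsupp.add_apply]
      omega

include p in
theorem zeta_dec (G : GD k dd) (hm : G.m ∣ Nat.card k + 1) (L : ℕ → Type) [∀ m, Field (L m)]
    [∀ m, Algebra k (L m)] (hL : ∀ m, Module.finrank k (L m) = m + 1) :
    ∃ ζ : ℂ → ℂ, IsZeta (dpI G.m G.e G.F) (2 * dd) L ζ ∧
    (((-3 * (G.m - 1) : ℤ) : WithTop ℤ) ≤ meromorphicOrderAt ζ dd +
      meromorphicOrderAt ζ (dd + Real.pi * Complex.I / Real.log (Nat.card k)) →
    (∀ F : ∀ P : Var (dpI G.m G.e G.F) dd, Res (dpI G.m G.e G.F) P.1, ∃ ρ : ℕ,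
      Module.rank ℤ (Num (dpI G.m G.e G.F) dd dd F) = ρ ∧
        meromorphicOrderAt ζ dd = (-(ρ : ℤ) : ℤ)) ∧
    ([ZY] → TateAt (Nat.card k) dd (upI (dpI G.m G.e G.F)))) := by
  obtain ⟨ν, h1, h2⟩ := decomp (p := p) G hm L hL
  obtain ⟨ζ, h3, h4⟩ := ZT.zeta G.hI G.hd L hL ν h1
  refine ⟨ζ, h3, fun h => ?_⟩
  rw [h4, h4, HN.FN.cpow_pi Finite.one_lt_card, Complex.cpow_natCast, ← WithTop.coe_add,
    WithTop.coe_le_coe] at h
  obtain ⟨f, h5, h6⟩ := h2 (by omega)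
  refine ⟨fun F => ?_, ZY.tate G.hI G.hs G.hd ?_ ?_ f dd h5 (h6 0)⟩
  · obtain ⟨ρ, h7, h8⟩ := ZT.tate G.hI G.hs G.hd f dd dd (two_mul dd).symm h5 h6 L hL ν h1 F
    exact ⟨ρ, h7, by rw [h4, Complex.cpow_natCast, ← h8]⟩
  · rw [G.upI_eq]
    exact (XJ.dim G.up.pm (X0.num G.up).1 fun g h =>
      XA.nsq G.up (.base _) g (h.trans (MvPolynomial.map_id _).symm)).1
  · rw [G.upI_eq]
    refine ⟨some fun _ => 0, fun h => ?_⟩
    have h7 := XI.zl (p := p) G.up (.base _) (Pi.single 0 1, 0)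
      ((zero_pow G.pm.ne_zero).trans (X0.e0 G.up _ 0).symm) _ h
    have h8 : G.up.nu (L := AlgebraicClosure k) (Pi.single 0 1, 0) (some fun _ => 0) = 0 :=
      (aeval_X _ _).symm.trans h7
    simp [GD.nu] at h8

end Pool.Agent.Lib.MP_557161_ag.HG.HN.HC
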