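import Pool.Agent.Lib.MP_557161_ag.HC.StY
import Pool.Agent.Lib.MP_557161_ag.HN.X0

/-!
The branch hypersurface is smooth.
-/

namespace Pool.Agent.Lib.MP_557161_ag.HG.HN.HC

open Pool.Agent.Lib.MP_557161_ag.DL MvPolynomial

variable {K : Type} [Field K] {dd : ℕ}

open HN.X0a (aeval_brF aeval_pd cyc cs)

namespace X0c

variable (G : GD K dd)

theorem m_ne : (G.m : K) ≠ 0 := fun h => G.ch (by push_cast; rw [h]; ring)

theorem e_ne : (G.e : K) ≠ 0 := fun h => G.ch (by push_cast; rw [h]; ring)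

theorem n_ne : (G.n : K) ≠ 0 := fun h => G.ch (by push_cast; rw [h]; ring)

theorem a_ne (i : Vr dd) : (G.a i : K) ≠ 0 := fun h => G.ch (by
  push_cast
  rw [Finset.prod_eq_zero (Finset.mem_univ i) h, mul_zero])

theorem a_pos (i : Vr dd) : 0 < G.a i := Nat.pos_of_ne_zero fun h => a_ne G i (by simp [h])

theorem w_pos (i : Vr dd) : 0 < G.w i := by
  have h1 := G.hw i
  have h2 := a_pos G (i - 1)
  refine Nat.pos_of_ne_zero fun h => ?_
  rw [h] at h1
  omega

theorem e_pos : 0 < G.e := Nat.pos_of_ne_zero fun h => e_ne G (by simp [h])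

theorem two_le_u : 2 ≤ G.u := by
  have h := Finset.sum_le_sum fun i (_ : i ∈ Finset.univ) => Nat.succ_le_of_lt (w_pos G i)
  rw [G.sw, Finset.sum_const, Finset.card_univ, Fintype.card_fin, smul_eq_mul, ← G.hu] at h
  have := G.pos
  omega

theorem sum_a : ∑ i, G.a i = G.n := by
  refine Nat.eq_of_mul_eq_mul_left (Nat.succ_pos G.u) ?_
  have h : ∑ i, G.n * G.w i = ∑ i, (G.u * G.a i + G.a (i - 1)) :=
    Finset.sum_congr rfl fun i _ => G.hw i
  rw [← Finset.mul_sum, G.sw, ← G.hu, Finset.sum_add_distrib, ← Finset.mul_sum,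
    Fintype.sum_equiv (Equiv.subRight 1) (fun i => G.a (i - 1)) G.a fun _ => rfl] at h
  rw [Nat.succ_eq_add_one, mul_comm _ G.n, h]
  ring

theorem n_eq : (G.n : ℤ) = ∑ i ∈ Finset.range (2 * dd + 1), (-(G.u : ℤ)) ^ i := by
  have h := mul_neg_geom_sum (-(G.u : ℤ)) (2 * dd + 1)
  have h1 : (G.n : ℤ) * (G.u + 1) = G.u ^ (2 * dd + 1) + 1 := by exact_mod_cast G.hn
  rw [Odd.neg_pow ⟨dd, rfl⟩] at h
  refine mul_left_cancel₀ (show (G.u : ℤ) + 1 ≠ 0 by positivity) ?_
  linear_combination h1 - h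

theorem odd_n : Odd G.n := by
  have h := congrArg (Nat.cast : ℕ → ZMod 2) (sum_a G)
  have h3 : (2 : ZMod 2) = 0 := rfl
  push_cast at h
  simp only [fun i => (ZMod.natCast_eq_one_iff_odd).2 (G.od i), Finset.sum_const, Finset.card_univ,
    Fintype.card_fin, nsmul_eq_mul, mul_one] at h
  push_cast at h
  rw [h3, zero_mul, zero_add] at h
  exact ZMod.natCast_eq_one_iff_odd.1 h.symm

theorem ne_add_one (G : GD K dd) (i : Vr dd) : i + 1 ≠ i := fun h => by
  have h1 : (1 : Vr dd) = 0 := add_eq_left.1 h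
  have := G.pos
  have h2 := congrArg Fin.val h1
  rw [Fin.val_one', Nat.mod_eq_of_lt (by omega)] at h2
  exact one_ne_zero h2

theorem smooth {L : Type} [Field L] [Algebra K L] {x : Vr dd → L} (hx : x ≠ 0) :
    ∃ i, aeval x (pderiv i (brF G.u G.w G.lam)) ≠ 0 := by
  by_contra! h
  simp only [aeval_pd] at h
  have hu := two_le_u G
  have hw := w_pos G
  have cast : ∀ m : ℕ, (m : K) ≠ 0 → (m : L) ≠ 0 := fun m hm => by
    rw [← map_natCast (algebraMap K L)]
    exact (map_ne_zero _).2 hm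
  have z : ∀ i, x i = 0 → x (i - 1 - 1) = 0 := fun i hi => by
    have h1 := h (i - 1)
    have := hw i
    have n : i ∈ Finset.univ.erase (i - 1) := Finset.mem_erase.2
      ⟨fun e => ne_add_one G i (eq_sub_iff_add_eq.1 e), Finset.mem_univ _⟩
    rw [sub_add_cancel, hi, Finset.prod_eq_zero n (by rw [hi, zero_pow (by omega)])] at h1
    simp only [mul_zero, zero_add, add_zero] at h1
    exact pow_eq_zero_iff (by omega) |>.1 h1
  have nz : ∀ i, x i ≠ 0 := fun i hi => hx (funext fun j => by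
    have k := cyc (P := fun l _ => x (l + l - i) = 0) i (by rwa [add_sub_cancel_right])
      (fun l _ hl => by rw [show l - 1 + (l - 1) - i = l + l - i - 1 - 1 by abel]; exact z _ hl)
      (i - (dd + 1) • (j + i))
    have k0 : (2 * dd + 1) • (j + i) = 0 := by
      simpa using card_nsmul_eq_zero (x := j + i)
    rwa [sub_sub_cancel, ← add_nsmul, show dd + 1 + (dd + 1) = 2 * dd + 1 + 1 by ring, succ_nsmul, k0,
      zero_add, add_sub_cancel_right] at k)
  set l := algebraMap K L G.lam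
  set m := l * ∏ i, x i ^ G.w i with hm
  have m0 : m ≠ 0 := mul_ne_zero ((map_ne_zero _).2 G.l0)
    (Finset.prod_ne_zero_iff.2 fun i _ => pow_ne_zero _ (nz i))
  let y : Vr dd → L := fun i => G.n * (x i ^ G.u * x (i + 1)) + G.a i * m
  have h1 : ∀ i, G.u * y i + y (i - 1) = 0 := fun i => by
    have e1 : (G.n : L) * G.w i = G.u * G.a i + G.a (i - 1) := by exact_mod_cast congrArg _ (G.hw i)
    have e2 : x i ^ G.u = x i ^ (G.u - 1) * x i := by rw [← pow_succ]; congr 1; omega
    have e3 : m = l * (x i ^ (G.w i - 1) * x i * ∏ l ∈ Finset.univ.erase i, x l ^ G.w l) := by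
      have := hw i
      rw [← pow_succ, show G.w i - 1 + 1 = G.w i by omega, hm,
        Finset.mul_prod_erase _ (fun l => x l ^ G.w l) (Finset.mem_univ i)]
    simp only [y, sub_add_cancel]
    linear_combination (G.n * x i) * h i + (G.n * G.u * x (i + 1)) * e2 + (G.n * G.w i) * e3 -
      m * e1
  have h2 : ∀ i, y i = 0 := fun i => by
    have e1 : ((G.u : L) + 1) = G.m * G.e := by exact_mod_cast congrArg _ G.hu
    have e2 : (G.n : L) * (G.u + 1) = G.u ^ (2 * dd + 1) + 1 := by exact_mod_cast congrArg _ G.hn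
    have e3 := cyc (P := fun l k => y l = (-(G.u : L)) ^ k * y i) i (by simp)
      (fun l k hl => by linear_combination h1 l - G.u * hl) (Fin.last _)
    have e4 := h1 (i - Fin.last _)
    rw [sub_sub, Fin.last_add_one, sub_zero, e3, Fin.val_last, Even.neg_pow ⟨dd, two_mul dd⟩] at e4
    refine mul_left_cancel₀ (mul_ne_zero (mul_ne_zero (cast _ (m_ne G))
      (cast _ (e_ne G))) (cast _ (n_ne G))) ?_
    linear_combination e4 - (G.n * y i) * e1 + y i * e2
  have h3 : ∏ i, ((G.n : L) * (x i ^ G.u * x (i + 1))) ^ G.a i = ∏ i, (-m * G.a i) ^ G.a i :=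
    Finset.prod_congr rfl fun i _ => congrArg (· ^ _) (by linear_combination h2 i)
  have h4 : ∏ i, (x i ^ G.u * x (i + 1)) ^ G.a i = (∏ i, x i ^ G.w i) ^ G.n := by
    simp only [← Finset.prod_pow, mul_pow, ← pow_mul, mul_comm (G.w _) G.n, G.hw, pow_add,
      Finset.prod_mul_distrib]
    congr 1
    exact Fintype.prod_equiv (Equiv.addRight 1) _ _ fun i => by simp
  simp only [mul_pow (G.n : L), mul_pow (-m), Finset.prod_mul_distrib, Finset.prod_pow_eq_pow_sum,
    sum_a G, h4] at h3
  apply G.disc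
  apply (algebraMap K L).injective
  simp only [map_mul, map_pow, map_prod, map_natCast, map_neg]
  refine mul_left_cancel₀ (pow_ne_zero G.n (neg_ne_zero.2 m0)) ?_
  rw [mul_left_comm, ← h3, ← mul_pow, ← mul_pow, ← mul_pow, hm]
  congr 1
  ring

theorem e0 (L : Type) [Field L] [Algebra K L] (i : Vr dd) :
    aeval (Pi.single i (1 : L) : Vr dd → L) G.F = 0 := by
  have hu := two_le_u G
  rw [aeval_brF, Finset.sum_eq_zero, Finset.prod_eq_zero (Finset.mem_univ (i + 1)), mul_zero,
    add_zero]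
  · rw [Pi.single_eq_of_ne (ne_add_one G i), zero_pow (by have := w_pos G (i + 1); omega)]
  · intro l _
    by_cases h : l = i
    · rw [h, Pi.single_eq_of_ne (ne_add_one G i), mul_zero]
    · rw [Pi.single_eq_of_ne h, zero_pow (by omega), zero_mul]

theorem bd (i : Vr dd) : ∃ c : Vr dd → ℤ,
    ∀ (L : Type) [Field L] [Algebra K L] (t : L) (x : Vr dd → L), t ≠ 0 → x i = 0 →
      aeval (fun l => t ^ (G.m * c l) * x l) G.F = t ^ G.m * aeval x G.F := by
  refine ⟨fun l => cs G.u (l - (i + 1)).val, fun L _ _ t x ht hx => ?_⟩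
  have hu := two_le_u G
  have hw := w_pos G i
  rw [aeval_brF, aeval_brF, Finset.prod_eq_zero (Finset.mem_univ i),
    Finset.prod_eq_zero (Finset.mem_univ i), mul_zero, add_zero, add_zero, Finset.mul_sum]
  · refine Finset.sum_congr rfl fun l _ => ?_
    by_cases h : l = i
    · rw [h, hx, mul_zero, zero_pow (by omega), zero_mul, zero_mul, mul_zero]
    · have e : (l + 1 - (i + 1)).val = (l - (i + 1)).val + 1 := by
        rw [show l + 1 - (i + 1) = l - (i + 1) + 1 by abel, Fin.val_add_one, if_neg]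
        intro h'
        have := Fin.last_add_one (2 * dd)
        rw [← h'] at this
        exact h (sub_eq_zero.1 (by rw [← this]; abel))
      beta_reduce
      rw [e, cs, mul_pow, ← zpow_natCast (t ^ _), ← zpow_mul, mul_mul_mul_comm, ← zpow_add₀ ht,
        ← zpow_natCast t G.m]
      congr 2
      ring
  · rw [hx, zero_pow (by omega)]
  · rw [hx, mul_zero, zero_pow (by omega)]

end X0c

open X0c in
theorem X0_thm : X0 dd where
  num G := ⟨e_pos G, odd_n G, two_le_u G, m_ne G, e_ne G, w_pos G, n_eq G⟩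
  sm G _ _ _ _ hx := smooth G hx
  pd G i := by
    have := G.homF.pderiv (i := i)
    rwa [← G.hu, Nat.add_sub_cancel] at this
  eul G L _ _ x := by
    have := congrArg (aeval x) G.homF.sum_X_mul_pderiv
    simp only [map_sum, map_mul, aeval_X, nsmul_eq_mul, map_natCast] at this
    push_cast at this
    rw [← this]
    exact Finset.sum_congr rfl fun i _ => mul_comm _ _
  e0 G := e0 G
  bd G := bd G

end Pool.Agent.Lib.MP_557161_ag.HG.HN.HC
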