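import Pool.Agent.Lib.MP_557161_ag.HC.XI

/-!
Symmetries of the numbers of fixed points.
-/

namespace Pool.Agent.Lib.MP_557161_ag.HG.HN.HC

open Pool.Agent.Lib.MP_557161_ag.DL MvPolynomial

namespace XFc

open XIn (Nm)

variable {K : Type} [Field K] {dd : ℕ} (G : GD K dd)

lemma fx_pair {Q : ℕ} (hQ : Q ≠ 0) (ξ : K) : G.fx Q ξ = Nat.card {y : (Vr dd → K) × K //
    (Nm y.1 ∧ ∀ i, y.1 i ^ Q = y.1 i) ∧ y.2 ^ G.m = aeval y.1 G.F ∧ ξ * y.2 ^ Q = y.2} := by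
  rw [XIc.fx_eq G (XIc.e_pos G) G.homF hQ]
  exact Nat.card_congr
    { toFun := fun u => ⟨(u.1.1, u.2.1), u.1.2, u.2.2⟩
      invFun := fun y => ⟨⟨y.1.1, y.2.1⟩, y.1.2, y.2.2⟩
      left_inv := fun _ => rfl
      right_inv := fun _ => rfl }

lemma fx_ring {Q : ℕ} (hQ : Q ≠ 0) (φ : K ≃+* K)
    (h : ∀ x : Vr dd → K, aeval (fun i => φ (x i)) G.F = φ (aeval x G.F)) (ξ : K) :
    G.fx Q (φ ξ) = G.fx Q ξ := by
  rw [fx_pair G hQ, fx_pair G hQ]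
  refine (Nat.card_congr (Equiv.subtypeEquiv
    ((Equiv.piCongrRight fun _ => φ.toEquiv).prodCongr φ.toEquiv) fun y => ?_)).symm
  show _ ↔ ((∃ k, φ (y.1 k) = 1 ∧ ∀ i, k < i → φ (y.1 i) = 0) ∧
    ∀ i, φ (y.1 i) ^ Q = φ (y.1 i)) ∧ φ y.2 ^ G.m = aeval (fun i => φ (y.1 i)) G.F ∧
      φ ξ * φ y.2 ^ Q = φ y.2
  simp only [h, ← map_pow, ← map_mul, EmbeddingLike.apply_eq_iff_eq, map_eq_one_iff φ φ.injective,
    map_eq_zero_iff φ φ.injective]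
  rfl

lemma fx_conj {Q : ℕ} (hQ : Q ≠ 0) {θ : K} (h1 : θ ^ G.m = 1) (h2 : θ * θ ^ Q = 1) (ξ : K) :
    G.fx Q (ξ * θ ^ 2) = G.fx Q ξ := by
  have h0 : θ ≠ 0 := left_ne_zero_of_mul_eq_one h2
  rw [fx_pair G hQ, fx_pair G hQ]
  refine (Nat.card_congr (Equiv.subtypeEquiv
    ((Equiv.refl _).prodCongr (Equiv.mulLeft₀ θ h0)) fun y => ?_)).symm
  refine and_congr_right fun _ => ?_
  show _ ↔ (θ * y.2) ^ G.m = aeval y.1 G.F ∧ ξ * θ ^ 2 * (θ * y.2) ^ Q = θ * y.2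
  have e : ξ * θ ^ 2 * (θ * y.2) ^ Q = θ * (ξ * y.2 ^ Q) := by
    rw [mul_pow]
    linear_combination θ * ξ * y.2 ^ Q * h2
  rw [e, mul_pow, h1, one_mul, mul_right_inj' h0]

lemma pow_one_of {m q : ℕ} {θ : K} (h : θ ^ m = 1) (hq : m ∣ q + 1) : θ * θ ^ q = 1 := by
  obtain ⟨c, hc⟩ := hq
  rw [← pow_succ', hc, pow_mul, h, one_pow]

end XFc

variable {K : Type} [Field K] [Base K] {p dd : ℕ} [Fact p.Prime] [CharP K p]

theorem XF_thm [XA K dd] : XF K p dd where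
  sym {G q} hq {ζ η} hζ hη j := by
    unfold GD.PP GD.tr
    split_ifs with hj
    · rfl
    obtain ⟨⟨⟨f, rfl⟩, hl⟩, hm⟩ := hq
    have hQ : (p ^ f) ^ j ≠ 0 := pow_ne_zero _ (pow_ne_zero _ (Fact.out : p.Prime).ne_zero)
    have hp : ExpChar K p := ExpChar.prime Fact.out
    have h1 : ∀ ξ : K, G.fx ((p ^ f) ^ j) (ξ ^ p ^ f) = G.fx ((p ^ f) ^ j) ξ := fun ξ =>
      XFc.fx_ring G hQ (iterateFrobeniusEquiv K p f)
        (XA.frob G (p := p) ⟨⟨f, rfl⟩, hl⟩ (.base K)) ξ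
    have h0 : η ≠ 0 := fun t => by
      rw [t, zero_pow G.pm.ne_zero] at hη
      exact zero_ne_one hη
    let a : ℕ → ℂ := fun s => η ^ s * G.fx ((p ^ f) ^ j) (ζ ^ s)
    have h2 : ∀ s ∈ Finset.range G.m, η⁻¹ ^ s * G.fx ((p ^ f) ^ j) (ζ ^ s) =
        a (G.m - 1 - s + 1) := fun s hs => by
      have hs := Finset.mem_range.1 hs
      have e : G.m - 1 - s + 1 + s = G.m := by omega
      have e1 : η⁻¹ ^ s = η ^ (G.m - 1 - s + 1) := by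
        rw [inv_pow]
        exact (eq_inv_of_mul_eq_one_left (by rw [← pow_add, e, hη])).symm
      have e2 : (ζ ^ s) ^ p ^ f = ζ ^ (G.m - 1 - s + 1) := by
        have t1 := XFc.pow_one_of (θ := ζ ^ s)
          (by rw [← pow_mul, mul_comm, pow_mul, hζ.pow_eq_one, one_pow]) hm
        have t2 : ζ ^ s * ζ ^ (G.m - 1 - s + 1) = 1 := by
          rw [mul_comm, ← pow_add, e, hζ.pow_eq_one]
        exact mul_left_cancel₀ (left_ne_zero_of_mul_eq_one t1) (t1.trans t2.symm)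
      rw [e1, ← h1, e2]
    have h3 : a G.m = a 0 := by simp only [a, hη, hζ.pow_eq_one, pow_zero]
    have h4 := Finset.sum_range_succ' a G.m
    rw [Finset.sum_range_succ, h3, add_left_inj] at h4
    rw [Finset.sum_congr rfl h2, Finset.sum_range_reflect (fun s => a (s + 1)), ← h4]
  odd {G q} hq {ζ η} hζ hη h1 j hj := by
    unfold GD.PP GD.tr
    rw [if_neg hj.pos.ne']
    obtain ⟨⟨⟨f, rfl⟩, -⟩, hm⟩ := hq
    have hQ : (p ^ f) ^ j ≠ 0 := pow_ne_zero _ (pow_ne_zero _ (Fact.out : p.Prime).ne_zero)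
    have hm' : G.m ∣ (p ^ f) ^ j + 1 := hm.trans (by simpa using hj.nat_add_dvd_pow_add_pow (p ^ f) 1)
    obtain ⟨k, hk⟩ := G.pm.odd_of_ne_two G.m2
    have t0 : (ζ ^ (k + 1)) ^ G.m = 1 := by rw [← pow_mul, mul_comm, pow_mul, hζ.pow_eq_one, one_pow]
    have t1 : (ζ ^ (k + 1)) ^ 2 = ζ := by
      rw [← pow_mul, show (k + 1) * 2 = G.m + 1 by omega, pow_succ, hζ.pow_eq_one, one_mul]
    have h2 : ∀ s, G.fx ((p ^ f) ^ j) (ζ ^ s) = G.fx ((p ^ f) ^ j) 1 := fun s => by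
      induction s with
      | zero => rw [pow_zero ζ]
      | succ s ih => rw [← ih, ← XFc.fx_conj G hQ t0 (XFc.pow_one_of t0 hm') (ζ ^ s), t1, pow_succ]
    have h3 : ∑ s ∈ Finset.range G.m, η ^ s = 0 := by
      rw [geom_sum_eq h1, hη, sub_self, zero_div]
    simp only [h2, ← Finset.sum_mul, h3, zero_mul, zero_div]

end Pool.Agent.Lib.MP_557161_ag.HG.HN.HC
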