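import Pool.Agent.Lib.MP_557161_ag.HC.StY
import Pool.Agent.Lib.MP_557161_ag.HN.XG

/-!
Generic points of the cyclic cover.
-/

namespace Pool.Agent.Lib.MP_557161_ag.HG.HN.HC

open Pool.Agent.Lib.MP_557161_ag.DL MvPolynomial
open Pool.Agent.Lib.MP_557161_ag.HG.HN.Xg (card_ne gen_one ext ext_self ext_ne red₀
  deg_free)

variable {K : Type} [Field K] {dd : ℕ}

namespace Xc

variable {L M M₀ : Fld K} {j : ℕ}

lemma fin_pw {β : M₀ →ₐ[K] M} {θ : M} {c : M₀} {m : ℕ} (hm : 0 < m) (h : θ ^ m = β c)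
    (hg : Gen β θ) : Fin' β := by
  refine hg.fin fun ht => ?_
  have h1 := ht (Polynomial.X ^ m - Polynomial.C c) (by
    rw [Polynomial.eval₂_sub, Polynomial.eval₂_X_pow, Polynomial.eval₂_C, h]
    exact sub_self _)
  exact Polynomial.X_pow_sub_C_ne_zero hm c h1

lemma min_pw {A B : Type} [Field A] [Field B] [Algebra A B] {θ : B} {c : A} {m : ℕ}
    (hm : m.Prime) (h : θ ^ m = algebraMap A B c) (hc : ∀ z : A, z ^ m ≠ c) :
    minpoly A θ = Polynomial.X ^ m - Polynomial.C c := by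
  refine (minpoly.eq_of_irreducible_of_monic (X_pow_sub_C_irreducible_of_prime hm hc) ?_
    (Polynomial.monic_X_pow_sub_C c hm.ne_zero)).symm
  rw [map_sub, map_pow, Polynomial.aeval_X, Polynomial.aeval_C, h]
  exact sub_self _

lemma deg_pw {β : M₀ →ₐ[K] M} {θ : M} {c : M₀} {m : ℕ} (hm : m.Prime) (h : θ ^ m = β c)
    (hg : Gen β θ) (hc : ∀ z : M₀, z ^ m ≠ c) : deg β = m := by
  let _ := ValA.alg β
  have : Module.Finite M₀ M := fin_pw hm.pos h hg
  have hi : IsIntegral M₀ θ := Algebra.IsIntegral.isIntegral θ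
  have h2 := IntermediateField.adjoin.finrank hi
  rw [(ValA.gen_iff β θ).1 hg, IntermediateField.finrank_top', min_pw hm h hc,
    Polynomial.natDegree_X_pow_sub_C] at h2
  exact h2

lemma ind_pw {β : M₀ →ₐ[K] M} {θ : M} {c : M₀} {m : ℕ} (hm : m.Prime) (h : θ ^ m = β c)
    (hc : ∀ z : M₀, z ^ m ≠ c) {P : Polynomial M₀} (hP : P.degree < m)
    (e : P.eval₂ β.toRingHom θ = 0) : P = 0 := by
  let _ := ValA.alg β
  by_contra h0
  have h1 := minpoly.degree_le_of_ne_zero M₀ θ h0 e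
  rw [min_pw hm h hc, Polynomial.degree_X_pow_sub_C hm.pos] at h1
  exact hP.not_ge h1

theorem ex (G : GD K dd) (hL : Good j L) :
    ∃ (M : Fld K) (α : L →ₐ[K] M) (y : (xz dd).X M), G.GenU j α y := by
  obtain ⟨M₀, α₀, T, hf⟩ : ∃ (M₀ : Fld K) (α₀ : L →ₐ[K] M₀) (T : {i : Vr dd // i ≠ 0} → M₀),
      Free j α₀ T := ⟨_, _, _, Fa1.fr_free _ hL⟩
  obtain ⟨z, hz⟩ := IsAlgClosed.exists_pow_nat_eq (M₀.toCl (aeval (ext 0 T) G.F)) G.pm.pos
  obtain ⟨M, β, ρ, θ, hc, hθ, hg⟩ := exists_gen M₀.toCl z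
  have h1 : θ ^ G.m = β (aeval (ext 0 T) G.F) := ρ.injective (by
    show ρ (θ ^ G.m) = (ρ.comp β) _
    rw [map_pow, hθ, hz, hc])
  have h2 := hf.gM
  rw [card_ne] at h2
  refine ⟨M, β.comp α₀, (fun i => β (ext 0 T i), θ), hL, h2.of_fin (fin_pw G.pm.pos h1 hg),
    ⟨⟨trivial, fun i => (map_ne_zero β).2 ?_⟩, ?_, ?_⟩, ?_⟩
  · by_cases hi : i = 0
    · rw [hi, ext_self]; exact one_ne_zero
    · have h3 := Fa1.ne hf (X ⟨i, hi⟩) (X_ne_zero _)
      rw [eval₂_X] at h3
      exact fun e => h3 ((congrFun (ext_ne 0 T) ⟨i, hi⟩).symm.trans e)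
  · show β (ext 0 T 0) = 1
    rw [ext_self, map_one]
  · exact h1.trans (Xg.map_aeval β _ _)
  · rw [eq_top_iff, ← (gen_one β θ).2 hg]
    refine Fa1.gen_le (fun a => ?_) fun _ => Fa1.right_mem _ _ (Sum.inr ())
    have h3 : gen α₀ T ≤ (gen (β.comp α₀) ((xz dd).co (fun i => β (ext 0 T i), θ))).comap β :=
      Fa1.gen_le (fun a => Fa1.left_mem (β.comp α₀) _ a) fun i => by
        rw [← congrFun (ext_ne 0 T) i]
        exact Fa1.right_mem (β.comp α₀) ((xz dd).co (fun i => β (ext 0 T i), θ)) (Sum.inl i.1)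
    rw [hf.top] at h3
    exact h3 IntermediateField.mem_top

variable {G : GD K dd} {α : L →ₐ[K] M} {y : (xz dd).X M}

theorem neg (h : G.GenU j α y) (ξ : K) (hξ : ξ ^ G.m = 1) : G.GenU j α (mlt ξ M y) := by
  refine ⟨h.gL, h.gM, ⟨h.mem.1, h.mem.2.1, ?_⟩, ?_⟩
  · show (algebraMap K M ξ * y.2) ^ G.m = _
    rw [mul_pow, ← map_pow, hξ, map_one, one_mul]
    exact h.mem.2.2
  · rw [eq_top_iff, ← h.top]
    refine Fa1.gen_le (Fa1.left_mem _ _) ?_
    rintro (i | i)
    · exact Fa1.right_mem α ((xz dd).co (mlt ξ M y)) (Sum.inl i)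
    · have h0 : ξ ≠ 0 := fun e => zero_ne_one (by rwa [e, zero_pow G.pm.ne_zero] at hξ)
      have h1 := mul_mem (IntermediateField.algebraMap_mem _ ξ⁻¹)
        (Fa1.right_mem α ((xz dd).co (mlt ξ M y)) (Sum.inr i))
      change algebraMap K M ξ⁻¹ * (algebraMap K M ξ * y.2) ∈ _ at h1
      rwa [← mul_assoc, ← map_mul, inv_mul_cancel₀ h0, map_one, one_mul] at h1

lemma sq (h : G.GenU j α y) (k : Vr dd) :
    (y.2 / y.1 k ^ G.e) ^ G.m = aeval (fun i => y.1 i / y.1 k) G.F := by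
  have h1 := aeval_smul_of_isHomogeneous G.homF (y.1 k)⁻¹ y.1
  have h2 : (fun i => y.1 i / y.1 k) = (y.1 k)⁻¹ • y.1 :=
    funext fun i => by rw [Pi.smul_apply, smul_eq_mul, div_eq_inv_mul]
  rw [h2, h1, div_pow, h.mem.2.2, ← pow_mul, mul_comm G.e, inv_pow, div_eq_inv_mul]

theorem chart [XA K dd] (h : G.GenU j α y) (k : Vr dd) :
    ∃ (M₀ : Fld K) (α₀ : L →ₐ[K] M₀) (β : M₀ →ₐ[K] M) (x : Vr dd → M₀),
      β.comp α₀ = α ∧ x k = 1 ∧ (∀ i, β (x i) = y.1 i / y.1 k) ∧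
      Free j α₀ (fun i : {i // i ≠ k} => x i) ∧ deg β = G.m ∧ Gen β (y.2 / y.1 k ^ G.e) := by
  obtain ⟨α₀, β, T, hc, hT, ht⟩ :=
    Fa1.exists_sub α fun i : {i : Vr dd // i ≠ k} => y.1 i / y.1 k
  have hk : y.1 k ≠ 0 := h.mem.1.2 k
  have hx : ∀ i, β (ext k T i) = y.1 i / y.1 k := fun i => by
    by_cases hi : i = k
    · rw [hi, ext_self, map_one, div_self hk]
    · exact (congrArg β (congrFun (ext_ne k T) ⟨i, hi⟩)).trans (hT ⟨i, hi⟩)
  have hs : (y.2 / y.1 k ^ G.e) ^ G.m = β (aeval (ext k T) G.F) := by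
    rw [Xg.map_aeval, funext hx]; exact sq h k
  have hg : Gen β (y.2 / y.1 k ^ G.e) := by
    rw [← gen_one, eq_top_iff, ← h.top]
    have h1 : ∀ i, y.1 i / y.1 k ∈ gen β fun _ : Unit => y.2 / y.1 k ^ G.e := fun i =>
      hx i ▸ Fa1.left_mem β _ _
    have h2 : y.1 k ∈ gen β fun _ : Unit => y.2 / y.1 k ^ G.e := by
      have h3 := inv_mem (h1 0)
      rwa [h.mem.2.1, one_div, inv_inv] at h3
    refine Fa1.gen_le (fun a => ?_) ?_
    · rw [← show β (α₀ a) = α a from AlgHom.congr_fun hc a]; exact Fa1.left_mem β _ _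
    · rintro (i | i)
      · have h3 := mul_mem (h1 i) h2
        rwa [div_mul_cancel₀ _ hk] at h3
      · have h3 := mul_mem (Fa1.right_mem β (fun _ : Unit => y.2 / y.1 k ^ G.e) ())
          (pow_mem h2 G.e)
        rwa [div_mul_cancel₀ _ (pow_ne_zero _ hk)] at h3
  have hf : Free j α₀ fun i : {i // i ≠ k} => ext k T i := by
    rw [ext_ne]
    refine ⟨h.gL, ?_, ht⟩
    rw [card_ne]
    exact h.gM.down (ι := β) ((fin_pw G.pm.pos hs hg).tr_eq.symm.trans h.gM.2)
  exact ⟨_, α₀, β, ext k T, hc, ext_self k T, hx, hf,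
    deg_pw G.pm hs hg (XA.nsq' G _ k (ext_self k T) hf), hg⟩

section Red

variable {R A : Type} [CommRing R] [CommRing A] (k : Vr dd)
  (π : MvPolynomial (Option (Vr dd)) R →+* A)

lemma red₁ (h : π (X (some k)) = 1) (f : MvPolynomial (Option (Vr dd)) R) :
    ∃ P : Polynomial (MvPolynomial {i : Vr dd // i ≠ k} R),
      π f = P.eval₂ (π.comp (rename (fun i => some i.1)).toRingHom) (π (X none)) := by
  induction f using MvPolynomial.induction_on with
  | C c => exact ⟨Polynomial.C (C c), by simp⟩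
  | add p q hp hq =>
    obtain ⟨a, e⟩ := hp
    obtain ⟨a', e'⟩ := hq
    exact ⟨a + a', by rw [map_add, Polynomial.eval₂_add, e, e']⟩
  | mul_X p s hp =>
    obtain ⟨a, e⟩ := hp
    cases s with
    | none => exact ⟨a * Polynomial.X, by rw [map_mul, Polynomial.eval₂_mul_X, e]⟩
    | some i =>
      obtain ⟨c, hc⟩ := red₀ k π h (X i)
      rw [rename_X] at hc
      exact ⟨a * Polynomial.C c, by
        rw [map_mul, Polynomial.eval₂_mul, Polynomial.eval₂_C, e, hc]; rfl⟩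

lemma red [Nontrivial R] (h : π (X (some k)) = 1) {F : MvPolynomial (Vr dd) R} {m : ℕ} (hm : 0 < m)
    (h' : π (X none) ^ m = π (rename some F)) (f : MvPolynomial (Option (Vr dd)) R) :
    ∃ P : Polynomial (MvPolynomial {i : Vr dd // i ≠ k} R), P.degree < m ∧
      π f = P.eval₂ (π.comp (rename (fun i => some i.1)).toRingHom) (π (X none)) := by
  obtain ⟨P, e⟩ := red₁ k π h f
  obtain ⟨c, hc⟩ := red₀ k π h F
  have h1 := Polynomial.monic_X_pow_sub_C c hm.ne'
  refine ⟨P %ₘ (Polynomial.X ^ m - Polynomial.C c), ?_, ?_⟩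
  · rw [← Polynomial.degree_X_pow_sub_C hm c]
    exact Polynomial.degree_modByMonic_lt P h1
  · rw [e, Polynomial.eval₂_modByMonic_eq_self_of_root]
    rw [Polynomial.eval₂_sub, Polynomial.eval₂_X_pow, Polynomial.eval₂_C, h', hc]
    exact sub_self _

end Red

theorem ker [XA K dd] (h : G.GenU j α y) (k : Vr dd) (f : MvPolynomial (Option (Vr dd)) L)
    (hf : eval₂ α.toRingHom (fun s => s.elim (y.2 / y.1 k ^ G.e) fun i => y.1 i / y.1 k) f = 0) :
    f ∈ Ideal.span {X (some k) - 1,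
      X none ^ G.m - rename some (MvPolynomial.map (algebraMap K L) G.F)} := by
  obtain ⟨M₀, α₀, β, x, hc, hk, hx, hF, -, -⟩ := chart h k
  have hs : (y.2 / y.1 k ^ G.e) ^ G.m = β (aeval x G.F) := by
    rw [Xg.map_aeval, funext hx]; exact sq h k
  set I : Ideal (MvPolynomial (Option (Vr dd)) L) := Ideal.span {X (some k) - 1,
    X none ^ G.m - rename some (MvPolynomial.map (algebraMap K L) G.F)} with hI
  let ev : MvPolynomial (Option (Vr dd)) L →+* M :=
    eval₂Hom α.toRingHom fun s => s.elim (y.2 / y.1 k ^ G.e) fun i => y.1 i / y.1 k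
  have h1 : I ≤ RingHom.ker ev := by
    rw [hI, Ideal.span_le]
    rintro _ (rfl | rfl)
    · show ev _ = 0
      rw [map_sub, map_one, eval₂Hom_X']
      exact sub_eq_zero.2 (div_self (h.mem.1.2 k))
    · show ev _ = 0
      rw [map_sub, map_pow, eval₂Hom_X', sub_eq_zero]
      refine (sq h k).trans ?_
      show _ = eval₂ _ _ _
      rw [eval₂_rename, eval₂_map, aeval_def]
      congr 1
      exact RingHom.ext fun c => (α.commutes c).symm
  obtain ⟨P, hP, e⟩ := red k (Ideal.Quotient.mk I)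
    ((Ideal.Quotient.eq (y := 1)).2 (Ideal.subset_span (Or.inl rfl)))
    (F := MvPolynomial.map (algebraMap K L) G.F) G.pm.pos
    (by rw [← map_pow]; exact Ideal.Quotient.eq.2 (Ideal.subset_span (Or.inr rfl))) f
  let φ : MvPolynomial {i : Vr dd // i ≠ k} L →+* M₀ :=
    eval₂Hom α₀.toRingHom fun i : {i // i ≠ k} => x i
  have h2 : ev.comp (rename (fun i : {i : Vr dd // i ≠ k} => some i.1)).toRingHom =
      β.toRingHom.comp φ := RingHom.ext fun a => by
    show eval₂ _ _ _ = β (eval₂ _ _ _)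
    rw [Fa1.map_ev, hc]
    show eval₂ _ _ (rename _ a) = _
    rw [eval₂_rename]
    congr 1
    exact funext fun i => (hx i).symm
  rw [← Polynomial.hom_eval₂] at e
  have h3 : ev (f - _) = 0 := h1 (Ideal.Quotient.eq.1 e)
  rw [map_sub, show ev f = 0 from hf, zero_sub, neg_eq_zero, Polynomial.hom_eval₂, h2,
    ← Polynomial.eval₂_map, eval₂Hom_X'] at h3
  have h4 := ind_pw G.pm hs (XA.nsq' G x k hk hF) ((Polynomial.degree_map_le).trans_lt hP) h3
  rw [Polynomial.map_eq_zero_iff ((injective_iff_map_eq_zero φ).2 fun a ha =>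
    by_contra fun h0 => Fa1.ne hF a h0 ha)] at h4
  rw [h4, Polynomial.eval₂_zero, map_zero] at e
  exact Ideal.Quotient.eq_zero_iff_mem.1 e

theorem dgr [XA K dd] (h : G.GenU j α y) (s : Set L) :
    Bridge.dg (IntermediateField.adjoin K (α '' s ∪ Set.range y.1)) =
      G.m * Bridge.dg (IntermediateField.adjoin K s) := by
  obtain ⟨M₀, α₀, β, x, hc, hk, hx, hF, hd, -⟩ := chart h 0
  have hx' : ∀ i, β (x i) = y.1 i := fun i => by rw [hx, h.mem.2.1, div_one]
  let ι : L.sub (IntermediateField.adjoin K s) →ₐ[K] L := (IntermediateField.adjoin K s).val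
  obtain ⟨α₁, ρ, T, hc', hT, ht⟩ :=
    Fa1.exists_sub (α₀.comp ι) fun i : {i : Vr dd // i ≠ 0} => x i
  have h1 : deg ρ = deg ι := deg_free (by rw [funext hT]; exact hF) ht hc'
  have h2 : ∀ a, β (ρ (α₁ a)) = α (ι a) := fun a => by
    rw [← hc]; exact congrArg β (AlgHom.congr_fun hc' a)
  have h3 : IntermediateField.adjoin K (α '' s ∪ Set.range y.1) =
      IntermediateField.map (β.comp ρ) ⊤ := by
    refine le_antisymm (IntermediateField.adjoin_le_iff.2 ?_) ?_
    · rintro _ (⟨a, ha, rfl⟩ | ⟨i, rfl⟩)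
      · exact ⟨α₁ ⟨a, IntermediateField.subset_adjoin K s ha⟩, trivial, h2 _⟩
      · exact ⟨ext 0 T i, trivial, by
          by_cases hi : i = 0
          · rw [hi, ext_self, h.mem.2.1]; exact map_one _
          · rw [← hx', ← hT ⟨i, hi⟩, ← congrFun (ext_ne 0 T) ⟨i, hi⟩]; rfl⟩
    · rw [IntermediateField.map_le_iff_le_comap, ← ht]
      refine Fa1.gen_le (fun a => ?_) fun i => ?_
      · show β (ρ (α₁ a)) ∈ IntermediateField.adjoin K (α '' s ∪ Set.range y.1)
        have h4 : IntermediateField.adjoin K s ≤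
            (IntermediateField.adjoin K (α '' s ∪ Set.range y.1)).comap α :=
          IntermediateField.adjoin_le_iff.2 fun b hb =>
            IntermediateField.subset_adjoin K _ (Or.inl ⟨b, hb, rfl⟩)
        rw [h2]
        exact h4 a.2
      · show β (ρ (T i)) ∈ IntermediateField.adjoin K (α '' s ∪ Set.range y.1)
        rw [hT, hx']
        exact IntermediateField.subset_adjoin K _ (Or.inr ⟨i.1, rfl⟩)
  rw [h3, Bridge.dg_map, Bridge.dg_top, one_mul, deg_comp, h1, hd, mul_comm]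
  rfl

end Xc

theorem XG_thm {K : Type} [Field K] [Base K] [FW0 K] {dd : ℕ} [XA K dd] : XG K dd where
  ex G _ _ hL := Xc.ex G hL
  neg := Xc.neg
  chart := Xc.chart
  ker := Xc.ker
  dgr := Xc.dgr

end Pool.Agent.Lib.MP_557161_ag.HG.HN.HC
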