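import Pool.Agent.Lib.MP_557161_ag.HC.StY
import Pool.Agent.Lib.MP_557161_ag.HN.XI

/-!
The ideal of the cyclic cover: its points, the fixed points and the graph of Frobenius.
-/

namespace Pool.Agent.Lib.MP_557161_ag.HG.HN.HC

open Pool.Agent.Lib.MP_557161_ag.DL MvPolynomial

namespace XIc

open XIn (co card_im Nm exists_nm card_pn ev_gr)

variable {K : Type} [Field K] {dd : ℕ} (G : GD K dd)

/-- The action of scalars. -/
def scl {L : Type} [CommRing L] (a : L) (y : (xz dd).X L) : (xz dd).X L :=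
  (a • y.1, a ^ G.e * y.2)

/-- The line of a point. -/
def ln (L : Fld K) (y : (xz dd).X L) : Submodule L (G.σ → L) := Submodule.span L {G.nu y}

section Ring

variable {L : Type} [CommRing L] [Algebra K L]

lemma aeval_nuP (y : (xz dd).X L) (s : G.σ) : aeval (co y) (nuP K G.e s) = G.nu y s := by
  rcases s with _ | m <;> simp [co, nuP, GD.nu]

lemma aeval_nu (y : (xz dd).X L) (f : MvPolynomial G.σ K) :
    aeval (co y) (aeval (R := K) (nuP K G.e) f) = aeval (G.nu y) f := by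
  rw [← AlgHom.comp_apply, comp_aeval]
  exact congrArg (fun v => aeval v f) (funext (aeval_nuP G y))

lemma aeval_H (y : (xz dd).X L) (m : ℕ) (F : MvPolynomial (Vr dd) K) :
    aeval (co y) (X none ^ m - rename some F) = y.2 ^ m - aeval y.1 F := by
  rw [map_sub, map_pow, aeval_X, aeval_rename]
  rfl

omit [Algebra K L] in
lemma nu_scl (a : L) (y : (xz dd).X L) : G.nu (scl G a y) = a ^ G.e • G.nu y := by
  funext s
  rcases s with _ | m
  · rfl
  · simp [GD.nu, scl, Finset.prod_mul_distrib]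

end Ring

lemma zl (L : Fld K) (y : (xz dd).X L) (h : y.2 ^ G.m = aeval y.1 G.F) :
    G.nu y ∈ zeroLocus L (dpI G.m G.e G.F) := fun f hf => by
  obtain ⟨g, hg⟩ := Ideal.mem_span_singleton'.1 (Ideal.mem_comap.1 hf)
  rw [← aeval_nu, ← hg, map_mul, aeval_H, h, sub_self, mul_zero]

lemma nu_frb (Q : ℕ) (L : Fld K) (y : (xz dd).X L) : G.nu (frb Q L y) = fun s => G.nu y s ^ Q := by
  funext s
  rcases s with _ | m
  · rfl
  · simp [GD.nu, frb, Finset.prod_pow]

lemma nu_const {L : Type} [CommRing L] (y : (xz dd).X L) (k : Vr dd) :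
    G.nu y (some fun _ => k) = y.1 k ^ G.e := by simp [GD.nu]

lemma nu_ne {L : Type} [Field L] {y : (xz dd).X L} (h : y.1 ≠ 0) : G.nu y ≠ 0 := fun h0 =>
  h (funext fun k => pow_eq_zero_iff' (n := G.e) |>.1 ((nu_const G y k).symm.trans (congrFun h0 _)) |>.1)

/-- The points of the zero locus come from the cone. -/
lemma of_zl [IsAlgClosed K] (he : 0 < G.e) {v : G.σ → K} (hv : v ∈ zeroLocus K (dpI G.m G.e G.F)) :
    ∃ y : (xz dd).X K, y.2 ^ G.m = aeval y.1 G.F ∧ v = G.nu y := by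
  let φ : MvPolynomial G.σ K →+* MvPolynomial (Option (Vr dd)) K :=
    (aeval (R := K) (nuP K G.e)).toRingHom
  let _ := φ.toAlgebra
  have hx : ∀ s, IsIntegral (MvPolynomial G.σ K) (X s : MvPolynomial (Option (Vr dd)) K) := by
    rintro (_ | i)
    · have := isIntegral_algebraMap (R := MvPolynomial G.σ K)
        (A := MvPolynomial (Option (Vr dd)) K) (x := X none)
      simpa [RingHom.algebraMap_toAlgebra, φ, nuP] using this
    · refine IsIntegral.of_pow he ?_
      have := isIntegral_algebraMap (R := MvPolynomial G.σ K)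
        (A := MvPolynomial (Option (Vr dd)) K) (x := X (some fun _ => i))
      simpa [RingHom.algebraMap_toAlgebra, φ, nuP] using this
  have hint : Algebra.IsIntegral (MvPolynomial G.σ K) (MvPolynomial (Option (Vr dd)) K) :=
    ⟨fun f => by
      induction f using MvPolynomial.induction_on with
      | C c =>
        have := isIntegral_algebraMap (R := MvPolynomial G.σ K)
          (A := MvPolynomial (Option (Vr dd)) K) (x := C c)
        simpa [RingHom.algebraMap_toAlgebra, φ] using this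
      | add f g hf hg => exact hf.add hg
      | mul_X f s hf => exact hf.mul (hx s)⟩
  obtain ⟨P, h1, h2, h3⟩ := Ideal.exists_ideal_over_prime_of_isIntegral (vanishingIdeal K {v})
    (Ideal.span {X none ^ G.m - rename some G.F} : Ideal (MvPolynomial (Option (Vr dd)) K))
    fun f hf => by
      rintro _ rfl
      exact hv f hf
  have h4 : P.IsMaximal := Ideal.isMaximal_of_isIntegral_of_isMaximal_comap P
    (h3 ▸ (inferInstance : (vanishingIdeal K {v}).IsMaximal))
  obtain ⟨u, rfl⟩ := isMaximal_iff_eq_vanishingIdeal_singleton.1 h4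
  have e : u = co ((fun i => u (some i), u none) : (xz dd).X K) := funext fun s => by
    rcases s with _ | i <;> rfl
  refine ⟨(fun i => u (some i), u none), ?_, funext fun s => ?_⟩
  · have h5 := h1 (Ideal.mem_span_singleton_self _) u rfl
    rw [e, aeval_H] at h5
    exact sub_eq_zero.1 h5
  · have h5 : X s - C (v s) ∈ vanishingIdeal K {v} := by
      rintro _ rfl
      simp
    rw [← h3] at h5
    have h6 : aeval u (aeval (R := K) (nuP K G.e) (X s - C (v s))) = 0 := h5 u rfl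
    rw [e, aeval_nu, map_sub, aeval_X, aeval_C] at h6
    exact (sub_eq_zero.1 h6).symm

lemma cn_scl {L : Fld K} (hF : G.F.IsHomogeneous (G.m * G.e)) (a : L) {y : (xz dd).X L}
    (h : y.2 ^ G.m = aeval y.1 G.F) : (scl G a y).2 ^ G.m = aeval (scl G a y).1 G.F := by
  show (a ^ G.e * y.2) ^ G.m = aeval (a • y.1) G.F
  rw [aeval_smul_of_isHomogeneous hF, ← h]
  ring

lemma pt_scl {L : Fld K} {a : L} (ha : a ≠ 0) (y : (xz dd).X L) : ln G L (scl G a y) = ln G L y := by
  rw [ln, nu_scl]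
  exact Submodule.span_singleton_smul_eq (pow_ne_zero _ ha).isUnit _

lemma scl_of_pt {L : Fld K} (he : 0 < G.e) {y y' : (xz dd).X L} (hy : y.1 ≠ 0)
    (h : ln G L y = ln G L y') : ∃ a : L, a ≠ 0 ∧ y' = scl G a y := by
  obtain ⟨c, hc⟩ := Submodule.span_singleton_eq_span_singleton.1 h
  have h1 : ∀ s, G.nu y' s = c * G.nu y s := fun s => (congrFun hc s).symm
  obtain ⟨k, hk⟩ := Function.ne_iff.1 hy
  have hk : y.1 k ≠ 0 := hk
  have h2 := h1 (some fun _ => k)
  rw [nu_const, nu_const] at h2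
  have h3 : y'.1 k ≠ 0 := fun h0 => by
    rw [h0, zero_pow he.ne'] at h2
    exact mul_ne_zero c.ne_zero (pow_ne_zero _ hk) h2.symm
  have h4 : (y'.1 k / y.1 k) ^ G.e = c := by
    rw [div_pow, h2, mul_div_cancel_right₀ _ (pow_ne_zero _ hk)]
  refine ⟨y'.1 k / y.1 k, div_ne_zero h3 hk, Prod.ext (funext fun i => ?_) ?_⟩
  · have e : ∀ u : (xz dd).X L, u.1 k * G.nu u (some (Function.update (fun _ => k) ⟨0, he⟩ i)) =
        u.1 i * u.1 k ^ G.e := fun u => by
      have := Finset.prod_update_of_mem (Finset.mem_univ (⟨0, he⟩ : Fin G.e)) (fun _ => u.1 k) (u.1 i)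
      simp only [GD.nu, Option.elim, Function.apply_update (fun _ => u.1), this, Finset.prod_const,
        Finset.card_univ_sdiff, Fintype.card_fin, Finset.card_singleton]
      rw [mul_left_comm, ← pow_succ', Nat.sub_add_cancel he]
    have h5 := e y'
    rw [h1, h2] at h5
    have h6 := e y
    show y'.1 i = y'.1 k / y.1 k * y.1 i
    rw [div_mul_eq_mul_div, eq_div_iff hk]
    refine mul_right_cancel₀ (mul_ne_zero c.ne_zero (pow_ne_zero G.e hk)) ?_
    linear_combination (y'.1 k * c) * h6 - y.1 k * h5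
  · show y'.2 = (y'.1 k / y.1 k) ^ G.e * y.2
    rw [h4]
    exact h1 none

lemma fx_ln (he : 0 < G.e) (Q : ℕ) (ξ : K) : G.fx Q ξ =
    Nat.card {E : Submodule (Fld.base K) (G.σ → Fld.base K) // ∃ y, G.Cn (.base K) y ∧
      E = ln G (.base K) y ∧ E = ln G (.base K) (mlt ξ (.base K) (frb Q (.base K) y))} := by
  refine card_im _ (fun y => mlt ξ (.base K) (frb Q (.base K) y)) _ _ fun y y' h => ?_
  obtain ⟨i, hi⟩ := Function.ne_iff.1 h.1
  refine (G.Γ.pt_eq ⟨Sum.inl i, trivial, hi⟩).trans ⟨?_, scl_of_pt G he h.1⟩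
  rintro ⟨a, ha, rfl⟩
  exact (pt_scl G ha y).symm

lemma fix [IsAlgClosed K] (he : 0 < G.e) (hF : G.F.IsHomogeneous (G.m * G.e))
    (hI : Homog (dpI G.m G.e G.F)) (Y : Sm K G.σ) (hY : Y.I = dpI G.m G.e G.F) (Q : ℕ) :
    Y.fixed Q = G.fx Q 1 := by
  rw [Sm.fixed, fx_ln G he, hY]
  simp only [mlt_one]
  refine Nat.card_congr (Equiv.ofBijective (fun x => ⟨x.1.submodule, ?_⟩) ⟨fun x x' h => ?_, ?_⟩)
  · obtain ⟨x, h1, c, h2⟩ := x
    obtain ⟨y, h3, h4⟩ := of_zl G he h1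
    have h5 := x.rep_nonzero
    refine ⟨y, ⟨fun h0 => h5 ?_, h3⟩, ?_, ?_⟩
    · have h6 := aeval_smul_of_isHomogeneous hF (0 : K) y.1
      rw [zero_smul, ← h0, zero_pow (Nat.mul_pos G.pm.pos he).ne', zero_mul, ← h3] at h6
      rw [h4]
      funext s
      rcases s with _ | m
      · exact pow_eq_zero_iff G.pm.ne_zero |>.1 h6
      · exact Finset.prod_eq_zero (Finset.mem_univ (⟨0, he⟩ : Fin G.e)) (congrFun h0 (m _))
    · rw [Projectivization.submodule_eq, h4]
      rfl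
    · show x.submodule = Submodule.span K {G.nu (frb Q (.base K) y)}
      rw [nu_frb, ← h4, h2, Projectivization.submodule_eq]
      refine (Submodule.span_singleton_smul_eq (Ne.isUnit fun h0 => h5 (funext fun s => ?_)) _).symm
      have := congrFun h2 s
      rw [h0, zero_smul] at this
      exact (pow_eq_zero_iff'.1 this).1
  · exact Subtype.ext (Projectivization.submodule_injective (congrArg Subtype.val h))
  · rintro ⟨E, y, ⟨h1, h2⟩, h3, h4⟩
    obtain ⟨a, ha⟩ := Projectivization.exists_smul_eq_mk_rep K (G.nu y) (nu_ne G h1)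
    obtain ⟨c, hc⟩ := Submodule.span_singleton_eq_span_singleton.1 (h3.symm.trans h4)
    refine ⟨⟨Projectivization.mk K (G.nu y) (nu_ne G h1), ?_, (a : K) ^ Q * c / a, ?_⟩,
      Subtype.ext ((Projectivization.submodule_mk _ _).trans h3.symm)⟩
    · rw [← ha]
      exact hI.smul_mem (zl G (.base K) y h2) a
    · rw [← ha]
      funext s
      have h5 : (c : K) * G.nu y s = G.nu y s ^ Q :=
        (congrFun hc s).trans (congrFun (nu_frb G Q (.base K) y) s)
      show ((a : K) * G.nu y s) ^ Q = (a : K) ^ Q * c / a * ((a : K) * G.nu y s)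
      rw [mul_pow, ← h5]
      field_simp

lemma sg_eq (ξ : K) (y : (xz dd).X (Fld.base K)) : mlt ξ (.base K) y = (y.1, ξ * y.2) := rfl

lemma fx_eq (he : 0 < G.e) (hF : G.F.IsHomogeneous (G.m * G.e)) {Q : ℕ} (hQ : Q ≠ 0) (ξ : K) :
    G.fx Q ξ = Nat.card (Σ x : {x : Vr dd → K // Nm x ∧ ∀ i, x i ^ Q = x i},
      {z : K // z ^ G.m = aeval x.1 G.F ∧ ξ * z ^ Q = z}) := by
  rw [fx_ln G he]
  have h0 : ∀ (x : Vr dd → K) (z : K), (∀ i, x i ^ Q = x i) → ξ * z ^ Q = z →
      ln G (.base K) (x, z) = ln G (.base K) (mlt ξ _ (frb Q (.base K) (x, z))) := fun x z h h' => by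
    rw [sg_eq]
    exact congrArg _ (Prod.ext (funext fun i => (h i).symm) h'.symm)
  refine (Nat.card_congr (Equiv.ofBijective (fun u => ⟨ln G (.base K) (u.1.1, u.2.1),
    (u.1.1, u.2.1), ⟨u.1.2.1.ne, u.2.2.1⟩, rfl, h0 _ _ u.1.2.2 u.2.2.2⟩) ⟨?_, ?_⟩)).symm
  · rintro ⟨⟨x, hx⟩, z, hz⟩ ⟨⟨x', hx'⟩, z', hz'⟩ h
    have h' : ln G (.base K) (x, z) = ln G (.base K) (x', z') := congrArg Subtype.val h
    clear h
    obtain ⟨a, -, ha⟩ := scl_of_pt G he hx.1.ne h'
    have h1 : x' = a • x := congrArg Prod.fst ha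
    have h2 : z' = a ^ G.e * z := congrArg Prod.snd ha
    obtain rfl : a = 1 := hx.1.one (h1 ▸ hx'.1)
    rw [one_smul] at h1
    rw [one_pow, one_mul] at h2
    subst h1 h2
    rfl
  · rintro ⟨E, y, ⟨h1, h2⟩, rfl, h4⟩
    obtain ⟨a, ha, h5⟩ := exists_nm h1
    have h6 : ln G (.base K) (scl G a y) =
        ln G (.base K) (mlt ξ _ (frb Q (.base K) (scl G a y))) := by
      have e : mlt ξ (.base K) (frb Q (.base K) (scl G a y)) =
          scl G (a ^ Q) (mlt ξ (.base K) (frb Q (.base K) y)) := by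
        rw [sg_eq, sg_eq]
        refine Prod.ext (funext fun i => mul_pow _ _ _) ?_
        show ξ * (a ^ G.e * y.2) ^ Q = (a ^ Q) ^ G.e * (ξ * y.2 ^ Q)
        rw [mul_pow, ← pow_mul, ← pow_mul, mul_comm Q, mul_left_comm]
      rw [e, pt_scl G ha, pt_scl G (pow_ne_zero _ ha), h4]
    obtain ⟨b, -, hb⟩ := scl_of_pt G he h5.ne h6
    rw [sg_eq] at hb
    have h7 : (fun i => (a • y.1) i ^ Q) = b • a • y.1 := congrArg Prod.fst hb
    have h8 : ξ * (a ^ G.e * y.2) ^ Q = b ^ G.e * (a ^ G.e * y.2) := congrArg Prod.snd hb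
    obtain rfl : b = 1 := h5.one (h7 ▸ h5.pow hQ)
    exact ⟨⟨⟨a • y.1, h5, fun i => (congrFun h7 i).trans (one_mul _)⟩, a ^ G.e * y.2,
      cn_scl G hF a h2, h8.trans (by rw [one_pow, one_mul])⟩, Subtype.ext (pt_scl G ha y)⟩

lemma fin_fib {m : ℕ} (hm : 0 < m) (c : K) (P : K → Prop) : Finite {z : K // z ^ m = c ∧ P z} := by
  classical
  exact ((Polynomial.nthRoots m c).toFinset.finite_toSet.subset fun z hz =>
    Finset.mem_coe.2 (Multiset.mem_toFinset.2 ((Polynomial.mem_nthRoots hm).2 hz.1))).to_subtype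

lemma card_fib [IsAlgClosed K] {m Q : ℕ} {ζ c : K} (hm : 0 < m) (hζ : IsPrimitiveRoot ζ m)
    (hQ : Q ≠ 0) (hc : c ^ Q = c) :
    ∑ s ∈ Finset.range m, Nat.card {z : K // z ^ m = c ∧ ζ ^ s * z ^ Q = z} = m := by
  classical
  by_cases h0 : c = 0
  · subst h0
    rw [Finset.sum_congr rfl (g := fun _ => 1) fun s _ => ?_]
    · simp
    · rw [Nat.card_eq_one_iff_exists]
      exact ⟨⟨0, zero_pow hm.ne', by rw [zero_pow hQ, mul_zero]⟩, fun z =>
        Subtype.ext (pow_eq_zero_iff hm.ne' |>.1 z.2.1)⟩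
  have : NeZero m := ⟨hm.ne'⟩
  set A := (Polynomial.nthRoots m c).toFinset with hA
  have mA : ∀ z, z ∈ A ↔ z ^ m = c := fun z => by
    rw [hA, Multiset.mem_toFinset, Polynomial.mem_nthRoots hm]
  have cA : A.card = m := by
    rw [hA, Multiset.toFinset_card_of_nodup (hζ.nthRoots_nodup h0), hζ.card_nthRoots,
      if_pos (IsAlgClosed.exists_pow_nat_eq c hm)]
  have hz : ∀ z ∈ A, z ^ Q ≠ 0 := fun z h => pow_ne_zero _ fun t => h0 (by
    rw [← (mA z).1 h, t, zero_pow hm.ne'])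
  have ex : ∀ z, ∃ s, z ∈ A → s < m ∧ ζ ^ s * z ^ Q = z := fun z => by
    by_cases h : z ∈ A
    · obtain ⟨s, h1, h2⟩ := hζ.eq_pow_of_pow_eq_one (ξ := z / z ^ Q) (by
        rw [div_pow, ← pow_mul, mul_comm, pow_mul, (mA z).1 h, hc, div_self h0])
      exact ⟨s, fun _ => ⟨h1, by rw [h2, div_mul_cancel₀ _ (hz z h)]⟩⟩
    · exact ⟨0, fun t => absurd t h⟩
  choose f hf using ex
  refine Eq.trans (Finset.sum_congr rfl fun s hs => ?_) ((Finset.card_eq_sum_card_fiberwise
    (f := f) (s := A) (t := Finset.range m) fun z h => Finset.mem_coe.2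
      (Finset.mem_range.2 (hf z h).1)).symm.trans cA)
  rw [← Nat.card_eq_finsetCard]
  refine Nat.card_congr (Equiv.subtypeEquivRight fun z => ?_)
  rw [Finset.mem_filter, ← mA]
  refine and_congr_right fun h => ⟨fun t => ?_, fun t => t ▸ (hf z h).2⟩
  exact hζ.pow_inj (hf z h).1 (Finset.mem_range.1 hs)
    (mul_right_cancel₀ (hz z h) ((hf z h).2.trans t.symm))

lemma cnt [IsAlgClosed K] {p Q : ℕ} [CharP K p] (he : 0 < G.e) (hQ : 1 < Q) (h : G.Fr p Q)
    (hf : ∀ x : Vr dd → K, aeval (fun i => x i ^ Q) G.F = aeval x G.F ^ Q) {ζ : K}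
    (hζ : IsPrimitiveRoot ζ G.m) :
    ∑ s ∈ Finset.range G.m, G.fx Q (ζ ^ s) = G.m * ∑ i ∈ Finset.range (2 * dd + 1), Q ^ i := by
  obtain ⟨⟨f, rfl⟩, -⟩ := h
  have hp : p ∣ p ^ f := dvd_pow_self p fun h0 => by simp [h0] at hQ
  have h0 : p ^ f ≠ 0 := by omega
  have h1 := card_pn (K := K) hQ hp (2 * dd + 1)
  have h7 := Finset.single_le_sum (f := fun i => (p ^ f) ^ i) (fun _ _ => Nat.zero_le _)
    (Finset.mem_range.2 (Nat.add_one_pos (2 * dd)))
  rw [pow_zero] at h7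
  have : Finite {x : Vr dd → K // Nm x ∧ ∀ i, x i ^ p ^ f = x i} :=
    Nat.finite_of_card_ne_zero (h1.trans_ne (by omega))
  have := Fintype.ofFinite {x : Vr dd → K // Nm x ∧ ∀ i, x i ^ p ^ f = x i}
  have h3 := fun x : {x : Vr dd → K // Nm x ∧ ∀ i, x i ^ p ^ f = x i} =>
    card_fib G.pm.pos hζ h0 (c := aeval x.1 G.F) (by rw [← hf, funext x.2.2])
  have h4 : ∀ s, G.fx (p ^ f) (ζ ^ s) = ∑ x : {x : Vr dd → K // Nm x ∧ ∀ i, x i ^ p ^ f = x i},
      Nat.card {z : K // z ^ G.m = aeval x.1 G.F ∧ ζ ^ s * z ^ p ^ f = z} := fun s => by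
    have := fun x : {x : Vr dd → K // Nm x ∧ ∀ i, x i ^ p ^ f = x i} =>
      fin_fib G.pm.pos (aeval x.1 G.F) fun z => ζ ^ s * z ^ p ^ f = z
    rw [fx_eq G he G.homF h0, Nat.card_sigma]
  rw [Finset.sum_congr rfl fun s _ => h4 s, Finset.sum_comm, Finset.sum_congr rfl fun x _ => h3 x,
    Finset.sum_const, Finset.card_univ, ← Nat.card_eq_fintype_card, h1, smul_eq_mul, mul_comm]

lemma e_pos : 0 < G.e := Nat.pos_of_mul_pos_left (G.hu ▸ Nat.add_one_pos G.u : 0 < G.m * G.e)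

lemma ev_scl {L : Fld K} (Q : ℕ) (c a : L) (y : (xz dd).X L) {f : Bridge.SS K G.σ} {γ}
    (hf : f.IsWeightedHomogeneous (w2 G.σ G.σ) γ) :
    Bridge.ev (fun s => c * G.nu (scl G a y) s ^ Q) (G.nu (scl G a y)) f =
      Bridge.mon (c * (a ^ G.e) ^ Q) (a ^ G.e) γ * Bridge.ev (fun s => G.nu y s ^ Q) (G.nu y) f := by
  rw [← Bridge.ev_smul _ _ _ _ hf, nu_scl]
  congr 2
  funext s
  simp [mul_pow, mul_assoc]

lemma ev_eq {L : Fld K} (Q : ℕ) (y : (xz dd).X L) (f : Bridge.SS K G.σ) :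
    Bridge.ev (fun s => G.nu y s ^ Q) (G.nu y) f = aeval (co y) (aeval (R := K)
      (Sum.elim (fun s => nuP K G.e s ^ Q) (nuP K G.e)) f) := by
  rw [← AlgHom.comp_apply, comp_aeval, Bridge.ev]
  refine congrArg (fun v => aeval v f) (funext ?_)
  rintro (s | s) <;> simp [aeval_nuP]

lemma gr [Base K] [XA K dd] [XG K dd] [XJ dd] (Y : Sm K G.σ) (hY : Y.I = dpI G.m G.e G.F) (Q : ℕ) {M : Fld K}
    {α : Fld.base K →ₐ[K] M} {y : (xz dd).X M} (hy : G.GenU 0 α y) :
    Y.grC Q = Finsupp.single (Bridge.PP (G.nu (frb Q M y)) (G.nu y)) 1 := by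
  have he : 0 < G.e := e_pos G
  have hF := G.homF
  have hp : Y.I.IsPrime := hY ▸ (XJ.dim G.pm he fun g h => XA.nsq G (.base K) g (h.trans (map_id _).symm)).1
  have hz : G.nu y ∈ zeroLocus M Y.I := hY ▸ zl G M y hy.mem.2.2
  have key : ∀ {f : Bridge.SS K G.σ} {γ}, f.IsWeightedHomogeneous (w2 G.σ G.σ) γ →
      Bridge.ev (fun s => G.nu y s ^ Q) (G.nu y) f = 0 → ∀ (u : (xz dd).X (Fld.base K)) (k : Vr dd),
      u.1 k = 1 → u.2 ^ G.m = aeval u.1 G.F → Bridge.ev (fun s => G.nu u s ^ Q) (G.nu u) f = 0 := by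
    intro f γ hf h0 u k h1 h2
    have h3 := ev_scl G Q 1 (y.1 k)⁻¹ y hf
    simp only [h0, mul_zero, one_mul] at h3
    rw [ev_eq] at h3
    have h4 := XG.ker hy k (aeval (R := K) (Sum.elim (fun s => nuP K G.e s ^ Q) (nuP K G.e)) f) (by
      rw [← h3, aeval_def]
      congr 1
      · exact RingHom.ext α.commutes
      · funext s
        rcases s with _ | i
        · show _ / _ = _ * _
          rw [inv_pow, div_eq_inv_mul]
        · exact div_eq_inv_mul _ _)
    obtain ⟨a, b, h5⟩ := Ideal.mem_span_pair.1 h4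
    rw [ev_eq]
    refine (congrArg (aeval (R := K) (co u)) h5.symm).trans ?_
    have e : MvPolynomial.map (algebraMap K (Fld.base K)) G.F = G.F := map_id _
    rw [e, map_add, map_mul, map_mul, aeval_H, h2, map_sub, aeval_X, map_one]
    show _ * (u.1 k - 1) + _ = 0
    rw [h1, sub_self, sub_self, mul_zero, mul_zero, add_zero]
  have hg : Y.gr Q = (Bridge.PP (G.nu (frb Q M y)) (G.nu y)).asIdeal := by
    rw [nu_frb]
    refine le_antisymm (Bridge.le_hom (Y.gr_hom Q) fun f hf => ev_gr Y Q hz hf) fun f hf =>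
      Bridge.mem_of_comp (w := w2 G.σ G.σ) fun γ => ?_
    have h1 := weightedHomogeneousComponent_isWeightedHomogeneous (w := w2 G.σ G.σ) γ f
    rw [Y.mem_gr_iff hp.isRadical, hY]
    intro c v hv
    obtain ⟨u, h2, rfl⟩ := of_zl G he hv
    obtain ⟨a, u', k, h3, h4, rfl⟩ : ∃ (a : K) (u' : (xz dd).X (Fld.base K)) (k : Vr dd), u'.1 k = 1 ∧
        u'.2 ^ G.m = aeval u'.1 G.F ∧ u = scl G a u' := by
      by_cases h0 : u.1 = 0
      · obtain ⟨z, hz⟩ := IsAlgClosed.exists_pow_nat_eq (aeval (fun _ => (1 : K)) G.F) G.pm.pos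
        have h6 := aeval_smul_of_isHomogeneous hF (0 : K) u.1
        rw [zero_smul, ← h0, zero_pow (Nat.mul_pos G.pm.pos he).ne', zero_mul, ← h2] at h6
        refine ⟨0, (fun _ => 1, z), 0, rfl, hz, Prod.ext (h0.trans (zero_smul K _).symm) ?_⟩
        rw [pow_eq_zero_iff G.pm.ne_zero |>.1 h6]
        simp [scl, he.ne']
      · obtain ⟨a, ha, h5⟩ := exists_nm h0
        obtain ⟨k, hk⟩ := h5.ex
        refine ⟨a⁻¹, scl G a u, k, hk, cn_scl G (L := .base K) hF a h2, Prod.ext ?_ ?_⟩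
        · exact (inv_smul_smul₀ ha _).symm
        · show u.2 = a⁻¹ ^ G.e * (a ^ G.e * u.2)
          rw [inv_pow, inv_mul_cancel_left₀ (pow_ne_zero _ ha)]
    have h5 := ev_scl G (L := .base K) Q c a u' h1
    rw [key h1 (Bridge.mem_hom.1 hf γ) u' k h3 h4, mul_zero] at h5
    exact h5
  rw [Y.grC_eq hp.isRadical (fun a ha => ?_) Q {Bridge.PP (G.nu (frb Q M y)) (G.nu y)} fun z => ?_,
    Finset.sum_singleton]
  · rw [Ideal.minimalPrimes_eq_subsingleton_self, Set.mem_singleton_iff] at ha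
    refine ⟨some fun _ => 0, fun h => ?_⟩
    have h1 := hz _ (ha ▸ h)
    rw [aeval_X, nu_const, hy.mem.2.1, one_pow] at h1
    exact one_ne_zero h1
  · rw [hg, Ideal.minimalPrimes_eq_subsingleton_self, Finset.mem_singleton, Set.mem_singleton_iff,
      PrimeSpectrum.ext_iff]

end XIc

variable {K : Type} [Field K] [Base K] {p dd : ℕ} [Fact p.Prime] [CharP K p]

theorem XI_thm [XA K dd] [XG K dd] [XJ dd] : XI K p dd where
  zl := XIc.zl
  fix G Y hY Q _ := XIc.fix G (XIc.e_pos G) G.homF (XJ.hom (XIc.e_pos G) G.homF) Y hY Q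
  cnt G _ hQ h _ hζ := XIc.cnt G (XIc.e_pos G) hQ h (XA.frob G h (.base K)) hζ
  gr G Y hY Q _ _ _ _ hy := XIc.gr G Y hY Q hy

end Pool.Agent.Lib.MP_557161_ag.HG.HN.HC
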