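import Pool.Agent.Lib.MP_557161_ag.HC.YQ
import Pool.Agent.Lib.MP_557161_ag.HN.XW
import Pool.Agent.Lib.MP_557161_ag.HG.XQ

/-!
From linear forms on cycles of the square to functionals on the part over the torus.
-/

namespace Pool.Agent.Lib.MP_557161_ag.HG.HN.HC

open Pool.Agent.Lib.MP_557161_ag.DL MvPolynomial
open Pool.Agent.Lib.MP_60ec62_ag.DL (Cyc)
open Bridge (vv dg FF PP)

variable {K : Type} [Field K] {p dd : ℕ}

namespace XQc

variable {G : GD K dd} {L M : Fld K}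

lemma nu_scl (a : L) (y : (xz dd).X L) : G.nu (G.Γ.scl a y) = a ^ G.e • G.nu y := by
  funext s
  rcases s with _ | m
  · rfl
  · show ∏ i, a * y.1 (m i) = a ^ G.e * ∏ i, y.1 (m i)
    simp [Finset.prod_mul_distrib]

lemma nu_ne {y : (xz dd).X L} (h : y.1 ≠ 0) : G.nu y ≠ 0 := by
  obtain ⟨k, hk⟩ := Function.ne_iff.1 h
  exact fun e => (Finset.prod_ne_zero_iff.2 fun _ _ => hk : (∏ _i : Fin G.e, y.1 k) ≠ 0)
    (congrFun e (some fun _ => k))

lemma nu_map (κ : M →ₐ[K] L) (y : (xz dd).X M) :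
    (fun s => κ (G.nu y s)) = G.nu ((xz dd).map κ y) := funext fun s => by
  rcases s with _ | m
  exacts [rfl, map_prod κ (fun i => y.1 (m i)) Finset.univ]

lemma ff_top {α : Fld.base K →ₐ[K] M} {y : (xz dd).X M} (h0 : y.1 0 = 1)
    (h : gen α ((xz dd).co y) = ⊤) (u : G.σ → M) : FF u (G.nu y) = ⊤ := by
  have he : 0 < G.e := by
    refine Nat.pos_of_ne_zero fun e => ?_
    have := G.hu
    rw [e] at this
    omega
  have h1 : G.nu y (some fun _ => 0) = 1 := by simp [GD.nu, h0]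
  have h2 : ∀ s, G.nu y s ∈ FF u (G.nu y) := fun s =>
    IntermediateField.subset_adjoin _ _ (Or.inr ⟨(s, some fun _ => 0), by
      simp only [h1, div_one]⟩)
  rw [eq_top_iff, ← h]
  refine Fa1.gen_le (fun a => ?_) ?_
  · rw [Subsingleton.elim α (Algebra.ofId K M)]
    exact IntermediateField.algebraMap_mem _ a
  · rintro (i | i)
    · have h3 := h2 (some (Function.update (fun _ => 0) ⟨0, he⟩ i))
      have h4 : G.nu y (some (Function.update (fun _ => 0) ⟨0, he⟩ i)) = y.1 i := by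
        show ∏ j, y.1 (Function.update (fun _ => (0 : Vr dd)) (⟨0, he⟩ : Fin G.e) i j) = _
        rw [Finset.prod_eq_single ⟨0, he⟩ (fun j _ hj => by
          rw [Function.update_of_ne hj, h0]) (fun e => absurd (Finset.mem_univ _) e),
          Function.update_self]
      rwa [h4] at h3
    · exact h2 none

lemma exists_gen {y : (xz dd).X L} (hL : Good (2 * dd) L) (hy : G.UU.mem L y)
    (h : dg (xf L fun _ : Bool => y) ≠ 0) : ∃ (M : Fld K) (α : Fld.base K →ₐ[K] M) (β : M →ₐ[K] L)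
      (y₀ : (xz dd).X M), G.GenU 0 α y₀ ∧ (xz dd).map β y₀ = y := by
  obtain ⟨α, β, T, -, hT, ht⟩ := Fa1.exists_sub (L := .base K) (Algebra.ofId K L) ((xz dd).co y)
  have e1 : (xz dd).map β ((xz dd).mk' T) = y :=
    (xz dd).inj (funext fun i => by rw [(xz dd).co_map, (xz dd).co_mk, hT])
  have hF : (xf L fun _ : Bool => y) ≤ gen (L := .base K) (Algebra.ofId K L) ((xz dd).co y) :=
    IntermediateField.adjoin_le_iff.2 (by
      rintro _ ⟨⟨t, i⟩, rfl⟩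
      exact Fa1.right_mem _ ((xz dd).co y) (Sum.inl i))
  have h1 := tr_le (L := L.sub (xf L fun _ : Bool => y)) (L' := L.sub _)
    (IntermediateField.inclusion hF)
  rw [XWa.tr_of_dg hL h] at h1
  exact ⟨_, α, β, (xz dd).mk' T, ⟨good_base, (zero_add (2 * dd)).symm ▸
    hL.down (ι := β) (le_antisymm ((tr_le β).trans hL.2.le) h1),
    (G.UU.map_iff β _).1 (e1.symm ▸ hy), by rw [(xz dd).co_mk, ht]⟩, e1⟩

lemma gr_val [XG K dd] [XI K p dd] (Y : Sm K G.σ) (hY : Y.I = dpI G.m G.e G.F) {Q : ℕ}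
    (hQ : G.Fr p Q) (b : Cyc (MvPolynomial (G.σ ⊕ G.σ) K) →ₗ[ℚ] ℚ) {y : (xz dd).X L}
    (hL : Good (2 * dd) L) (hy : G.UU.mem L y) (h : dg (xf L fun _ : Bool => y) ≠ 0) :
    G.m * ((dg (FF (G.nu (frb Q L y)) (G.nu y)) : ℚ) *
      b (Finsupp.single (PP (G.nu (frb Q L y)) (G.nu y)) 1)) =
      dg (xf L fun _ : Bool => y) * b (Y.grC Q) := by
  obtain ⟨M, α, β, y₀, hU, rfl⟩ := exists_gen hL hy h
  have h2 := XG.dgr hU ∅
  have h1 : ∀ F : IntermediateField K (Fld.base K), dg F = 1 := fun F =>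
    deg_of_surj (L := (Fld.base K).sub F) (L' := .base K) fun x => ⟨⟨x, F.algebraMap_mem x⟩, rfl⟩
  rw [Set.image_empty, Set.empty_union, h1] at h2
  have h3 : (xf M fun _ : Bool => y₀) = IntermediateField.adjoin K (Set.range y₀.1) :=
    congrArg (IntermediateField.adjoin K) ((Prod.snd_surjective (α := Bool)).range_comp y₀.1)
  have e2 : frb Q L ((xz dd).map β y₀) = (xz dd).map β (frb Q M y₀) :=
    Prod.ext (funext fun _ => (map_pow β _ _).symm) (map_pow β _ _).symm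
  have e3 : G.nu ((xz dd).map β (frb Q M y₀)) = _ := (nu_map β (frb Q M y₀)).symm
  have e4 : G.nu ((xz dd).map β y₀) = _ := (nu_map β y₀).symm
  have e5 : dg (xf L fun _ : Bool => (xz dd).map β y₀) = G.m * 1 * deg β := by
    rw [XWb.xf_map β fun _ => y₀, Bridge.dg_map, h3, h2]
  have e6 : dg (FF (G.nu (frb Q L ((xz dd).map β y₀))) (G.nu ((xz dd).map β y₀))) = 1 * deg β := by
    rw [e2, e3, e4]
    exact (congrArg dg (Bridge.FF_map β _ _)).trans (by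
      rw [Bridge.dg_map, ff_top hU.mem.2.1 hU.top, Bridge.dg_top])
  have e7 : PP (G.nu (frb Q L ((xz dd).map β y₀))) (G.nu ((xz dd).map β y₀)) =
      PP (G.nu (frb Q M y₀)) (G.nu y₀) := by
    rw [e2, e3, e4]
    exact Bridge.PP_map β _ _
  rw [XI.gr G Y hY Q hQ hU, e5, e6, e7]
  push_cast
  ring

lemma cmp [X0 dd] [YA K dd] (O : Pl M) {E : (G.Γ.amb K).pt M} (h : G.CC.sp.mem E) :
    G.CC.sp.mem ((G.Γ.amb K).red O E) := by
  obtain ⟨y, hy, rfl⟩ := h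
  obtain ⟨i, y', h1, h2, h3⟩ := YA.cmp O hy
  exact ⟨y', h2, (G.Γ.red_pt (inv_ne_zero h1) h3 (G.CC.nz _ _ h2)).symm⟩

lemma ver [WA K] (G : GD K dd) : ∃ m : Mor G.CC.sp (Lines K G.σ), ∀ (L : Fld K) (y : (xz dd).X L),
    G.Cn L y → m.f (L := L) (G.Γ.pt y) = Submodule.span L {G.nu y} :=
  WA.line G.CC G.e (fun _ y => G.nu y) (fun s => ⟨fun _ _ _ _ _ _ _ e => by
      rcases s with _ | m
      exacts [e.2, Rel.prod Finset.univ fun i _ => e.1 (m i)],
    fun _ a y _ _ => (congrFun (nu_scl a y) s).trans (by rw [zpow_natCast]; rfl)⟩)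
    fun _ _ h => XQc.nu_ne h.1

lemma shift {ζ : K} {η : ℂ} {m : ℕ} (h : ζ ^ m = 1) (h' : η ^ m = 1) (h0 : η ≠ 0) (g : K → ℂ) :
    ∑ a ∈ Finset.range m, η⁻¹ ^ a * g (ζ ^ a * ζ) =
      η * ∑ a ∈ Finset.range m, η⁻¹ ^ a * g (ζ ^ a) := by
  have e := (Finset.sum_range_succ (fun s => η⁻¹ ^ s * g (ζ ^ s)) m).symm.trans
    (Finset.sum_range_succ' (fun s => η⁻¹ ^ s * g (ζ ^ s)) m)
  rw [h, inv_pow η m, h', inv_one, pow_zero, pow_zero, add_left_inj] at e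
  rw [e, Finset.mul_sum]
  refine Finset.sum_congr rfl fun a _ => ?_
  rw [pow_succ, pow_succ]
  field_simp

lemma orth {ω : ℂ} {m : ℕ} (h : IsPrimitiveRoot ω m) (hm : 0 < m) (g : ℕ → ℂ)
    (hg : ∑ a ∈ Finset.range m, g a = 0) :
    ∑ s ∈ Finset.Ico 1 m, ∑ a ∈ Finset.range m, (ω ^ s)⁻¹ ^ a * g a = m * g 0 := by
  have e := Finset.sum_eq_sum_Ico_succ_bot hm fun s => ∑ a ∈ Finset.range m, (ω ^ s)⁻¹ ^ a * g a
  simp only [pow_zero, inv_one, one_pow, one_mul, hg, zero_add] at e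
  rw [← e, ← Finset.range_eq_Ico, Finset.sum_comm,
    Finset.sum_eq_single_of_mem 0 (Finset.mem_range.2 hm) fun a ha a0 => ?_]
  · simp
  · have c : (ω ^ a)⁻¹ ≠ 1 := inv_ne_one.2 (h.pow_ne_one_of_pos_of_lt a0 (Finset.mem_range.1 ha))
    simp only [← inv_pow, pow_right_comm ω⁻¹ _ a, ← Finset.sum_mul]
    rw [inv_pow, geom_sum_eq c, inv_pow, pow_right_comm, h.pow_eq_one, one_pow, inv_one, sub_self,
      zero_div, zero_mul]

lemma mem_mlt {ξ : K} (hξ : ξ ^ G.m = 1) {y : (xz dd).X L} :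
    G.UU.mem L (mlt ξ L y) ↔ G.UU.mem L y := by
  have e : (mlt ξ L y).2 ^ G.m = y.2 ^ G.m :=
    (mul_pow _ _ _).trans (by rw [← map_pow, hξ, map_one, one_mul])
  exact ⟨fun h => ⟨h.1, h.2.1, e.symm.trans h.2.2⟩, fun h => ⟨h.1, h.2.1, e.trans h.2.2⟩⟩

lemma mlt_map (ξ : K) (κ : M →ₐ[K] L) (y : (xz dd).X M) :
    mlt ξ L ((xz dd).map κ y) = (xz dd).map κ (mlt ξ M y) :=
  Prod.ext rfl ((map_mul κ _ _).trans (congrArg (· * _) (κ.commutes ξ))).symm

/-- Multiplication of a functional by a constant. -/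
noncomputable def cm {A : Amb K} {P : Sp A} {j : ℕ} (c : ℂ) (φ : Fe j P) : Fe j P where
  v L y := c * φ.v L y
  supp L y h := φ.supp L y (right_ne_zero_of_mul h)
  ext ι y h h' := by rw [φ.ext ι y h h', mul_left_comm]
  low ι y h := by rw [φ.low ι y h, mul_zero]
  rat M y f hM hy hf := by
    obtain ⟨h1, h2⟩ := φ.rat M y f hM hy hf
    simp only [mul_left_comm _ c]
    exact ⟨h1.subset fun _ h => right_ne_zero_of_mul h, by rw [← mul_finsum _ _, h2, mul_zero]⟩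

/-- The isotypic parts. -/
lemma iso [X0 dd] [WA K] [YA K dd] [YQ K dd] {ζ : K} {η η' : ℂ} (hζ : ζ ^ G.m = 1)
    (h : η ^ G.m = 1) (h' : η' ^ G.m = 1) (n : η ≠ 1) (n' : η' ≠ 1) {j : ℕ}
    (φ : Fe j (G.CC.sp.prod G.CC.sp)) : ∃ Φ : AF j (G.UU.pi Bool),
      EqP ζ (fun b => bif b then η else η') Φ.a ∧ ∀ L x, (∀ t, G.UU.mem L (x t)) → Φ.a L x =
        ∑ a ∈ Finset.range G.m, η⁻¹ ^ a * ∑ b ∈ Finset.range G.m, η'⁻¹ ^ b * (((G.m : ℂ) ^ 2)⁻¹ *
          φ.v L (G.Γ.pt (mlt (ζ ^ a) L (x true)), G.Γ.pt (mlt (ζ ^ b) L (x false)))) := by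
  have z : ∀ {η : ℂ}, η ^ G.m = 1 → η ≠ 0 := fun h e => by simp [e, G.pm.ne_zero] at h
  choose s hs using fun n : ℕ => YQc.cov (G := G) (YQc.pw hζ n)
  let m : ℕ → ℕ → Mor (G.CC.sp.prod G.CC.sp) (G.CC.sp.prod G.CC.sp) := fun a b =>
    ⟨fun y => ((s a).f y.1, (s b).f y.2), fun _ h => ⟨(s a).mem _ h.1, (s b).mem _ h.2⟩,
      fun ι y h => Prod.ext ((s a).nat ι y.1 h.1) ((s b).nat ι y.2 h.2),
      fun O y hO h h' => Prod.ext ((s a).cont O y.1 hO h.1 h'.1) ((s b).cont O y.2 hO h.2 h'.2)⟩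
  have hm : ∀ a b, (m a b).Proper := by
    intro a b M O y _ h _
    exact ⟨cmp O h.1, cmp O h.2⟩
  choose θ hθ using fun a => Fe.exists_sum (Finset.range G.m) fun b =>
    cm (η'⁻¹ ^ b) (cm ((G.m : ℂ) ^ 2)⁻¹ (φ.pull (m a b) (hm a b)))
  obtain ⟨ψ, hψ⟩ := Fe.exists_sum (Finset.range G.m) fun a => cm (η⁻¹ ^ a) (θ a)
  have e : ∀ (L : Fld K) (y y' : (xz dd).X L), G.Cn L y → G.Cn L y' →
      ψ.v L (G.Γ.pt y, G.Γ.pt y') = ∑ a ∈ Finset.range G.m, η⁻¹ ^ a * ∑ b ∈ Finset.range G.m,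
        η'⁻¹ ^ b * (((G.m : ℂ) ^ 2)⁻¹ *
          φ.v L (G.Γ.pt (mlt (ζ ^ a) L y), G.Γ.pt (mlt (ζ ^ b) L y'))) := fun L y y' c c' =>
    (hψ L _).trans (Finset.sum_congr rfl fun a _ => congrArg (_ * ·) ((hθ a L _).trans
      (Finset.sum_congr rfl fun b _ => by
        rw [← hs a L y c, ← hs b L y' c']
        exact congrArg (fun t => _ * (_ * t))
          (Fe.pull_of_mem _ _ _ (by exact ⟨⟨y, c, rfl⟩, y', c', rfl⟩)))))
  have q : ∀ (L : Fld K) (y : (xz dd).X L) (E : (G.Γ.amb K).pt L), G.Cn L y →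
      ψ.v L (G.Γ.pt (mlt ζ L y), E) = η * ψ.v L (G.Γ.pt y, E) ∧
      ψ.v L (E, G.Γ.pt (mlt ζ L y)) = η' * ψ.v L (E, G.Γ.pt y) := fun L y E c => by
    by_cases hE : G.CC.sp.mem E
    swap
    · rw [not_not.1 fun e => hE (ψ.supp L (G.Γ.pt (mlt ζ L y), E) e).2.2,
        not_not.1 fun e => hE (ψ.supp L (G.Γ.pt y, E) e).2.2,
        not_not.1 fun e => hE (ψ.supp L (E, G.Γ.pt (mlt ζ L y)) e).2.1,
        not_not.1 fun e => hE (ψ.supp L (E, G.Γ.pt y) e).2.1, mul_zero, mul_zero]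
      exact ⟨rfl, rfl⟩
    obtain ⟨y', c', rfl⟩ := hE
    rw [e L _ _ (YQc.cn_mlt hζ c) c', e L _ _ c' (YQc.cn_mlt hζ c), e L _ _ c c', e L _ _ c' c]
    simp only [mlt_mlt]
    refine ⟨shift hζ h (z h) fun ξ => ∑ b ∈ Finset.range G.m, η'⁻¹ ^ b * (((G.m : ℂ) ^ 2)⁻¹ *
      φ.v L (G.Γ.pt (mlt ξ L y), G.Γ.pt (mlt (ζ ^ b) L y'))), ?_⟩
    rw [Finset.mul_sum]
    refine Finset.sum_congr rfl fun a _ => ?_
    rw [mul_left_comm, ← shift hζ h' (z h') fun ξ => ((G.m : ℂ) ^ 2)⁻¹ *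
      φ.v L (G.Γ.pt (mlt (ζ ^ a) L y'), G.Γ.pt (mlt ξ L y))]
  obtain ⟨Φ, h1⟩ := YQ.aff G hζ n n' ψ q
  replace h1 : ∀ (L : Fld K) (x : Bool → (xz dd).X L), (∀ t, G.UU.mem L (x t)) →
      Φ.a L x = ψ.v L (G.Γ.pt (x true), G.Γ.pt (x false)) := h1
  have h0 : ∀ (L : Fld K) (x : Bool → (xz dd).X L), ¬ (∀ t, G.UU.mem L (x t)) → Φ.a L x = 0 :=
    fun L x h => by_contra fun e => h ((G.UU.pi Bool).sp_some.1 (Φ.supp L _ e).2)
  refine ⟨Φ, fun i L x => ?_, fun L x hx =>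
    (h1 L x hx).trans (e L _ _ (YA.uu (hx true)) (YA.uu (hx false)))⟩
  have c1 : (∀ t, G.UU.mem L (Function.update x i (mlt ζ L (x i)) t)) ↔
      ∀ t, G.UU.mem L (x t) := forall_congr' fun t => by
    by_cases e : t = i
    · rw [e, Function.update_self, mem_mlt hζ]
    · rw [Function.update_of_ne e]
  by_cases hx : ∀ t, G.UU.mem L (x t)
  · rw [h1 L x hx, h1 L _ (c1.2 hx)]
    cases i
    · rw [Function.update_self, Function.update_of_ne (by decide), (q L _ _ (YA.uu (hx false))).2]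
      rfl
    · rw [Function.update_self, Function.update_of_ne (by decide), (q L _ _ (YA.uu (hx true))).1]
      rfl
  · rw [h0 L x hx, h0 L _ fun e => hx (c1.1 e), mul_zero]

end XQc

theorem XQ_thm [Base K] [Fact p.Prime] [CharP K p] [FA3 K] [WA K] [X0 dd] [XA K dd] [XG K dd]
    [XI K p dd] [XV K p dd] [XW K p dd] [YA K dd] [YQ K dd] : XQ K p dd where
  brg G Y hY q hq ζ ω hζ hω b hb := by
    classical
    have hI : Homog Y.I := wHomog_iff_homog.1 Y.hI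
    let φ₀ : Fn (dd * Nat.card Bool) ((DL.XS Y.I hI).prod (DL.XS Y.I hI)) :=
      { v := vv b hI _
        supp := fun L y e => by_contra fun e' => e (if_neg e')
        ext := Bridge.vv_ext b hI
        low := Bridge.vv_low b hI
        rat := fun M y f hM hy hf => (Bridge.vv_rat b hI (fun z g h γ k1 k2 k3 k4 k5 k6 => hb
          (Submodule.mem_sup_left (Submodule.mem_sup_left (Submodule.subset_span
            ⟨z, g, h, γ, k1, k2, k3, k4, k5, k6, rfl⟩)))) (fun Z hZ => hb (Submodule.mem_sup_left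
              (Submodule.mem_sup_right (Submodule.subset_span
                ⟨Z, by rintro _ ⟨s, t, rfl⟩; exact hZ s t, rfl⟩)))) y hM hy hf).out }
    have k0 : φ₀.Kills := Bridge.vv_kills b hI fun a c k1 k2 k3 k4 k5 => hb (Submodule.mem_sup_right
      (Submodule.mem_iSup_of_mem _ (Submodule.subset_span ⟨a, c, k1, k2, k3, k4, k5, rfl⟩)))
    obtain ⟨ν, hν⟩ := XQc.ver G
    have hx : ∀ {L : Fld K} {E : (G.Γ.amb K).pt L}, G.CC.sp.mem E → (DL.XS Y.I hI).mem (ν.f E) := by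
      rintro L _ ⟨y, hy, rfl⟩
      exact ⟨G.nu y, XQc.nu_ne hy.1, hY ▸ XI.zl (p := p) G L y hy.2, hν L y hy⟩
    let m : Mor (G.CC.sp.prod G.CC.sp) ((DL.XS Y.I hI).prod (DL.XS Y.I hI)) :=
      ⟨fun y => (ν.f y.1, ν.f y.2), fun _ h => ⟨hx h.1, hx h.2⟩,
        fun ι y h => Prod.ext (ν.nat ι y.1 h.1) (ν.nat ι y.2 h.2),
        fun O y hO h h' => Prod.ext (ν.cont O y.1 hO h.1 h'.1) (ν.cont O y.2 hO h.2 h'.2)⟩
    have hm : m.Proper := fun O _ _ h _ => ⟨XQc.cmp O h.1, XQc.cmp O h.2⟩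
    have k1 : (φ₀.pull m hm).Kills := fun L L₁ L₂ ι₁ ι₂ y z h => by
      by_contra e
      have h1 := ((φ₀.pull m hm).supp _ _ e).2
      exact e ((Fn.pull_of_mem _ _ _ h1).trans ((congrArg (φ₀.v L) (Prod.ext
        (ν.nat ι₁ y ((G.CC.sp.map_iff ι₁ y).1 h1.1))
        (ν.nat ι₂ z ((G.CC.sp.map_iff ι₂ z).1 h1.2)))).trans (k0 L L₁ L₂ ι₁ ι₂ _ _ h)))
    have an := YQ.anti G hζ _ k1
    have hv : ∀ (L : Fld K) (A B : (xz dd).X L), Good (dd * Nat.card Bool) L → G.Cn L A → G.Cn L B →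
        (φ₀.pull m hm).v L (G.Γ.pt A, G.Γ.pt B) =
          Bridge.wt b (Submodule.span L {G.nu A}) (Submodule.span L {G.nu B}) :=
      fun L A B h hA hB => by
        have h' : (G.CC.sp.prod G.CC.sp).mem (L := L) (G.Γ.pt A, G.Γ.pt B) :=
          ⟨⟨A, hA, rfl⟩, B, hB, rfl⟩
        rw [← hν L A hA, ← hν L B hB]
        exact (Fn.pull_of_mem m hm φ₀ h').trans (if_pos ⟨h, m.mem _ h'⟩)
    generalize φ₀.pull m hm = φ₁ at k1 an hv
    have z1 := hζ.pow_eq_one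
    have w1 : ∀ s, (ω ^ s) ^ G.m = 1 := fun s => by rw [pow_right_comm, hω.pow_eq_one, one_pow]
    have w2 : ∀ s ∈ Finset.Ico 1 G.m, ω ^ s ≠ 1 := fun s hs =>
      hω.pow_ne_one_of_pos_of_lt (Nat.one_le_iff_ne_zero.1 (Finset.mem_Ico.1 hs).1)
        (Finset.mem_Ico.1 hs).2
    have : Nonempty (AF (dd * Nat.card Bool) (G.UU.pi Bool)) :=
      ⟨(Fe.exists_sum (∅ : Finset Empty) Empty.elim).choose⟩
    choose! φ h1 h2 using fun s (hs : s ∈ Finset.Ico 1 G.m) s' (hs' : s' ∈ Finset.Ico 1 G.m) =>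
      XQc.iso z1 (w1 s) (w1 s') (w2 s hs) (w2 s' hs') (XQa.cx φ₁)
    choose! v h3 _ using fun s (hs : s ∈ Finset.Ico 1 G.m) s' (hs' : s' ∈ Finset.Ico 1 G.m) j =>
      XW.val hq (φ s s') hζ (h1 s hs s' hs') fun b => bif b then j else 0
    refine ⟨φ, v, fun s hs s' hs' => ⟨h1 s hs s' hs', fun L L₁ L₂ ι₁ ι₂ w a1 a2 a3 => ?_,
      h3 s hs s' hs'⟩, fun j => ?_⟩
    · by_cases h : ∀ t, G.UU.mem L (w t)
      · choose A hA using fun i => a1 (true, i) rfl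
        choose B hB using fun i => a2 (false, i) Bool.false_ne_true
        have e1 : w true = (xz dd).map ι₁ ((xz dd).mk' A) :=
          (xz dd).inj (funext fun i => by rw [(xz dd).co_map, (xz dd).co_mk, hA])
        have e2 : w false = (xz dd).map ι₂ ((xz dd).mk' B) :=
          (xz dd).inj (funext fun i => by rw [(xz dd).co_map, (xz dd).co_mk, hB])
        rw [h2 s hs s' hs' L w h, e1, e2]
        refine Finset.sum_eq_zero fun a _ => mul_eq_zero_of_right _ (Finset.sum_eq_zero fun c _ =>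
          mul_eq_zero_of_right _ (mul_eq_zero_of_right _ ?_))
        rw [XQc.mlt_map, XQc.mlt_map, ← G.Γ.map_pt, ← G.Γ.map_pt]
        exact Rat.cast_eq_zero.2 (k1 L L₁ L₂ ι₁ ι₂ _ _ a3)
      · exact by_contra fun e => h ((G.UU.pi Bool).sp_some.1 ((φ s s').supp L _ e).2)
    · obtain ⟨L, P, hL, hU, h⟩ := XW.gen (p := p) G Unit
      obtain ⟨y, rfl⟩ : ∃ y, P = fun _ => y := ⟨P (), rfl⟩
      replace hU := hU ()
      replace hL : Good (dd * Nat.card Bool) L := by simpa using hL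
      replace h : dg (xf L fun _ : Bool => y) ≠ 0 := by
        refine fun e => h (Eq.trans (congrArg (fun S => dg (IntermediateField.adjoin K S)) ?_) e)
        exact ((Prod.snd_surjective (α := Unit)).range_comp y.1).trans
          ((Prod.snd_surjective (α := Bool)).range_comp y.1).symm
      have hQ := XV.pow hq j
      have c1 := (XV.mp hQ).1.mem L y hU
      have e1 : cfg q (fun b => bif b then j else 0) L (fun _ => y) false = y :=
        Prod.ext (funext fun _ => pow_one _) (pow_one _)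
      have e2 : cfg q (fun b => bif b then j else 0) L (fun _ => y) true = frb (q ^ j) L y := rfl
      have c3 : φ₁.v L (G.Γ.pt (frb (q ^ j) L y), G.Γ.pt y) = _ :=
        (hv L _ _ hL (YA.uu c1) (YA.uu hU)).trans
          (Bridge.wt_span b (XQc.nu_ne (YA.uu c1).1) (XQc.nu_ne (YA.uu hU).1))
      have c4 := XQc.gr_val Y hY hQ b (by simpa [mul_comm] using hL) hU h
      rw [← c3] at c4
      have m0 : (G.m : ℂ) ≠ 0 := Nat.cast_ne_zero.2 G.pm.ne_zero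
      have c5 : ∀ a, ∑ s' ∈ Finset.Ico 1 G.m, ∑ c ∈ Finset.range G.m, (ω ^ s')⁻¹ ^ c *
          (((G.m : ℂ) ^ 2)⁻¹ * (XQa.cx φ₁).v L (G.Γ.pt (mlt (ζ ^ a) L (frb (q ^ j) L y)),
            G.Γ.pt (mlt (ζ ^ c) L y))) = _ := fun a => XQc.orth hω G.pm.pos _ (by
        rw [← Finset.mul_sum]
        refine mul_eq_zero_of_right _ ?_
        exact (Rat.cast_sum _ _).symm.trans (Rat.cast_eq_zero.2 (an L y _ (YA.uu hU)).2))
      have c6 := XQc.orth hω G.pm.pos (fun a => (G.m : ℂ) * (((G.m : ℂ) ^ 2)⁻¹ *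
          (XQa.cx φ₁).v L (G.Γ.pt (mlt (ζ ^ a) L (frb (q ^ j) L y)), G.Γ.pt (mlt (ζ ^ 0) L y)))) (by
        rw [← Finset.mul_sum, ← Finset.mul_sum]
        refine mul_eq_zero_of_right _ (mul_eq_zero_of_right _ ?_)
        exact (Rat.cast_sum _ _).symm.trans (Rat.cast_eq_zero.2 (an L _ _ (YA.uu c1)).1))
      have c7 : (dg (xf L fun _ : Bool => y) : ℂ) * ∑ s ∈ Finset.Ico 1 G.m,
          ∑ s' ∈ Finset.Ico 1 G.m, v s s' j = _ := Eq.trans (by
        rw [Finset.mul_sum]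
        refine Finset.sum_congr rfl fun s hs => ?_
        simp only [← c5, Finset.mul_sum _ _ (_ ^ _), Finset.sum_comm (s := Finset.range G.m)
          (t := Finset.Ico 1 G.m)]
        rw [Finset.mul_sum]
        refine Finset.sum_congr rfl fun s' hs' => ?_
        rw [← h3 s hs s' hs' j L (fun _ => y) hL (fun _ => hU) fun _ => rfl,
          h2 s hs s' hs' L _ fun t => by cases t; exacts [e1.symm ▸ hU, c1], e1, e2]
        simp only [Finset.mul_sum _ _ (_ ^ _)]) c6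
      rw [pow_zero, mlt_one, mlt_one] at c7
      have c8 : (G.m : ℂ) * (XQa.cx φ₁).v L (G.Γ.pt (frb (q ^ j) L y), G.Γ.pt y) =
          dg (xf L fun _ : Bool => y) * (b (Y.grC (q ^ j)) : ℂ) := by
        show (G.m : ℂ) * ((φ₁.v L _ : ℚ) : ℂ) = _
        exact_mod_cast c4
      refine mul_left_cancel₀ (Nat.cast_ne_zero.2 h) (c7.trans ?_)
      rw [← mul_div_assoc, ← c8]
      field_simp

end Pool.Agent.Lib.MP_557161_ag.HG.HN.HC
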