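import Pool.Agent.Lib.MP_557161_ag.HC.StY
import Pool.Agent.Lib.MP_557161_ag.HN.XV

/-!
The Frobenius map of the cyclic cover, and descent along it.
-/

namespace Pool.Agent.Lib.MP_557161_ag.HG.HN.HC

open Pool.Agent.Lib.MP_557161_ag.DL
open HN.XVA (lift_frb mem_of_pow co_cfg clos co_pow)

variable {K : Type} [Field K] {p dd : ℕ} [Fact p.Prime] [CharP K p] {G : GD K dd} {Q q : ℕ}

namespace XVc

theorem hom (h : G.Fr p Q) (L : Fld K) : ∃ F : L →+* L, ∀ a, a ^ Q = F a := by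
  obtain ⟨⟨f, rfl⟩, -⟩ := h
  have : CharP L p := charP_of_injective_algebraMap (algebraMap K L).injective p
  exact ⟨iterateFrobenius L p f, fun _ => rfl⟩

theorem pinj (h : G.Fr p Q) {L : Fld K} {a b : L} (e : a ^ Q = b ^ Q) : a = b := by
  obtain ⟨F, hF⟩ := hom h L
  exact F.injective (by rw [← hF, ← hF, e])

omit [CharP K p] in
theorem ne (h : G.Fr p Q) : Q ≠ 0 := by
  obtain ⟨⟨f, rfl⟩, -⟩ := h
  exact pow_ne_zero _ (Fact.out : p.Prime).ne_zero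

theorem inj (h : G.Fr p Q) (L : Fld K) : Function.Injective (frb (dd := dd) Q L) := fun _ _ e =>
  Prod.ext (funext fun i => pinj h (congrFun (congrArg Prod.fst e) i))
    (pinj h (congrArg Prod.snd e))

theorem frb_mlt (Q : ℕ) (ξ : K) (L : Fld K) (y : (xz dd).X L) :
    frb Q L (mlt ξ L y) = mlt (ξ ^ Q) L (frb Q L y) :=
  Prod.ext rfl ((mul_pow _ _ _).trans (congrArg (· * _) (map_pow _ _ _).symm))

theorem mem_mlt {ξ : K} (h : ξ ^ G.m = 1) {L : Fld K} {y : (xz dd).X L} :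
    G.UU.mem L (mlt ξ L y) ↔ G.UU.mem L y := by
  have e : (algebraMap K L ξ * y.2) ^ G.m = y.2 ^ G.m := by
    rw [mul_pow, ← map_pow, h, map_one, one_mul]
  exact ⟨fun h => ⟨h.1, h.2.1, e.symm.trans h.2.2⟩, fun h => ⟨h.1, h.2.1, e.trans h.2.2⟩⟩

theorem root {m : ℕ} (h : m ∣ q + 1) {ξ : K} (hξ : ξ ^ m = 1) (e : ℕ) :
    (ξ ^ q ^ e) ^ q ^ e = ξ := by
  obtain ⟨t, ht⟩ := h
  have a : ξ ^ q * ξ = 1 := by rw [← pow_succ, ht, pow_mul, hξ, one_pow]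
  have b : ξ ^ (q * q) = ξ := by
    have c : ξ ^ (q * q) * ξ ^ q = 1 := by rw [pow_mul, ← mul_pow, a, one_pow]
    rw [← mul_one (ξ ^ (q * q)), ← a, ← mul_assoc, c, one_mul]
  rw [← pow_mul, ← mul_pow]
  induction e with
  | zero => rw [pow_zero, pow_one]
  | succ e ih => rw [pow_succ, pow_mul, ih, b]

theorem eq_pow {T : Type} [DecidableEq T] {ζ : K} {c : T → ℂ}
    {a : ∀ L : Fld K, (T → (xz dd).X L) → ℂ} (h : EqP ζ c a) (n : ℕ) :
    EqP (ζ ^ n) (fun i => c i ^ n) a := fun i L x => by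
  induction n with
  | zero => simp only [pow_zero, mlt_one, Function.update_eq_self, one_mul]
  | succ n ih =>
    have := h i L (Function.update x i (mlt (ζ ^ n) L (x i)))
    rw [Function.update_idem, Function.update_self, mlt_mlt, ih, ← pow_succ', ← mul_assoc,
      ← pow_succ'] at this
    exact this

omit [Fact p.Prime] [CharP K p] in
theorem pow (h : G.Fr p q) (m : ℕ) : G.Fr p (q ^ m) := by
  obtain ⟨⟨f, e⟩, h⟩ := h
  refine ⟨⟨f * m, by rw [e, pow_mul]⟩, ?_⟩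
  induction m with
  | zero => rw [pow_zero, pow_one]
  | succ m ih => rw [pow_succ, pow_mul, ih, h]

theorem cfg_upd {T : Type} [DecidableEq T] (q : ℕ) (e : T → ℕ) (ξ : K) (L : Fld K)
    (x : T → (xz dd).X L) (i : T) : cfg q e L (Function.update x i (mlt ξ L (x i))) =
      Function.update (cfg q e L x) i (mlt (ξ ^ q ^ e i) L (cfg q e L x i)) := by
  funext t
  by_cases c : t = i
  · subst c
    rw [Function.update_self, cfg, Function.update_self, frb_mlt, cfg]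
  · rw [Function.update_of_ne c, cfg, Function.update_of_ne c, cfg]

variable [XA K dd]

theorem mem_frb (h : G.Fr p Q) {L : Fld K} {y : (xz dd).X L} :
    G.UU.mem L (frb Q L y) ↔ G.UU.mem L y := by
  have e := XA.frob G h L y.1
  refine ⟨fun m => ⟨⟨trivial, fun i c => m.1.2 i ?_⟩, pinj h (m.2.1.trans (one_pow Q).symm),
    pinj h ((pow_right_comm _ _ _).trans (m.2.2.trans e))⟩,
    fun m => ⟨⟨trivial, fun i => pow_ne_zero _ (m.1.2 i)⟩, ?_, ?_⟩⟩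
  · exact (congrArg (· ^ Q) c).trans (zero_pow (ne h))
  · exact (congrArg (· ^ Q) m.2.1).trans (one_pow Q)
  · exact (pow_right_comm _ _ _).trans ((congrArg (· ^ Q) m.2.2).trans e.symm)

theorem mp (h : G.Fr p Q) : Mp G.UU G.UU (frb Q) :=
  ⟨fun _ _ _ _ _ _ _ e => lift_frb e, fun _ _ m => (mem_frb h).2 m⟩

theorem pro (h : G.Fr p Q) : Pro G.UU G.UU (frb Q) := fun M O x z _ _ m e => by
  have l : (xz dd).lift (Rel.ofPl O).r x ((xz dd).map O.rd x) :=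
    ⟨fun i => ⟨mem_of_pow (ne h) (e.1 i).1, rfl⟩, mem_of_pow (ne h) e.2.1, rfl⟩
  exact ⟨_, (mem_frb h).1 (Cd.lift_eq e (lift_frb l) rfl ▸ m), l⟩

theorem srj (h : G.Fr p Q) : Srj G.UU G.UU (frb Q) := fun L _ z m => by
  choose r hr using fun a : L => IsAlgClosed.exists_pow_nat_eq a (Nat.pos_of_ne_zero (ne h))
  have e : frb Q L (fun i => r (z.1 i), r z.2) = z := Prod.ext (funext fun i => hr _) (hr _)
  exact ⟨_, (mem_frb h).1 (e.symm ▸ m), e⟩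

variable {T : Type} [Finite T]

theorem mem_cfg (h : G.Fr p q) (e : T → ℕ) {L : Fld K} {x : T → (xz dd).X L} :
    (G.UU.pi T).mem L (cfg q e L x) ↔ (G.UU.pi T).mem L x :=
  forall_congr' fun _ => mem_frb (pow h _)

theorem cmp (h : G.Fr p q) (e : T → ℕ) : Mp (G.UU.pi T) (G.UU.pi T) (cfg q e) :=
  ⟨fun _ _ _ _ _ _ _ l i => lift_frb (l i), fun _ _ m => (mem_cfg h e).2 m⟩

theorem cpro (h : G.Fr p q) (e : T → ℕ) : Pro (G.UU.pi T) (G.UU.pi T) (cfg q e) :=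
  fun M O x z hO m m' l => by
    choose x' h1 h2 using fun i => pro (pow h (e i)) M O (x i) (z i) hO (m i) (m' i) (l i)
    exact ⟨x', h1, h2⟩

theorem csrj (h : G.Fr p q) (e : T → ℕ) : Srj (G.UU.pi T) (G.UU.pi T) (cfg q e) :=
  fun L _ z m => by
    choose x h1 h2 using fun i => srj (pow h (e i)) L (z i) (m i)
    exact ⟨x, h1, funext h2⟩

theorem pull (h : G.Fr p q) {j : ℕ} (φ : AF j (G.UU.pi T)) (e : T → ℕ) :
    ∃ ψ : AF j (G.UU.pi T), ∀ L x, ψ.a L x = φ.a L (cfg q e L x) := by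
  refine ⟨φ.pull (cmp h e).mor ((cpro h e).mor _), fun L x => ?_⟩
  by_cases m : (G.UU.pi T).mem L x
  · exact Fe.pull_of_mem _ _ _ ((ASp.sp_some _).2 m)
  · exact (not_not.1 fun c => m ((ASp.sp_some _).1 (Pre.supp _ _ _ c).2)).trans (not_not.1 fun c =>
      m ((mem_cfg h e).1 ((ASp.sp_some _).1 (φ.supp _ _ c).2))).symm

theorem desc [Base K] (h : G.Fr p q) {j : ℕ} (φ : AF j (G.UU.pi T)) (e : T → ℕ) :
    ∃ ψ : AF j (G.UU.pi T), ∀ L x, φ.a L x = ψ.a L (cfg q e L x) := by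
  obtain ⟨ψ, hψ⟩ := descent ((cpro h e).mor (cmp h e)) ((csrj h e).mor _) φ (by
    rintro L _ _ ⟨x, rfl, -⟩ ⟨x', rfl, -⟩ c
    have c' : cfg q e L x = cfg q e L x' := Option.some.inj c
    rw [show x = x' from funext fun i => inj (pow h (e i)) L (congrFun c' i)])
  refine ⟨ψ, fun L x => ?_⟩
  by_cases m : Good j L ∧ (G.UU.pi T).mem L x
  · have s : Function.Surjective (AlgHom.id K L) := Function.surjective_id
    have := hψ L L (AlgHom.id K L) (some (cfg q e L x)) (some x) m.1 (Fin'.of_surj s)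
      ((ASp.sp_some _).2 m.2) (Amb.map_id _ _).symm
    rwa [deg_of_surj s, Nat.cast_one, one_mul] at this
  · exact (not_not.1 fun c => m ⟨(φ.supp _ _ c).1, (ASp.sp_some _).1 (φ.supp _ _ c).2⟩).trans
      (not_not.1 fun c => m ⟨(ψ.supp _ _ c).1,
        (mem_cfg h e).1 ((ASp.sp_some _).1 (ψ.supp _ _ c).2)⟩).symm

theorem anti [Base K] [DecidableEq T] (hq : G.Fq p q) {j : ℕ} {φ ψ : AF j (G.UU.pi T)}
    {e : T → ℕ} (hψ : ∀ L x, φ.a L x = ψ.a L (cfg q e L x)) (ζ : K) (c : T → ℂ)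
    (hζ : ζ ^ G.m = 1) (ha : EqP ζ c φ.a) : EqP ζ (fun i => c i ^ q ^ e i) ψ.a := by
  intro i L x
  have h := hq.1
  by_cases m : Good j L ∧ (G.UU.pi T).mem L x
  · obtain ⟨L', ι, _, a1, ⟨x', rfl, -⟩, a3⟩ :=
      CKL.surj_lift ((csrj h e).mor (cmp h e)) ((ASp.sp_some _).2 m.2)
    have a4 : cfg q e L' x' = (Cd.pi T (xz dd)).map ι x := Option.some.inj a3
    have v : ∀ y, ψ.a L' ((Cd.pi T (xz dd)).map ι y) = deg ι * ψ.a L y :=
      fun y => ψ.ext ι (some y) m.1 (m.1.of_fin a1)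
    refine mul_left_cancel₀ (deg_ne a1) ?_
    rw [mul_left_comm, ← v, ← v, ← a4, ← hψ, ← eq_pow ha (q ^ e i) i, hψ, cfg_upd, a4,
      root hq.2 hζ]
    refine congrArg _ (funext fun t => ?_)
    by_cases c : t = i
    · subst c
      simp only [Function.update_self]
      exact Prod.ext rfl ((map_mul ι _ _).trans (congrArg (· * _) (ι.commutes ζ)))
    · simp only [Function.update_of_ne c]
  · rw [show ψ.a L x = 0 from not_not.1 fun c =>
      m ⟨(ψ.supp _ _ c).1, (ASp.sp_some _).1 (ψ.supp _ _ c).2⟩, mul_zero]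
    refine not_not.1 fun c => m ⟨(ψ.supp _ _ c).1, fun t => ?_⟩
    have := (ASp.sp_some _).1 (ψ.supp _ _ c).2 t
    by_cases c : t = i
    · subst c
      rw [Function.update_self] at this
      exact (mem_mlt hζ).1 this
    · rwa [Function.update_of_ne c] at this

theorem kls [Base K] [FA1 K] (h : G.Fr p q) {j : ℕ}
    {φ ψ : AF j (G.UU.pi T)} {e : T → ℕ} (hψ : ∀ L x, φ.a L x = ψ.a L (cfg q e L x))
    (sd : T → Bool) (hk : KlS sd φ.a) : KlS sd ψ.a := by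
  intro L L₁ L₂ ι₁ ι₂ x h1 h2 h3
  by_cases m : Good j L ∧ (G.UU.pi T).mem L x
  · obtain ⟨L', ι, _, a1, ⟨x', rfl, -⟩, a3⟩ :=
      CKL.surj_lift ((csrj h e).mor (cmp h e)) ((ASp.sp_some _).2 m.2)
    have a4 : cfg q e L' x' = (Cd.pi T (xz dd)).map ι x := Option.some.inj a3
    have v : ψ.a L' ((Cd.pi T (xz dd)).map ι x) = deg ι * ψ.a L x :=
      ψ.ext ι (some x) m.1 (m.1.of_fin a1)
    obtain ⟨F₁, b1, c1⟩ := clos (ι.comp ι₁)
    obtain ⟨F₂, b2, c2⟩ := clos (ι.comp ι₂)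
    have k : ∀ {L₀ : Fld K} (κ : L₀ →ₐ[K] L) (s : (Cd.pi T (xz dd)).ι),
        (Cd.pi T (xz dd)).co x s ∈ Set.range κ →
        (Cd.pi T (xz dd)).co x' s ^ q ^ e s.1 ∈ Set.range (ι.comp κ) := fun κ s ⟨b, hb⟩ =>
      ⟨b, by rw [← co_pow, a4, Cd.co_map, ← hb]; rfl⟩
    have n0 : ∀ s : (Cd.pi T (xz dd)).ι, q ^ e s.1 ≠ 0 := fun s => pow_ne_zero _ (ne h)
    refine (mul_eq_zero.1 ?_).resolve_left (deg_ne a1)
    rw [← v, ← a4, ← hψ]
    exact hk L' (L'.sub F₁) (L'.sub F₂) F₁.val F₂.val x'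
      (fun s c => ⟨⟨_, c1 _ _ (n0 s) (k ι₁ s (h1 s c))⟩, rfl⟩)
      (fun s c => ⟨⟨_, c2 _ _ (n0 s) (k ι₂ s (h2 s c))⟩, rfl⟩) ((add_le_add b1 b2).trans h3)
  · exact not_not.1 fun c => m ⟨(ψ.supp _ _ c).1, (ASp.sp_some _).1 (ψ.supp _ _ c).2⟩

end XVc

theorem XV_thm [Base K] [FW0 K] [XA K dd] : XV K p dd where
  mp h := ⟨XVc.mp h, XVc.pro h, XVc.srj h, XVc.inj h⟩
  pow := XVc.pow
  pull {G q} h T _ _ j φ e := by
    obtain ⟨ψ, hψ⟩ := XVc.pull h φ e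
    refine ⟨ψ, hψ, fun ζ c ha i L x => ?_, fun sd hk L L₁ L₂ ι₁ ι₂ w h1 h2 h3 => ?_⟩
    · rw [hψ, hψ, XVc.cfg_upd, XVc.eq_pow ha]
    · rw [hψ]
      exact hk L L₁ L₂ ι₁ ι₂ _ (fun s c => co_cfg e ι₁ w s (h1 s c))
        (fun s c => co_cfg e ι₂ w s (h2 s c)) h3
  desc {G q} h T _ _ j φ e := by
    obtain ⟨ψ, hψ⟩ := XVc.desc h.1 φ e
    exact ⟨ψ, hψ, XVc.anti h hψ, XVc.kls h.1 hψ⟩

end Pool.Agent.Lib.MP_557161_ag.HG.HN.HC
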