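import Pool.Agent.Lib.MP_557161_ag.HC.XV
import Pool.Agent.Lib.MP_557161_ag.HN.XW

/-!
Normalised values on products of graphs of Frobenius.
-/

namespace Pool.Agent.Lib.MP_557161_ag.HG.HN.HC

open Pool.Agent.Lib.MP_557161_ag.DL
open Bridge (dg dg_map dg_top)
open XWa (map_gen dg_le free_of)
open HN.XWb (cfg_add xf_map mem_xf ext' lo hi vr_cases cc xf_eq good_prod)
open ValA (alg trans_iff gen_iff)

variable {K : Type} [Field K] {p dd : ℕ}

namespace XWc

variable {L L' M M' : Fld K} {κ T : Type} {j : ℕ}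

open Polynomial in
lemma deg_pr {α : L →ₐ[K] M'} {U : M'} (ht : Trans' α U) (hg' : Gen α U) {ρ : M' →ₐ[K] M}
    {X' : M} (hg : Gen (ρ.comp α) X') (hp : p.Prime) (e : ρ U = X' ^ p) : deg ρ = p := by
  let := alg ρ
  have hirr : Irreducible (X ^ p - C U : M'[X]) :=
    X_pow_sub_C_irreducible_of_prime hp fun b hb => by
      obtain ⟨O, -, h1, h3, -⟩ := Pl.exists_zero_place ht hg'
      have := Pl.ord_pow h1 b p
      rw [hb, h3] at this
      exact hp.one_lt.ne' (by exact_mod_cast Int.eq_one_of_mul_eq_one_right (by omega) this.symm)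
  have hgen : Gen ρ X' := fun x => by
    obtain ⟨P, Q, h1, h3⟩ := hg x
    exact ⟨P.map α.toRingHom, Q.map α.toRingHom, by rwa [eval₂_map], by rwa [eval₂_map, eval₂_map]⟩
  have hmon := monic_X_pow_sub_C U hp.ne_zero
  have h0 : aeval X' (X ^ p - C U : M'[X]) = 0 := by
    rw [map_sub, map_pow, aeval_X, aeval_C]
    exact sub_eq_zero.2 e.symm
  rw [gen_iff] at hgen
  rw [deg, ← IntermediateField.finrank_top', ← hgen, IntermediateField.adjoin.finrank ⟨_, hmon, h0⟩,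
    ← minpoly.eq_of_irreducible_of_monic hirr h0 hmon, natDegree_X_pow_sub_C]

open Polynomial in
/-- The automorphisms of a radical extension. -/
lemma aut {β : L →ₐ[K] M} {θ θ' : M} {m : ℕ} (hm : m ≠ 0) (hd : deg β = m) (hg : Gen β θ) {a : L}
    (h : θ ^ m = β a) (h' : θ' ^ m = β a) :
    ∃ σ : M →ₐ[K] M, (∀ x, σ (β x) = β x) ∧ σ θ = θ' ∧ deg σ = 1 := by
  let := alg β
  have := ValA.tower β
  have h0 : ∀ {t : M}, t ^ m = β a → aeval t (X ^ m - C a : L[X]) = 0 := fun e => by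
    rw [map_sub, map_pow, aeval_X, aeval_C]
    exact sub_eq_zero.2 e
  have hi : IsIntegral L θ := ⟨_, monic_X_pow_sub_C a hm, h0 h⟩
  rw [gen_iff] at hg
  have h1 := IntermediateField.adjoin.finrank hi
  rw [hg, IntermediateField.finrank_top'] at h1
  have h2 : X ^ m - C a = minpoly L θ := eq_of_monic_of_dvd_of_natDegree_le (minpoly.monic hi)
    (monic_X_pow_sub_C a hm) (minpoly.dvd _ _ (h0 h)) (by
      rw [natDegree_X_pow_sub_C, ← h1]; exact hd.ge)
  let B := PowerBasis.ofAdjoinEqTop hi (by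
    rw [← IntermediateField.adjoin_simple_toSubalgebra_of_isAlgebraic hi.isAlgebraic, hg]; rfl)
  have h3 : aeval θ' (minpoly L B.gen) = 0 := (congrArg (aeval θ') h2).symm.trans (h0 h')
  have h4 : ∀ x, (B.lift θ' h3).restrictScalars K (β x) = β x := (B.lift θ' h3).commutes
  refine ⟨(B.lift θ' h3).restrictScalars K, h4, B.lift_gen θ' h3, ?_⟩
  have h5 := deg_comp β ((B.lift θ' h3).restrictScalars K)
  rw [show ((B.lift θ' h3).restrictScalars K).comp β = β from AlgHom.ext h4, hd] at h5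
  exact (mul_left_cancel₀ hm ((mul_one m).trans h5)).symm

lemma both {ζ : K} {c : Bool → ℂ} {a : ∀ L : Fld K, (Bool → (xz dd).X L) → ℂ} (h : EqP ζ c a)
    (q : ℕ) (e : Bool → ℕ) (s : ℕ) (w : (xz dd).X L) :
    a L (cfg q e L fun _ => mlt (ζ ^ s) L w) =
      (c true ^ q ^ e true * c false ^ q ^ e false) ^ s * a L (cfg q e L fun _ => w) := by
  have c₅ := XVc.eq_pow (XVc.eq_pow h s) (q ^ e false) false L (Function.update
    (cfg q e L fun _ => w) true (mlt ((ζ ^ s) ^ q ^ e true) L (cfg q e L (fun _ => w) true)))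
  rw [XVc.eq_pow (XVc.eq_pow h s) (q ^ e true) true] at c₅
  refine Eq.trans (congrArg _ (funext fun b => ?_)) (c₅.trans (by ring))
  cases b <;> exact XVc.frb_mlt _ _ _ _

lemma low0 [FA3 K] [Finite T] {G : GD K dd} {S : Sp ((Cd.pi T (xz dd)).amb K)} (θ : Pre j S) (q : ℕ)
    (e : T → ℕ) {P : T → (xz dd).X L} (hL : Good j L) (hP : ∀ t, G.UU.mem L (P t))
    (h : dg (xf L P) = 0) : θ.a L (cfg q e L P) = 0 := by
  obtain ⟨m, hm⟩ := good_adjoin L _ (Set.finite_range fun s : T × Vr dd => (P s.1).1 s.2)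
  have h1 : m ≤ j := by
    have := tr_le (L := L.sub (xf L P)) (L' := L) (xf L P).val
    rw [hL.2, show (L.sub (xf L P)).tr = m from hm.2] at this
    exact_mod_cast this
  refine FA3.low' θ (m := m) (FA3.dm_alg (c := .vec (T × Vr dd)) (x := fun s => (P s.1).1 s.2)
    ⟨xf L P, fun s => mem_xf P s.1 s.2, hm.2.le⟩ fun F hF t => ⟨fun i => ?_, ?_⟩)
    (lt_of_le_of_ne h1 fun e => ?_)
  · exact (isAlgebraic_algebraMap (⟨_, hF (t, i)⟩ : F)).pow _
  · refine (IsAlgebraic.of_pow G.pm.pos ?_).pow _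
    rw [(hP t).2.2]
    exact isAlgebraic_algebraMap
      (⟨_, (Rel.aeval (R := Rel.ofSub F) (fun i => ⟨hF (t, i), rfl⟩) _).1⟩ : F)
  · exact ((deg_pos_iff _).2 (Good.fin (L := L.sub (xf L P)) (xf L P).val hL (e ▸ hm.2))).ne' h

lemma gen' [Base K] [XG K dd] (G : GD K dd) (κ : Type) [Finite κ] :
    ∃ (L : Fld K) (P : κ → (xz dd).X L),
    Good (dd * (2 * Nat.card κ)) L ∧ (∀ i, G.UU.mem L (P i)) ∧ dg (xf L P) ≠ 0 := by
  refine Finite.induction_empty_option (P := fun κ => ∃ (L : Fld K) (P : κ → (xz dd).X L),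
    Good (dd * (2 * Nat.card κ)) L ∧ (∀ i, G.UU.mem L (P i)) ∧ dg (xf L P) ≠ 0) ?_ ?_ ?_ κ
  · rintro _ _ e ⟨L, P, h1, h2, h3⟩
    refine ⟨L, fun b => P (e.symm b), by rwa [← Nat.card_congr e], fun _ => h2 _, ?_⟩
    rwa [xf, ← (e.symm.prodCongr (Equiv.refl (Vr dd))).surjective.range_comp] at h3
  · exact ⟨.base K, PEmpty.elim, by simpa using good_base, fun i => i.elim,
      (deg_of_surj (L := (Fld.base K).sub _) (L' := .base K) fun x =>
        ⟨⟨x, IntermediateField.algebraMap_mem _ x⟩, rfl⟩).trans_ne one_ne_zero⟩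
  · rintro κ _ ⟨L, P, h1, h2, h3⟩
    obtain ⟨M, α, y, hy⟩ := XG.ex G h1
    refine ⟨M, fun o => o.elim y fun i => (xz dd).map α (P i), ?_, ?_, ?_⟩
    · have := hy.gM
      rwa [Nat.card_eq_fintype_card, show dd * (2 * Fintype.card κ) + 2 * dd =
        dd * (2 * (Fintype.card κ + 1)) by ring, ← Fintype.card_option,
        ← Nat.card_eq_fintype_card] at this
    · rintro (_ | i)
      exacts [hy.mem, (G.UU.map_iff α _).2 (h2 i)]
    · have := XG.dgr hy (Set.range fun s : κ × Vr dd => (P s.1).1 s.2)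
      refine (Eq.trans (congrArg (fun s => dg (IntermediateField.adjoin K s)) ?_) this).trans_ne
        (mul_ne_zero G.pm.ne_zero h3)
      ext x
      constructor
      · rintro ⟨⟨_ | t, i⟩, rfl⟩
        exacts [Or.inr ⟨i, rfl⟩, Or.inl ⟨_, ⟨(t, i), rfl⟩, rfl⟩]
      · rintro (⟨_, ⟨⟨t, i⟩, rfl⟩, rfl⟩ | ⟨i, rfl⟩)
        exacts [⟨(some t, i), rfl⟩, ⟨(none, i), rfl⟩]

variable [FA1 K]

lemma endo [Finite κ] [DecidableEq κ] {α : L →ₐ[K] M} {T : κ → M} (h : Free j α T) (s : κ)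
    (hp : p.Prime) (k : ℕ) : ∃ ρ : M →ₐ[K] M,
      (∀ t, ρ (T t) = if t = s then T t ^ p ^ k else T t) ∧ deg ρ = p ^ k := by
  obtain ⟨M₁, α₁, β, T₁, rfl, hT, -, F₂⟩ := FA1.split h (· ≠ s)
  let : Unique {i // ¬ i ≠ s} := ⟨⟨⟨s, fun h => h rfl⟩⟩, fun a => Subtype.ext (not_not.1 a.2)⟩
  obtain ⟨-, t₁, g₁⟩ := FA1.one.1 F₂
  have t₂ : Trans' β (T s ^ p) := by
    let := alg β
    exact (trans_iff _ _).2 (((trans_iff _ _).1 t₁).pow hp.pos)
  obtain ⟨ρ, e₁, e₂⟩ := exists_lift t₁ g₁ t₂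
  have e₃ := deg_pr t₁ g₁ (by rw [e₁]; exact g₁) hp e₂
  induction k with
  | zero => exact ⟨AlgHom.id K M, fun t => by simp, deg_of_surj Function.surjective_id⟩
  | succ k ih =>
    obtain ⟨ρ', a, b⟩ := ih
    refine ⟨ρ.comp ρ', fun t => ?_, by rw [deg_comp, b, e₃, pow_succ]⟩
    rw [AlgHom.comp_apply, a]
    split_ifs with e
    · rw [e, map_pow, pow_succ', pow_mul]
      exact congrArg (· ^ _) e₂
    · rw [← hT ⟨t, e⟩]
      exact AlgHom.congr_fun e₁ _

lemma endos [Finite κ] [DecidableEq κ] {α : L →ₐ[K] M} {T : κ → M} (h : Free j α T)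
    (hp : p.Prime) (k : ℕ) (s : Finset κ) : ∃ ρ : M →ₐ[K] M,
      (∀ t, ρ (T t) = if t ∈ s then T t ^ p ^ k else T t) ∧ deg ρ = p ^ (k * s.card) := by
  induction s using Finset.induction_on with
  | empty => exact ⟨AlgHom.id K M, fun t => by simp, by
      simpa using deg_of_surj (ι := AlgHom.id K M) Function.surjective_id⟩
  | insert a s ha ih =>
    obtain ⟨ρ, a₂, a₃⟩ := ih
    obtain ⟨ρ', b₂, b₃⟩ := endo h a hp k
    refine ⟨ρ.comp ρ', fun t => ?_, ?_⟩
    · rw [AlgHom.comp_apply, b₂]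
      by_cases e : t = a
      · rw [if_pos e, if_pos (e ▸ Finset.mem_insert_self _ _), map_pow, a₂, if_neg (e ▸ ha)]
      · simp only [a₂, Finset.mem_insert, e, false_or, if_false]
    · rw [deg_comp, a₃, b₃, Finset.card_insert_of_notMem ha, ← pow_add]
      congr 1
      ring

lemma dg_cfg [Base K] [Finite T] [DecidableEq T] {τ : T → T} (hτ : Inv τ) {P : T → (xz dd).X L}
    (hL : Good (dd * Nat.card T) L) (h0 : ∀ t, (P t).1 0 = 1) (hP : ∀ t, P (τ t) = P t)
    (hp : p.Prime) (f m : ℕ) (i : T) :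
    dg (xf L (cfg (p ^ f) (fun t => if t = i ∨ t = τ i then m else 0) L P)) =
      ((p ^ f) ^ dd) ^ (2 * m) * dg (xf L P) := by
  by_cases h : dg (xf L P) = 0
  · rw [h, mul_zero]
    refine dg_le (IntermediateField.adjoin_le_iff.2 ?_) h
    rintro _ ⟨⟨t, i⟩, rfl⟩
    exact pow_mem (mem_xf P t i) _
  obtain ⟨o, ho⟩ := Countable.exists_injective_nat T
  have hδ : ∀ t, (τ t = i ∨ τ t = τ i) ↔ (t = i ∨ t = τ i) := fun t =>
    ⟨fun h => h.symm.imp (fun e => by rw [← (hτ t).1, e, (hτ i).1]) fun e => by rw [← e, (hτ t).1],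
      fun h => h.symm.imp (fun e => by rw [e, (hτ i).1]) fun e => by rw [e]⟩
  rw [xf_eq ho hτ h0 hP] at h ⊢
  rw [xf_eq ho hτ (fun t => (congrArg (· ^ _) (h0 t)).trans (one_pow _))
    fun t => by simp only [cfg, hδ, hP]]
  obtain ⟨M, α, β, U, e₁, hF, e₂⟩ := free_of (good_prod hL) h
  obtain ⟨ρ, a₂, a₃⟩ := endos hF hp (f * m) (({i, τ i} : Finset T) ×ˢ Finset.univ)
  have e₃ := map_gen α U (β.comp ρ)
  rw [hF.top, Subsingleton.elim ((β.comp ρ).comp α) (Algebra.ofId K L)] at e₃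
  rw [show cc o τ (cfg (p ^ f) (fun t => if t = i ∨ t = τ i then m else 0) L P) =
    fun t => (β.comp ρ) (U t) from funext fun t => ?_, ← e₃, dg_map, dg_top, one_mul,
    deg_comp, a₃, e₂, Finset.card_product, Finset.card_pair (hτ i).2.symm, Finset.card_fin,
    ← pow_mul, ← pow_mul]
  · congr 2
    ring
  have e₄ : cc o τ (cfg (p ^ f) (fun t => if t = i ∨ t = τ i then m else 0) L P) t =
      cc o τ P t ^ (p ^ f) ^ (if t.1 = i ∨ t.1 = τ i then m else 0) := by
    unfold cc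
    by_cases h : o t.1 < o (τ t.1)
    · rw [if_pos h, if_pos h]; rfl
    · rw [if_neg h, if_neg h]; rfl
  rw [e₄, ← e₁, AlgHom.comp_apply, a₂]
  simp only [Finset.mem_product, Finset.mem_insert, Finset.mem_singleton, Finset.mem_univ, and_true]
  split_ifs
  · rw [map_pow, pow_mul]
  · rw [pow_zero, pow_one]

lemma cmp [Base K] {G : GD K dd} {q : ℕ} (φ : AF (dd * Nat.card Bool) (G.UU.pi Bool))
    {ζ : K} (hζ : IsPrimitiveRoot ζ G.m) (e : Bool → ℕ) {y : (xz dd).X L} {y' : (xz dd).X L'}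
    (hL : Good (dd * Nat.card Bool) L)
    (hL' : Good (dd * Nat.card Bool) L') (hy : G.UU.mem L y) (hy' : G.UU.mem L' y')
    (h : dg (xf L fun _ : Bool => y) ≠ 0) (h' : dg (xf L' fun _ : Bool => y') ≠ 0) {c : Bool → ℂ}
    (hφ : EqP ζ c φ.a) (hk : (c true ^ q ^ e true * c false ^ q ^ e false) *
      φ.a L' (cfg q e L' fun _ => y') = φ.a L' (cfg q e L' fun _ => y')) :
    φ.a L (cfg q e L fun _ => y) * dg (xf L' fun _ : Bool => y') =
      dg (xf L fun _ : Bool => y) * φ.a L' (cfg q e L' fun _ => y') := by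
  have ho : Function.Injective Bool.toNat := fun a b => by cases a <;> cases b <;> simp
  have hτ : Inv not := fun a => by cases a <;> simp
  rw [xf_eq ho hτ (fun _ => hy.2.1) fun _ => rfl] at h ⊢
  rw [xf_eq ho hτ (fun _ => hy'.2.1) fun _ => rfl] at h' ⊢
  obtain ⟨M, α, β, U, e₁, hF, e₂⟩ := free_of (good_prod hL) h
  obtain ⟨M', α', β', U', e₁', hF', e₂'⟩ := free_of (good_prod hL') h'
  obtain ⟨ρ, -, a₂, a₃⟩ := FA1.lift hF hF' (AlgHom.id K K)
  obtain ⟨N, κ₁, κ₂, b₁, b₂⟩ := exists_amalgam β (β'.comp ρ)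
    ((deg_pos_iff _).1 (e₂ ▸ Nat.pos_of_ne_zero h))
  have hN := hL'.of_fin b₂
  have d₁ := congrArg (fun f => (deg f : ℂ)) b₁
  simp only [deg_comp, a₃ rfl, deg_of_surj (ι := AlgHom.id K (Fld.base K)) Function.surjective_id,
    one_mul, e₂, e₂', Nat.cast_mul] at d₁
  have c₁ : ∀ b, κ₁ (cc Bool.toNat not (fun _ => y) b) = κ₂ (cc Bool.toNat not (fun _ => y') b) :=
    fun b => by rw [← e₁, ← e₁', ← a₂]; exact AlgHom.congr_fun b₁ _
  have c₂ : ((xz dd).map κ₁ y).1 = ((xz dd).map κ₂ y').1 := funext fun i => by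
    rcases vr_cases i with rfl | ⟨s, rfl⟩ | ⟨s, rfl⟩
    exacts [(congrArg κ₁ hy.2.1).trans ((map_one κ₁).trans ((congrArg κ₂ hy'.2.1).trans
      (map_one κ₂)).symm), c₁ (false, s), c₁ (true, s)]
  have c₃ : ((xz dd).map κ₁ y).2 ^ G.m = ((xz dd).map κ₂ y').2 ^ G.m := by
    rw [((G.UU.map_iff κ₁ y).2 hy).2.2, ((G.UU.map_iff κ₂ y').2 hy').2.2, c₂]
  have c₄ : φ.a N (cfg q e N fun _ => (xz dd).map κ₁ y) =
      φ.a N (cfg q e N fun _ => (xz dd).map κ₂ y') := by
    obtain ⟨s, hs⟩ : ∃ s, (xz dd).map κ₁ y = mlt (ζ ^ s) N ((xz dd).map κ₂ y') := by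
      by_cases c : ((xz dd).map κ₂ y').2 = 0
      · rw [c, zero_pow G.pm.ne_zero] at c₃
        exact ⟨0, Prod.ext c₂ ((pow_eq_zero_iff G.pm.ne_zero).1 c₃ |>.trans
          ((congrArg (_ * ·) c).trans (mul_zero _)).symm)⟩
      · have : NeZero G.m := ⟨G.pm.ne_zero⟩
        obtain ⟨s, -, hs⟩ := (hζ.map_of_injective (algebraMap K N).injective).eq_pow_of_pow_eq_one
          (ξ := ((xz dd).map κ₁ y).2 / ((xz dd).map κ₂ y').2)
          (by rw [div_pow, c₃, div_self (pow_ne_zero _ c)])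
        exact ⟨s, Prod.ext c₂ (((div_mul_cancel₀ _ c).symm.trans
          (congrArg (· * _) hs.symm)).trans (congrArg (· * _) (map_pow _ _ _).symm))⟩
    rw [hs, both hφ, ext' φ.toPre q e κ₂ (fun _ => y') hL' hN, mul_left_comm]
    congr 1
    clear hs
    induction s with
    | zero => rw [pow_zero, one_mul]
    | succ s ih => rw [pow_succ, mul_assoc, hk, ih]
  rw [ext' φ.toPre q e κ₁ (fun _ => y) hL hN, ext' φ.toPre q e κ₂ (fun _ => y') hL' hN] at c₄
  have d₂ := deg_ne b₂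
  have d₃ : (deg κ₁ : ℂ) ≠ 0 := fun e => mul_ne_zero (Nat.cast_ne_zero.2 h') d₂ (by
    rw [← d₁, e, mul_zero])
  refine mul_left_cancel₀ d₃ ?_
  rw [← mul_assoc, c₄, mul_left_comm, ← mul_assoc, d₁]
  ring

end XWc

theorem XW_thm [Base K] [Fact p.Prime] [CharP K p] [FA1 K] [FA3 K] [X0 dd] [XG K dd] [XV K p dd] :
    XW K p dd where
  shift {G q} hq {T} _ φ {τ} hτ e e' i m v h1 h2 h3 := by
    classical
    have hp : p.Prime := Fact.out
    obtain ⟨⟨f, rfl⟩, hl⟩ := id hq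
    obtain rfl : e' = fun t => e t + if t = i ∨ t = τ i then m else 0 := funext fun t => by
      by_cases a : t = i
      · rw [if_pos (Or.inl a), a, h1]
      · by_cases b : t = τ i
        · rw [if_pos (Or.inr b), b, h2]
        · rw [if_neg (not_or.2 ⟨a, b⟩), h3 t a b, add_zero]
    have hδ : ∀ t, (τ t = i ∨ τ t = τ i) ↔ (t = i ∨ t = τ i) := fun t =>
      ⟨fun h => h.symm.imp (fun e => by rw [← (hτ t).1, e, (hτ i).1]) fun e => by rw [← e, (hτ t).1],
        fun h => h.symm.imp (fun e => by rw [e, (hτ i).1]) fun e => by rw [e]⟩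
    refine ⟨fun H L P hL hU hP => ?_, fun H L P hL hU hP => ?_⟩
    · obtain ⟨a1, -, a2, -⟩ := XV.mp (XV.pow hq m)
      obtain ⟨L', ι, _, b1, ⟨y, rfl, b2⟩, b3⟩ := CKL.surj_lift (Srj.mor a1 a2) ⟨_, rfl, hU i⟩
      have b4 : frb ((p ^ f) ^ m) L' y = (xz dd).map ι (P i) := Option.some.inj b3
      let P₀ : T → (xz dd).X L' := fun t => if t = i ∨ t = τ i then y else (xz dd).map ι (P t)
      have c1 : ∀ t, G.UU.mem L' (P₀ t) := fun t => by
        simp only [P₀]
        split_ifs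
        exacts [b2, (G.UU.map_iff ι _).2 (hU t)]
      have c2 : ∀ t, P₀ (τ t) = P₀ t := fun t => by simp only [P₀, hδ, hP]
      have c3 : cfg (p ^ f) (fun t => if t = i ∨ t = τ i then m else 0) L' P₀ =
          fun t => (xz dd).map ι (P t) := funext fun t => by
        simp only [cfg, P₀]
        split_ifs with h
        · rcases h with rfl | rfl
          · exact b4
          · rw [b4, hP]
        · exact Prod.ext (funext fun _ => pow_one _) (pow_one _)
      have hL' := hL.of_fin b1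
      have c4 := H L' P₀ hL' c1 c2
      have c5 := XWc.dg_cfg hτ hL' (fun t => (c1 t).2.1) c2 hp f m i
      rw [c3, xf_map, dg_map] at c5
      rw [cfg_add, c3, ext' φ.toPre _ e ι P hL hL', ← mul_assoc, mul_comm (dg _ : ℂ),
        ← Nat.cast_pow, ← Nat.cast_pow, ← Nat.cast_mul, ← c5, Nat.cast_mul, mul_comm (dg _ : ℂ), mul_assoc] at c4
      exact mul_left_cancel₀ (deg_ne b1) c4
    · rw [cfg_add, H L (cfg _ _ L P) hL (fun t => (XV.mp (XV.pow hq _)).1.mem _ _ (hU t))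
        (fun t => by simp only [cfg, hδ, hP]), XWc.dg_cfg hτ hL (fun t => (hU t).2.1) hP hp]
      push_cast
      ring
  val {G q} _ φ ζ c hζ hφ e := by
    have hc : ∀ {L : Fld K} {P : Bool → (xz dd).X L}, (∀ i, P (!i) = P i) → P = fun _ => P true :=
      fun h => funext fun b => by cases b; exacts [h true, rfl]
    obtain ⟨M, α, y, hy⟩ := XG.ex G (good_base (K := K))
    have a1 : Good (dd * Nat.card Bool) M := by
      have := hy.gM
      rwa [zero_add, mul_comm, ← Fintype.card_bool, ← Nat.card_eq_fintype_card] at this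
    have a3 : dg (xf M fun _ : Bool => y) ≠ 0 := by
      refine (Eq.trans (congrArg (fun s => dg (IntermediateField.adjoin K s)) ?_)
        (XG.dgr hy ∅)).trans_ne (mul_ne_zero G.pm.ne_zero ((deg_of_surj (L := (Fld.base K).sub _)
          (L' := .base K) fun x => ⟨⟨x, IntermediateField.algebraMap_mem _ x⟩, rfl⟩).trans_ne
          one_ne_zero))
      rw [Set.image_empty, Set.empty_union]
      exact Prod.snd_surjective.range_comp y.1
    obtain ⟨M₀, α₀, β, x, -, -, b1, -, b2, b3⟩ := XG.chart hy 0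
    simp only [hy.mem.2.1, div_one, one_pow] at b1 b3
    have b4 : y.2 ^ G.m = β (MvPolynomial.aeval x G.F) := by
      rw [MvPolynomial.comp_aeval_apply, funext b1]
      exact hy.mem.2.2
    obtain ⟨σ, s1, s2, s3⟩ := XWc.aut G.pm.ne_zero b2 b3 b4 (θ' := algebraMap K M ζ * y.2) (by
      rw [mul_pow, ← map_pow, hζ.pow_eq_one, map_one, one_mul, b4])
    have hk := ext' φ.toPre q e σ (fun _ => y) a1 a1
    rw [s3, Nat.cast_one, one_mul, show (xz dd).map σ y = mlt (ζ ^ 1) M y from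
      Prod.ext (funext fun i => (congrArg σ (b1 i)).symm.trans ((s1 _).trans (b1 i)))
        (by rw [pow_one]; exact s2), XWc.both hφ, pow_one] at hk
    refine ⟨φ.a M (cfg q e M fun _ => y) / dg (xf M fun _ : Bool => y),
      fun L P hL hU hP => ?_, fun h => ?_⟩
    · by_cases h0 : dg (xf L P) = 0
      · rw [XWc.low0 φ.toPre q e hL hU h0, h0, Nat.cast_zero, zero_mul]
      · rw [hc hP] at h0 ⊢
        rw [← mul_div_assoc, eq_div_iff (Nat.cast_ne_zero.2 a3)]
        exact XWc.cmp φ hζ e hL a1 (hU true) hy.mem h0 a3 hφ hk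
    · rw [(mul_left_eq_self₀.1 hk).resolve_left fun k => h fun i => ?_, zero_div]
      cases i
      exacts [(mul_comm _ _).trans k, k]
  gen G κ _ := XWc.gen' G κ

end Pool.Agent.Lib.MP_557161_ag.HG.HN.HC
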