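import Pool.Agent.Lib.MP_557161_ag.HC.StV
import Pool.Agent.Lib.MP_557161_ag.HG.YL

/-!
The fixed point formula.
-/

namespace Pool.Agent.Lib.MP_557161_ag.HG.HN.HC

open Pool.Agent.Lib.MP_557161_ag.DL MvPolynomial

namespace YLb

variable {K : Type} [Field K] {dd : ℕ} {G : GD K dd} {L M : Fld K} {Q : ℕ} {ε : K}

/-- The composition of Frobenius with a deck transformation. -/
def gg (Q : ℕ) (ε : K) (L : Fld K) (y : (xz dd).X L) : (xz dd).X L := mlt ε L (frb Q L y)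

lemma gg_one (y : (xz dd).X L) (i : Vr dd) : (gg Q ε L y).1 i = y.1 i ^ Q := rfl

lemma gg_snd (y : (xz dd).X L) : (gg Q ε L y).2 = algebraMap K L ε * y.2 ^ Q := rfl

lemma gg_two {m : ℕ} (hε : ε ^ m = 1) (y : (xz dd).X L) :
    (gg Q ε L y).2 ^ m = (y.2 ^ m) ^ Q := by
  rw [gg_snd, mul_pow, ← map_pow, hε, map_one, one_mul, pow_right_comm]

lemma gg_rel {R : Rel M L} {y : (xz dd).X M} {y' : (xz dd).X L} (h : (xz dd).lift R.r y y') :
    (xz dd).lift R.r (gg Q ε M y) (gg Q ε L y') :=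
  ⟨fun i => Rel.pow (h.1 i) Q, R.mul (R.const ε) (Rel.pow h.2 Q)⟩

lemma gg_map (κ : L →ₐ[K] M) (y : (xz dd).X L) :
    gg Q ε M ((xz dd).map κ y) = (xz dd).map κ (gg Q ε L y) :=
  ((Cd.lift_hom κ).1 (gg_rel ((Cd.lift_hom κ).2 rfl))).symm

lemma gg_scl (a : L) (y : (xz dd).X L) :
    gg Q ε L (G.Γ.scl a y) = G.Γ.scl (a ^ Q) (gg Q ε L y) := by
  refine Prod.ext (funext fun i => mul_pow _ _ _) ?_
  show algebraMap K L ε * (a ^ G.e * y.2) ^ Q = (a ^ Q) ^ G.e * (algebraMap K L ε * y.2 ^ Q)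
  ring

lemma vz_scl (a : L) (y : (xz dd).X L) (μ : Option (Vr dd)) :
    vz (G.Γ.scl a y) μ = a ^ G.ωK μ * vz y μ := by
  cases μ
  exacts [congrArg (· * y.2) (zpow_natCast a G.e).symm, congrArg (· * _) (zpow_one a).symm]

lemma vz_rel {R : Rel M L} {y : (xz dd).X M} {y' : (xz dd).X L} :
    (xz dd).lift R.r y y' ↔ ∀ μ, R.r (vz y μ) (vz y' μ) :=
  ⟨fun h μ => by
    cases μ
    exacts [h.2, h.1 _], fun h => ⟨fun i => h (some i), h none⟩⟩

lemma rc {R : Rel M L} {a b : M} {a' : L} (h : R.r a a') (e : b = a) : R.r b a' := e ▸ h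

lemma sum_rg {α ι : Type} {f : ι → α} (inj : Function.Injective f) {g : α → ℂ} {c : ℂ}
    (h : ∀ E, g (f E) = c) (h' : ∀ O, g O ≠ 0 → O ∈ Set.range f) :
    ∑ᶠ O, g O = Nat.card ι * c := by
  rw [← Set.indicator_eq_self.2 h', ← finsum_mem_def, finsum_mem_range inj]
  simp only [h]
  exact YLa.fin_sum c

lemma cst {c : Cd} (κ : L →ₐ[K] M) (x : c.X K) :
    c.map κ (c.map (algebraMap K L) x) = c.map (algebraMap K M) x :=
  (c.map_map _ _ x).trans (c.map_congr fun _ => κ.commutes _)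

lemma scl_pt {y : (xz dd).X L} {a b : L} (t : L) {i : Vr dd} (a0 : a ≠ 0) (y0 : y.1 i ≠ 0)
    (hb : b = (y.1 i)⁻¹ ^ Q / a) (μ : Option (Vr dd)) :
    b ^ G.ωK μ * (t⁻¹ • (vz (G.Γ.scl a (gg Q ε L y)) - vz y)) μ =
      (t⁻¹ • (vz (gg Q ε L (G.Γ.scl ((G.Γ.scl b y).1 i)⁻¹ (G.Γ.scl b y))) - vz (G.Γ.scl b y))) μ := by
  have b0 : b ≠ 0 := hb ▸ div_ne_zero (pow_ne_zero _ (inv_ne_zero y0)) a0
  have e : (((G.Γ.scl b y).1 i)⁻¹ * b) ^ Q = b * a := by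
    rw [show (G.Γ.scl b y).1 i = b * y.1 i from rfl, mul_inv, mul_right_comm, inv_mul_cancel₀ b0,
      one_mul, hb, div_mul_cancel₀ _ a0]
  rw [Wt.scl_scl, gg_scl, e, Pi.smul_apply, Pi.smul_apply, Pi.sub_apply, Pi.sub_apply, vz_scl,
    vz_scl, vz_scl, smul_eq_mul, smul_eq_mul, mul_zpow]
  ring

lemma norm {y : (xz dd).X L} (h : G.Cn L y) (e : G.Γ.pt y = G.Γ.pt (gg Q ε L y)) :
    ∃ i z, G.Cn L z ∧ z.1 i = 1 ∧ gg Q ε L z = z ∧ G.Γ.pt y = G.Γ.pt z := by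
  obtain ⟨k, hk⟩ := Function.ne_iff.1 h.1
  have k0 : (y.1 k)⁻¹ ≠ 0 := inv_ne_zero hk
  have h' := G.CC.inv L _ y k0 h
  have k1 : (G.Γ.scl (y.1 k)⁻¹ y).1 k = 1 := inv_mul_cancel₀ hk
  obtain ⟨a, -, ha⟩ := (G.Γ.pt_eq (y := gg Q ε L (G.Γ.scl (y.1 k)⁻¹ y)) (G.CC.nz L _ h')).1 (by
    rw [gg_scl, G.Γ.pt_scl k0, G.Γ.pt_scl (pow_ne_zero _ k0), ← e])
  have h2 : (G.Γ.scl (y.1 k)⁻¹ y).1 k ^ Q = a * (G.Γ.scl (y.1 k)⁻¹ y).1 k :=
    (gg_one _ k).symm.trans (by rw [ha]; rfl)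
  rw [k1, one_pow, mul_one] at h2
  exact ⟨k, _, h', k1, by rw [ha, ← h2, Wt.scl_one], (G.Γ.pt_scl k0 y).symm⟩

lemma int_fix (h1 : 1 < Q) {x : L} (h : x ^ Q = x) : IsIntegral K x := by
  by_cases h0 : x = 0
  · exact h0 ▸ isIntegral_zero
  · refine IsIntegral.of_pow (Nat.sub_pos_of_lt h1) ?_
    rw [pow_sub₀ _ h0 h1.le, h, pow_one, mul_inv_cancel₀ h0]
    exact isIntegral_one

/-- The fixed points. -/
abbrev Fx (G : GD K dd) (Q : ℕ) (ε : K) : Type :=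
  {E : (G.Γ.amb K).pt (.base K) // ∃ y, G.Cn (.base K) y ∧ E = G.Γ.pt y ∧
    E = G.Γ.pt (mlt ε (.base K) (frb Q (.base K) y))}

lemma fix_pt [IsAlgClosed K] (h1 : 1 < Q) (hε : ε ^ G.m = 1) {y : (xz dd).X L} (h : G.Cn L y)
    (e : G.Γ.pt y = G.Γ.pt (gg Q ε L y)) :
    ∃ E : Fx G Q ε, G.Γ.pt y = (G.Γ.amb K).map (L := .base K) (Algebra.ofId K L) E.1 := by
  obtain ⟨-, z, z1, -, z3, z4⟩ := norm h e
  choose x hx using fun i => YLa.mem_rg (K := K) (x := z.1 i)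
    (int_fix h1 ((gg_one z i).symm.trans (by rw [z3])))
  obtain ⟨t, ht⟩ := YLa.mem_rg (K := K) (x := z.2) (IsIntegral.of_pow G.pm.pos
    (int_fix h1 ((gg_two hε z).symm.trans (by rw [z3]))))
  obtain rfl : z = (xz dd).map (Algebra.ofId K L) (x, t) := Prod.ext (funext hx).symm ht.symm
  rw [gg_map (L := .base K)] at z3
  exact ⟨⟨_, (x, t), (G.CC.S.map_iff (M := .base K) _ _).1 z1, rfl, congrArg G.Γ.pt
    ((xz dd).map_inj (Algebra.ofId K L).injective z3).symm⟩, z4⟩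

variable {p : ℕ} [Fact p.Prime] [CharP K p]

lemma gg_cn [ha : XA K dd] (hQ : G.Fr p Q) (hε : ε ^ G.m = 1) {y : (xz dd).X L}
    (h : G.Cn L y) : G.Cn L (gg Q ε L y) := by
  obtain ⟨k, hk⟩ := Function.ne_iff.1 h.1
  refine ⟨Function.ne_iff.2 ⟨k, (gg_one y k).trans_ne (pow_ne_zero _ hk)⟩, ?_⟩
  rw [GD.Cn0, funext (gg_one y), ha.frob G hQ, ← show y.2 ^ G.m = _ from h.2, gg_two hε]

section Near

variable (hQ : G.Fr p Q) {O : Pl M} {R y : (xz dd).X M} {i : Vr dd} (hR : IntV O (vz R))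
  (r1 : R.1 i = 1) (hg : gg Q ε M R = R)

include hQ hR r1 hg

lemma near {ρ : M} {u : Option (Vr dd) → M} (hρ : (Rel.ofPl O).r ρ 0) (hu : IntV O u)
    (e : ∀ μ, vz y μ = vz R μ - ρ * u μ) (μ : Option (Vr dd)) :
    ∃ s ∈ O.O, vz (gg Q ε M (G.Γ.scl (y.1 i)⁻¹ y)) μ = vz R μ + ρ ^ Q * s := by
  obtain ⟨⟨f, rfl⟩, -⟩ := hQ
  have : CharP M p := charP_of_injective_algebraMap (algebraMap K M).injective p
  have e1 : y.1 i = 1 - ρ * u (some i) := r1 ▸ e (some i)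
  have l1 : (Rel.ofPl O).r (y.1 i) 1 := by
    simpa [e1] using Rel.sub (Rel.ofPl O).one ((Rel.ofPl O).mul hρ ⟨hu (some i), rfl⟩)
  have y0 := Rel.ne_zero l1 one_ne_zero
  have m1 := ((Rel.ofPl O).inv l1 one_ne_zero).1
  have e2 : (y.1 i)⁻¹ - 1 = ρ * u (some i) * (y.1 i)⁻¹ := by
    field_simp
    rw [e1]
    ring
  generalize (y.1 i)⁻¹ = m at *
  have key : ∀ (k : ℕ) (ν : Option (Vr dd)), ∃ s ∈ O.O,
      (m ^ k * vz y ν) ^ p ^ f = vz R ν ^ p ^ f + ρ ^ p ^ f * s := fun k ν => by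
    refine ⟨(u (some i) * m * (∑ l ∈ Finset.range k, m ^ l) * vz R ν - m ^ k * u ν) ^ p ^ f,
      pow_mem (sub_mem (mul_mem (mul_mem (mul_mem (hu _) m1) (sum_mem fun l _ => pow_mem m1 l))
        (hR ν)) (mul_mem (pow_mem m1 k) (hu ν))) _, ?_⟩
    rw [← mul_pow, ← add_pow_char_pow, e ν]
    congr 1
    linear_combination (-vz R ν) * geom_sum_mul m k + (vz R ν * ∑ l ∈ Finset.range k, m ^ l) * e2
  cases μ with
  | some l =>
    obtain ⟨s, h, e⟩ := key 1 (some l)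
    rw [pow_one, show vz R (some l) ^ p ^ f = vz R (some l) from
      (gg_one R l).symm.trans (by rw [hg]; rfl)] at e
    exact ⟨s, h, (gg_one _ l).trans e⟩
  | none =>
    obtain ⟨s, h, e⟩ := key G.e none
    have e' := congrArg Prod.snd hg
    refine ⟨algebraMap K M ε * s, mul_mem ((Rel.ofPl O).const ε).1 h,
      (congrArg (algebraMap K M ε * ·) e).trans ?_⟩
    rw [mul_add, mul_left_comm]
    exact congrArg (· + _) e'

variable (h1 : 1 < Q) {t : M} (t0 : t ≠ 0) (ht : (Rel.ofPl O).r t 0)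

include h1 t0 ht

lemma lim (hv : IntV O (t⁻¹ • (vz R - vz y))) (μ : Option (Vr dd)) :
    (Rel.ofPl O).r ((t⁻¹ • (vz (gg Q ε M (G.Γ.scl (y.1 i)⁻¹ y)) - vz y)) μ)
      (rdV O (t⁻¹ • (vz R - vz y)) μ) := by
  obtain ⟨s, hs, e⟩ := near (y := y) hQ hR r1 hg ht hv (fun ν => by simp [t0]) μ
  obtain ⟨n, rfl⟩ : ∃ n, Q = n + 2 := ⟨Q - 2, by omega⟩
  have := (Rel.ofPl O).add ⟨hv μ, rfl⟩ ((Rel.ofPl O).mul ht ⟨mul_mem (pow_mem ht.1 n) hs, rfl⟩)
  rw [zero_mul, add_zero] at this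
  refine rc this ?_
  simp only [Pi.smul_apply, Pi.sub_apply, smul_eq_mul, e]
  field_simp
  ring

omit ht in
lemma intg (hy : ∀ μ, (Rel.ofPl O).r (vz R μ - vz y μ) 0)
    (hv : IntV O (t⁻¹ • (vz (gg Q ε M (G.Γ.scl (y.1 i)⁻¹ y)) - vz y))) :
    IntV O (t⁻¹ • (vz R - vz y)) := by
  by_cases h0 : vz R - vz y = 0
  · rw [h0, smul_zero]
    exact fun _ => zero_mem _
  obtain ⟨μ, m0, hu⟩ := exists_scale O h0
  obtain ⟨s, hs, e⟩ := near (y := y) hQ hR r1 hg (hy μ) hu (fun ν => by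
    rw [Pi.smul_apply, smul_eq_mul, ← Pi.sub_apply (vz R) (vz y) μ, mul_inv_cancel_left₀ m0]
    simp) μ
  obtain ⟨n, rfl⟩ : ∃ n, Q = n + 2 := ⟨Q - 2, by omega⟩
  have l := (Rel.ofPl O).add (Rel.ofPl O).one
    ((Rel.ofPl O).mul (hy μ) ⟨mul_mem (pow_mem (hy μ).1 n) hs, rfl⟩)
  rw [zero_mul, add_zero] at l
  have n0 := Rel.ne_zero l one_ne_zero
  intro ν
  convert mul_mem (mul_mem (hv μ) ((Rel.ofPl O).inv l one_ne_zero).1) (hu ν) using 1
  simp only [Pi.smul_apply, Pi.sub_apply, smul_eq_mul, e] at m0 ⊢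
  rw [add_sub_right_comm]
  generalize vz R μ - vz y μ = δ at *
  rw [show δ + δ ^ (n + 2) * s = δ * (1 + δ * (δ ^ n * s)) by ring, ← mul_assoc t⁻¹,
    mul_inv_cancel_right₀ n0, mul_assoc, mul_inv_cancel_left₀ m0]

end Near

end YLb

open YLb in
theorem YL_thm {K : Type} [Field K] [Base K] {p dd : ℕ} [Fact p.Prime] [CharP K p] [X0 dd]
    [fw : FW0 K] [wb : WB K] [XA K dd] [ya : YA K dd] [yt : YT K dd] [yp : YP K dd] :
    YL K dd p where
  loop {G d W j φ Ψ} hc Q h1 hQ L M N α y hy w hw ε hε β T hT := by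
    obtain ⟨θ, hθ, hΨ⟩ := hc
    have cy := ya.uu hy.mem
    have cy' : G.Cn N ((xz dd).map β y) := (G.CC.S.map_iff β y).2 cy
    have T0 : ∀ s, T s ≠ 0 := fun s => map_zero β ▸ (fw.a1.trans hT s).ne 0
    have gN : Good (j + (2 * dd + 1) + 1) N := by simpa [add_assoc] using hT.gM
    have y0 : ∀ i, ((xz dd).map β y).1 i ≠ 0 := fun i => (map_ne_zero β).2 (hy.mem.1.2 i)
    have hw' : W.mem N (d.map (β.comp α) w) := (W.map_iff _ w).2 hw
    refine (congrArg (Ψ.q N) (?_ : _ = ((((xz dd).map β y, d.map (β.comp α) w),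
      G.Γ.scl (T true) (gg Q ε N ((xz dd).map β y))), T false))).trans
      ((hΨ N _ _ _ _ gN cy' hw' ((gg_cn hQ hε cy').2.scl _) (T0 false)).2.symm.trans ?_)
    · rw [gg_map, GD.jp, d.map_map]
      rfl
    obtain ⟨b, hb⟩ : ∃ b : Vr dd → N, ∀ i, b i = (((xz dd).map β y).1 i)⁻¹ ^ Q / T true :=
      ⟨_, fun _ => rfl⟩
    have b0 : ∀ i, b i ≠ 0 := fun i =>
      hb i ▸ div_ne_zero (pow_ne_zero _ (inv_ne_zero (y0 i))) (T0 true)
    have gc : ∀ i, G.GenC j (β.comp α) (G.Γ.scl (b i) ((xz dd).map β y)) (T false) := fun i =>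
      ya.genC hy β _ _ gN (b0 i) (top_le_iff.1 (hT.top ▸ IntermediateField.adjoin_le_iff.2 (by
        have k : ∀ x ∈ Set.range β ∪ Set.range ![b i, T false], x ∈ gen β ![b i, T false] :=
          fun x hx => IntermediateField.subset_adjoin _ _ hx
        rintro _ (h | ⟨s, rfl⟩)
        · exact k _ (.inl h)
        · cases s
          · exact k _ (.inr ⟨1, rfl⟩)
          · have e : T true = (β (y.1 i))⁻¹ ^ Q / b i := by
              rw [eq_div_iff (b0 i), hb, mul_div_cancel₀ _ (T0 true)]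
            rw [e]
            exact div_mem (pow_mem (inv_mem (k _ (.inl ⟨_, rfl⟩))) _) (k _ (.inr ⟨0, rfl⟩)))))
    have a1 := T0 true
    have t0 := T0 false
    generalize (xz dd).map β y = y' at *
    generalize T true = a at *
    generalize T false = t at *
    generalize β.comp α = γ at *
    choose i R r1 r2 r3 r4 using fun E : Fx G Q ε =>
      E.2.elim fun _ h => (norm h.1 (h.2.1.symm.trans h.2.2)).imp fun _ => Exists.imp fun z k =>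
        (⟨k.1, k.2.1, k.2.2.1, h.2.1.trans k.2.2.2⟩ :
          G.Cn _ z ∧ _ ∧ gg Q ε _ z = z ∧ E.1 = G.Γ.pt z)
    have c1 : ∀ E (F : Fld K), G.Cn F ((xz dd).map (algebraMap K F) (R E)) := fun E F =>
      (G.CC.S.map_iff (M := .base K) (Algebra.ofId K F) _).2 (r1 E)
    have c2 : ∀ E (F : Fld K), ((xz dd).map (algebraMap K F) (R E)).1 (i E) = 1 := fun E F =>
      (congrArg (algebraMap K F) (r2 E)).trans (map_one _)
    have c3 : ∀ E, gg Q ε N ((xz dd).map (algebraMap K N) (R E)) = _ := fun E =>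
      (gg_map (L := .base K) (Algebra.ofId K N) _).trans (congrArg _ (r3 E))
    have c4 : ∀ E (O : Pl N) μ, (Rel.ofPl O).r (vz ((xz dd).map (algebraMap K N) (R E)) μ)
        (vz ((xz dd).map (algebraMap K O.res) (R E)) μ) := fun E O =>
      vz_rel.1 (Cd.lift_const _ (R E))
    obtain ⟨vR, hR⟩ : ∃ vR : Fx G Q ε → Option (Vr dd) → N, ∀ E, vR E = t⁻¹ •
      (vz ((xz dd).map (algebraMap K N) (R E)) - vz (G.Γ.scl (b (i E)) y')) := ⟨_, fun _ => rfl⟩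
    obtain ⟨x, hx⟩ : ∃ x : (((xz dd).prod d).prod (.vec (Option (Vr dd)))).X N, x = ((y', d.map γ w),
      t⁻¹ • (vz (G.Γ.scl a (gg Q ε N y')) - vz y')) := ⟨_, rfl⟩
    have loc : ∀ E (O : Pl N) w', (Rel.ofPl O).r t 0 → IntV O (vR E) →
        d.lift (Rel.ofPl O).r (d.map γ w) w' →
        (((xz dd).prod d).prod (.vec (Option (Vr dd)))).lift (Rel.ofPl O).r
          (((G.Γ1 d).prod (.vec G.ωK)).scl (b (i E)) x)
          (((xz dd).map (algebraMap K O.res) (R E), w'), rdV O (vR E)) := by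
      intro E O w' ht hv lw
      subst hx
      refine ⟨⟨vz_rel.2 fun μ => ?_, lw⟩, fun μ => ?_⟩
      · have := Rel.sub (c4 E O μ) ((Rel.ofPl O).mul ht ⟨hv μ, rfl⟩)
        rwa [zero_mul, sub_zero, hR, Pi.smul_apply, smul_eq_mul, mul_inv_cancel_left₀ t0,
          Pi.sub_apply, sub_sub_cancel] at this
      · rw [hR] at hv ⊢
        exact rc (lim hQ (fun μ => (c4 E O μ).1) (c2 E N) (c3 E) h1 t0 ht hv μ)
          (scl_pt t a1 (y0 _) (hb _) μ)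
    have val : ∀ E (O : Pl N) w', (Rel.ofPl O).r t 0 → IntV O (vR E) →
        d.lift (Rel.ofPl O).r (d.map γ w) w' → θ.r O x =
          θ.q O.res (((xz dd).map (algebraMap K O.res) (R E), w'), rdV O (vR E)) :=
      fun E O w' ht hv lw => wb.r_eq θ.toPre (b0 _) (loc E O w' ht hv lw)
        ⟨.inl (.inl (.inl (i E))), trivial, (c2 E _).trans_ne one_ne_zero⟩
    choose f ft f1 f2 f3 f4 f5 using fun E => yp.pt (gc (i E)) _ (c1 E L) (vR E) (by rw [cst, hR])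
    have ft0 : ∀ E, (Rel.ofPl (f E).1).r t 0 := fun E =>
      (Pl.ord_pos_iff (f E).2.1 t0).1 (by rw [f1]; exact one_pos)
    have inj : Function.Injective f := fun E E' e => by
      have k : ∀ E, (G.Γ.amb K).red (f E).1 (G.Γ.pt y') =
          (G.Γ.amb K).map (L := .base K) (Algebra.ofId K (f E).1.res) E.1 := fun E => by
        rw [r4]
        exact G.Γ.red_pt (b0 _) (hx ▸ loc E _ _ (ft0 E) (f2 E) (Cd.lift_triv (ft E) w) :).1.1
          (G.CC.nz _ _ (c1 E _))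
      have k1 := k E
      rw [e, k E'] at k1
      exact Subtype.ext ((G.Γ.amb K).inj _ k1).symm
    rw [← hx]
    refine sum_rg inj (fun E => ?_) fun O h0 => ?_
    · rw [f1, if_pos one_pos, val E _ _ (ft0 E) (f2 E) (Cd.lift_triv (ft E) w), ← cst (ft E).hom,
        yt.val hθ w hy.gL ((f E).2.good gN) (f3 E) (c1 E L) hw (by simpa using f4 E)]
      simp
    have o1 : 0 < O.1.ord t := by_contra fun h => h0 (if_neg h)
    have h2 : θ.r O.1 x ≠ 0 := right_ne_zero_of_mul ((if_pos o1).symm.trans_ne h0)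
    have ht : (Rel.ofPl O.1).r t 0 := (Pl.ord_pos_iff O.2.1 t0).1 o1
    obtain ⟨k, x', hk, k0, l, m, -⟩ := wb.r_ne θ.toPre h2
    obtain ⟨k, rfl⟩ : ∃ k', k = .inl (.inl (.inl k')) := by
      rcases k with ((k | _) | _) | _
      exacts [⟨k, rfl⟩, hk.elim, hk.elim, hk.elim]
    have k1 := inv_ne_zero k0
    generalize (Cd.co _ x _)⁻¹ = c at l k1
    have cs : G.Cn _ x'.1.1 := m.1.1.1
    have l1 : (xz dd).lift (Rel.ofPl O.1).r (G.Γ.scl c y') x'.1.1 := (hx ▸ l :).1.1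
    have lw : d.lift (Rel.ofPl O.1).r (d.map γ w) x'.1.2 := (hx ▸ l :).1.2
    have l2 : (xz dd).lift (Rel.ofPl O.1).r (G.Γ.scl c (G.Γ.scl a (gg Q ε N y'))) x'.1.1 :=
      vz_rel.2 fun μ => by
        have := (Rel.ofPl O.1).add (vz_rel.1 l1 μ) ((Rel.ofPl O.1).mul ht ((hx ▸ l :).2 μ))
        rw [zero_mul, add_zero] at this
        refine rc this ?_
        rw [vz_scl, vz_scl c]
        simp only [Pi.smul_apply, Pi.sub_apply, smul_eq_mul]
        field_simp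
        ring
    obtain ⟨E, hE⟩ := fix_pt h1 hε cs (G.Γ.pt_lift l2 (gg_rel l1) (G.CC.nz _ _ cs)
      (G.CC.nz _ _ (gg_cn hQ hε cs)) (by
        rw [gg_scl, G.Γ.pt_scl k1, G.Γ.pt_scl a1, G.Γ.pt_scl (pow_ne_zero _ k1)]))
    rw [r4] at hE
    obtain ⟨a', a0, ha⟩ := (G.Γ.pt_eq (G.CC.nz _ _ (c1 E _))).1 hE.symm
    have l3 : (Rel.ofPl O.1).r (b (i E) / c) a'⁻¹ := by
      have := l2.1 (i E)
      rw [ha] at this
      replace this : (Rel.ofPl O.1).r (c * (a * (gg Q ε N y').1 (i E))) (a' * _) := this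
      rw [c2, mul_one, gg_one] at this
      refine rc ((Rel.ofPl O.1).inv this a0) ?_
      rw [hb, inv_pow]
      field_simp
    have l4 := ((G.Γ1 d).prod (.vec G.ωK)).lift_scl l3 (inv_ne_zero a0)
      (x := ((G.Γ1 d).prod (.vec G.ωK)).scl c x) l
    rw [Wt.scl_scl, div_mul_cancel₀ _ k1] at l4
    have hv : IntV O.1 (vR E) := by
      rw [hR]
      subst hx
      refine intg hQ (fun μ => (c4 E O.1 μ).1) (c2 E N) (c3 E) h1 t0 (fun μ => ?_)
        fun μ => (rc (l4.2 μ) (scl_pt t a1 (y0 _) (hb _) μ).symm).1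
      have l5 : (xz dd).lift (Rel.ofPl O.1).r _ (G.Γ.scl a'⁻¹ x'.1.1) := l4.1.1
      rw [ha, G.Γ.scl_inv a0] at l5
      simpa using Rel.sub (c4 E O.1 μ) (vz_rel.1 l5 μ)
    rw [val E _ _ ht hv lw] at h2
    have tr : Pl.Triv γ O.1 := by
      by_contra hn
      have ov := Pl.over_comap γ O.1
      have k2 := (Pl.comap γ O.1).tr_res_lt (fun e => hn fun x =>
        (ov x).1 (e ▸ ValuationSubring.mem_top _)) hy.gL.2.le
      obtain ⟨n, hn⟩ := Cardinal.lt_aleph0.1 (k2.trans (Cardinal.natCast_lt_aleph0))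
      have k3 := Cd.lift_over ov ((Cd.lift_pl _).2
        ⟨(Cd.all_over ov).1 ((Cd.lift_pl _).1 lw).1, rfl⟩)
      rw [Cd.lift_eq lw k3 rfl, ← cst ov.resHom] at h2
      exact h2 (yt.low θ _ ((fw.a3.dm_map (c := (xz dd).prod d) ov.resHom (x := (_, _))).2
        (fw.a3.dm_tr _ hn.le)) (by exact_mod_cast hn ▸ k2))
    by_contra hn
    have k : ∀ x ∈ Set.range tr.hom ∪ Set.range (rdV O.1 (vR E)), x ∈ gen tr.hom (rdV O.1 (vR E)) :=
      fun x hx => IntermediateField.subset_adjoin _ _ hx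
    rw [Cd.lift_eq lw (Cd.lift_triv tr w) rfl, ← cst tr.hom] at h2
    refine h2 (wb.low θ.toPre ⟨_, ⟨⟨?_, ?_⟩, fun μ => k _ (.inr ⟨μ, rfl⟩)⟩, f5 E O.1 tr O.2.1
      (fun e => hn ⟨E, Subtype.ext e.symm⟩) ht.1 ht.2 hv⟩ (by omega)) <;>
      exact (Cd.all_iff _ _ _).2 fun s => by rw [Cd.co_map]; exact k _ (.inl ⟨_, rfl⟩)

end Pool.Agent.Lib.MP_557161_ag.HG.HN.HC
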