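import Pool.Agent.Lib.MP_557161_ag.HC.StV
import Pool.Agent.Lib.MP_557161_ag.HN.YQ

/-!
Functionals on the square of the cyclic cover that vanish on exterior products have no invariant
part; isotypic functionals live over the torus.
-/

namespace Pool.Agent.Lib.MP_557161_ag.HG.HN.HC

open Pool.Agent.Lib.MP_557161_ag.DL MvPolynomial Submodule
open HN.YQa (van_lines swp swp_pro)

variable {K : Type} [Field K] {dd : ℕ}

namespace YQc

lemma shift {A : Type} [AddCommGroup A] {ζ : K} {m : ℕ} (h : ζ ^ m = 1) (f : K → A) (r : ℕ) :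
    ∑ s ∈ Finset.range m, f (ζ ^ s * ζ ^ r) = ∑ s ∈ Finset.range m, f (ζ ^ s) := by
  induction r generalizing f with
  | zero => simp only [pow_zero, mul_one]
  | succ r ih =>
    have e := (Finset.sum_range_succ (fun s => f (ζ ^ s)) m).symm.trans
      (Finset.sum_range_succ' (fun s => f (ζ ^ s)) m)
    rw [h, pow_zero, add_left_inj] at e
    simp only [e, pow_succ, ← mul_assoc]
    exact ih fun x => f (x * ζ)

variable {G : GD K dd}

lemma cn_mlt {ξ : K} (hξ : ξ ^ G.m = 1) {L : Fld K} {y : (xz dd).X L} (h : G.Cn L y) :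
    G.Cn L (mlt ξ L y) :=
  ⟨h.1, (mul_pow _ _ _).trans (by rw [← map_pow, hξ, map_one, one_mul]; exact h.2)⟩

lemma pw {ζ : K} {m : ℕ} (h : ζ ^ m = 1) (s : ℕ) : (ζ ^ s) ^ m = 1 := by
  rw [pow_right_comm, h, one_pow]

lemma fib {ζ : K} (hζ : IsPrimitiveRoot ζ G.m) {L : Fld K} {y y' : (xz dd).X L} (h : G.Cn L y)
    (h' : G.Cn L y') (e : span L {y.1} = span L {y'.1}) :
    ∃ r, ∀ ξ, G.Γ.pt (mlt ξ L y') = G.Γ.pt (mlt (ξ * ζ ^ r) L y) := by
  obtain ⟨a, ha⟩ := mem_span_singleton.1 (e.ge (mem_span_singleton_self y'.1))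
  have a0 : a ≠ 0 := fun e' => h'.1 (by rw [← ha, e', zero_smul])
  have h1 : y'.2 ^ G.m = (a ^ G.e * y.2) ^ G.m := h'.2.trans (by rw [← ha]; exact (h.2.scl a).symm)
  obtain ⟨r, hr⟩ : ∃ r, y'.2 = algebraMap K L ζ ^ r * (a ^ G.e * y.2) := by
    by_cases c : a ^ G.e * y.2 = 0
    · rw [c, zero_pow G.pm.ne_zero] at h1
      exact ⟨0, by rw [c, mul_zero, pow_eq_zero_iff G.pm.ne_zero |>.1 h1]⟩
    have : NeZero G.m := ⟨G.pm.ne_zero⟩
    obtain ⟨r, -, hr⟩ := (hζ.map_of_injective (algebraMap K L).injective).eq_pow_of_pow_eq_one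
      (ξ := y'.2 / (a ^ G.e * y.2)) (by rw [div_pow, h1, div_self (pow_ne_zero _ c)])
    exact ⟨r, by rw [hr, div_mul_cancel₀ _ c]⟩
  refine ⟨r, fun ξ => ?_⟩
  rw [← G.Γ.pt_scl a0 (mlt (ξ * ζ ^ r) L y)]
  refine congrArg _ (Prod.ext ha.symm ?_)
  show algebraMap K L ξ * y'.2 = a ^ G.e * (algebraMap K L (ξ * ζ ^ r) * y.2)
  rw [hr, map_mul, map_pow]
  ring

lemma hom_x (i : Vr dd) : Hom G.CC 1 fun _ y => y.1 i :=
  ⟨fun _ _ _ _ _ _ _ e => e.1 i, fun _ a y _ _ => by rw [zpow_one]; rfl⟩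

lemma cmp [YA K dd] {B : Amb K} {Z : Sp B} (m : Mor G.CC.sp Z) : m.Proper := by
  rintro M O _ - ⟨y, hy, rfl⟩ -
  obtain ⟨i, y', h0, h1, h2⟩ := YA.cmp O hy
  exact ⟨y', h1, (G.Γ.red_pt (inv_ne_zero h0) h2 (G.CC.nz _ y' h1)).symm⟩

/-- The covering transformations. -/
lemma cov [WA K] {ξ : K} (hξ : ξ ^ G.m = 1) : ∃ s : Mor G.CC.sp G.CC.sp, ∀ (L : Fld K)
    (y : (xz dd).X L), G.Cn L y → s.f (L := L) (G.Γ.pt y) = G.Γ.pt (mlt ξ L y) :=
  (WA.mor (S := G.CC) (T := G.CC) (f := mlt ξ)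
    ⟨⟨fun _ _ R _ _ _ _ e => mlt_rel ξ R e, fun _ _ h => cn_mlt hξ h⟩,
      fun _ _ _ _ _ => Prod.ext rfl (mul_left_comm _ _ _)⟩).imp fun _ h => h.1

lemma left [Base K] [WA K] [YA K dd] (G : GD K dd) {ζ : K} (hζ : IsPrimitiveRoot ζ G.m) {j : ℕ}
    (φ : Fn j (G.CC.sp.prod G.CC.sp)) (hk : φ.Kills) (L : Fld K) (y : (xz dd).X L)
    (E : (G.Γ.amb K).pt L) (hy : G.Cn L y) :
    ∑ s ∈ Finset.range G.m, φ.v L (G.Γ.pt (mlt (ζ ^ s) L y), E) = 0 := by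
  by_cases hE : G.CC.sp.mem E
  swap
  · exact Finset.sum_eq_zero fun s _ => not_not.1 fun e => hE (φ.supp L _ e).2.2
  choose s hs using fun n : ℕ => cov (G := G) (pw hζ.pow_eq_one n)
  have sp : ∀ n, (s n).Proper := fun n => cmp (s n)
  obtain ⟨π, hπ⟩ := WA.line G.CC 1 (fun _ y => y.1) hom_x fun _ _ h => h.1
  have πp : π.Proper := cmp π
  have πs : π.Surj := by
    rintro L _ _ ⟨x, hx, rfl⟩
    obtain ⟨z, hz⟩ := IsAlgClosed.exists_pow_nat_eq (aeval x G.F : L) G.pm.pos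
    exact ⟨G.Γ.pt (x, z), ⟨(x, z), ⟨hx, hz⟩, rfl⟩, hπ L (x, z) ⟨hx, hz⟩⟩
  obtain ⟨ψ, hψ⟩ := Fn.exists_sum (Finset.range G.m) fun n =>
    φ.pull ((s n).prod G.CC.sp) (Mor.Proper.prod (sp n) G.CC.sp)
  have e1 : ∀ (L : Fld K) (y : (xz dd).X L) (E : (G.Γ.amb K).pt L), G.Cn L y → G.CC.sp.mem E →
      ψ.v L (G.Γ.pt y, E) = ∑ n ∈ Finset.range G.m, φ.v L (G.Γ.pt (mlt (ζ ^ n) L y), E) :=
    fun L y E h h' => (hψ L _).trans (Finset.sum_congr rfl fun n _ => by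
      rw [← hs n L y h]
      exact Fn.pull_of_mem _ _ _ (by exact ⟨⟨y, h, rfl⟩, h'⟩))
  refine (e1 L y E hy hE).symm.trans ?_
  refine CKL.van_descent πp πs (van_lines G.CC.sp) ψ (fun L L₁ L₂ ι₁ ι₂ y z hj => ?_) ?_ L _
  · exact (hψ L _).trans (Finset.sum_eq_zero fun n _ =>
      hk.pull (s n) (sp n) L L₁ L₂ ι₁ ι₂ y z hj)
  · rintro L _ _ z ⟨y, h, rfl⟩ ⟨y', h', rfl⟩ hz e
    rw [hπ L y h, hπ L y' h'] at e
    obtain ⟨r, hr⟩ := fib hζ h h' e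
    rw [e1 L y z h hz, e1 L _ z h' hz]
    simp only [hr]
    exact (shift hζ.pow_eq_one (fun ξ => φ.v L (G.Γ.pt (mlt ξ L y), z)) r).symm

/-- The action of the multiplicative group over a coordinate hyperplane. -/
def act (c : Vr dd → ℤ) {L : Type} [Field L] (t : L) (y : (xz dd).X L) : (xz dd).X L :=
  (fun l => t ^ c l * y.1 l, t * y.2)

/-- An isotypic functional vanishes over the coordinate hyperplanes. -/
lemma zero [X0 dd] [WA K] [WN K] {ζ : K} {η : ℂ} (hζ : ζ ^ G.m = 1) (hη : η ≠ 1) {B : Amb K}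
    {Z : Sp B} {j : ℕ} (φ : Fe j (G.CC.sp.prod Z))
    (h : ∀ (L : Fld K) (y : (xz dd).X L) (E : B.pt L), G.Cn L y →
      φ.v L (G.Γ.pt (mlt ζ L y), E) = η * φ.v L (G.Γ.pt y, E)) {L : Fld K} {y : (xz dd).X L}
    {E : B.pt L} (hy : G.Cn L y) (i : Vr dd) (h0 : y.1 i = 0) : φ.v L (G.Γ.pt y, E) = 0 := by
  by_contra hne
  have hE : Z.mem E := (φ.supp L _ hne).2.2
  obtain ⟨c₀, hc⟩ := X0.bd G i
  let c : Vr dd → ℤ := fun l => G.m * c₀ l
  have ζ0 : ζ ≠ 0 := fun e => by simp [e, G.pm.ne_zero] at hζ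
  obtain ⟨m, hm, hp⟩ := WA.mor (S := G.CC.zer (hom_x i)) (T := G.CC) (f := fun _ y => y)
    ⟨⟨Reg.id _, fun _ _ h => h.1⟩, fun _ _ _ _ _ => rfl⟩
  have mp : m.Proper := hp fun _ _ _ z _ hx hz e => ⟨z, ⟨hz, Rel.eq_zero (e.1 i) hx.2⟩, e⟩
  have am : ∀ (L : Fld K) (t : L) (x : (xz dd).X L), t ≠ 0 → (G.CC.zer (hom_x i)).mem L x →
      (G.CC.zer (hom_x i)).mem L (act c t x) := fun L t x ht hx =>
    ⟨⟨fun e => hx.1.1 (funext fun l => (mul_eq_zero.1 (congrFun e l)).resolve_left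
      (zpow_ne_zero _ ht)), (mul_pow _ _ _).trans ((congrArg (t ^ G.m * ·) hx.1.2).trans
        (hc L t x.1 ht hx.2).symm)⟩, mul_eq_zero_of_right _ hx.2⟩
  have ar : ∀ {M L : Fld K} (R : Rel M L) {t : M} {t' : L} {x : (xz dd).X M} {x' : (xz dd).X L},
      R.r t t' → t' ≠ 0 → (xz dd).lift R.r x x' → (xz dd).lift R.r (act c t x) (act c t' x') :=
    fun R _ _ _ _ e h0 e' => ⟨fun l => R.mul (Rel.zpow e h0 _) (e'.1 l), R.mul e e'.2⟩
  have ae : ∀ (L : Fld K) (t a : L) (x : (xz dd).X L),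
      act c t (G.Γ.scl a x) = G.Γ.scl a (act c t x) := fun L t a x =>
    Prod.ext (funext fun l => mul_left_comm _ _ _) (mul_left_comm _ _ _)
  have key := (WN.conn (S := G.CC.zer (hom_x i)) Z (ASp.gm K) (fun _ q => act c q.1 q.2)
    (fun _ q => act c q.1⁻¹ q.2)
    ⟨fun _ _ R _ _ _ m' e => ar R e.1 m'.1 e.2, fun L q m => am L q.1 q.2 m.1 m.2⟩
    ⟨fun _ _ R _ _ _ m' e => ar R (R.inv e.1 m'.1) (inv_ne_zero m'.1) e.2,
      fun L q m => am L q.1⁻¹ q.2 (inv_ne_zero m.1) m.2⟩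
    (fun L t a x _ _ _ => ⟨ae L t a x, ae L t⁻¹ a x⟩)
    (fun L t x ht _ => Prod.ext (funext fun l => by
      show t⁻¹ ^ c l * (t ^ c l * x.1 l) = x.1 l
      rw [inv_zpow, inv_mul_cancel_left₀ (zpow_ne_zero _ ht)]) (inv_mul_cancel_left₀ ht _))
    (fun L T hT e => hT (e ▸ isAlgebraic_zero)) 1 ζ one_ne_zero
    ζ0).1 (φ.pull (m.prod Z) (mp.prod Z)) L y E ⟨hy, h0⟩ hE
  have e1 : act c (algebraMap K L 1) y = y := Prod.ext (funext fun l => by simp [act])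
    (by simp [act])
  have e2 : act c (algebraMap K L ζ) y = mlt ζ L y :=
    Prod.ext (funext fun l => by
      show algebraMap K L ζ ^ ((G.m : ℤ) * c₀ l) * y.1 l = y.1 l
      rw [zpow_mul, zpow_natCast, ← map_pow, hζ, map_one, one_zpow, one_mul]) rfl
  have e3 : ∀ x, (G.CC.zer (hom_x i)).mem L x →
      (φ.pull (m.prod Z) (mp.prod Z)).v L (G.Γ.pt x, E) = φ.v L (G.Γ.pt x, E) := fun x hx => by
    rw [Fe.pull_of_mem _ _ _ (by exact ⟨⟨x, hx, rfl⟩, hE⟩)]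
    exact congrArg (fun u => φ.v L (u, E)) (hm L x hx)
  simp only [e1, e2] at key
  rw [e3 y ⟨hy, h0⟩, e3 _ ⟨cn_mlt hζ hy, h0⟩, h L y E hy] at key
  exact hη (mul_right_cancel₀ hne (key.symm.trans (one_mul _).symm))

variable (G) in
/-- The part over the torus. -/
noncomputable def TT : QS K G.Γ :=
  G.CC.sub (G.CC.S.opn (fun _ y => ∀ i, y.1 i ≠ 0) fun _ _ _ _ _ _ _ e h i =>
    Rel.ne_zero (e.1 i) (h i)) (fun _ _ m => m.1) fun L a x a0 m =>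
      ⟨G.CC.inv L a x a0 m.1, fun i => mul_ne_zero a0 (m.2 i)⟩

lemma uu_tt {L : Fld K} {y : (xz dd).X L} (h : G.UU.mem L y) : (TT G).mem L y :=
  ⟨⟨fun e => h.1.2 0 (congrFun e 0), h.2.2⟩, h.1.2⟩

lemma red_uu {M : Fld K} {O : Pl M} {y : (xz dd).X M} (h : G.UU.mem M y)
    (h' : (TT G).sp.mem ((G.Γ.amb K).red O (G.Γ.pt y))) :
    ∃ y', G.UU.mem O.res y' ∧ (xz dd).lift (Rel.ofPl O).r y y' := by
  obtain ⟨z, hz, e⟩ := h'
  obtain ⟨i, x, -, i0, l, -, e'⟩ := G.Γ.qred_nz e.symm ((TT G).nz _ z hz)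
  have hx : (TT G).mem _ x := (TT G).mem_of_pt hz e'.symm
  have h0 := inv_ne_zero i0
  generalize ((xz dd).co y i)⁻¹ = a at l h0
  have h1 : (Rel.ofPl O).r a (x.1 0) := by
    have h2 : (Rel.ofPl O).r (a * y.1 0) (x.1 0) := l.1 0
    rwa [show y.1 0 = 1 from h.2.1, mul_one] at h2
  have h3 := G.Γ.lift_scl ((Rel.ofPl O).inv h1 (hx.2 0)) (inv_ne_zero (hx.2 0)) l
  rw [G.Γ.scl_inv h0] at h3
  have h4 := (TT G).inv _ _ x (inv_ne_zero (hx.2 0)) hx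
  exact ⟨_, ⟨⟨trivial, h4.2⟩, inv_mul_cancel₀ (hx.2 0), h4.1.2⟩, h3⟩

end YQc

open YQc in
theorem YQ_thm [Base K] [X0 dd] [WA K] [WB K] [WN K] [YA K dd] : YQ K dd where
  anti G ζ hζ j φ hk L y E hy := by
    refine ⟨left G hζ φ hk L y E hy, ?_⟩
    by_cases hE : G.CC.sp.mem E
    swap
    · exact Finset.sum_eq_zero fun s _ => not_not.1 fun e => hE (φ.supp L _ e).2.1
    have tp : (swp G.CC.sp).Proper := swp_pro G.CC.sp
    have h := left G hζ (φ.pull _ tp) (fun L L₁ L₂ ι₁ ι₂ y z hj => ?_) L y E hy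
    · exact (Finset.sum_congr rfl fun s _ => (Fn.pull_of_mem _ tp φ (y := (_, E))
        ⟨⟨_, cn_mlt (pw hζ.pow_eq_one s) hy, rfl⟩, hE⟩).symm).trans h
    · by_contra h'
      exact h' ((Fn.pull_of_mem _ tp φ (Fn.supp _ _ _ h').2).trans
        (hk L L₂ L₁ ι₂ ι₁ z y (add_comm L₁.tr _ ▸ hj)))
  aff G ζ η η' hζ hη hη' j φ h := by
    have tp : (swp G.CC.sp).Proper := swp_pro G.CC.sp
    have e1 : ∀ (L : Fld K) (E E' : (G.Γ.amb K).pt L),
        (φ.pull _ tp).v L (E, E') = φ.v L (E', E) := fun L E E' => by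
      by_contra h'
      by_cases m : (G.CC.sp.prod G.CC.sp).mem (L := L) (E, E')
      · exact h' (Fe.pull_of_mem _ tp φ m)
      · rw [not_not.1 fun e => m ((φ.pull _ tp).supp L _ e).2,
          not_not.1 fun e => m (φ.supp L (E', E) e).2.symm] at h'
        exact h' rfl
    obtain ⟨ψ, hψ⟩ := WB.res ((TT G).sp.prod (TT G).sp) φ
      (fun L y m => ⟨m.1.imp fun _ e => ⟨e.1.1, e.2⟩, m.2.imp fun _ e => ⟨e.1.1, e.2⟩⟩) (by
        rintro L ⟨E, E'⟩ hne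
        obtain ⟨⟨y, hy, e⟩, y', hy', e'⟩ := (φ.supp L _ hne).2
        obtain rfl : G.Γ.pt y = E := e
        obtain rfl : G.Γ.pt y' = E' := e'
        refine ⟨⟨y, ⟨hy, fun i h0 => hne ?_⟩, rfl⟩, y', ⟨hy', fun i h0 => hne ?_⟩, rfl⟩
        · exact zero hζ hη φ (fun L y E m => (h L y E m).1) hy i h0
        · exact (e1 L _ _).symm.trans (zero hζ hη' (φ.pull _ tp) (fun L y E m => by
            rw [e1, e1]
            exact (h L y E m).2) hy' i h0))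
    choose m hm _ using fun b : Bool => WA.morA (S := TT G) (T := G.UU.pi Bool)
      (g := fun _ x => x b) ⟨fun _ _ _ _ _ _ _ e => e b, fun _ _ m => uu_tt (m b)⟩
    let f : Mor (G.UU.pi Bool).sp ((TT G).sp.prod (TT G).sp) :=
      ⟨fun y => ((m true).f y, (m false).f y), fun y hy => ⟨(m true).mem y hy, (m false).mem y hy⟩,
        fun ι y hy => Prod.ext ((m true).nat ι y hy) ((m false).nat ι y hy),
        fun O y hO hy hy' => Prod.ext ((m true).cont O y hO hy hy') ((m false).cont O y hO hy hy')⟩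
    have fp : f.Proper := by
      rintro M O _ - ⟨x, rfl, hx⟩ h'
      choose x' h1 h2 using fun b : Bool => red_uu (O := O) (hx b) (by
        rw [← hm b M x]
        cases b
        exacts [h'.2, h'.1])
      exact ⟨x', Cd.red_some (c := Cd.pi Bool (xz dd)) h2, h1⟩
    refine ⟨ψ.pull f fp, fun L x hx => ?_⟩
    refine (Fe.pull_of_mem f fp ψ ((G.UU.pi Bool).sp_some.2 hx)).trans ((hψ L _).trans ?_)
    rw [← hm true L x, ← hm false L x]

end Pool.Agent.Lib.MP_557161_ag.HG.HN.HC
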