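import Pool.Agent.Lib.MP_557161_ag.HC.StV
import Pool.Agent.Lib.MP_557161_ag.HN.SE

/-!
The diagonal is the unit.
-/

namespace Pool.Agent.Lib.MP_557161_ag.HG.HN.HC

open Pool.Agent.Lib.MP_557161_ag.DL

variable {K : Type} [Field K] {dd : ℕ} {G : GD K dd} {L N : Fld K} {c d : Cd} {S : ASp K c}
  {W : ASp K d} {j : ℕ} {g : ∀ L : Fld K, ((xz dd).prod c).X L → d.X L}

namespace YUp

lemma lift_vz {L L' : Type} {r : L → L' → Prop} {y : (xz dd).X L} {y' : (xz dd).X L'} :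
    (xz dd).lift r y y' ↔ ∀ μ, r (vz y μ) (vz y' μ) :=
  ⟨fun h μ => by
    cases μ
    exacts [h.2, h.1 _], fun h => ⟨fun i => h (some i), h none⟩⟩

lemma vz_scl (a : L) (y : (xz dd).X L) (μ : Option (Vr dd)) :
    vz (G.Γ.scl a y) μ = a ^ G.ωK μ * vz y μ := by
  cases μ with
  | none => exact congrArg (· * y.2) (zpow_natCast a G.e).symm
  | some i => exact congrArg (· * y.1 i) (zpow_one a).symm

lemma uu_nz {y : (xz dd).X L} (h : G.UU.mem L y) : G.Γ.nz y := ⟨Sum.inl 0, trivial, h.1.2 0⟩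

lemma uu_co {y : (xz dd).X L} (h : G.UU.mem L y) (a : L) : (G.Γ.scl a y).1 0 = a := by
  show a * y.1 0 = a
  rw [h.2.1, mul_one]

variable {O : Pl N} {A y : (xz dd).X N} {u : c.X N} {b t : N} {v : Option (Vr dd) → N}

/-- The reduction at a place where the difference quotient is integral. -/
lemma near (hg : Mp (G.UU.prod S) W g) (hy : G.UU.mem N y) (hu : S.mem N u) (hb : b ≠ 0)
    (ht : (Rel.ofPl O).r t 0) (hv : IntV O v) (e : ∀ μ, vz A μ = vz (G.Γ.scl b y) μ + t * v μ)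
    {A' : (xz dd).X O.res} {u' : c.X O.res} (hA' : G.UU.mem O.res A') (hu' : S.mem O.res u')
    (eA : (xz dd).lift (Rel.ofPl O).r A A') (eu : c.lift (Rel.ofPl O).r u u') :
    (((xz dd).prod d).prod (.vec (Option (Vr dd)))).lift (Rel.ofPl O).r
      ((G.Γ.scl b y, g N (y, u)), v) ((A', g O.res (A', u')), rdV O v) := by
  have h1 : (xz dd).lift (Rel.ofPl O).r (G.Γ.scl b y) A' := lift_vz.2 fun μ => by
    have := Rel.sub (lift_vz.1 eA μ) ((Rel.ofPl O).mul ht ⟨hv μ, rfl⟩)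
    rwa [e, add_sub_cancel_right, zero_mul, sub_zero] at this
  have h2 : (Rel.ofPl O).r b 1 := by
    have := h1.1 0
    rwa [uu_co hy, hA'.2.1] at this
  have h3 := G.Γ.lift_scl ((Rel.ofPl O).inv h2 one_ne_zero) (inv_ne_zero one_ne_zero) h1
  rw [G.Γ.scl_inv hb, inv_one, G.Γ.scl_one] at h3
  exact ⟨⟨h1, hg.reg _ (x := (y, u)) (x' := (A', u')) ⟨hy, hu⟩ ⟨hA', hu'⟩ ⟨h3, eu⟩⟩,
    fun μ => ⟨hv μ, rfl⟩⟩

variable [X0 dd] [WB K]

lemma r_near {i : ℕ} (θ : QF i (G.kb W 1).tot) {x : ((xz dd).prod d).X N} {A' : (xz dd).X O.res}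
    {w : d.X O.res} {v' : Option (Vr dd) → O.res} (hA' : G.UU.mem O.res A')
    (e : (((xz dd).prod d).prod (.vec (Option (Vr dd)))).lift (Rel.ofPl O).r (x, v) ((A', w), v')) :
    θ.r O (x, v) = θ.q O.res ((A', w), v') :=
  WB.r_eq θ.toPre (a := 1) one_ne_zero (by rwa [Wt.scl_one])
    ⟨Sum.inl (Sum.inl (Sum.inl 0)), trivial, hA'.1.2 0⟩

/-- The places that contribute. -/
lemma live {i : ℕ} (θ : QF i (G.kb W 1).tot) (hp : Pro (G.UU.prod S) W g) (hO : O.IsDVR)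
    (hA : G.UU.mem N A) (hy : G.UU.mem N y) (hu : S.mem N u) (hb : b ≠ 0)
    (ht : (Rel.ofPl O).r t 0) (e : ∀ μ, vz A μ = vz (G.Γ.scl b y) μ + t * v μ)
    (ne : θ.r O ((G.Γ.scl b y, g N (y, u)), v) ≠ 0) :
    IntV O v ∧ ∃ A' u', G.UU.mem O.res A' ∧ S.mem O.res u' ∧
      (xz dd).lift (Rel.ofPl O).r A A' ∧ c.lift (Rel.ofPl O).r u u' := by
  obtain ⟨l, ⟨⟨y', w'⟩, v'⟩, -, l0, h1, m, -⟩ := WB.r_ne θ.toPre ne
  replace l0 := inv_ne_zero l0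
  generalize (_ : N)⁻¹ = a at l0 h1
  obtain ⟨⟨h1, h2⟩, h3⟩ : ((xz dd).lift (Rel.ofPl O).r (G.Γ.scl a (G.Γ.scl b y)) y' ∧
    d.lift (Rel.ofPl O).r (g N (y, u)) w') ∧
      ∀ μ, (Rel.ofPl O).r (a ^ G.ωK μ * v μ) (v' μ) := h1
  obtain ⟨⟨y₁, u₁⟩, m', h4, h5⟩ := hp N O (y, u) w' hO ⟨hy, hu⟩ m.1.1.2 h2
  have h6 : (xz dd).lift (Rel.ofPl O).r (G.Γ.scl a A) y' := lift_vz.2 fun μ => by
    have := (Rel.ofPl O).add (lift_vz.1 h1 μ) ((Rel.ofPl O).mul ht (h3 μ))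
    rwa [zero_mul, add_zero, vz_scl, mul_left_comm, ← mul_add, ← e, ← vz_scl] at this
  rw [G.Γ.scl_scl] at h1
  obtain ⟨a', a0, h7⟩ := G.Γ.unit_of_lift (mul_ne_zero l0 hb) h4 h1 (uu_nz m'.1)
    (G.CC.nz _ _ m.1.1.1)
  obtain rfl : y' = G.Γ.scl a' y₁ := Cd.lift_eq h1 (G.Γ.lift_scl h7 a0 h4) rfl
  have h8 : (Rel.ofPl O).r a a' := by
    have := h6.1 0
    rwa [uu_co hA, uu_co m'.1] at this
  have h9 := G.Γ.lift_scl ((Rel.ofPl O).inv h8 a0) (inv_ne_zero a0) h6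
  rw [G.Γ.scl_inv l0, G.Γ.scl_inv a0] at h9
  refine ⟨fun μ => ?_, y₁, u₁, m'.1, m'.2, h9, h5⟩
  have := (Rel.div (h3 μ) (Rel.zpow h8 a0 (G.ωK μ)) (zpow_ne_zero _ a0)).1
  rwa [mul_div_cancel_left₀ _ (zpow_ne_zero _ l0)] at this

variable [Base K] [FW0 K] [YA K dd] [YT K dd] [YP K dd]

lemma core {φ : AF j W} {θ : QF (j + (2 * dd + 1)) (G.kb W 1).tot}
    {Ψ : QF (j + (2 * dd + 1) + 1) (G.JT W)} (h1 : G.Th 1 φ θ) (h2 : G.IsDf θ Ψ)
    (hg : Mp (G.UU.prod S) W g) (hp : Pro (G.UU.prod S) W g) {κ : L →ₐ[K] N}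
    (hy : G.UU.mem N y) (hb : b ≠ 0) (t0 : t ≠ 0) (gc : G.GenC j κ (G.Γ.scl b y) t)
    {R : (xz dd).X L} {u : c.X L} (hR : G.UU.mem L R) (hu : S.mem L u) :
    Ψ.q N (((G.Γ.scl b y, g N (y, c.map κ u)), (xz dd).map κ R), t) = φ.a L (g L (R, u)) := by
  obtain ⟨O, h, o1, iv, tp, lin, un⟩ := YP.pt gc R (YA.uu hR) _ rfl
  have hA := (G.UU.map_iff κ R).2 hR
  have hu' := (S.map_iff κ u).2 hu
  have s := (h2 N _ _ (g N (y, c.map κ u)) t gc.gM (G.CC.inv _ b y hb (YA.uu hy))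
    (hg.mem _ (y, _) ⟨hy, hu'⟩) (YA.uu hA).2 t0).2
  generalize hv : t⁻¹ • (vz ((xz dd).map κ R) - vz (G.Γ.scl b y)) = v at *
  have e : ∀ μ, vz ((xz dd).map κ R) μ = vz (G.Γ.scl b y) μ + t * v μ := fun μ => by
    rw [← hv, Pi.smul_apply, smul_eq_mul, mul_inv_cancel_left₀ t0, Pi.sub_apply, add_sub_cancel]
  have k : ∀ {O' : Pl N} {L' : Fld K} (ι : L' →ₐ[K] O'.res) {R' : (xz dd).X L'} {u' : c.X L'},
      (Rel.ofPl O').r t 0 → IntV O' v → G.UU.mem L' R' → S.mem L' u' →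
      (xz dd).lift (Rel.ofPl O').r ((xz dd).map κ R) ((xz dd).map ι R') →
      c.lift (Rel.ofPl O').r (c.map κ u) (c.map ι u') →
      θ.r O' ((G.Γ.scl b y, g N (y, c.map κ u)), v) =
        θ.q O'.res (((xz dd).map ι R', d.map ι (g L' (R', u'))), rdV O' v) :=
    fun {O' L'} ι R' u' ht iv m1 m2 l1 l2 => by
      have m3 := (G.UU.map_iff ι R').2 m1
      rw [← hg.reg.nat ι (x := (R', u')) ⟨m1, m2⟩]
      exact r_near θ m3 (near hg hy hu' hb ht iv e m3 ((S.map_iff ι u').2 m2) l1 l2)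
  refine s.symm.trans ((finsum_eq_single _ O fun O' ne => ?_).trans ?_)
  · split_ifs with p
    swap
    · rfl
    refine mul_eq_zero_of_right _ (by_contra fun n => n ?_)
    have ht := (Pl.ord_pos_iff O'.2.1 t0).1 p
    obtain ⟨iv', A', u', m1, m2, l1, l2⟩ := live θ hp O'.2.1 hA hy hu' hb ht e n
    by_cases h' : Pl.Triv κ O'.1
    · rw [k h'.hom ht iv' hR hu (Cd.lift_triv h' R) (Cd.lift_triv h' u)]
      refine Se.low θ.toPre (gen h'.hom (rdV O'.1 v)) ?_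
        ((un O'.1 h' O'.2.1 (fun e' => ne (Subtype.ext e')) ht.1 ht.2 iv').trans_lt
          (by exact_mod_cast Nat.lt_succ_self _))
      rintro ((i | i) | i)
      · exact ((xz dd).co_map h'.hom R i).symm ▸ Se.gl _ _ _
      · exact (d.co_map h'.hom (g L (R, u)) i).symm ▸ Se.gl _ _ _
      · exact Se.gr _ _ i
    · have ov := Pl.over_comap κ O'.1
      have k1 := (Cd.lift_pl _).2 ⟨(Cd.all_over ov).1 ((Cd.lift_pl O'.1).1 l1).1, rfl⟩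
      have k2 := (Cd.lift_pl _).2 ⟨(Cd.all_over ov).1 ((Cd.lift_pl O'.1).1 l2).1, rfl⟩
      have k3 := Cd.lift_over ov k1
      have k4 := Cd.lift_over ov k2
      rw [k ov.resHom ht iv' ((G.UU.map_iff ov.resHom _).1 (Cd.lift_eq l1 k3 rfl ▸ m1))
        ((S.map_iff ov.resHom _).1 (Cd.lift_eq l2 k4 rfl ▸ m2)) k3 k4]
      have tr := Pl.tr_res_lt (Pl.comap κ O'.1) (fun e => h' fun a =>
        (ov a).1 (e ▸ ValuationSubring.mem_top a)) gc.gL.2.le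
      obtain ⟨m, hm⟩ := Cardinal.lt_aleph0.1 (tr.trans Cardinal.natCast_lt_aleph0)
      rw [hm] at tr
      exact YT.low θ _ ((FA3.dm_map (c := (xz dd).prod d) ov.resHom (x := (_, _))).2
        (FA3.dm_tr _ hm.le)) (Nat.cast_lt.1 tr)
  · have p : 0 < O.1.ord t := o1 ▸ one_pos
    rw [if_pos p, o1, Int.cast_one, one_mul, k h.hom ((Pl.ord_pos_iff O.2.1 t0).1 p) iv hR hu
      (Cd.lift_triv h R) (Cd.lift_triv h u)]
    exact YT.val h1 _ gc.gL (O.2.good gc.gM) tp (YA.uu hR) (hg.mem L (R, u) ⟨hR, hu⟩)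
      (by rwa [Nat.cast_one])

end YUp

theorem YU_thm {K : Type} [Field K] [Base K] {dd : ℕ} [X0 dd] [FW0 K] [WB K] [YA K dd] [YT K dd]
    [YP K dd] : YU K dd :=
  ⟨fun {G c d S W j φ Ψ} ⟨θ, h1, h2⟩ g hg hp L M N α y hy R u hR hu β T hT => by
    have T0 : ∀ i, T i ≠ 0 := fun i e => Polynomial.X_ne_zero (FA1.trans hT i Polynomial.X (by
      rw [Polynomial.eval₂_X, e]))
    have gc := YA.genC hy β (T true)⁻¹ (T false) (by simpa [add_assoc] using hT.gM)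
      (inv_ne_zero (T0 _)) (top_unique (hT.top.ge.trans (IntermediateField.adjoin_le_iff.2 (by
        rintro _ (⟨a, rfl⟩ | ⟨_ | _, rfl⟩)
        exacts [Se.gl _ _ a, Se.gr β _ 1, inv_mem_iff.1 (Se.gr β ![(T true)⁻¹, T false] 0)]))))
    rw [← YUp.core h1 h2 hg hp ((G.UU.map_iff β y).2 hy.mem) (inv_ne_zero (T0 _)) (T0 _) gc hR hu]
    refine congrArg (Ψ.v N) ((Wt.pt_scl _ (inv_ne_zero (T0 true)) _).symm.trans (congrArg _ ?_))
    refine Prod.ext (Prod.ext (Prod.ext rfl ?_) (G.Γ.scl_inv (T0 _) _)) rfl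
    refine (hg.reg.nat β (x := (y, c.map α u)) ⟨hy.mem, (S.map_iff α u).2 hu⟩).symm.trans ?_
    exact congrArg (fun z => g N (_, z)) (c.map_map α β u)⟩

end Pool.Agent.Lib.MP_557161_ag.HG.HN.HC
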