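import Pool.Agent.Lib.MP_557161_ag.HC.StV

/-!
Isotypic parts of functionals on the join live on the part over the torus.
-/

namespace Pool.Agent.Lib.MP_557161_ag.HG.HN.HC

open Pool.Agent.Lib.MP_557161_ag.DL MvPolynomial

variable {K : Type} [Field K] {dd : ℕ}

namespace YWa

/-- A functional is invariant under `γ ζ` on the zero set of `s`. -/
lemma van [WB K] [WN K] {c : Cd} {Γ : Wt c} {S : QS K Γ} {k : ℤ} {s : ∀ L : Fld K, c.X L → L}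
    (h : Hom S k s) (γ : ∀ L : Fld K, L → c.X L → c.X L)
    (hr : ∀ (M L : Fld K) (R : Rel M L) (t : M) (t' : L) x x', t' ≠ 0 → R.r t t' →
      c.lift R.r x x' → c.lift R.r (γ M t x) (γ L t' x'))
    (hm : ∀ (L : Fld K) (t : L) x, t ≠ 0 → S.mem L x → s L x = 0 →
      S.mem L (γ L t x) ∧ s L (γ L t x) = 0)
    (hs : ∀ (L : Fld K) (t a : L) x, γ L t (Γ.scl a x) = Γ.scl a (γ L t x))
    (hi : ∀ (L : Fld K) (t : L) x, t ≠ 0 → γ L t⁻¹ (γ L t x) = x)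
    (h1 : ∀ (L : Fld K) x, γ L 1 x = x) {ζ : K} (hζ : ζ ≠ 0) {j : ℕ} (Θ : QF j S) {L : Fld K}
    {x : c.X L} (hx : S.mem L x) (h0 : s L x = 0) :
    Θ.q L (γ L (algebraMap K L ζ) x) = Θ.q L x := by
  obtain ⟨θ, hθ⟩ := WB.pull (S := S.zer h) (T := S) (f := fun _ x => x)
    ⟨⟨Reg.id _, fun _ _ m => m.1⟩, fun _ _ _ _ _ => rfl⟩
    (fun M O x z _ m mz e => ⟨z, ⟨mz, Rel.eq_zero (h.reg _ m.1 mz e) m.2⟩, e⟩) Θ
  have n1 : algebraMap K L ζ ≠ 0 := (map_ne_zero _).2 hζ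
  have key := (WN.conn (S := S.zer h) (ASp.gm K).sp (.gm K) (fun L x => γ L x.1 x.2)
    (fun L x => γ L x.1⁻¹ x.2)
    ⟨fun M L R x x' _ m' e => hr M L R _ _ _ _ m'.1 e.1 e.2,
      fun L x m => hm L x.1 x.2 m.1 m.2.1 m.2.2⟩
    ⟨fun M L R x x' _ m' e => hr M L R _ _ _ _ (inv_ne_zero m'.1) (R.inv e.1 m'.1) e.2,
      fun L x m => hm L x.1⁻¹ x.2 (inv_ne_zero m.1) m.2.1 m.2.2⟩
    (fun L t a x _ _ _ => ⟨hs L t a x, hs L t⁻¹ a x⟩) (fun L t x ht _ => hi L t x ht)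
    (fun L T hT e => hT (e ▸ isAlgebraic_zero)) ζ 1 hζ one_ne_zero).2 θ L x ⟨hx, h0⟩
  simp only [map_one, h1] at key
  rw [← hθ L _ (hm L _ x n1 hx h0), ← hθ L x ⟨hx, h0⟩]
  exact key

variable {G : GD K dd} {M L : Fld K}

/-- The action of the multiplicative group on a boundary divisor. -/
def tw (c : Vr dd → ℤ) {L : Type} [Field L] (t : L) (y : (xz dd).X L) : (xz dd).X L :=
  (fun l => t ^ c l * y.1 l, t * y.2)

lemma tw_rel (c : Vr dd → ℤ) {R : Rel M L} {t : M} {t' : L} {y : (xz dd).X M} {y' : (xz dd).X L}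
    (h0 : t' ≠ 0) (h : R.r t t') (e : (xz dd).lift R.r y y') :
    (xz dd).lift R.r (tw c t y) (tw c t' y') :=
  ⟨fun l => R.mul (Rel.zpow h h0 _) (e.1 l), R.mul h e.2⟩

lemma tw_scl (c : Vr dd → ℤ) (t a : L) (y : (xz dd).X L) :
    tw c t (G.Γ.scl a y) = G.Γ.scl a (tw c t y) :=
  Prod.ext (funext fun _ => mul_left_comm _ _ _) (mul_left_comm _ _ _)

lemma tw_inv (c : Vr dd → ℤ) {t : L} (ht : t ≠ 0) (y : (xz dd).X L) : tw c t⁻¹ (tw c t y) = y := by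
  refine Prod.ext (funext fun l => ?_) (inv_mul_cancel_left₀ ht _)
  simp only [tw]
  rw [inv_zpow, inv_mul_cancel_left₀ (zpow_ne_zero _ ht)]

lemma tw_one (c : Vr dd → ℤ) (y : (xz dd).X L) : tw c 1 y = y := by simp [tw]

lemma tw_mlt (c : Vr dd → ℤ) {m : ℕ} {ζ : K} (h : ζ ^ m = 1) (y : (xz dd).X L) :
    tw (fun l => m * c l) (algebraMap K L ζ) y = mlt ζ L y := by
  refine Prod.ext (funext fun l => ?_) rfl
  show algebraMap K L ζ ^ (m * c l) * y.1 l = y.1 l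
  rw [zpow_mul, zpow_natCast, ← map_pow, h, map_one, one_zpow, one_mul]

lemma tw_ne (c : Vr dd → ℤ) {t : L} (ht : t ≠ 0) {y : (xz dd).X L} (h : y.1 ≠ 0) :
    (tw c t y).1 ≠ 0 := fun e => h (funext fun l =>
  (mul_eq_zero.1 (congrFun e l)).resolve_left (zpow_ne_zero _ ht))

lemma tw_cn [X0 dd] (G : GD K dd) (i : Vr dd) : ∃ c : Vr dd → ℤ, ∀ (L : Fld K) (t : L)
    (y : (xz dd).X L), t ≠ 0 → G.Cn0 L y → y.1 i = 0 →
      G.Cn0 L (tw (fun l => G.m * c l) t y) := by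
  obtain ⟨c, hc⟩ := X0.bd G i
  refine ⟨c, fun L t y ht h h0 => ?_⟩
  show (t * y.2) ^ G.m = aeval (fun l => t ^ (G.m * c l) * y.1 l) G.F
  rw [hc L t y.1 ht h0, mul_pow, show y.2 ^ G.m = _ from h]

lemma mlt_cn0 {ξ : K} (hξ : ξ ^ G.m = 1) {y : (xz dd).X L} (h : G.Cn0 L y) :
    G.Cn0 L (mlt ξ L y) := by
  show (algebraMap K L ξ * y.2) ^ G.m = aeval y.1 G.F
  rw [mul_pow, ← map_pow, hξ, map_one, one_mul]
  exact h

lemma mlt_scl (ξ : K) (a : L) (y : (xz dd).X L) :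
    mlt ξ L (G.Γ.scl a y) = G.Γ.scl a (mlt ξ L y) :=
  Prod.ext rfl (mul_left_comm _ _ _)

lemma mlt_map (ξ : K) (α : L →ₐ[K] M) (y : (xz dd).X L) :
    mlt ξ M ((xz dd).map α y) = (xz dd).map α (mlt ξ L y) :=
  Prod.ext rfl (show algebraMap K M ξ * α y.2 = α (algebraMap K L ξ * y.2) by
    rw [map_mul, α.commutes])

lemma shift {a : ℂ} {m : ℕ} (ha : a ^ m = 1) (F : ℕ → ℂ) (hF : F m = F 0) :
    a * ∑ s ∈ Finset.range m, a ^ s * F (s + 1) = ∑ s ∈ Finset.range m, a ^ s * F s := by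
  have h := (Finset.sum_range_succ (fun s => a ^ s * F s) m).symm.trans
    (Finset.sum_range_succ' (fun s => a ^ s * F s) m)
  rw [ha, hF, pow_zero, add_left_inj] at h
  rw [h, Finset.mul_sum]
  exact Finset.sum_congr rfl fun s _ => by ring

/-- Normalisation of the first coordinate. -/
lemma nrm {R : Rel M L} {a : M} {y : (xz dd).X M} {z : (xz dd).X L} (hy : G.UU.mem M y)
    (hz : G.Cn0 L z) (h0 : ∀ i, z.1 i ≠ 0) (e : (xz dd).lift R.r (G.Γ.scl a y) z) :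
    R.r a (z.1 0) ∧ G.UU.mem L (G.Γ.scl (z.1 0)⁻¹ z) ∧
      (xz dd).lift R.r y (G.Γ.scl (z.1 0)⁻¹ z) := by
  have h1 : R.r a (z.1 0) := by
    have := e.1 0
    change R.r (a * y.1 0) _ at this
    rwa [hy.2.1, mul_one] at this
  have z0 := inv_ne_zero (h0 0)
  refine ⟨h1, ⟨⟨trivial, fun i => mul_ne_zero z0 (h0 i)⟩, inv_mul_cancel₀ (h0 0), hz.scl _⟩, ?_⟩
  have := G.Γ.lift_scl (R.inv h1 (h0 0)) z0 e
  rwa [G.Γ.scl_inv (Rel.ne_zero h1 (h0 0))] at this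

variable {d : Cd} {W : ASp K d} {j : ℕ}

/-- The shape of the points of the join. -/
abbrev jsh (dd : ℕ) (d : Cd) : Cd := (((xz dd).prod d).prod (xz dd)).prod .one

/-- The covering transformations of the join. -/
def fl (ξ ξ' : K) (L : Fld K) (x : (jsh dd d).X L) : (jsh dd d).X L :=
  (((mlt ξ' L x.1.1.1, x.1.1.2), mlt ξ L x.1.2), x.2)

lemma fl_fl (ξ ξ' η η' : K) (x : (jsh dd d).X L) :
    fl ξ ξ' L (fl η η' L x) = fl (ξ * η) (ξ' * η') L x :=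
  Prod.ext (Prod.ext (Prod.ext (mlt_mlt _ _ _ _) rfl) (mlt_mlt _ _ _ _)) rfl

lemma fl_one (x : (jsh dd d).X L) : fl (1 : K) 1 L x = x :=
  Prod.ext (Prod.ext (Prod.ext (mlt_one _ _) rfl) (mlt_one _ _)) rfl

lemma fl_mp {ξ ξ' : K} (h : ξ ^ G.m = 1) (h' : ξ' ^ G.m = 1) :
    Mp (G.JT W).S (G.JT W).S (fl ξ ξ') :=
  ⟨fun _ _ R _ _ _ _ e => ⟨⟨⟨mlt_rel _ R e.1.1.1, e.1.1.2⟩, mlt_rel _ R e.1.2⟩, e.2⟩,
    fun _ _ m => ⟨⟨⟨⟨m.1.1.1.1, mlt_cn0 h' m.1.1.1.2⟩, m.1.1.2⟩, trivial, mlt_cn0 h m.1.2.2⟩, m.2⟩⟩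

lemma ne0 {ζ : K} (h : ζ ^ G.m = 1) : ζ ≠ 0 := fun e => by
  rw [e, zero_pow G.pm.ne_zero] at h
  exact zero_ne_one h

/-- The isotypic part. -/
lemma anti [WB K] {ζ : K} (hζ : ζ ^ G.m = 1) (γ c : ℂ) (Ψ : QF j (G.JT W)) :
    ∃ Θ : QF j (G.JT W), ∀ L x, (G.JT W).mem L x → Θ.q L x = c * ∑ s ∈ Finset.range G.m,
      ∑ s' ∈ Finset.range G.m, γ⁻¹ ^ s * γ ^ s' * Ψ.q L (fl (ζ ^ s) (ζ ^ s') L x) := by
  have h1 : ∀ s : ℕ, (ζ ^ s) ^ G.m = 1 := fun s => by rw [← pow_mul, mul_comm, pow_mul, hζ, one_pow]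
  have h2 : ∀ s : ℕ, (ζ ^ s)⁻¹ ^ G.m = 1 := fun s => by rw [inv_pow, h1, inv_one]
  have h : ∀ ε : ℕ × ℕ, ∃ θ : QF j (G.JT W), ∀ L x, (G.JT W).mem L x →
      θ.q L x = Ψ.q L (fl (ζ ^ ε.1) (ζ ^ ε.2) L x) := fun ε =>
    WB.pull ⟨fl_mp (h1 _) (h1 _), fun L a x _ _ =>
      Prod.ext (Prod.ext (Prod.ext (mlt_scl _ _ _) rfl) (mlt_scl _ _ _)) rfl⟩
      (Pro.of_left (fl_mp (h2 ε.1) (h2 ε.2)) (fl_mp (h1 _) (h1 _)) fun L x _ => by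
        rw [fl_fl, inv_mul_cancel₀ (ne0 (h1 _)), inv_mul_cancel₀ (ne0 (h1 _)), fl_one]) Ψ
  choose θ hθ using h
  obtain ⟨Θ, hΘ⟩ := WB.lin (Finset.range G.m ×ˢ Finset.range G.m)
    (fun ε : ℕ × ℕ => c * (γ⁻¹ ^ ε.1 * γ ^ ε.2)) θ
  refine ⟨Θ, fun L x m => (hΘ L _).trans ?_⟩
  rw [Finset.sum_product, Finset.mul_sum]
  refine Finset.sum_congr rfl fun ε _ => ?_
  rw [Finset.mul_sum]
  refine Finset.sum_congr rfl fun ε' _ => ?_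
  rw [← hθ (ε, ε') L x m, mul_assoc]

/-- The isotypic part vanishes on the boundary. -/
lemma bd [X0 dd] [WB K] [WN K] {ζ : K} {γ c : ℂ} (hζ : ζ ^ G.m = 1) (hγ : γ ^ G.m = 1)
    (h1 : γ ≠ 1) {Ψ Θ : QF j (G.JT W)} (hΘ : ∀ L x, (G.JT W).mem L x →
      Θ.q L x = c * ∑ s ∈ Finset.range G.m, ∑ s' ∈ Finset.range G.m,
        γ⁻¹ ^ s * γ ^ s' * Ψ.q L (fl (ζ ^ s) (ζ ^ s') L x))
    {x : (jsh dd d).X L} (hx : Θ.q L x ≠ 0) (i : Vr dd) : x.1.1.1.1 i ≠ 0 ∧ x.1.2.1 i ≠ 0 := by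
  have m : (G.JT W).mem L x := (WB.mem Θ.toPre hx).2
  obtain ⟨k₀, hk⟩ := tw_cn G i
  have hm := fun y : (xz dd).X L => tw_mlt k₀ hζ y
  generalize (fun l => (G.m : ℤ) * k₀ l) = k at hk hm
  refine ⟨fun h0 => hx ?_, fun h0 => hx ?_⟩
  · have h := van (S := G.JT W) (k := 1) (s := fun _ x => x.1.1.1.1 i)
      ⟨fun _ _ _ _ _ _ _ e => e.1.1.1.1 i, fun L a x _ _ => by rw [zpow_one]; rfl⟩
      (fun L t x => (((tw k t x.1.1.1, x.1.1.2), x.1.2), x.2))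
      (fun _ _ _ _ _ _ _ h0 h e => ⟨⟨⟨tw_rel k h0 h e.1.1.1, e.1.1.2⟩, e.1.2⟩, e.2⟩)
      (fun L t x ht m h0 => ⟨⟨⟨⟨⟨tw_ne k ht m.1.1.1.1, hk L t _ ht m.1.1.1.2 h0⟩, m.1.1.2⟩, m.1.2⟩,
        m.2⟩, mul_eq_zero_of_right _ h0⟩)
      (fun L t a x => Prod.ext (Prod.ext (Prod.ext (tw_scl k t a _) rfl) rfl) rfl)
      (fun L t x ht => Prod.ext (Prod.ext (Prod.ext (tw_inv k ht _) rfl) rfl) rfl)
      (fun L x => Prod.ext (Prod.ext (Prod.ext (tw_one k _) rfl) rfl) rfl) (ne0 hζ) Θ m h0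
    simp only [hm] at h
    have h2 := hΘ L _ ((fl_mp (one_pow _) hζ).mem L x m)
    have h3 : Θ.q L (fl 1 ζ L x) = Θ.q L x := by
      rw [← h, fl, mlt_one]
    refine by_contra fun n => h1 ((mul_eq_right₀ n).1 ?_)
    conv_lhs => rw [← h3, h2]
    rw [hΘ L x m, mul_left_comm, Finset.mul_sum]
    refine congrArg (c * ·) (Finset.sum_congr rfl fun s _ => ?_)
    simp only [fl_fl, mul_one, ← pow_succ, mul_assoc, ← Finset.mul_sum]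
    rw [mul_left_comm, shift hγ (fun s' => Ψ.q L (fl (ζ ^ s) (ζ ^ s') L x))
      (by rw [hζ, pow_zero])]
  · have h := van (S := G.JT W) (k := 1) (s := fun _ x => x.1.2.1 i)
      ⟨fun _ _ _ _ _ _ _ e => e.1.2.1 i, fun L a x _ _ => by rw [zpow_one]; rfl⟩
      (fun L t x => ((x.1.1, tw k t x.1.2), x.2))
      (fun _ _ _ _ _ _ _ h0 h e => ⟨⟨e.1.1, tw_rel k h0 h e.1.2⟩, e.2⟩)
      (fun L t x ht m h0 => ⟨⟨⟨m.1.1, trivial, hk L t _ ht m.1.2.2 h0⟩, m.2⟩,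
        mul_eq_zero_of_right _ h0⟩)
      (fun L t a x => Prod.ext (Prod.ext rfl (tw_scl k t a _)) rfl)
      (fun L t x ht => Prod.ext (Prod.ext rfl (tw_inv k ht _)) rfl)
      (fun L x => Prod.ext (Prod.ext rfl (tw_one k _)) rfl) (ne0 hζ) Θ m h0
    simp only [hm] at h
    have h2 := hΘ L _ ((fl_mp hζ (one_pow _)).mem L x m)
    have h3 : Θ.q L (fl ζ 1 L x) = Θ.q L x := by
      rw [← h, fl, mlt_one]
    refine by_contra fun n => inv_ne_one.2 h1 ((mul_eq_right₀ n).1 ?_)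
    conv_lhs => rw [← h3, h2]
    rw [hΘ L x m, mul_left_comm]
    refine congrArg (c * ·) ?_
    simp only [fl_fl, mul_one, ← pow_succ, mul_assoc, ← Finset.mul_sum]
    exact shift (by rw [inv_pow, hγ, inv_one])
      (fun s => ∑ s' ∈ Finset.range G.m, γ ^ s' * Ψ.q L (fl (ζ ^ s) (ζ ^ s') L x))
      (by rw [hζ, pow_zero])

/-- The part of the join over the torus. -/
noncomputable def JO (G : GD K dd) (W : ASp K d) : QS K (G.ΓJ d) :=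
  (G.JT W).sub ((G.JT W).S.opn (fun _ x => ∀ i, x.1.1.1.1 i ≠ 0 ∧ x.1.2.1 i ≠ 0)
    fun _ _ _ _ _ _ _ e h i => ⟨Rel.ne_zero (e.1.1.1.1 i) (h i).1, Rel.ne_zero (e.1.2.1 i) (h i).2⟩)
    (fun _ _ m => m.1) fun L a x h0 m => ⟨(G.JT W).inv L a x h0 m.1,
      fun i => ⟨mul_ne_zero h0 (m.2 i).1, mul_ne_zero h0 (m.2 i).2⟩⟩

/-- The parameter space. -/
noncomputable def PO (G : GD K dd) (W : ASp K d) :
    ASp K ((((xz dd).prod (xz dd)).prod d).prod (.vec Bool)) :=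
  (((G.UU.prod G.UU).prod W).prod (.univ K (.vec Bool))).opn (fun _ x => ∀ b, x.2 b ≠ 0)
    fun _ _ _ _ _ _ _ e h b => Rel.ne_zero (e.2 b) (h b)

/-- The parametrisation. -/
def par (G : GD K dd) (L : Fld K) (x : ((((xz dd).prod (xz dd)).prod d).prod (.vec Bool)).X L) :
    (jsh dd d).X L := (((x.1.1.2, x.1.2), G.Γ.scl (x.2 true) x.1.1.1), x.2 false)

lemma par_mp : Mp (PO G W) (JO G W).S (par G) where
  reg _ _ _ _ _ _ m' e := ⟨⟨⟨e.1.1.2, e.1.2⟩, G.Γ.lift_scl (e.2 true) (m'.2 true) e.1.1.1⟩, e.2 false⟩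
  mem L x m := by
    obtain ⟨⟨⟨⟨hA, hB⟩, hw⟩, -⟩, hT⟩ := m
    exact ⟨⟨⟨⟨⟨fun e => hB.1.2 0 (congrFun e 0), hB.2.2⟩, hw⟩, trivial,
      GD.Cn0.scl (G := G) hA.2.2 _⟩, hT false⟩,
      fun i => ⟨hB.1.2 i, mul_ne_zero (hT true) (hA.1.2 i)⟩⟩

lemma par_pro : ProA (PO G W) (JO G W) (par G) := by
  rintro M O x a z - ⟨⟨⟨⟨hA, hB⟩, -⟩, -⟩, -⟩ h0 ⟨⟨⟨⟨hB', hw'⟩, -, hA'⟩, ht⟩, hz⟩ e
  obtain ⟨b1, b2, b3⟩ := nrm hB hB'.2 (fun i => (hz i).1) e.1.1.1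
  have e2 : (xz dd).lift (Rel.ofPl O).r (G.Γ.scl (a * x.2 true) x.1.1.1) z.1.2 := by
    rw [← G.Γ.scl_scl]
    exact e.1.2
  obtain ⟨a1, a2, a3⟩ := nrm hA hA' (fun i => (hz i).2) e2
  have h1 := Rel.div a1 b1 (hz 0).1
  rw [mul_div_cancel_left₀ _ h0] at h1
  refine ⟨(((_, _), z.1.1.2), fun b => bif b then z.1.2.1 0 / z.1.1.1.1 0 else z.2),
    ⟨⟨⟨⟨a2, b2⟩, hw'⟩, trivial⟩, fun b => ?_⟩, ⟨⟨a3, b3⟩, e.1.1.2⟩, fun b => ?_⟩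
  · cases b
    exacts [ht, div_ne_zero (hz 0).2 (hz 0).1]
  · cases b
    exacts [e.2, h1]

lemma down (p : ℕ) [FC2 K p] {c : Cd} {S : ASp K c} {k : ℕ} (hk : k = j + Nat.card Bool)
    (Φ : AF k (S.prod (.univ K (.vec Bool)))) : ∃ Ψ : AF j S,
    ∀ (L M : Fld K) (α : L →ₐ[K] M) (T : Bool → M) (x : c.X L), Free j α T → S.mem L x →
      Φ.a M (c.map α x, T) = Ψ.a L x := by
  subst hk
  exact FC2.down p Φ

end YWa

open YWa in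
theorem YW_thm (p : ℕ) [X0 dd] [FW0 K] [FWp K p] [WB K] [WN K] : YW K dd where
  aff G ζ γ hζ hγ h1 d W j c Ψ := by
    obtain ⟨Θ, hΘ⟩ := anti hζ γ c Ψ
    obtain ⟨Θ₁, h₁⟩ := WB.res (JO G W).sp Θ (fun L y ⟨x, m, e⟩ => ⟨x, m.1, e⟩) fun L y h => by
      obtain ⟨x, rfl⟩ := (G.ΓJ d).pt_surj y
      exact ⟨x, ⟨(WB.mem Θ.toPre h).2, bd hζ hγ h1 hΘ h⟩, rfl⟩
    obtain ⟨Θ₂, h₂⟩ := WB.pullA par_mp par_pro Θ₁
    obtain ⟨Θ₃, h₃⟩ := WB.ext (WB.opnA (S' := PO G W)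
      (S := ((G.UU.prod G.UU).prod W).prod (.univ K (.vec Bool))) (fun _ _ m => m.1)
      fun _ _ _ _ m m' e => ⟨m, fun b => Rel.ne_zero (e.2 b) (m'.2 b)⟩) Θ₂
    obtain ⟨Φ, hΦ⟩ := down p (j := j) (by simp) Θ₃
    refine ⟨Φ, fun L M α T A B w hT hA hB hw => ?_⟩
    have m : ((G.UU.prod G.UU).prod W).mem L ((A, B), w) := ⟨⟨hA, hB⟩, hw⟩
    have m' : (PO G W).mem M ((((xz dd).prod (xz dd)).prod d).map α ((A, B), w), T) :=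
      ⟨⟨(ASp.map_iff _ α _).2 m, trivial⟩, fun b => by
        simpa using FA1.ne hT (X b) (X_ne_zero b)⟩
    rw [← hΦ L M α T _ hT m]
    refine ((h₃ M _).trans (h₂ M _ m')).trans ((h₁ M _).trans
      ((hΘ M _ (par_mp.mem M _ m').1).trans ?_))
    refine congrArg (c * ·) (Finset.sum_congr rfl fun ε _ => Finset.sum_congr rfl fun ε' _ =>
      congrArg (fun x => γ⁻¹ ^ ε * γ ^ ε' * Ψ.q M x) ?_)
    exact Prod.ext (Prod.ext (Prod.ext (mlt_map _ _ _) rfl)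
      ((mlt_scl _ _ _).trans (congrArg _ (mlt_map _ _ _)))) rfl

end Pool.Agent.Lib.MP_557161_ag.HG.HN.HC
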