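import Pool.Agent.Lib.MP_557161_ag.HC.StY
import Pool.Agent.Lib.MP_557161_ag.HG.ZA1
import Pool.Agent.Lib.MP_557161_ag.HG.ZA

/-!
The sum of the diagrams, with the parities of the exponents.
-/

namespace Pool.Agent.Lib.MP_557161_ag.HG.HN.HC

namespace ZAb

open XCa

theorem oddP : ∀ (r : ℕ) (e : Tw r → ℕ), (∀ b, Even (e (op r b))) →
    (∀ k, k < r → Odd (e (sl r k false) + e (sl r k true))) → OddP r e
  | 0, _, h, _ => ⟨h true, h false⟩
  | r + 1, e, h, h' => ⟨by simpa [sl_top] using h' r r.lt_succ_self, oddP r _ h fun k hk => by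
      simpa [sl_lt hk] using h' k (hk.trans r.lt_succ_self)⟩

open Sum in
theorem ex_odd {m : ℕ} (a : Fin m → ℕ) (h : ∀ k, Even (a k)) : OddP (m + m) (ZAa.ex a) := by
  have b : ∀ i : Lm m ⊕ Lm m, ZAa.ex a (slot m i) = (Sum.elim (Sum.elim 0 (Sum.elim (a · + 1) 0))
      (Sum.elim 0 (Sum.elim 1 0)) : Lm m ⊕ Lm m → ℕ) i :=
    fun i => congrArg _ ((Equiv.ofBijective _ (slot_bij m)).symm_apply_apply i)
  refine oddP _ _ (fun c => ?_) (lt_two (fun k => ?_) fun k => ?_)
  · cases c
    · exact (show ZAa.ex a (op _ false) = 0 from b (inr (inl ()))) ▸ Even.zero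
    · exact (show ZAa.ex a (op _ true) = 0 from b (inl (inl ()))) ▸ Even.zero
  · rw [show ZAa.ex a (sl _ k false) = a k + 1 from b (inl (inr (inl k))),
      show ZAa.ex a (sl _ k true) = 0 from b (inl (inr (inr k)))]
    exact (h k).add_one
  · rw [show ZAa.ex a (sl _ (m + k) false) = 0 from b (inr (inr (inr k))),
      show ZAa.ex a (sl _ (m + k) true) = 1 from b (inr (inr (inl k)))]
    exact odd_one

open ZAa Finset Sum Classical in
theorem mod (m : ℕ) (ε : Fin (2 * m + 1) ≃ Lm m) (a : Fin m → ℕ) (O : Type) [Fintype O]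
    (x : O → ℂ) (q : ℂ) (hx : ∀ o, x o ≠ 0) :
    dsum ((ε.sumCongr ε).trans (.ofBijective _ (slot_bij m)))
      (lamP q fun m => q ^ m * (1 + ∑ o, (x o ^ m + (x o)⁻¹ ^ m))) q (ZAa.ex a) =
        (-1) ^ m * m.factorial * q ^ (∑ k, (a k + 2)) *
          phi (fun h => ∑ o, h.eval (x o + (x o)⁻¹)) m (chD a) := by
  let z : Option (O × Bool) → ℂ := fun c => c.elim q fun c => q * bif c.2 then x c.1 else (x c.1)⁻¹
  let s : Option (O × Bool) → Option (O × Bool) := Option.map fun c => (c.1, !c.2)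
  have hs : ∀ c, s (s c) = c := by rintro (_ | c) <;> simp [s]
  have hl : ∀ i j, lamP q (fun m => q ^ m * (1 + ∑ o, (x o ^ m + (x o)⁻¹ ^ m))) i j =
      ∑ c ∈ univ, z c ^ i * z (s c) ^ j := fun i j => by
    have e : ∀ (y : ℂ) (i d : ℕ), y ≠ 0 → (q * y) ^ i * (q * y⁻¹) ^ (i + d) =
        q ^ (2 * i) * (q ^ d * y⁻¹ ^ d) := fun y i d hy => by
      rw [pow_add, ← mul_assoc, ← mul_pow, mul_mul_mul_comm, mul_inv_cancel₀ hy]
      ring
    have e' := fun o i d => e (x o)⁻¹ i d (inv_ne_zero (hx o))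
    simp only [inv_inv] at e'
    simp only [Fintype.sum_option, Fintype.sum_prod_type, Fintype.sum_bool, z, s, lamP,
      Option.map, Option.elim, Bool.not_true, Bool.not_false, cond]
    rcases le_total i j with h | h <;> obtain ⟨d, rfl⟩ := Nat.exists_eq_add_of_le h
    · simp only [min_eq_left h, max_eq_right h, Nat.add_sub_cancel_left, e _ _ _ (hx _), e',
        mul_add, mul_sum]
      congr 1
      · ring
      · exact sum_congr rfl fun _ _ => add_comm _ _
    · simp only [min_eq_right h, max_eq_left h, Nat.add_sub_cancel_left, e _ _ _ (hx _), e',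
        mul_add, mul_sum, mul_comm (_ ^ (j + d))]
      congr 1
      ring
  refine ((sum_congr rfl fun π _ => congrArg _ ((congrArg _ (pow_add (z none) _ _)).trans
    (ev_eq (o := fun _ => none) hs (fun _ => rfl) z hl _ _ (ex a) (inv_tp _ π)))).trans
    (main ε hs rfl z a)).trans ?_
  have key : ∀ g : (Fin m → Option (O × Bool)) → ℂ, (∀ u l, u l = none → g u = 0) →
      ∑ u, g u = ∑ o : Fin m → O, ∑ b : Fin m → Bool, g fun l => some (o l, b l) := fun g hg => by
    rw [← Fintype.sum_prod_type']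
    refine (Fintype.sum_of_injective _ (fun y y' h => Prod.ext
      (funext fun l => congrArg Prod.fst (Option.some.inj (congrFun h l)))
      (funext fun l => congrArg Prod.snd (Option.some.inj (congrFun h l)))) _ _
      (fun u hu => by_contra fun h => ?_) fun _ => rfl).symm
    choose y hy using fun l => Option.ne_none_iff_exists.1 fun e => h (hg u l e)
    exact hu ⟨(fun l => (y l).1, fun l => (y l).2), funext hy⟩
  rw [phi_eq, key _ fun u l hl => by rw [prod_eq_zero (mem_univ l) (by simp [hl, s]), zero_mul],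
    mul_comm ((-1) ^ m : ℂ), mul_assoc, mul_assoc, mul_sum, mul_sum, mul_sum, mul_sum]
  refine sum_congr rfl fun o _ => congrArg _ ?_
  simp only [s, Option.map, det_orb, ← sum_mul]
  split_ifs
  · rw [← Fintype.prod_sum fun l b => z (some (o l, b)) ^ (a l + 1) *
      (z (some (o l, !b)) - z (some (o l, b))), mul_one, ← prod_pow_eq_pow_sum,
      ← prod_mul_distrib, ← Fin.prod_const, ← prod_mul_distrib]
    refine prod_congr rfl fun l _ => ?_
    have h1 := chC_eval (hx (o l)) (a l + 2)
    push_cast at h1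
    simp only [Fintype.sum_bool, z, Option.elim, Bool.not_true, Bool.not_false, cond, chD,
      Polynomial.eval_sub, h1, chC_eval (hx (o l))]
    linear_combination q ^ (a l + 2) * (x (o l) ^ a l + (x (o l))⁻¹ ^ a l) *
      mul_inv_cancel₀ (hx (o l))
  · simp

end ZAb

open XCa Sum Polynomial in
theorem ZA_thm : ZA where
  frob r₀ := by
    obtain ⟨ε⟩ : Nonempty (Fin (2 * r₀ + 1) ≃ Lm r₀) := Fintype.card_eq.1 (by simp; ring)
    refine ⟨r₀ + r₀, fun k => decide (k < r₀), (ε.sumCongr ε).trans (.ofBijective _ (slot_bij r₀)),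
      fun i => ?_, fun i => ?_, fun a => ⟨ZAa.ex a, ZAb.ex_odd a, fun q P σ hq hP => ?_⟩⟩
    · change side _ _ (slot r₀ (inl (ε i))) = _
      rcases ε i with k | k | k
      exacts [side_op _ _ _, (side_sl _ _ _ _ (by omega)).trans (by simp),
        (side_sl _ _ _ _ (by omega)).trans (by simp)]
    · change side _ _ (slot r₀ (inr (ε i))) = _
      rcases ε i with k | k | k
      exacts [side_op _ _ _, (side_sl _ _ _ _ (by omega)).trans (by simp),
        (side_sl _ _ _ _ (by omega)).trans (by simp)]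
    have he := ZAb.mod r₀ ε a
    generalize (ε.sumCongr ε).trans (.ofBijective _ (slot_bij r₀)) = E at he ⊢
    generalize ZAa.ex a = e at he ⊢
    obtain rfl : P = fun m : ℕ => q ^ m * σ (chC m) :=
      funext fun m => by rw [hP, mul_div_cancel₀ _ (pow_ne_zero _ hq)]
    refine sub_eq_zero.1 (ZAP.zero (F := fun σ => dsum E (lamP q fun m : ℕ => q ^ m * σ (chC m)) q e -
      _ * phi σ r₀ (chD a)) (.sub (.sum _ fun π => .mul (.const _) ?_) (.mul (.const _) (.phi _ _)))
      ((2 : ℂ)⁻¹ • leval 2) (fun O _ u => ?_) σ)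
    · simp only [ZA_ev _ 0]
      exact .mul (.ev (fun x y => .mul (.const _) (.mul (.const _) (.app _))) _ _ _) (.const _)
    · have : ∀ u : ℂ, ∃ x : ℂ, x ≠ 0 ∧ x + x⁻¹ = u := fun u => by
        obtain ⟨s, hs⟩ := IsAlgClosed.exists_eq_mul_self (u ^ 2 - 4)
        have e : (u + s) / 2 * ((u - s) / 2) = 1 := by linear_combination hs / 4
        exact ⟨_, left_ne_zero_of_mul_eq_one e, by rw [← eq_inv_of_mul_eq_one_right e]; ring⟩
      choose x h4 h5 using this
      rw [sub_eq_zero, ZA_phi (σ' := fun h => ∑ o, h.eval (x (u o) + (x (u o))⁻¹))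
        (fun g hg => by simp [h5, hg]) _ _ fun i => by simp only [chD, eval_sub, Chebyshev.C_eval_two, sub_self],
        ← he O (fun o => x (u o)) q fun o => h4 _]
      simp only [← ZA_C (h4 _), h5]
      simp [Chebyshev.C_eval_two]

end Pool.Agent.Lib.MP_557161_ag.HG.HN.HC
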