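import Pool.Agent.Lib.MP_557161_ag.HC.StY
import Pool.Agent.Lib.MP_557161_ag.HG.ZB

/-!
Linear forms on polynomials whose form of Frobenius vanishes on even exponents.
-/

namespace Pool.Agent.Lib.MP_557161_ag.HG.HN.HC

open Polynomial Finset
open Function (update update_idem update_self update_of_ne update_eq_self Embedding)

namespace ZCa

open ZBa

lemma nat (σ : ℂ[X] → ℂ) (F : ℂ[X] →+* ℂ[X]) : ∀ (k : ℕ) (h : Fin k → ℂ[X]),
    phi σ k (F ∘ h) = phi (fun p => σ (F p)) k h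
  | 0, _ => rfl
  | k + 1, h => by
    rw [phi, phi, ← nat σ F k]
    refine congrArg₂ _ rfl (sum_congr rfl fun i _ => ?_)
    rw [← nat σ F k, Function.comp_update, map_mul]
    rfl

lemma mem_span {p : ℂ[X]} (h : X - C 2 ∣ p) :
    p ∈ Submodule.span ℂ (Set.range fun a : ℕ => chC (a + 1) - chC a) := by
  obtain ⟨r, rfl⟩ := h
  refine mul_mem (x_span ?_) (Submodule.subset_span (Set.mem_range.2 ⟨0, ?_⟩)) r
  · rintro _ ⟨a, rfl⟩
    have e : X * (chC (a + 1) - chC a) =
        (chC ((a + 1 : ℕ) + 1) - chC (a + 1 : ℕ)) + (chC a - chC (a - 1)) := by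
      rw [mul_sub, x_mul, x_mul]; push_cast; ring_nf
    rw [e]
    refine add_mem (Submodule.subset_span ⟨_, rfl⟩) ?_
    cases a with
    | zero =>
      refine neg_mem_iff.1 (Submodule.subset_span ⟨0, ?_⟩)
      simp [chC]
    | succ a => exact Submodule.subset_span ⟨a, by push_cast; ring_nf⟩
  · simp [chC, map_ofNat]

variable (σ : ℂ[X] →ₗ[ℂ] ℂ)

/-- The form vanishes on the multiples of `X - 2`. -/
def Zq (k : ℕ) : Prop := ∀ h : Fin k → ℂ[X], (∀ i, X - C 2 ∣ h i) → phi σ k h = 0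

lemma zq {k : ℕ} (h : ∀ a : Fin k → ℕ, phi σ k (fun i => chC (a i + 1) - chC (a i)) = 0) :
    Zq σ k := by
  have key : ∀ (s : Finset (Fin k)) (g : Fin k → ℂ[X]), (∀ i ∈ s, X - C 2 ∣ g i) →
      (∀ i ∉ s, ∃ a : ℕ, chC (a + 1) - chC a = g i) → phi σ k g = 0 := fun s => by
    induction s using Finset.induction_on with
    | empty =>
      intro g _ h2
      choose a ha using fun i => h2 i (notMem_empty i)
      exact funext ha ▸ h a
    | insert i s hi ih =>
      intro g h1 h2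
      obtain ⟨ψ, hψ⟩ := slot σ k g i
      rw [← update_eq_self i g, hψ]
      refine LinearMap.eqOn_span (f := σ ∘ₗ LinearMap.mulRight ℂ ψ) (g := 0) ?_
        (mem_span (h1 i (mem_insert_self _ _)))
      rintro _ ⟨a, rfl⟩
      refine (hψ _).symm.trans (ih _ (fun j hj => ?_) fun j hj => ?_)
      · rw [update_of_ne (ne_of_mem_of_not_mem hj hi)]
        exact h1 j (mem_insert_of_mem hj)
      · by_cases e : j = i
        · exact ⟨a, by rw [e, update_self]⟩
        · rw [update_of_ne e]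
          exact h2 j (by simp [e, hj])
  exact fun g hg => key univ g (fun i _ => hg i) fun i hi => absurd (mem_univ i) hi

variable {σ}

lemma const {h : ℂ[X]} (h2 : ∀ p, σ (h * h * p) = 0) : ∀ k, phi σ k (fun _ => h) = σ h ^ k
  | 0 => rfl
  | k + 1 => by
    rw [phi, sum_eq_zero, sub_zero, pow_succ']
    · exact congrArg _ (const h2 k)
    · intro i _
      obtain ⟨ψ, hψ⟩ := slot σ k (Fin.tail fun _ : Fin (k + 1) => h) i
      exact (hψ _).trans (h2 ψ)

lemma rad {r : ℕ} (hr : Zq σ r) {h : ℂ[X]} (h1 : X - C 2 ∣ h) :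
    ∀ N : ℕ, (∀ p, σ (h ^ (N + 1) * p) = 0) → ∀ p, σ (h * p) = 0 := by
  intro N
  induction N with
  | zero => intro h2 p; simpa using h2 p
  | succ N ih =>
    intro h2
    refine ih fun p => ?_
    have h3 := const (σ := σ) (h := h ^ (N + 1) * p) (fun t => by
      rw [← h2 (h ^ N * p * p * t)]
      congr 1
      ring) r
    rw [hr _ fun _ => (h1.trans (dvd_pow_self h (Nat.succ_ne_zero N))).mul_right p] at h3
    exact eq_zero_of_pow_eq_zero h3.symm

lemma rep {r : ℕ} (hr : Zq σ r) : ∃ (U : Finset ℂ) (μ : ℂ → ℂ), (∀ u ∈ U, u ≠ 2) ∧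
    ∀ h, X - C 2 ∣ h → σ h = ∑ u ∈ U, μ u * h.eval u := by
  obtain ⟨G, G0, hG⟩ := ann σ (k := r) fun h hh => hr h fun i =>
    Dvd.dvd.trans ⟨X + 2, by rw [map_ofNat]; ring⟩ (hh i)
  set s := insert 2 G.roots.toFinset with hs
  have h0 : (2 : ℂ) ∈ s := mem_insert_self _ _
  have h1 : G ∣ (∏ u ∈ s, (X - C u)) ^ (G.roots.card + 1) := by
    have e := (IsAlgClosed.splits G).eq_prod_roots
    have h2 : (G.roots.map fun u => X - C u).prod ∣ (∏ u ∈ s, (X - C u)) ^ G.roots.card := by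
      have := Multiset.prod_dvd_prod_of_dvd (S := G.roots) (fun u => X - C u)
        (fun _ => ∏ u ∈ s, (X - C u)) fun u hu =>
          dvd_prod_of_mem _ (mem_insert_of_mem (Multiset.mem_toFinset.2 hu))
      simpa using this
    nth_rewrite 1 [e]
    rw [(isUnit_C.2 (leadingCoeff_ne_zero.2 G0).isUnit).mul_left_dvd]
    exact h2.trans (pow_dvd_pow _ (Nat.le_succ _))
  have h2 := rad hr (dvd_prod_of_mem (fun u => X - C u) h0) G.roots.card fun p => by
    obtain ⟨t, ht⟩ := h1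
    rw [ht, mul_assoc, hG]
  refine ⟨s.erase 2, fun u => σ (Lagrange.basis s id u), fun u hu => (mem_erase.1 hu).1,
    fun h hh => ?_⟩
  obtain ⟨t, ht⟩ : ∏ u ∈ s, (X - C u) ∣ h - Lagrange.interpolate s id fun u => h.eval u :=
    prod_dvd_of_coprime (fun a _ b _ e => isCoprime_X_sub_C_of_isUnit_sub (sub_ne_zero.2 e).isUnit)
      fun u hu => dvd_iff_isRoot.2 (by
        have := Lagrange.eval_interpolate_at_node (v := id) (fun u => h.eval u) (Set.injOn_id _) hu
        rw [IsRoot, eval_sub, sub_eq_zero]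
        exact this.symm)
  have h3 := h2 t
  rw [← ht, map_sub, sub_eq_zero, Lagrange.interpolate_apply, map_sum,
    ← add_sum_erase _ _ h0, show h.eval 2 = 0 from dvd_iff_isRoot.1 hh] at h3
  rw [h3, C_0, zero_mul, map_zero, zero_add]
  exact sum_congr rfl fun u _ => by rw [← smul_eq_C_mul, map_smul, smul_eq_mul, mul_comm]

variable {U : Finset ℂ} {μ : ℂ → ℂ}

lemma val (hσ : ∀ h, X - C 2 ∣ h → σ h = ∑ u ∈ U, μ u * h.eval u) :
    ∀ (k : ℕ) (o : Fin k → ℂ), (∀ i, o i ∈ U) → (∀ u ∈ U, ∀ n < #{i | o i = u}, μ u ≠ n) →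
    ∃ c ≠ 0, ∀ h : Fin k → ℂ[X], (∀ i, X - C 2 ∣ h i ∧
      ∀ u ∈ U, (h i).eval u = if u = o i then 1 else 0) → phi σ k h = c
  | 0, _, _, _ => ⟨1, one_ne_zero, fun _ _ => rfl⟩
  | k + 1, o, h1, h2 => by
    have e : ∀ u, #{i | o i = u} = (if o 0 = u then 1 else 0) + #{i | Fin.tail o i = u} := fun u => by
      rw [card_filter, card_filter, Fin.sum_univ_succ]; rfl
    obtain ⟨c, c0, hc⟩ := val hσ k (Fin.tail o) (fun i => h1 _) fun u hu n hn =>
      h2 u hu n (e u ▸ hn.trans_le (Nat.le_add_left _ _))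
    refine ⟨(μ (o 0) - #{i | Fin.tail o i = o 0}) * c, mul_ne_zero (sub_ne_zero.2
      (h2 _ (h1 0) _ (by rw [e, if_pos rfl]; omega))) c0, fun h hh => ?_⟩
    rw [phi, hc (Fin.tail h) fun i => hh i.succ, hσ _ (hh 0).1,
      sum_eq_single_of_mem _ (h1 0) fun u hu hn => by rw [(hh 0).2 u hu, if_neg hn, mul_zero],
      (hh 0).2 _ (h1 0), if_pos rfl, mul_one, sub_mul, card_filter, Nat.cast_sum, sum_mul]
    refine congrArg _ (sum_congr rfl fun i _ => ?_)
    have e1 : ∀ u ∈ U, (h 0 * Fin.tail h i).eval u =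
        if u = o 0 ∧ u = Fin.tail o i then 1 else 0 := fun u hu => by
      rw [eval_mul, (hh 0).2 u hu, Fin.tail, (hh i.succ).2 u hu, ite_zero_mul_ite_zero, mul_one]
      rfl
    split_ifs with e2
    · rw [Nat.cast_one, one_mul]
      refine hc _ fun j => ?_
      by_cases e3 : j = i
      · subst e3
        rw [update_self]
        exact ⟨(hh 0).1.mul_right _, fun u hu => by simp only [e1 u hu, e2, and_self]⟩
      · rw [update_of_ne e3]
        exact hh j.succ
    · obtain ⟨ψ, hψ⟩ := slot σ k (Fin.tail h) i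
      rw [hψ, Nat.cast_zero, zero_mul, hσ _ (((hh 0).1.mul_right _).mul_right _)]
      exact sum_eq_zero fun u hu => by
        rw [eval_mul, e1 u hu, if_neg fun a => e2 (a.2.symm.trans a.1), zero_mul, mul_zero]

lemma core (hU : ∀ u ∈ U, u ≠ 2)
    (hσ : ∀ h, X - C 2 ∣ h → σ h = ∑ u ∈ U, μ u * h.eval u) {r : ℕ} (hr : Zq σ r) :
    ∃ n : ℂ → ℕ, (∀ u ∈ U, μ u = n u) ∧ ∑ u ∈ U, n u < r := by
  have key : ∀ o : Fin r → ℂ, (∀ i, o i ∈ U) → ¬ ∀ u ∈ U, ∀ n < #{i | o i = u}, μ u ≠ n :=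
    fun o h1 h2 => by
      obtain ⟨c, c0, hc⟩ := val hσ r o h1 h2
      refine c0 ((hc (fun i => (X - C 2) * (C (o i - 2)⁻¹ * Lagrange.basis U id (o i)))
        fun i => ⟨dvd_mul_right _ _, fun u hu => ?_⟩).symm.trans (hr _ fun i => dvd_mul_right _ _))
      split_ifs with e
      · subst e
        have := Lagrange.eval_basis_self (v := id) (Set.injOn_id _) hu
        simp only [id] at this
        simp [this, mul_inv_cancel₀ (sub_ne_zero.2 (hU _ hu))]
      · have := Lagrange.eval_basis_of_ne (v := id) (Ne.symm e) hu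
        simp only [id] at this
        simp [this]
  have h1 : ∀ u, ∃ n : ℕ, u ∈ U → μ u = n := fun u => by
    by_contra h
    push Not at h
    exact key (fun _ => u) (fun _ => (h 0).1) fun v _ n hn => by
      obtain ⟨i, hi⟩ := card_pos.1 (hn.trans_le' (Nat.zero_le n))
      exact (mem_filter.1 hi).2 ▸ (h n).2
  choose n hn using h1
  refine ⟨n, hn, not_le.1 fun h => ?_⟩
  obtain ⟨f⟩ := Embedding.nonempty_of_card_le (α := Fin r)
    (β := (U.sigma fun u => range (n u) : Finset (Σ _ : ℂ, ℕ))) (by simpa using h)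
  refine key (fun i => (f i).1.1) (fun i => (mem_sigma.1 (f i).2).1) fun u hu m hm e => ?_
  rw [hn u hu, Nat.cast_inj] at e
  refine absurd hm (not_lt.2 (e ▸ (card_le_card_of_injOn (fun i => (f i).1.2) (fun i hi => ?_)
    fun i hi j hj e => ?_).trans_eq (card_range _)))
  · exact (mem_filter.1 hi).2 ▸ (mem_sigma.1 (f i).2).2
  · exact f.injective (Subtype.ext (Sigma.ext
      ((mem_filter.1 hi).2.trans (mem_filter.1 hj).2.symm) (heq_of_eq e)))

lemma root (u : ℂ) : ∃ z : ℂ, z ≠ 0 ∧ z + z⁻¹ = u := by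
  obtain ⟨s, hs⟩ := IsAlgClosed.exists_eq_mul_self (u ^ 2 - 4)
  have e : (u + s) / 2 * ((u - s) / 2) = 1 := by linear_combination hs / 4
  refine ⟨(u + s) / 2, left_ne_zero_of_mul_eq_one e, ?_⟩
  rw [← eq_inv_of_mul_eq_one_right e]
  ring

end ZCa

open ZBa ZCa in
theorem ZC_thm : ZC where
  cnt σ r h h0 := by
    let τ : ℂ[X] →ₗ[ℂ] ℂ := σ ∘ₗ (aeval (chC 2)).toLinearMap
    have e0 : ∀ m : ℤ, (chC m).comp (chC 2) = chC (2 * m) := fun m => by
      rw [mul_comm, chC, chC, chC, Chebyshev.C_mul]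
    have hr : Zq τ r := zq τ fun a => by
      refine Eq.trans (nat σ (compRingHom (chC 2)) r _).symm ?_
      rw [← h (fun i => 2 * a i) fun i => even_two_mul _]
      refine congrArg _ (funext fun i => ?_)
      simp only [Function.comp, coe_compRingHom_apply, sub_comp, e0, chD]
      push_cast
      ring_nf
    obtain ⟨U, μ, hU, hσ⟩ := rep hr
    obtain ⟨n, hn, hlt⟩ := core hU hσ hr
    choose z z0 hz using root
    obtain ⟨k, hk⟩ : ∃ k, 2 * r + 1 = 2 * ∑ u ∈ U, n u + (k + 3) :=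
      ⟨2 * r + 1 - (2 * ∑ u ∈ U, n u + 3), by omega⟩
    have e1 : ∀ m : ℤ, τ (chC m) = σ (chC (2 * m)) := fun m => congrArg σ (e0 m)
    refine ⟨Finsupp.single 1 (k + 3) + ∑ u ∈ U, (Finsupp.single (z u) (n u) +
      Finsupp.single (z u)⁻¹ (n u)), ?_, ?_, fun j => ?_⟩
    · rw [Finsupp.add_apply, Finsupp.finsetSum_apply, Finsupp.single_eq_of_ne zero_ne_one,
        zero_add]
      exact sum_eq_zero fun u _ => by
        rw [Finsupp.add_apply, Finsupp.single_eq_of_ne (z0 u).symm,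
          Finsupp.single_eq_of_ne (inv_ne_zero (z0 u)).symm, add_zero]
    · rw [Finsupp.add_apply, Finsupp.single_eq_same]
      omega
    · have a0 : ∀ a : ℂ, ((0 : ℕ) : ℂ) * a ^ j = 0 := fun a => by simp
      have a1 : ∀ (a : ℂ) (b c : ℕ), ((b + c : ℕ) : ℂ) * a ^ j = b * a ^ j + c * a ^ j :=
        fun a b c => by push_cast; ring
      rw [Finsupp.sum_add_index' a0 a1, ← Finsupp.sum_finsetSum_index a0 a1,
        Finsupp.sum_single_index (a0 _)]
      rw [sum_congr rfl fun u _ => by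
        rw [Finsupp.sum_add_index' a0 a1, Finsupp.sum_single_index (a0 _),
          Finsupp.sum_single_index (a0 _)]]
      have b0 : ∀ m : ℤ, (chC m).eval 2 = 2 := fun m => by
        have := eval_c (z := 1) one_ne_zero m
        simpa [one_add_one_eq_two] using this
      have b1 := hσ (chC j - chC 0) (dvd_iff_isRoot.2 (by rw [IsRoot, eval_sub, b0, b0, sub_self]))
      rw [map_sub, e1, e1, mul_zero, h0, sub_eq_iff_eq_add] at b1
      have b2 : (2 * r + 1 : ℂ) = 2 * ∑ u ∈ U, (n u : ℂ) + (k + 3) := by exact_mod_cast hk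
      push_cast
      rw [b1, b2, one_pow, mul_one, mul_sum, ← add_assoc, ← sum_add_distrib, add_comm]
      refine congrArg _ (sum_congr rfl fun u hu => ?_)
      have b3 := eval_c (z0 u) j
      have b4 := eval_c (z0 u) 0
      rw [hz] at b3 b4
      rw [hn u hu, eval_sub, b3, b4]
      simp only [zpow_natCast, zpow_neg, neg_zero, zpow_zero, inv_pow]
      ring

end Pool.Agent.Lib.MP_557161_ag.HG.HN.HC
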