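import Pool.Agent.Lib.MP_557161_ag.HC.StV
import Pool.Agent.Lib.MP_557161_ag.HN.ZG

/-!
The degeneration of the Euler line bundle.
-/

namespace Pool.Agent.Lib.MP_557161_ag.HG.HN.HC

open Pool.Agent.Lib.MP_557161_ag.DL MvPolynomial

open Pool.Agent.Lib.MP_557161_ag.HG.HN.ZG1 (transfer erase gl gr ne0)

namespace ZGc

variable {K : Type} [Field K] {dd : ℕ} {d : Cd} {L L' M N : Fld K}

variable (G : GD K dd)

/-- The parameters of the plane. -/
def U (s τ z : L) : Bool → L := fun a => bif a then s * τ else G.e * s * z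

/-- The point of the family. -/
def Q (γ : M →ₐ[K] L) (s τ : L) (y : (xz dd).X M) (w : d.X M) :
    (((xz dd).prod d).prod (.vec (Option (Vr dd)))).X L :=
  (((xz dd).map γ y, d.map γ w), pln (U G s τ (γ y.2)) ((xz dd).map γ y))

lemma Q_scl (γ : M →ₐ[K] L) (s τ : L) (y : (xz dd).X M) (w : d.X M) (a : M) :
    Q G γ s τ (G.Γ.scl a y) w = ((G.Γ1 d).prod (.vec G.ωK)).scl (γ a) (Q G γ s τ y w) := by
  refine Prod.ext (Prod.ext (G.Γ.map_scl γ.toRingHom a y) rfl) (funext fun μ => ?_)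
  cases μ with
  | none =>
    show G.e * s * γ (a ^ G.e * y.2) = γ a ^ (G.e : ℤ) * (G.e * s * γ y.2)
    rw [zpow_natCast, map_mul, map_pow]; ring
  | some i =>
    show s * τ * γ (a * y.1 i) = γ a ^ (1 : ℤ) * (s * τ * γ (y.1 i))
    rw [zpow_one, map_mul]; ring

lemma Q_map (γ : M →ₐ[K] L) (ρ : L →ₐ[K] L') (s τ : L) (y : (xz dd).X M) (w : d.X M) :
    Cd.map _ ρ (Q G γ s τ y w) = Q G (ρ.comp γ) (ρ s) (ρ τ) y w := by
  refine Prod.ext (Prod.ext rfl (d.map_map γ ρ w)) (funext fun μ => ?_)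
  cases μ with
  | none =>
    show ρ (G.e * s * γ y.2) = G.e * ρ s * ρ (γ y.2)
    rw [map_mul, map_mul, map_natCast]
  | some i =>
    show ρ (s * τ * γ (y.1 i)) = ρ s * ρ τ * ρ (γ (y.1 i))
    rw [map_mul, map_mul]

variable [X0 dd]

lemma e_ne (L : Fld K) : (G.e : L) ≠ 0 := by
  rw [← map_natCast (algebraMap K L)]
  exact (map_ne_zero _).2 (X0.num G).2.2.2.2.1

variable {G} {W : ASp K d} {t J : ℕ} (θ : Pre J (G.kb W t).tot.sp)

lemma r_scl (O : Pl L) (γ : M →ₐ[K] L) (s τ : L) (y : (xz dd).X M) (w : d.X M) {a : M}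
    (h : a ≠ 0) : θ.r O (Q G γ s τ (G.Γ.scl a y) w) = θ.r O (Q G γ s τ y w) := by
  rw [Pre.r, Q_scl, Wt.pt_scl _ ((map_ne_zero γ).2 h)]

variable [WB K]

section
variable {O : Pl N} {y : (xz dd).X N} {y' : (xz dd).X O.res} {w : d.X N} {T : Bool → N}
  (e : (xz dd).lift (Rel.ofPl O).r y y') (h0 : y'.1 ≠ 0)
include e h0

lemma val {w' : d.X O.res} (ew : d.lift (Rel.ofPl O).r w w') (hT : ∀ a, T a ∈ O.O) :
    θ.r O ((y, w), pln T y) = θ.q O.res ((y', w'), pln (fun a => O.rd (T a)) y') := by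
  refine WB.r_eq θ one_ne_zero ?_ ?_
  · rw [Wt.scl_one]
    refine ⟨⟨e, ew⟩, fun μ => ?_⟩
    cases μ with
    | none => exact ⟨hT false, rfl⟩
    | some i => exact (Rel.ofPl O).mul ⟨hT true, rfl⟩ (e.1 i)
  · obtain ⟨i, hi⟩ := Function.ne_iff.1 h0
    exact ⟨.inl (.inl (.inl i)), trivial, hi⟩

lemma live (h : θ.r O ((y, w), pln T y) ≠ 0) : d.all (· ∈ O.O) w ∧ ∀ a, T a ∈ O.O := by
  obtain ⟨l, x, -, h2, h3, h4, -⟩ := WB.r_ne θ h
  obtain ⟨i, hi⟩ := Function.ne_iff.1 h0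
  obtain ⟨u, u0, hu⟩ := G.Γ.unit_of_lift (inv_ne_zero h2) e h3.1.1 ⟨.inl i, trivial, hi⟩
    (G.CC.nz _ _ h4.1.1.1)
  have h7 := ((G.Γ1 d).prod (.vec G.ωK)).lift_scl ((Rel.ofPl O).inv hu u0) (inv_ne_zero u0) h3
  rw [Wt.scl_inv _ (inv_ne_zero h2)] at h7
  refine ⟨((Cd.lift_pl O).1 h7.1.2).1, fun a => ?_⟩
  cases a
  · exact (h7.2 none).1
  · have h8 : T true * y.1 i / y.1 i ∈ O.O := (Rel.div (h7.2 (some i)) (e.1 i) hi).1
    rwa [mul_div_cancel_right₀ _ (Rel.ne_zero (e.1 i) hi)] at h8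

end

section
variable {β : M →ₐ[K] N} {O : Pl M} {O' : Pl N} (h : Pl.Over β O O') {y : (xz dd).X M}
  {y' : (xz dd).X O.res} {w : d.X M} {s τ : N} (e : (xz dd).lift (Rel.ofPl O).r y y')
  (h0 : y'.1 ≠ 0)
include h e h0

omit [X0 dd] [WB K] e in
lemma ne1 : ((xz dd).map h.resHom y').1 ≠ 0 := fun e' =>
  h0 (funext fun i => (map_eq_zero h.resHom).1 (congrFun e' i))

lemma live' (hn : θ.r O' (Q G β s τ y w) ≠ 0) :
    d.lift (Rel.ofPl O).r w (d.map O.rd w) ∧ ∀ a, U G s τ (β y.2) a ∈ O'.O :=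
  have k := live θ (Cd.lift_over h e) (ne1 h h0) hn
  ⟨(Cd.lift_pl O).2 ⟨(Cd.all_over h).1 k.1, rfl⟩, k.2⟩

lemma lw (hn : θ.r O' (Q G β s τ y w) ≠ 0) {κ : Type} {T : κ → O'.res}
    (hT : ∀ a, O'.rd (U G s τ (β y.2) a) ∈ gen h.resHom T) :
    ¬ ∃ m, m < J ∧ (O'.res.sub (gen h.resHom T)).tr ≤ m := by
  rintro ⟨m, hm, ht⟩
  obtain ⟨k1, k2⟩ := live' θ h e h0 hn
  refine hn ((val θ (Cd.lift_over h e) (ne1 h h0) (Cd.lift_over h k1) k2).trans
    (WB.low θ ⟨_, ⟨⟨⟨fun i => gl _ _ _, gl _ _ _⟩, (d.all_iff _ _).2 fun i => ?_⟩, fun μ => ?_⟩,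
      ht⟩ hm))
  · rw [d.co_map]
    exact gl _ _ _
  · cases μ with
    | none => exact hT false
    | some i => exact mul_mem (hT true) (gl _ _ _)

end

variable [FW0 K] [YA K dd] {i : ℕ} {β : M →ₐ[K] N} {y : (xz dd).X M} {w : d.X M}

/-- The zero place. -/
lemma zpl (hJ : J = i + 2) (hy : G.Cn M y) {T : Bool → N} (hT : Free (i + 1) β T) (u : ℕ) {τ : N}
    (hτ : τ = T false + u) {β₁ : M →ₐ[K] L} {s : L} (hs : Free (i + 1) β₁ fun _ : Unit => s) :
    ∃ O : Dv N J, Pl.Triv β O.1 ∧ O.1.ord (T false) = 1 ∧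
      θ.r O.1 (Q G β (T true) τ y w) = θ.q L (Q G β₁ s u y w) ∧
      ∀ O' : Dv N J, O' ≠ O → T true ∈ O'.1.O → 0 < O'.1.ord (T false) →
        θ.r O'.1 (Q G β (T true) τ y w) = 0 := by
  obtain ⟨O, h, o1, o2, o3, o4, o5⟩ := FA2.zero (i := J) hT (by simp [hJ]) false
  have rτ : ∀ O' : Pl N, T false ∈ O'.O → O'.rd (T false) = 0 → (Rel.ofPl O').r τ u :=
    fun O' a b => by
      have := (Rel.ofPl O').add (a := T false) ⟨a, b⟩ ((Rel.ofPl O').natCast u)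
      rwa [zero_add, ← hτ] at this
  have rU : ∀ O' : Pl N, (∀ a, T a ∈ O'.O) → O'.rd (T false) = 0 → ∀ z ∈ O'.O, ∀ a,
      (Rel.ofPl O').r (U G (T true) τ z a) (U G (O'.rd (T true)) u (O'.rd z) a) := by
    intro O' a b z hz c
    cases c
    · exact (Rel.ofPl O').mul ((Rel.ofPl O').mul ((Rel.ofPl O').natCast _) ⟨a true, rfl⟩) ⟨hz, rfl⟩
    · exact (Rel.ofPl O').mul ⟨a true, rfl⟩ (rτ O' (a false) b)
  refine ⟨O, h, o2, ?_, fun O' hO' m1 m2 => not_not.1 fun hn => ?_⟩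
  · have k := rU O.1 o1 o3 _ (h y.2)
    have hs' : Free (i + 1) β₁ fun _ : {a : Bool // a ≠ false} => s :=
      FA1.of_gen hs (by simp) fun _ => gr _ (fun _ : {a : Bool // a ≠ false} => s) ⟨true, nofun⟩
    obtain ⟨ρ, r1, r2, r3⟩ := FA1.lift o4 hs' (AlgHom.id K M)
    have c : i + 1 + Nat.card {a : Bool // a ≠ false} = J := by simp [hJ]
    have e2 := θ.ext ρ (Wt.pt _ (Q G h.hom (O.1.rd (T true)) u y w)) (c ▸ o4.gM) (c ▸ hs'.gM)
    rw [Wt.map_pt, Q_map, r1, r2 ⟨true, nofun⟩, map_natCast, r3 rfl,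
      deg_of_surj Function.surjective_id, Nat.cast_one, one_mul] at e2
    refine (val θ (Cd.lift_triv h y) (fun e' => hy.1 (funext fun l =>
      (map_eq_zero h.hom).1 (congrFun e' l))) (Cd.lift_triv h w) fun a => (k a).1).trans ?_
    rw [funext fun a => (k a).2, ← h.hom_apply]
    exact e2.symm
  · obtain ⟨l, y', l0, c1, c2⟩ := YA.cmp (Pl.comap β O'.1) hy
    obtain ⟨m3, m4⟩ := (Pl.ord_pos_iff O'.2.1 (ne0 hT false)).1 m2
    have m5 : ∀ a, T a ∈ O'.1.O := fun a => by cases a; exacts [m3, m1]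
    rw [← r_scl θ _ _ _ _ _ _ (inv_ne_zero l0)] at hn
    refine lw θ (Pl.over_comap β O'.1) c2 c1.1 hn (fun a => ?_) (o5 O' hO' m5 m4)
    rw [(rU O'.1 m5 m4 (β _) c2.2.1 a).2, ← (Pl.over_comap β O'.1).resHom_rd]
    have m6 := gr (Pl.over_comap β O'.1).resHom (fun a => O'.1.rd (T a)) true
    cases a
    · exact mul_mem (mul_mem (natCast_mem _ _) m6) (gl _ _ _)
    · exact mul_mem m6 (natCast_mem _ _)

open Classical in
/-- The Gauss places. -/
lemma main (hJ : J = i + 2) {ϖ : ∀ N : Fld K, ((G.Γ1 d).amb K).pt N → ℂ} (hϖ : G.IsPl i θ.q W ϖ)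
    (hy : G.Cn M y) (hz : y.2 ≠ 0) {T : Bool → N} (hT : Free (i + 1) β T) (O : Dv M i) :
    ∃ O' : Dv N J, Pl.Over β O.1 O'.1 ∧ G.ramT ϖ y w O.1 = (if 0 < O'.1.ord (T false) then
      (O'.1.ord (T false) : ℂ) * θ.r O'.1 (Q G β (T true) (T false) y w) else 0) ∧
      ∀ O'' : Dv N J, Pl.Over β O.1 O''.1 → θ.r O''.1 (Q G β (T true) (T false) y w) ≠ 0 →
        O'' = O' := by
  obtain ⟨l, y', l0, c1, c2⟩ := YA.cmp O.1 hy
  have a0 := inv_ne_zero l0
  generalize (y.1 l)⁻¹ = a at c2 a0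
  have z0 : (G.Γ.scl a y).2 ≠ 0 := mul_ne_zero (pow_ne_zero _ a0) hz
  have z1 := (map_ne_zero β).2 z0
  have s0 := ne0 hT true
  have e0 := e_ne G N
  have hU : Free (i + 1) β (U G (T true) (T false) (β (G.Γ.scl a y).2)) := by
    have k : T true ∈ gen β (U G (T true) (T false) (β (G.Γ.scl a y).2)) := by
      have := div_mem (div_mem (gr β (U G (T true) (T false) (β (G.Γ.scl a y).2)) false)
        (gl β _ (G.Γ.scl a y).2)) (natCast_mem _ G.e)
      rwa [U, cond_false, mul_div_cancel_right₀ _ z1, mul_div_cancel_left₀ _ e0] at this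
    refine FA1.of_gen hT rfl fun b => ?_
    cases b
    · have := div_mem (gr β (U G (T true) (T false) (β (G.Γ.scl a y).2)) true) k
      rwa [U, cond_true, mul_div_cancel_left₀ _ s0] at this
    · exact k
  obtain rfl : J = i + Nat.card Bool := by simp [hJ]
  obtain ⟨O', h, o1, o2, o3, o4⟩ := FA2.gauss hU O
  simp only [← r_scl θ _ β _ _ y w a0]
  refine ⟨O', h, ?_, fun O'' h' hn => not_not.1 fun ne => lw θ h' c2 c1.1 hn
    (gr _ fun b => O''.1.rd (U G _ _ _ b)) (o4 O'' h' ne (live' θ h' c2 c1.1 hn).2)⟩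
  have u : ∀ b, O'.1.ord (U G (T true) (T false) (β (G.Γ.scl a y).2) b) = 0 := fun b =>
    Pl.ord_eq_zero_of_mem' O'.2.1 (o1 b) ((O'.1.rd_ne_zero_iff (o1 b)).1 (ne0 o3 b)).2
  have u1 := u true
  have u2 := u false
  have u3 : O'.1.ord (G.e : N) = 0 := Pl.ord_eq_zero_of_mem' O'.2.1 (natCast_mem _ _)
    ((Rel.ofPl O'.1).inv ((Rel.ofPl O'.1).natCast _) (e_ne G _)).1
  rw [U, cond_true, Pl.ord_mul O'.2.1 s0 (ne0 hT false)] at u1
  rw [U, cond_false, Pl.ord_mul O'.2.1 (mul_ne_zero e0 s0) z1, Pl.ord_mul O'.2.1 e0 s0, o2] at u2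
  have u4 : O'.1.ord (T false) = O.1.ord (G.Γ.scl a y).2 := by omega
  have u5 : (G.Γ1 d).ow O.1 G.e y.2 (y, w) = O.1.ord (G.Γ.scl a y).2 := by
    obtain ⟨k, hk⟩ := Function.ne_iff.1 c1.1
    rw [WB.ow_eq (G.Γ1 d) G.e O.2.1 a0 hz ?_ ⟨.inl (.inl k), trivial, (c2.1 k).2 ▸ hk⟩,
      zpow_natCast]
    rintro ((k | k) | k) hk
    exacts [(c2.1 k).1, hk.elim, hk.elim]
  rw [GD.ramT, u4, u5]
  split_ifs with p
  swap
  · rw [le_antisymm (not_lt.1 p) ((Pl.ord_nonneg_iff O.2.1).2 c2.2.1), Int.cast_zero, zero_mul]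
  congr 1
  have y0 : y'.2 = 0 := c2.2.2.symm.trans ((Pl.ord_pos_iff O.2.1 z0).1 p).2
  by_cases H : ∃ w', d.lift (Rel.ofPl O.1).r w w' ∧ W.mem _ w'
  · obtain ⟨w', w1, w2⟩ := H
    rw [(G.Γ1 d).red_pt (x' := (y', w')) a0 ⟨c2, w1⟩ ((G.B1 W).nz _ _ ⟨c1, w2⟩),
      hϖ.1 _ _ _ _ _ _ o3 c1 y0 w2]
    exact (val θ (Cd.lift_over h c2) (ne1 h c1.1) (Cd.lift_over h w1) o1).symm
  · refine Eq.trans (b := 0) (not_not.1 fun hn => H ?_) (Eq.symm (not_not.1 fun hn => H ?_))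
    · obtain ⟨-, y₂, w₂, k1, -, k2, k3⟩ := hϖ.2 _ _ hn
      have nz := (G.B1 W).nz _ (y₂, w₂) ⟨k1, k2⟩
      obtain ⟨l', x', -, -, k4, -, k5⟩ := (G.Γ1 d).qred_nz k3 nz
      exact ⟨x'.2, k4.2, ((G.B1 W).mem_of_pt (x := (y₂, w₂)) ⟨k1, k2⟩ k5.symm).2⟩
    · have k := (live' θ h c2 c1.1 hn).1
      rw [Q, val θ (Cd.lift_over h c2) (ne1 h c1.1) (Cd.lift_over h k) o1] at hn
      exact ⟨_, k, (W.map_iff h.resHom _).1 (WB.mem θ hn).2.1.1.2⟩

end ZGc

open ZGc in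
theorem ZG_thm {K : Type} [Field K] {dd : ℕ} [X0 dd] [FW0 K] [WB K] [HT K] [YA K dd] :
    ZG K dd where
  deg {G d W j i φ θ₀ θ₁} h₀ h₁ hi ϖ hϖ M M₁ y w hy hz hw β₁ s hs := by
    classical
    obtain ⟨φ₀, a₀, b₀⟩ := h₀
    obtain ⟨φ₁, a₁, b₁⟩ := h₁
    have hJ : j + (2 * dd + 1) = i + 2 := by omega
    obtain ⟨N, β, T, hT⟩ : ∃ (N : Fld K) (β : M →ₐ[K] N) (T : Bool → N), Free (i + 1) β T :=
      ⟨_, _, _, FA1.fr_free Bool hs.gL⟩
    have hy' : G.Cn N ((xz dd).map β y) := (G.CC.S.map_iff β y).2 hy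
    have t1 : T false - 1 ≠ 0 := sub_ne_zero.2 fun e =>
      (FA1.trans hT false).ne 1 (e.trans (map_one _).symm)
    obtain ⟨v, H₀, H₁⟩ := HT.ht (G.kb W 0) (G.kb W 1) (r := 2 * dd + 1) (by simp)
      (fun L x => G.row x.2 x.1.1)
      (fun μ => ⟨fun _ _ R _ _ _ _ e => G.row_rel R e.2 e.1.1 μ,
        fun _ a x h0 _ => G.row_scl _ a h0 x.1.1 μ⟩)
      (fun L b _ => ⟨congrArg (G.row · b.1) Nat.cast_zero.symm,
        congrArg (G.row · b.1) Nat.cast_one.symm⟩) φ₀ θ₀ θ₁ b₀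
      (fun L M α b p g => by
        have m := (G.CC.S.map_iff α b.1).1 g.mem.1.1.1
        exact (b₁ L M α b p g).trans ((a₁ L _ _ m).trans (a₀ L _ _ m).symm))
      N (Q G β (T true) (T false) y w).1 (T false) (Q G β (T true) (T false) y w).2
      (by simpa [hJ] using hT.gM) ⟨hy', (W.map_iff β w).2 hw⟩ (ne0 hT false) (sub_ne_zero.1 t1)
      ((X0.sm G N _ hy'.1).elim fun l hl e => hl (neg_eq_zero.1 (congrFun e (some l)))) (by
        have e1 := X0.eul G N ((xz dd).map β y).1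
        have e2 : β y.2 ^ (G.m - 1) * β y.2 = _ :=
          (pow_sub_one_mul G.pm.ne_zero _).trans hy'.2
        rw [Fintype.sum_option]
        show G.m * T false * β y.2 ^ (G.m - 1) * (G.e * T true * β y.2) +
          ∑ l, -aeval ((xz dd).map β y).1 (pderiv l G.F) *
            (T true * T false * ((xz dd).map β y).1 l) = 0
        simp only [neg_mul, Finset.sum_neg_distrib, mul_left_comm _ (T true * T false),
          ← Finset.mul_sum, e1, ← e2]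
        ring)
    have hT' : Free (i + 1) β fun a => bif a then T true else T false - 1 := by
      refine FA1.of_gen hT rfl fun b => ?_
      cases b
      · simpa using add_mem (gr β (fun a => bif a then T true else T false - 1) false) (one_mem _)
      · exact gr β (fun a => bif a then T true else T false - 1) true
    obtain ⟨O₁, -, p1, p2, p3⟩ := zpl θ₁.toPre (w := w) hJ hy hT' 1 (τ := T false) (by simp) hs
    simp only [cond_true, cond_false] at p1 p2 p3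
    have ez := mul_ne_zero (e_ne G M₁) ((map_ne_zero β₁).2 hz)
    have hs' : Free (i + 1) β₁ fun _ : Unit => s / (G.e * β₁ y.2) := by
      refine FA1.of_gen hs rfl fun b => ?_
      have := mul_mem (gr β₁ (fun _ : Unit => s / (G.e * β₁ y.2)) ())
        (mul_mem (natCast_mem _ G.e) (gl β₁ _ y.2))
      rwa [div_mul_cancel₀ _ ez] at this
    obtain ⟨O₀, q0, q1, q2, q3⟩ := zpl θ₀.toPre (w := w) hJ hy hT 0 (τ := T false) (by simp) hs'
    have v1 : v = θ₁.q M₁ (((xz dd).map β₁ y, d.map β₁ w), s • G.eul ((xz dd).map β₁ y)) := by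
      rw [← H₁.2, finsum_eq_single _ O₁, p1, if_pos one_pos, Int.cast_one, one_mul, p2]
      · refine congrArg (fun x => θ₁.q M₁ (_, x)) (funext fun μ => ?_)
        cases μ with
        | none => exact mul_assoc _ _ _ |>.trans (mul_left_comm _ _ _)
        | some l =>
          show s * (1 : ℕ) * _ = s * _
          rw [Nat.cast_one, mul_one]
          rfl
      · intro O' hO'
        split_ifs with p
        swap
        · rfl
        refine mul_eq_zero_of_right _ (not_not.1 fun hn => hn (p3 O' hO' ?_ p))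
        obtain ⟨l, y', l0, c1, c2⟩ := YA.cmp (Pl.comap β O'.1) hy
        rw [← r_scl θ₁.toPre _ _ _ _ _ _ (inv_ne_zero l0)] at hn
        have k1 : T true * T false ∈ O'.1.O :=
          (live' θ₁.toPre (Pl.over_comap β O'.1) c2 c1.1 hn).2 true
        have k2 := (Rel.ofPl O'.1).add (a := T false - 1) ((Pl.ord_pos_iff O'.2.1 t1).1 p)
          (Rel.ofPl O'.1).one
        rw [sub_add_cancel, zero_add] at k2
        have := mul_mem k1 ((Rel.ofPl O'.1).inv k2 one_ne_zero).1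
        rwa [mul_inv_cancel_right₀ (ne0 hT false)] at this
    have H := erase H₀ O₀
    rw [q1, if_pos one_pos, Int.cast_one, one_mul, q2, v1] at H
    have e3 : Q G β₁ (s / (G.e * β₁ y.2)) (0 : ℕ) y w =
        (((xz dd).map β₁ y, d.map β₁ w), zl s) := by
      refine Prod.ext rfl (funext fun μ => ?_)
      cases μ with
      | none =>
        show G.e * (s / (G.e * β₁ y.2)) * β₁ y.2 = s
        rw [mul_right_comm, mul_div_cancel₀ _ ez]
      | some l =>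
        show _ * ((0 : ℕ) : M₁) * _ = 0
        rw [Nat.cast_zero, mul_zero, zero_mul]
    rw [e3] at H
    choose f f1 f2 f3 using main θ₀.toPre (w := w) hJ hϖ hy hz hT
    have f4 : ∀ O, f O ≠ O₀ := fun O e => O.2.1.ne_top (ValuationSubring.ext _ _ fun x =>
      iff_of_true ((f1 O x).2 (e ▸ q0 x)) (ValuationSubring.mem_top x))
    refine transfer (fun O O' => O' = f O) (fun O _ => ⟨_, rfl⟩) (fun O' hn => ?_) ?_ ?_ ?_ H
    · have n1 : O' ≠ O₀ := fun e => hn (if_pos e)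
      rw [if_neg n1] at hn
      have n2 : 0 < O'.1.ord (T false) := not_not.1 fun e => hn (if_neg e)
      rw [if_pos n2] at hn
      have n3 := right_ne_zero_of_mul hn
      obtain ⟨l, y', l0, c1, c2⟩ := YA.cmp (Pl.comap β O'.1) hy
      have n4 := n3
      rw [← r_scl θ₀.toPre _ _ _ _ _ _ (inv_ne_zero l0)] at n4
      have n5 : ¬ Pl.Triv β O'.1 := fun tr => n3 (q3 O' n1 (by
        have k1 : G.e * T true * β _ ∈ O'.1.O :=
          (live' θ₀.toPre (Pl.over_comap β O'.1) c2 c1.1 n4).2 false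
        have z0 : (G.Γ.scl (y.1 l)⁻¹ y).2 ≠ 0 := mul_ne_zero (pow_ne_zero _ (inv_ne_zero l0)) hz
        have := mul_mem (tr (G.e : M)⁻¹) (mul_mem k1 (tr (G.Γ.scl (y.1 l)⁻¹ y).2⁻¹))
        rwa [map_inv₀, map_inv₀, map_natCast, mul_inv_cancel_right₀ ((map_ne_zero β).2 z0),
          inv_mul_cancel_left₀ (e_ne G N)] at this) n2)
      have n6 := (FA2.comap_dv (k := 2) (κ := Bool) hs.gL O'.2.1 n5 _ (by simp)).resolve_right
        fun ⟨m, m1, m2⟩ => lw θ₀.toPre (Pl.over_comap β O'.1) c2 c1.1 n4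
          (gr _ fun b => O'.1.rd (U G _ _ _ b)) ⟨m, m1.trans_eq hJ.symm, m2⟩
      exact ⟨⟨_, n6⟩, f3 ⟨_, n6⟩ O' (Pl.over_comap β O'.1) n3⟩
    · rintro O _ rfl
      rw [if_neg (f4 O)]
      exact f2 O
    · rintro O _ _ rfl rfl
      rfl
    · rintro O O' _ rfl e
      exact Subtype.ext ((f1 O).eq_comap.trans (e ▸ (f1 O').eq_comap.symm))

end Pool.Agent.Lib.MP_557161_ag.HG.HN.HC
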