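import Pool.Agent.Lib.MP_557161_ag.HC.StV
import Pool.Agent.Lib.MP_557161_ag.HG.FA1

/-!
The contraction with the diagonal: assembly of its laws.
-/

namespace Pool.Agent.Lib.MP_557161_ag.HG.HN.HC

open Pool.Agent.Lib.MP_557161_ag.DL Finset

variable {K : Type} [Field K] {p dd : ℕ} {G : GD K dd} {Q : ℕ}

namespace ZOc

section Sums

variable {m : ℕ} {ζ : K} {a : ℂ}

theorem sh1 (hζ : ζ ^ m = 1) (ha : a ^ m = 1) (g : K → ℂ) :
    a * ∑ s ∈ range m, a ^ s * g (ζ ^ s * ζ) = ∑ s ∈ range m, a ^ s * g (ζ ^ s) := by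
  have h1 := sum_range_succ (fun s => a ^ s * g (ζ ^ s)) m
  rw [sum_range_succ', hζ, ha, pow_zero, pow_zero] at h1
  rw [← add_right_cancel h1, mul_sum]
  exact sum_congr rfl fun s _ => by rw [pow_succ, pow_succ]; ring

theorem shk (hζ : ζ ^ m = 1) (ha : a ^ m = 1) (k : ℕ) : ∀ g : K → ℂ,
    a ^ k * ∑ s ∈ range m, a ^ s * g (ζ ^ s * ζ ^ k) = ∑ s ∈ range m, a ^ s * g (ζ ^ s) := by
  induction k with
  | zero => simp
  | succ k ih =>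
    intro g
    rw [← ih g, ← sh1 hζ ha fun x => g (x * ζ ^ k), pow_succ, mul_assoc]
    simp only [pow_succ', mul_assoc]

theorem shi (hm : m ≠ 0) (hζ : ζ ^ m = 1) (ha : a ^ m = 1) (k : ℕ) (g : K → ℂ) :
    ∑ s ∈ range m, a ^ s * a⁻¹ ^ k * g (ζ ^ s * (ζ ^ k)⁻¹) = ∑ s ∈ range m, a ^ s * g (ζ ^ s) := by
  have h0 : ζ ^ k ≠ 0 := pow_ne_zero _ fun h => by simp [h, hm] at hζ
  have h1 : a ^ k ≠ 0 := pow_ne_zero _ fun h => by simp [h, hm] at ha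
  have h2 := shk hζ ha k fun x => g (x * (ζ ^ k)⁻¹)
  simp only [mul_inv_cancel_right₀ h0] at h2
  refine mul_left_cancel₀ h1 (Eq.trans ?_ h2.symm)
  rw [mul_sum]
  exact sum_congr rfl fun s _ => by rw [inv_pow]; field_simp

theorem dbl (hm : m ≠ 0) (hζ : ζ ^ m = 1) (ha : a ^ m = 1) (g : K → ℂ) :
    (1 / (m : ℂ) ^ 2) * ∑ k ∈ range m, ∑ s ∈ range m, a ^ s * a⁻¹ ^ k * g (ζ ^ s * (ζ ^ k)⁻¹) =
      (∑ s ∈ range m, a ^ s * g (ζ ^ s)) / m := by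
  have : (m : ℂ) ≠ 0 := Nat.cast_ne_zero.2 hm
  simp only [shi hm hζ ha, sum_const, card_range, nsmul_eq_mul]
  field_simp

theorem dif (hm : m ≠ 0) (hζ : IsPrimitiveRoot ζ m) (ha : a ^ m = 1) (h1 : a ≠ 1) (g : K → ℂ)
    (v : ℂ) (h : ∀ ξ, ξ ^ m = 1 → ξ ≠ 1 → g 1 - g ξ = v) :
    ∑ s ∈ range m, a ^ s * g (ζ ^ s) = v := by
  have h2 : ∑ s ∈ range m, a ^ s = 0 := by rw [geom_sum_eq h1, ha, sub_self, zero_div]
  have h3 : ∑ s ∈ range m, a ^ s * g (ζ ^ s) =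
      ∑ s ∈ range m, (a ^ s * (g 1 - v) + if s = 0 then v else 0) := by
    refine sum_congr rfl fun s hs => ?_
    split_ifs with h0
    · simp [h0]
    · rw [← h (ζ ^ s) (by rw [pow_right_comm, hζ.pow_eq_one, one_pow])
        (hζ.pow_ne_one_of_pos_of_lt h0 (mem_range.1 hs))]
      ring
  rw [h3, sum_add_distrib, ← sum_mul, h2, sum_ite_eq', if_pos (mem_range.2 (Nat.pos_of_ne_zero hm))]
  ring

end Sums

theorem pw {ζ : K} {m : ℕ} (h : ζ ^ m = 1) (s : ℕ) : (ζ ^ s) ^ m = 1 := by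
  rw [pow_right_comm, h, one_pow]

theorem ne0 {ξ : K} (h : ξ ^ G.m = 1) : ξ ≠ 0 := fun h0 => by simp [h0, G.pm.ne_zero] at h

theorem iv {ξ : K} {m : ℕ} (h : ξ ^ m = 1) : ξ⁻¹ ^ m = 1 := by rw [inv_pow, h, inv_one]

theorem mem_mlt {ξ : K} (hξ : ξ ^ G.m = 1) {L : Fld K} {y : (xz dd).X L} (h : G.UU.mem L y) :
    G.UU.mem L (mlt ξ L y) :=
  ⟨h.1, h.2.1, Eq.trans (by
    show (algebraMap K L ξ * y.2) ^ G.m = y.2 ^ G.m
    rw [mul_pow, ← map_pow, hξ, map_one, one_mul]) h.2.2⟩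

theorem mlt_inv {ξ : K} (h : ξ ≠ 0) (L : Fld K) (y : (xz dd).X L) :
    mlt ξ⁻¹ L (mlt ξ L y) = y := by
  rw [mlt_mlt, inv_mul_cancel₀ h, mlt_one]

theorem mem_iff {ξ : K} (hξ : ξ ^ G.m = 1) {L : Fld K} {y : (xz dd).X L} :
    G.UU.mem L (mlt ξ L y) ↔ G.UU.mem L y :=
  ⟨fun h => mlt_inv (ne0 hξ) L y ▸ mem_mlt (iv hξ) h, mem_mlt hξ⟩

theorem map_mlt (ξ : K) {L M : Fld K} (α : L →ₐ[K] M) (y : (xz dd).X L) :
    (xz dd).map α (mlt ξ L y) = mlt ξ M ((xz dd).map α y) :=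
  Prod.ext rfl ((map_mul α _ _).trans (congrArg (· * α y.2) (α.commutes ξ)))

theorem frb_mlt {ξ : K} (hξ : ξ ^ G.m = 1) (h : Q ≡ 1 [MOD G.m]) (L : Fld K) (y : (xz dd).X L) :
    frb Q L (mlt ξ L y) = mlt ξ L (frb Q L y) := by
  refine Prod.ext rfl ?_
  show (algebraMap K L ξ * y.2) ^ Q = algebraMap K L ξ * y.2 ^ Q
  rw [mul_pow, ← map_pow, pow_eq_pow_of_modEq h hξ, pow_one]

theorem mem_frb [Fact p.Prime] [CharP K p] [XA K dd] (h : G.Fr p Q) {L : Fld K}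
    {y : (xz dd).X L} (m : G.UU.mem L y) : G.UU.mem L (frb Q L y) :=
  ⟨⟨trivial, fun i => pow_ne_zero _ (m.1.2 i)⟩, (congrArg (· ^ Q) m.2.1).trans (one_pow Q),
    (pow_right_comm _ _ _).trans ((congrArg (· ^ Q) m.2.2).trans (XA.frob G h L y.1).symm)⟩

variable {c d : Cd} {S : ASp K c} {W : ASp K d} {j : ℕ} {ζ : K} {γ : ℂ}

theorem mp_mlt {ξ : K} (hξ : ξ ^ G.m = 1) :
    Mp (G.UU.prod S) (G.UU.prod S) fun L x => (mlt ξ L x.1, x.2) :=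
  ⟨fun _ _ R _ _ _ _ e => ⟨mlt_rel ξ R e.1, e.2⟩, fun _ _ m => ⟨mem_mlt hξ m.1, m.2⟩⟩

theorem pro_mlt {ξ : K} (hξ : ξ ^ G.m = 1) {g : ∀ L : Fld K, ((xz dd).prod c).X L → d.X L}
    (h : Pro (G.UU.prod S) W g) : Pro (G.UU.prod S) W fun L x => g L (mlt ξ L x.1, x.2) :=
  fun M O x z hO hx hz e => by
  obtain ⟨x', h1, h2⟩ := h M O (mlt ξ M x.1, x.2) z hO ⟨mem_mlt hξ hx.1, hx.2⟩ hz e
  refine ⟨(mlt ξ⁻¹ _ x'.1, x'.2), ⟨mem_mlt (iv hξ) h1.1, h1.2⟩, ?_, h2.2⟩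
  have := mlt_rel ξ⁻¹ (Rel.ofPl O) h2.1
  rwa [mlt_inv (ne0 hξ)] at this

theorem off (Φ : AF j ((G.UU.prod G.UU).prod W)) {L : Fld K} {A B : (xz dd).X L} (w : d.X L)
    (h : ¬ (Good j L ∧ G.UU.mem L A ∧ G.UU.mem L B ∧ W.mem L w)) : Φ.a L ((A, B), w) = 0 := by
  by_contra c
  have h1 := ASp.sp_some _ |>.1 (Φ.supp L _ c).2
  exact h ⟨(Φ.supp L _ c).1, h1.1.1, h1.1.2, h1.2⟩

theorem z_ne [XA K dd] [XG K dd] {L M : Fld K} {α : L →ₐ[K] M} {y : (xz dd).X M}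
    (h : G.GenU j α y) : y.2 ≠ 0 := fun h0 => by
  obtain ⟨M₀, α₀, β, x, -, h1, h2, h3, -⟩ := XG.chart h 0
  refine XA.nsq' G x 0 h1 h3 0 (β.injective ?_)
  have h4 : (fun i => β (x i)) = y.1 := funext fun i => by rw [h2, h.mem.2.1, div_one]
  have h5 : β (MvPolynomial.aeval x G.F) = MvPolynomial.aeval y.1 G.F := by
    rw [← h4]
    exact (MvPolynomial.comp_aeval_apply _ _ _)
  show β _ = β _
  rw [h5, map_pow, map_zero, ← h0]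
  exact h.mem.2.2

variable [X0 dd]

/-- The relation. -/
def AC (G : GD K dd) (ζ : K) (γ : ℂ) : CRel G := fun _ _ j φ Φ =>
  ∃ Ψ, G.Con φ Ψ ∧ G.IsAff (j := j + 2 * dd) ζ γ (1 / (G.m : ℂ) ^ 2) Ψ Φ

omit [X0 dd] in
theorem eqv [FA1 K] (hζ : ζ ^ G.m = 1) (hγ : γ ^ G.m = 1) {a : ℂ} {Ψ : QF (j + 2) (G.JT W)}
    {Φ : AF j ((G.UU.prod G.UU).prod W)} (h : G.IsAff ζ γ a Ψ Φ) (L : Fld K) (A B : (xz dd).X L)
    (w : d.X L) : Φ.a L ((mlt ζ L A, B), w) = γ * Φ.a L ((A, B), w) ∧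
      Φ.a L ((A, mlt ζ L B), w) = γ⁻¹ * Φ.a L ((A, B), w) := by
  have h0 : γ ≠ 0 := fun h0 => by simp [h0, G.pm.ne_zero] at hγ
  by_cases m : Good j L ∧ G.UU.mem L A ∧ G.UU.mem L B ∧ W.mem L w
  · obtain ⟨m0, m1, m2, m3⟩ := m
    have f := FA1.fr_free Bool m0
    rw [h L _ _ _ _ _ w f (mem_mlt hζ m1) m2 m3, h L _ _ _ _ _ w f m1 (mem_mlt hζ m2) m3,
      h L _ _ _ _ _ w f m1 m2 m3]
    simp only [mlt_mlt, mul_assoc]
    constructor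
    · have h1 := sh1 hζ (iv hγ) fun x => ∑ s' ∈ range G.m, γ ^ s' *
        Ψ.q _ (G.jp (frα L Bool) (frT L Bool) (mlt x L A) (mlt (ζ ^ s') L B) w)
      simp only [← mul_sum] at h1 ⊢
      rw [← h1, mul_left_comm γ, mul_inv_cancel_left₀ h0]
    · have h1 := fun s => sh1 hζ hγ fun x =>
        Ψ.q _ (G.jp (frα L Bool) (frT L Bool) (mlt (ζ ^ s) L A) (mlt x L B) w)
      simp only [← mul_sum, ← h1]
      simp only [mul_left_comm _ γ, ← mul_sum]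
      rw [mul_inv_cancel_left₀ h0]
  · rw [off Φ w m, off Φ w (by rwa [mem_iff hζ]), off Φ w (by rwa [mem_iff hζ]), mul_zero,
      mul_zero]
    exact ⟨rfl, rfl⟩

theorem kills [FA1 K] [YN K dd] {φ : AF j W} {Φ} (h : AC G ζ γ φ Φ) (q : d.ι → Prop)
    (hq : KlP d q j φ.a) :
    KlP (((xz dd).prod (xz dd)).prod d) (Sum.elim (fun _ => True) q) (j + 2 * dd) Φ.a := by
  obtain ⟨Ψ, h1, h2⟩ := h
  rintro L L₁ L₂ ι₁ ι₂ ⟨⟨A, B⟩, w⟩ k1 k2 k3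
  by_cases m : Good (j + 2 * dd) L ∧ G.UU.mem L A ∧ G.UU.mem L B ∧ W.mem L w
  swap
  · exact off Φ _ m
  obtain ⟨m0, m1, m2, m3⟩ := m
  obtain ⟨N, α, T, f⟩ : ∃ (N : Fld K) (α : L →ₐ[K] N) (T : Bool → N), Free (j + 2 * dd) α T :=
    ⟨_, _, _, FA1.fr_free Bool m0⟩
  have b : ∀ x : L, x ∈ Set.range ι₁ → α x ∈ gen (α.comp ι₁) T := by
    rintro _ ⟨x, rfl⟩
    exact Fa1.left_mem (α.comp ι₁) T x
  have b' : ∀ (ε : K) (y : (xz dd).X L), (∀ i, (xz dd).co y i ∈ Set.range ι₁) →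
      ∀ i, (xz dd).co ((xz dd).map α (mlt ε L y)) i ∈ gen (α.comp ι₁) T := fun ε y hy i => by
    rw [map_mlt]
    cases i with
    | inl i => exact b _ (hy (Sum.inl i))
    | inr i => exact mul_mem (IntermediateField.algebraMap_mem _ ε) (b _ (hy (Sum.inr i)))
  have e : ∀ ε ε', Ψ.q N (G.jp α T (mlt ε L A) (mlt ε' L B) w) = 0 := fun ε ε' => by
    refine YN.kills h1 q hq N (N.sub (gen (α.comp ι₁) T)) L₂ (gen (α.comp ι₁) T).val (α.comp ι₂) _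
      (fun i hi => ?_) (fun i hi => ?_) ?_
    · refine (fun (x : N) (hx : x ∈ gen (α.comp ι₁) T) => (⟨⟨x, hx⟩, rfl⟩ :
        x ∈ Set.range (gen (α.comp ι₁) T).val)) _ ?_
      rcases i with ((i | i) | i) | i
      · exact b' ε' B (fun i => k1 (Sum.inl (Sum.inr i)) trivial) i
      · exact d.co_map _ _ _ ▸ b _ (k1 (Sum.inr i) hi)
      · show (xz dd).co (G.Γ.scl (T true) ((xz dd).map α (mlt ε L A))) i ∈ _
        rw [G.Γ.co_scl]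
        exact mul_mem (zpow_mem (Fa1.right_mem _ T true) _)
          (b' ε A (fun i => k1 (Sum.inl (Sum.inl i)) trivial) i)
      · exact Fa1.right_mem _ T false
    · rcases i with ((i | i) | i) | i
      · exact absurd trivial hi
      · obtain ⟨x, hx⟩ := k2 (Sum.inr i) hi
        exact ⟨x, (congrArg α hx).trans (d.co_map _ _ _).symm⟩
      · exact absurd trivial hi
      · exact absurd trivial hi
    · refine (add_le_add_left (FA1.tr_gen (α.comp ι₁) T) _).trans ?_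
      rw [add_right_comm]
      refine (add_le_add_left k3 _).trans (le_of_eq ?_)
      rw [Nat.card_eq_fintype_card, Fintype.card_bool, ← Nat.cast_add]
      rfl
  rw [h2 L _ _ _ _ _ _ f m1 m2 m3]
  simp only [e, mul_zero, Finset.sum_const_zero]

theorem diag [FA1 K] [XA K dd] [XG K dd] [YA K dd] [YT K dd] [ZX K dd] [ZG K dd] [ZP K dd]
    {φ : AF j W} {Ψ} (h : G.Con φ Ψ) {L M N : Fld K} {α : L →ₐ[K] M} {y : (xz dd).X M}
    (hy : G.GenU j α y) (w : d.X L) (hw : W.mem L w) (β : M →ₐ[K] N) (T : Bool → N)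
    (f : Free (j + 2 * dd) β T) (ξ : K) (hξ : ξ ^ G.m = 1) (hξ1 : ξ ≠ 1) :
    Ψ.q N (G.jp β T y y (d.map α w)) - Ψ.q N (G.jp β T (mlt ξ M y) y (d.map α w)) =
      G.m * G.n * φ.a L w := by
  obtain ⟨θ₁, h1, h2⟩ := h
  obtain ⟨θ₀, h0⟩ := YT.ex G 0 φ
  obtain ⟨i, hi⟩ : ∃ i, i + 1 = j + 2 * dd := ⟨j + 2 * dd - 1, by have := G.pos; omega⟩
  obtain ⟨ϖ, h3⟩ := YT.pl (i := i) θ₁ (by omega)
  have h4 : G.IsPl i θ₀.q W ϖ := ⟨fun N N' α T y w k1 k2 k3 k4 => (h3.1 N N' α T y w k1 k2 k3 k4).trans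
    (YT.ram h0 h1 _ _ _ _ ((congrArg α k3).trans (map_zero α))).symm, h3.2⟩
  have m := (W.map_iff α w).2 hw
  have f1 : Free (j + 2 * dd) (frα M Unit) fun _ : Unit => frT M Unit () := FA1.fr_free Unit hy.gM
  have e1 := ZX.dg (i := j + 2 * dd) rfl h2 (YA.uu hy.mem) m β T f _ _ f1
  have e2 := ZX.gr (i := i) (by omega) h2 h3 (YA.uu hy.mem) (z_ne hy) m ξ hξ hξ1 β T (hi ▸ f)
  have e3 := ZG.deg h0 h1 hi h4 (YA.uu hy.mem) (z_ne hy) m _ _ (hi ▸ f1)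
  have e4 := ZP.val h0 hy w hw _ _ f1
  rw [e1, ← e2.2, e3.2, ← e4]
  ring

end ZOc

open ZOc in
theorem ZO_thm [Fact p.Prime] [CharP K p] [FA1 K] [X0 dd] [XA K dd] [XG K dd] [YA K dd] [YT K dd]
    [YD K dd] [YN K dd] [YU K dd] [YL K dd p] [YM K dd p] [YW K dd] [ZX K dd] [ZG K dd] [ZP K dd] :
    ZO K p dd where
  ex G ζ γ hz hγ hγ1 := by
    have hζ := hz.pow_eq_one
    have hm := G.pm.ne_zero
    have cn : ∀ (s s' : ℕ) (M : Fld K) (y : (xz dd).X M),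
        mlt (ζ ^ s) M y = mlt (ζ ^ s * (ζ ^ s')⁻¹) M (mlt (ζ ^ s') M y) := fun s s' M y => by
      rw [mlt_mlt, inv_mul_cancel_right₀ (ne0 (pw hζ s'))]
    have qt : ∀ s s' : ℕ, (ζ ^ s * (ζ ^ s')⁻¹) ^ G.m = 1 := fun s s' => by
      rw [mul_pow, pw hζ, iv (pw hζ s'), one_mul]
    refine ⟨AC G ζ γ, fun {d W j} φ => ?_, ?_, ?_, kills, ?_, ?_, ?_⟩
    · obtain ⟨θ, h1⟩ := YT.ex G 1 φ
      obtain ⟨Ψ, h2⟩ := YD.ex G θ
      obtain ⟨Φ, h3⟩ := YW.aff G hζ hγ hγ1 (j := j + 2 * dd) (1 / (G.m : ℂ) ^ 2) Ψ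
      exact ⟨Φ, Ψ, ⟨θ, h1, h2⟩, h3⟩
    · rintro d W j φ Φ ⟨Ψ, -, h⟩ L A B w
      exact eqv hζ hγ h L A B w
    · rintro d d' W W' j φ φ' Φ Φ' ⟨Ψ, h1, h2⟩ ⟨Ψ', h3, h4⟩ g hg hp χ hχ L A B w hw
      by_cases m : Good (j + 2 * dd) L ∧ G.UU.mem L A ∧ G.UU.mem L B
      · have f := FA1.fr_free Bool m.1
        rw [h2 L _ _ _ _ _ _ f m.2.1 m.2.2 (hg.mem L w hw), h4 L _ _ _ _ _ _ f m.2.1 m.2.2 hw]
        simp only [GD.jp, YN.nat h1 h3 hg hp χ hχ _ _ _ _ _ ((W'.map_iff (frα L Bool) w).2 hw),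
          hg.reg.nat (frα L Bool) hw, mul_left_comm _ χ, ← mul_sum]
      · rw [off Φ _ fun h => m ⟨h.1, h.2.1, h.2.2.1⟩, off Φ' _ fun h => m ⟨h.1, h.2.1, h.2.2.1⟩,
          mul_zero]
    · rintro c d S W j φ Φ ⟨Ψ, h1, h2⟩ g hg hp L M α y hy R u hR hu
      have f := FA1.fr_free Bool hy.gM
      have e : ∀ s s', Ψ.q _ (G.jp (frα M Bool) (frT M Bool) (mlt (ζ ^ s) M ((xz dd).map α R))
          (mlt (ζ ^ s') M y) (g M (y, c.map α u))) =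
          φ.a L (g L (mlt (ζ ^ s * (ζ ^ s')⁻¹) L R, u)) := fun s s' => by
        have := YU.unit h1 (hg.comp (mp_mlt (iv (pw hζ s')))) (pro_mlt (iv (pw hζ s')) hp)
          (XG.neg hy _ (pw hζ s')) (mlt (ζ ^ s) L R) u (mem_mlt (pw hζ s) hR) hu _ _ f
        simp only [mlt_inv (ne0 (pw hζ s'))] at this
        rw [← map_mlt, mul_comm (ζ ^ s), ← mlt_mlt]
        exact this
      rw [h2 M _ _ _ _ _ _ f ((G.UU.map_iff α R).2 hR) hy.mem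
        (hg.mem M _ ⟨hy.mem, (S.map_iff α u).2 hu⟩), sum_comm,
        ← dbl hm hζ (iv hγ) fun x => φ.a L (g L (mlt x L R, u))]
      simp only [e, inv_inv]
    · rintro d W j φ Φ ⟨Ψ, h1, h2⟩ Q hQ hF hQ1 L M α y hy w hw
      have f := FA1.fr_free Bool hy.gM
      have m := (W.map_iff α w).2 hw
      have e1 : ∀ s s', Ψ.q _ (G.jp (frα M Bool) (frT M Bool) (mlt (ζ ^ s) M (frb Q M y))
          (mlt (ζ ^ s') M y) (d.map α w)) = G.fx Q (ζ ^ s * (ζ ^ s')⁻¹) * φ.a L w :=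
        fun s s' => by
          rw [cn s s', ← frb_mlt (pw hζ s') hQ1]
          exact YL.loop h1 hQ hF (XG.neg hy _ (pw hζ s')) w hw _ (qt s s') _ _ f
      have e2 : ∀ s s', Ψ.q _ (G.jp (frα M Bool) (frT M Bool) (mlt (ζ ^ s) M y)
          (mlt (ζ ^ s') M (frb Q M y)) (d.map α w)) = G.fx Q (ζ ^ s' * (ζ ^ s)⁻¹) * φ.a L w :=
        fun s s' => by
          rw [cn s' s, ← frb_mlt (pw hζ s) hQ1]
          exact YM.loop h1 hQ hF (XG.neg hy _ (pw hζ s)) w hw _ (qt s' s) _ _ f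
      rw [h2 M _ _ _ _ _ _ f (mem_frb hF hy.mem) hy.mem m,
        h2 M _ _ _ _ _ _ f hy.mem (mem_frb hF hy.mem) m, GD.tr, GD.tr,
        ← dbl hm hζ (iv hγ) fun x => G.fx Q x, ← dbl hm hζ hγ fun x => G.fx Q x, sum_comm]
      simp only [e1, e2, inv_inv, mul_assoc, sum_mul, mul_left_comm (γ⁻¹ ^ _), and_self]
    · rintro d W j φ Φ ⟨Ψ, h1, h2⟩ L M α y hy w hw
      have f := FA1.fr_free Bool hy.gM
      have e : ∀ s', ∑ s ∈ range G.m, γ⁻¹ ^ s * γ ^ s' * Ψ.q _ (G.jp (frα M Bool) (frT M Bool)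
          (mlt (ζ ^ s) M y) (mlt (ζ ^ s') M y) (d.map α w)) = G.m * G.n * φ.a L w := fun s' => by
        have h3 := shi hm hζ (iv hγ) s' fun x => Ψ.q _ (G.jp (frα M Bool) (frT M Bool)
          (mlt x M (mlt (ζ ^ s') M y)) (mlt (ζ ^ s') M y) (d.map α w))
        simp only [← cn, inv_inv] at h3
        refine h3.trans (dif hm hz (iv hγ) (inv_ne_one.2 hγ1) (fun x => Ψ.q _ (G.jp (frα M Bool)
          (frT M Bool) (mlt x M (mlt (ζ ^ s') M y)) (mlt (ζ ^ s') M y) (d.map α w))) _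
          fun ξ k1 k2 => ?_)
        rw [mlt_one]
        exact diag h1 (XG.neg hy _ (pw hζ s')) w hw _ _ f ξ k1 k2
      have : (G.m : ℂ) ≠ 0 := Nat.cast_ne_zero.2 hm
      rw [h2 M _ _ _ _ _ _ f hy.mem hy.mem ((W.map_iff α w).2 hw), sum_comm]
      simp only [e, sum_const, card_range, nsmul_eq_mul]
      field_simp

end Pool.Agent.Lib.MP_557161_ag.HG.HN.HC
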