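import Pool.Agent.Lib.MP_557161_ag.HC.StY
import Pool.Agent.Lib.MP_557161_ag.HG.ZR

/-!
The relation between the graphs of the powers of Frobenius, for cyclic covers.
-/

namespace Pool.Agent.Lib.MP_557161_ag.HG.HN.HC

open Pool.Agent.Lib.MP_557161_ag.DL
open XRa (inv_bool inv_not inv_tp)

variable {K : Type} [Field K] {p dd : ℕ}

namespace ZRc

lemma cfg_cfg {T : Type} (q : ℕ) (e e' : T → ℕ) (L : Fld K) (P : T → (xz dd).X L) :
    cfg q e' L (cfg q e L P) = cfg q (e + e') L P := by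
  funext i
  simp only [cfg, frb, Pi.add_apply, pow_add, pow_mul]

section Roots

variable {q m : ℕ} {z : ℂ}

lemma pw_q (hq : m ∣ q + 1) (hz : z ^ m = 1) : z ^ q = z⁻¹ := by
  obtain ⟨k, hk⟩ := hq
  refine eq_inv_of_mul_eq_one_left ?_
  rw [← pow_succ, hk, pow_mul, hz, one_pow]

lemma pw_two (h : z ^ q = z⁻¹) (k : ℕ) : z ^ q ^ (2 * k) = z := by
  induction k with
  | zero => simp
  | succ k ih => rw [mul_add, pow_add, pow_mul, ih, mul_one, pow_two, pow_mul, h, inv_pow, h, inv_inv]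

lemma pw_even (h : z ^ q = z⁻¹) {k : ℕ} (hk : Even k) : z ^ q ^ k = z := by
  obtain ⟨k, rfl⟩ := hk
  rw [← two_mul, pw_two h]

lemma pw_odd (h : z ^ q = z⁻¹) {k : ℕ} (hk : Odd k) : z ^ q ^ k = z⁻¹ := by
  obtain ⟨k, rfl⟩ := hk
  rw [pow_succ, pow_mul, pw_two h, h]

lemma pw_or (h : z ^ q = z⁻¹) (k : ℕ) : z ^ q ^ k = z ∨ z ^ q ^ k = z⁻¹ :=
  (Nat.even_or_odd k).imp (pw_even h) (pw_odd h)

lemma pw_pw (h : z ^ q = z⁻¹) (k : ℕ) : (z ^ q ^ k) ^ q ^ k = z := by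
  rw [← pow_mul, ← pow_add, pw_even h ⟨k, rfl⟩]

lemma pw_inv (h : z ^ q = z⁻¹) : z⁻¹ ^ q = z⁻¹⁻¹ := by rw [inv_pow, h]

end Roots

/-- The matching of the eigenvalues survives a contraction. -/
lemma mt_step {T : Type} {q : ℕ} {γ : ℂ} (hγ : γ ≠ 0) {c : T → ℂ}
    {τ : Option (Option T) → Option (Option T)} {e : Option (Option T) → ℕ} (hτ : Inv τ)
    (h : Mt q (ext2 γ c) τ e) : Mt q c (rτ τ) (re τ e) := by
  intro j
  have two : ∀ (a b : ℂ) (g : ℂ) (x y u v : ℕ), g ≠ 0 → a ^ q ^ x * g ^ q ^ u = 1 →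
      b ^ q ^ y * g⁻¹ ^ q ^ v = 1 → a ^ q ^ (x + v) * b ^ q ^ (y + u) = 1 := by
    intro a b g x y u v hg h1 h2
    have h3 := congrArg (· ^ q ^ v) h1
    have h4 := congrArg (· ^ q ^ u) h2
    simp only [mul_pow, one_pow, ← pow_mul, ← pow_add] at h3 h4
    have h5 : g ^ q ^ (u + v) * g⁻¹ ^ q ^ (v + u) = 1 := by
      rw [add_comm v u, ← mul_pow, mul_inv_cancel₀ hg, one_pow]
    calc _ = a ^ q ^ (x + v) * b ^ q ^ (y + u) * (g ^ q ^ (u + v) * g⁻¹ ^ q ^ (v + u)) := by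
          rw [h5, mul_one]
      _ = (a ^ q ^ (x + v) * g ^ q ^ (u + v)) * (b ^ q ^ (y + u) * g⁻¹ ^ q ^ (v + u)) := by ring
      _ = 1 := by rw [h3, h4, one_mul]
  have h0 := h (some (some j))
  have i0 := (hτ (some (some j))).1
  rcases h1 : τ (some (some j)) with _ | _ | j'
  · rw [h1] at i0 h0
    have i1 := hτ (some none)
    rcases h2 : τ (some none) with _ | _ | j'
    · rw [h2, i0] at i1; exact absurd i1.1 (by simp)
    · exact absurd h2 i1.2
    · rw [h2] at i1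
      have h3 := h (some (some j'))
      rw [i1.1] at h3
      have e1 : rτ τ j = j' := by simp [rτ, h1, h2]
      have e2 : re τ e j = e (some (some j)) + e (some none) := by simp [re, h1]
      have e3 : re τ e j' = e (some (some j')) + e none := by simp [re, i1.1]
      rw [e1, e2, e3]
      exact two _ _ γ _ _ _ _ hγ h0 h3
  · rw [h1] at i0 h0
    have i1 := hτ none
    rcases h2 : τ none with _ | _ | j'
    · exact absurd h2 i1.2
    · rw [h2, i0] at i1; exact absurd i1.1 (by simp)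
    · rw [h2] at i1
      have h3 := h (some (some j'))
      rw [i1.1] at h3
      have e1 : rτ τ j = j' := by simp [rτ, h1, h2]
      have e2 : re τ e j = e (some (some j)) + e none := by simp [re, h1]
      have e3 : re τ e j' = e (some (some j')) + e (some none) := by simp [re, i1.1]
      rw [e1, e2, e3]
      exact two _ _ γ⁻¹ _ _ _ _ (inv_ne_zero hγ) h0 (by rw [inv_inv]; exact h3)
  · rw [h1] at i0 h0
    have e1 : rτ τ j = j' := by simp [rτ, h1]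
    have e2 : re τ e j = e (some (some j)) := by simp [re, h1]
    have e3 : re τ e j' = e (some (some j')) := by simp [re, i0]
    rw [e1, e2, e3]
    exact h0

/-- The eigenvalue attached to a side. -/
noncomputable def sv (η : ℂ) (b : Bool) : ℂ := bif b then η else η⁻¹

/-- The eigenvalues before the pull back. -/
noncomputable def cE (q : ℕ) (η : ℂ) (sd : ℕ → Bool) (r : ℕ) (e : Tw r → ℕ) (t : Tw r) : ℂ :=
  sv η (side sd r t) ^ q ^ e t

section CE

variable {q : ℕ} {η : ℂ}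

lemma sv_q (h : η ^ q = η⁻¹) (b : Bool) : sv η b ^ q = (sv η b)⁻¹ := by
  cases b
  exacts [pw_inv h, h]

lemma sv_or (h : η ^ q = η⁻¹) (b : Bool) (k : ℕ) :
    sv η b ^ q ^ k = η ∨ sv η b ^ q ^ k = η⁻¹ := by
  cases b
  · exact (pw_or (pw_inv h) k).symm.imp (fun h => h.trans (inv_inv η)) id
  · exact pw_or h k

lemma cE_zero (h : η ^ q = η⁻¹) (sd : ℕ → Bool) {e : Tw 0 → ℕ} (he : OddP 0 e) :
    cE q η sd 0 e = sv η := by
  funext b
  cases b
  exacts [pw_even (sv_q h _) he.2, pw_even (sv_q h _) he.1]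

lemma cE_succ (h : η ^ q = η⁻¹) (sd : ℕ → Bool) {r : ℕ} {e : Tw (r + 1) → ℕ}
    (he : OddP (r + 1) e) : cE q η sd (r + 1) e =
      ext2 (sv η (sd r) ^ q ^ e none) (cE q η sd r fun t => e (some (some t))) := by
  funext t
  rcases t with _ | _ | t
  · rfl
  · show sv η (sd r) ^ q ^ e (some none) = (sv η (sd r) ^ q ^ e none)⁻¹
    have h1 := sv_q h (sd r)
    rcases Nat.even_or_odd (e none) with h2 | h2
    · rw [pw_even h1 h2, pw_odd h1 ((Nat.odd_add'.1 he.1).2 h2)]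
    · rw [pw_odd h1 h2, pw_even h1 ((Nat.odd_add.1 he.1).1 h2), inv_inv]
  · rfl

lemma ev_mt (h : η ^ q = η⁻¹) (h0 : η ≠ 0) (sd : ℕ → Bool) (lam : ℕ → ℕ → ℂ) :
    ∀ (r : ℕ) (e : Tw r → ℕ), OddP r e → ∀ (τ : Tw r → Tw r) (e' : Tw r → ℕ), [XC] → Inv τ →
      Mt q (cE q η sd r e) τ e' →
      η ^ q ^ (ev lam r τ e').2.1 * η⁻¹ ^ q ^ (ev lam r τ e').2.2 = 1
  | 0, e, he, τ, e', _, hτ, hm => by
    obtain rfl : τ = not := inv_bool hτ
    rw [cE_zero h sd he] at hm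
    exact hm true
  | r + 1, e, he, τ, e', _, hτ, hm => by
    rw [cE_succ h sd he] at hm
    refine ev_mt h h0 sd lam r _ he.2 (rτ τ) (re τ e') (XC.inv hτ) (mt_step ?_ hτ hm)
    rcases sv_or h (sd r) (e none) with h1 | h1 <;> rw [h1]
    exacts [h0, inv_ne_zero h0]

lemma mt_tp (h : η ^ q = η⁻¹) (h0 : η ≠ 0) {sd : ℕ → Bool} {r n : ℕ} (E : Fin n ⊕ Fin n ≃ Tw r)
    (s1 : ∀ i, side sd r (E (Sum.inl i)) = true) (s2 : ∀ i, side sd r (E (Sum.inr i)) = false)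
    (e : Tw r → ℕ) (π : Equiv.Perm (Fin n)) : Mt q (cE q η sd r e) (tp E π) e := fun t => by
  rw [cE, cE, pw_pw (sv_q h _), pw_pw (sv_q h _)]
  obtain ⟨i | i, rfl⟩ := E.surjective t
  · simp [tp, s1, s2, sv, h0]
  · simp [tp, s1, s2, sv, h0]

lemma par {m : ℕ} (hm : Odd m) (h1 : η ^ m = 1) (h2 : η ≠ 1) (h : η ^ q = η⁻¹) {x y : ℕ}
    (hxy : η ^ q ^ x * η⁻¹ ^ q ^ y = 1) : Even (x + y) := by
  have h0 : η ≠ 0 := by
    rintro rfl
    rw [zero_pow hm.pos.ne'] at h1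
    exact zero_ne_one h1
  have h3 : η * η ≠ 1 := fun h3 => by
    obtain ⟨k, rfl⟩ := hm
    rw [pow_succ, pow_mul, pow_two, h3, one_pow, one_mul] at h1
    exact h2 h1
  rcases Nat.even_or_odd x with hx | hx <;> rcases Nat.even_or_odd y with hy | hy
  · exact hx.add hy
  · rw [pw_even h hx, pw_odd (pw_inv h) hy, inv_inv] at hxy
    exact absurd hxy h3
  · rw [pw_odd h hx, pw_even (pw_inv h) hy, ← mul_inv, inv_eq_one] at hxy
    exact absurd hxy h3
  · exact hx.add_odd hy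

end CE

variable {G : GD K dd} {q : ℕ} {ζ : K} {η : ℂ}

/-- The alternating sum on a product of two powers. -/
lemma alt [ALT K p dd] (hs : ∃ s, 0 < s ∧ G.m ∣ p ^ s + 1) (hζ : IsPrimitiveRoot ζ G.m)
    (hη : η ^ G.m = 1) (hη1 : η ≠ 1) {T : Type} [Finite T] [DecidableEq T]
    (E : Fin G.n ⊕ Fin G.n ≃ T)
    (sd : T → Bool) (s1 : ∀ i, sd (E (Sum.inl i)) = true) (s2 : ∀ i, sd (E (Sum.inr i)) = false)
    (ψ : AF (dd * Nat.card T) (G.UU.pi T)) {c : T → ℂ} (hc : ∀ i, c (E (Sum.inl i)) = η)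
    (h1 : EqP ζ c ψ.a) (h2 : KlS sd ψ.a) (L : Fld K)
    (x w : Fin G.n → (xz dd).X L) : ∑ σ : Equiv.Perm (Fin G.n), ((Equiv.Perm.sign σ : ℤ) : ℂ) *
      ψ.a L (fun t => Sum.elim (fun i => x (σ i)) w (E.symm t)) = 0 := by
  let g : ∀ L : Fld K, ((Cd.pi (Fin G.n) (xz dd)).prod (Cd.pi (Fin G.n) (xz dd))).X L → (Cd.pi T (xz dd)).X L :=
    fun _ z t => Sum.elim z.1 z.2 (E.symm t)
  let g' : ∀ L : Fld K, (Cd.pi T (xz dd)).X L → ((Cd.pi (Fin G.n) (xz dd)).prod (Cd.pi (Fin G.n) (xz dd))).X L :=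
    fun _ z => (fun i => z (E (Sum.inl i)), fun i => z (E (Sum.inr i)))
  have gl : ∀ L z i, g L z (E (Sum.inl i)) = z.1 i := fun L z i => by simp [g]
  have gr : ∀ L z i, g L z (E (Sum.inr i)) = z.2 i := fun L z i => by simp [g]
  have gg : ∀ L z, g' L (g L z) = z := fun L z => Prod.ext (funext (gl L z)) (funext (gr L z))
  have m1 : Mp ((G.UU.pi (Fin G.n)).prod (G.UU.pi (Fin G.n))) (G.UU.pi T) g :=
    ⟨fun _ _ R _ _ _ _ h t => by
      obtain ⟨i | i, rfl⟩ := E.surjective t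
      · rw [gl, gl]; exact h.1 i
      · rw [gr, gr]; exact h.2 i, fun L z m t => by
      obtain ⟨i | i, rfl⟩ := E.surjective t
      · rw [gl]; exact m.1 i
      · rw [gr]; exact m.2 i⟩
  have m2 : Mp (G.UU.pi T) ((G.UU.pi (Fin G.n)).prod (G.UU.pi (Fin G.n))) g' :=
    ⟨fun _ _ R _ _ _ _ h => ⟨fun _ => h _, fun _ => h _⟩, fun L z m => ⟨fun _ => m _, fun _ => m _⟩⟩
  let Ψ : AF (dd * Nat.card T) ((G.UU.pi (Fin G.n)).prod (G.UU.pi (Fin G.n))) :=
    Fe.pull m1.mor ((Pro.of_left m2 m1 fun L z _ => gg L z).mor m1) ψ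
  have hΨ : ∀ L z, Ψ.a L z = ψ.a L (g L z) := fun L z => by
    by_cases h : ((G.UU.pi (Fin G.n)).prod (G.UU.pi (Fin G.n))).mem L z
    · exact Fe.pull_of_mem _ _ _ ((ASp.sp_some _).2 h)
    · refine (if_neg fun h' => h ((ASp.sp_some _).1 h')).trans (by_contra fun h' => h ?_)
      exact gg L z ▸ m2.mem L _ ((ASp.sp_some _).1 (ψ.supp L _ (Ne.symm h')).2)
  have h := ALT.alt G hs hζ hη hη1 (Fin G.n) (Nat.card_fin _) _ _ Ψ
    (fun L x w m₁ m₂ d1 d2 hm => ?_) (fun i L x w => ?_) L x w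
  · simpa only [hΨ] using h
  · obtain ⟨F₁, a1, t1⟩ := d1
    obtain ⟨F₂, a2, t2⟩ := d2
    rw [hΨ]
    refine h2 L (L.sub F₁) (L.sub F₂) F₁.val F₂.val _ (fun s hs => ?_) (fun s hs => ?_)
      ((add_le_add t1 t2).trans (by exact_mod_cast hm))
    · obtain ⟨t, k⟩ := s
      obtain ⟨i | i, rfl⟩ := E.surjective t
      · exact ⟨⟨_, ((Cd.pi (Fin G.n) (xz dd)).all_iff _ x).1 a1 (i, k)⟩,
          congrArg ((xz dd).co · k) (gl L (x, w) i).symm⟩
      · exact absurd ((s2 i).symm.trans hs) (by simp)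
    · obtain ⟨t, k⟩ := s
      obtain ⟨i | i, rfl⟩ := E.surjective t
      · exact absurd (s1 i) hs
      · exact ⟨⟨_, ((Cd.pi (Fin G.n) (xz dd)).all_iff _ w).1 a2 (i, k)⟩,
          congrArg ((xz dd).co · k) (gr L (x, w) i).symm⟩
  · rw [hΨ, hΨ, ← hc i, ← h1 (E (Sum.inl i)) L, gl]
    congr 1
    funext t
    obtain ⟨k | k, rfl⟩ := E.surjective t
    · rw [gl]
      by_cases e : k = i
      · subst e; simp
      · rw [Function.update_of_ne (fun e' => e (by simpa using e')), gl]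
        exact Function.update_of_ne e _ _
    · rw [gr, Function.update_of_ne (by simp), gr]

lemma pp_eq [XF K p dd] (hF : G.Fq p q) (hζ : IsPrimitiveRoot ζ G.m) (hη : η ^ G.m = 1) {γ : ℂ}
    (h : γ = η ∨ γ = η⁻¹) : G.PP ζ γ q = G.PP ζ η q := by
  rcases h with rfl | rfl
  exacts [rfl, funext (XF.sym hF hζ hη)]

lemma or_pow (hη : η ^ G.m = 1) {γ : ℂ} (h : γ = η ∨ γ = η⁻¹) : γ ^ G.m = 1 := by
  rcases h with rfl | rfl
  exacts [hη, by rw [inv_pow, hη, inv_one]]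

lemma or_ne (hη : η ≠ 1) {γ : ℂ} (h : γ = η ∨ γ = η⁻¹) : γ ≠ 1 := by
  rcases h with rfl | rfl
  exacts [hη, inv_ne_one.2 hη]

lemma ne0 (hη : η ^ G.m = 1) : η ≠ 0 := by
  rintro rfl
  rw [zero_pow G.pm.pos.ne'] at hη
  exact zero_ne_one hη

/-- The iterated contraction. -/
lemma iter [XC] [XF K p dd] [ZS K p dd] (hq : 1 < q) (hF : G.Fq p q)
    (hζ : IsPrimitiveRoot ζ G.m) (hη : η ^ G.m = 1) (hη1 : η ≠ 1)
    (φ : AF (dd * Nat.card Bool) (G.UU.pi Bool)) (h1 : EqP ζ (sv η) φ.a) (h2 : KlS id φ.a)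
    (sd : ℕ → Bool) (r : ℕ) (e₀ : Tw r → ℕ) (he : OddP r e₀) :
    ∃ Φ : AF (dd * Nat.card (Tw r)) (G.UU.pi (Tw r)), EqP ζ (cE q η sd r e₀) Φ.a ∧
      KlS (side sd r) Φ.a ∧
      ∀ (τ : Tw r → Tw r) (e : Tw r → ℕ) (w : ℂ), Inv τ → Mt q (cE q η sd r e₀) τ e →
        DV G q φ.a not (fun b => bif b then (ev (lamP ((q : ℂ) ^ dd) (G.PP ζ η q)) r τ e).2.1
          else (ev (lamP ((q : ℂ) ^ dd) (G.PP ζ η q)) r τ e).2.2) w →
        DV G q Φ.a τ e ((ev (lamP ((q : ℂ) ^ dd) (G.PP ζ η q)) r τ e).1 * w / G.m ^ r) := by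
  have hz := pw_q hF.2 hη
  induction r with
  | zero =>
    refine ⟨φ, by rw [cE_zero hz sd he]; exact h1, h2, fun τ e w hτ _ h => ?_⟩
    obtain rfl : τ = not := inv_bool hτ
    have e1 : (fun b : Bool => bif b then e true else e false) = e :=
      funext fun b => by cases b <;> rfl
    have e2 : (ev (lamP ((q : ℂ) ^ dd) (G.PP ζ η q)) 0 not e).1 * w / G.m ^ 0 = w := by simp [ev]
    rw [e2]
    exact e1 ▸ h
  | succ r ih =>
    obtain ⟨Φ, a1, a2, a3⟩ := ih _ he.2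
    have o := sv_or hz (sd r) (e₀ none)
    obtain ⟨Ψ, b1, b2, b3⟩ := ZS.step hq hF hζ (or_pow hη o) (or_ne hη1 o) Φ _
      (fun i => or_pow hη (sv_or hz _ _)) a1
    rw [pp_eq hF hζ hη o] at b3
    rw [cE_succ hz sd he]
    refine ⟨Ψ, b1, b2 _ (sd r) a2, fun τ e w hτ hm h => ?_⟩
    have h3 := b3 τ e _ hτ hm (a3 _ _ w (XC.inv hτ) (mt_step (ne0 (or_pow hη o)) hτ hm) h)
    have e2 : ∀ a b : ℂ, a * b * w / G.m ^ (r + 1) = a * (b * w / G.m ^ r) / G.m := fun a b => by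
      ring
    exact (e2 _ _).symm ▸ h3

/-- The normalised value is unique. -/
lemma dv_uniq [XW K p dd] {a : ∀ L : Fld K, (Bool → (xz dd).X L) → ℂ} {e : Bool → ℕ} {v w : ℂ}
    (hv : DV G q a not e v) (hw : DV G q a not e w) : v = w := by
  obtain ⟨L, P, hL, hP, hd⟩ := XW.gen (p := p) G Unit
  have e2 : xf L (fun _ : Bool => P ()) = xf L P := by
    refine congrArg (IntermediateField.adjoin K) (Set.Subset.antisymm ?_ ?_)
    · rintro _ ⟨⟨t, k⟩, rfl⟩
      exact ⟨((), k), rfl⟩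
    · rintro _ ⟨⟨i, k⟩, rfl⟩
      exact ⟨(true, k), rfl⟩
  have hL' : Good (dd * Nat.card Bool) L := by simpa using hL
  have h := (hv L _ hL' (fun _ => hP ()) fun _ => rfl).symm.trans
    (hw L _ hL' (fun _ => hP ()) fun _ => rfl)
  rw [e2] at h
  exact mul_left_cancel₀ (Nat.cast_ne_zero.2 hd) h

/-- The relation, up to a power of the variable. -/
lemma rel [ALT K p dd] [XC] [XV K p dd] [XW K p dd] [XF K p dd] [ZS K p dd] (hq : 1 < q)
    (hF : G.Fq p q) (hζ : IsPrimitiveRoot ζ G.m) (hη : η ^ G.m = 1) (hη1 : η ≠ 1) {r : ℕ}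
    (sd : ℕ → Bool) (E : Fin G.n ⊕ Fin G.n ≃ Tw r) (s1 : ∀ i, side sd r (E (Sum.inl i)) = true)
    (s2 : ∀ i, side sd r (E (Sum.inr i)) = false) (e : Tw r → ℕ) (he : OddP r e)
    (hne : dsum E (lamP ((q : ℂ) ^ dd) (G.PP ζ η q)) ((q : ℂ) ^ dd) e ≠ 0) :
    ∃ f : Polynomial ℂ, f.eval ((q : ℂ) ^ dd) ≠ 0 ∧ (∀ j, f.coeff j ≠ 0 → Even j) ∧
      ∀ (φ : AF (dd * Nat.card Bool) (G.UU.pi Bool)) (η' : ℂ),
      EqP ζ (fun b => bif b then η else η') φ.a → KlS id φ.a → ∀ v : ℕ → ℂ,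
      (∀ j, DV G q φ.a not (fun b => bif b then j else 0) (v j)) →
      ∀ t, (f.sum fun j a => a * v (j + t)) = 0 := by
  have hβ : (q : ℂ) ^ dd ≠ 0 := pow_ne_zero _ (Nat.cast_ne_zero.2 (by omega))
  have hz := pw_q hF.2 hη
  have hs : ∃ s, 0 < s ∧ G.m ∣ p ^ s + 1 := by
    obtain ⟨⟨⟨f, hf⟩, -⟩, h2⟩ := hF
    refine ⟨f, Nat.pos_of_ne_zero ?_, hf ▸ h2⟩
    rintro rfl
    rw [pow_zero] at hf
    omega
  set lam := lamP ((q : ℂ) ^ dd) (G.PP ζ η q) with hlam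
  let c : Equiv.Perm (Fin G.n) → ℂ := fun π => (ev lam r (tp E π) e).1
  let x : Equiv.Perm (Fin G.n) → ℕ := fun π => (ev lam r (tp E π) e).2.1
  let y : Equiv.Perm (Fin G.n) → ℕ := fun π => (ev lam r (tp E π) e).2.2
  let Y := 2 * ∑ π, y π
  have hY : ∀ π, y π ≤ Y := fun π =>
    (Finset.single_le_sum (fun _ _ => Nat.zero_le _) (Finset.mem_univ π)).trans
      (Nat.le_mul_of_pos_left _ two_pos)
  have hYe : Even Y := even_two_mul _
  have hxy : ∀ π, Even (x π + (Y - y π)) := fun π => by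
    have h1 : Even (x π + y π) := par (G.pm.odd_of_ne_two G.m2) hη hη1 hz
      (ev_mt hz (ne0 hη) sd lam r e he _ e (inv_tp E π) (mt_tp hz (ne0 hη) E s1 s2 e π))
    have := hY π
    rw [Nat.even_iff] at h1 hYe ⊢
    omega
  have hev : ∀ j, (∑ π, Polynomial.monomial (x π + (Y - y π))
      (((Equiv.Perm.sign π : ℤ) : ℂ) * (c π * ((q : ℂ) ^ dd) ^ (2 * y π)))).coeff j ≠ 0 →
      Even j := fun j hj => by
    rw [Polynomial.finsetSum_coeff] at hj
    obtain ⟨π, -, h⟩ := Finset.exists_ne_zero_of_sum_ne_zero hj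
    rw [Polynomial.coeff_monomial] at h
    exact (of_not_not fun h' => h (if_neg h')) ▸ hxy π
  refine ⟨_, ?_, hev, ?_⟩
  · refine fun h => mul_ne_zero (pow_ne_zero Y hβ) hne ?_
    rw [← h, Polynomial.eval_finsetSum, dsum, Finset.mul_sum]
    refine Finset.sum_congr rfl fun π _ => ?_
    have e1 : ((q : ℂ) ^ dd) ^ Y = ((q : ℂ) ^ dd) ^ (Y - y π) * ((q : ℂ) ^ dd) ^ y π := by
      rw [← pow_add, Nat.sub_add_cancel (hY π)]
    rw [Polynomial.eval_monomial, e1]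
    ring
  intro φ η' a1 a2 v hv t
  have o := pw_or hz t
  have hp : ∀ j, Even j → η ^ q ^ (j + t) = η ^ q ^ t := fun j hj => by
    rw [pow_add, pow_mul, pw_even hz hj]
  generalize η ^ q ^ t = η₁ at o hp
  by_cases hc : η₁ * η' = 1
  swap
  · refine Finset.sum_eq_zero fun j hj => ?_
    obtain ⟨w, w1, w2⟩ := XW.val hF.1 φ hζ a1 fun b => bif b then j + t else 0
    refine mul_eq_zero_of_right _ ((dv_uniq (p := p) (hv (j + t)) w1).trans (w2 fun h => hc ?_))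
    have h1 : η ^ q ^ (j + t) * η' ^ q ^ 0 = 1 := h true
    rwa [hp j (hev j (Polynomial.mem_support_iff.1 hj)), pow_zero, pow_one] at h1
  have k1 := or_pow hη o
  have k2 := or_ne hη1 o
  have kz := pw_q hF.2 k1
  obtain ⟨φ', b0, b1, b2⟩ := XV.pull hF.1 φ fun b => bif b then t + Y else 0
  have b3 : EqP ζ (sv η₁) φ'.a := by
    have := b1 ζ _ a1
    convert this using 1
    funext b
    cases b
    · show η₁⁻¹ = η' ^ q ^ 0
      rw [pow_zero, pow_one, eq_inv_of_mul_eq_one_right hc]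
    · show η₁ = η ^ q ^ (t + Y)
      rw [add_comm, hp Y hYe]
  obtain ⟨Φ, c1, c2, c3⟩ := iter hq hF hζ k1 k2 φ' b3 (b2 _ a2) sd r e he
  rw [pp_eq hF hζ hη o, ← hlam] at c3
  obtain ⟨ψ, d0, d1, d2⟩ := XV.pull hF.1 Φ e
  obtain ⟨L, P, hL, hP, hd⟩ := XW.gen (p := p) G (Fin G.n)
  have h := alt hs hζ k1 k2 E _ s1 s2 ψ (fun i => by
    rw [cE, pw_pw (sv_q kz _), s1]; rfl) (d1 ζ _ c1) (d2 _ c2) L P P
  have hcard : Nat.card (Tw r) = 2 * Nat.card (Fin G.n) := by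
    rw [← Nat.card_congr E, Nat.card_sum, two_mul]
  have key : ∀ π : Equiv.Perm (Fin G.n),
      ψ.a L (fun t => Sum.elim (fun i => P (π i)) P (E.symm t)) = Bridge.dg (xf L P) *
        (c π * (((q : ℂ) ^ dd) ^ (2 * y π) * v (x π + (Y - y π) + t)) / G.m ^ r) := fun π => by
    have e1 : DV G q φ'.a not (fun b => bif b then x π else y π)
        (((q : ℂ) ^ dd) ^ (2 * y π) * v (x π + (Y - y π) + t)) := fun L P g1 g2 g3 => by
      rw [b0, cfg_cfg]
      refine (XW.shift hF.1 φ inv_not _ _ true (y π) _ ?_ ?_ ?_).2 (hv _) L P g1 g2 g3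
      · have := hY π
        show x π + (t + Y) = x π + (Y - y π) + t + y π
        omega
      · show y π + 0 = 0 + y π
        omega
      · rintro (_ | _) h h'
        exacts [absurd rfl h', absurd rfl h]
    have e2 : xf L (fun t => Sum.elim (fun i => P (π i)) P (E.symm t)) = xf L P := by
      refine congrArg (IntermediateField.adjoin K) (Set.Subset.antisymm ?_ ?_)
      · rintro _ ⟨⟨t, k⟩, rfl⟩
        obtain ⟨i | i, rfl⟩ := E.surjective t
        · exact ⟨(π i, k), by simp⟩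
        · exact ⟨(i, k), by simp⟩
      · rintro _ ⟨⟨i, k⟩, rfl⟩
        exact ⟨(E (Sum.inr i), k), by simp⟩
    rw [d0, ← e2]
    refine c3 _ e _ (inv_tp E π) (mt_tp kz (ne0 k1) E s1 s2 e π) e1 L _ (hcard ▸ hL)
      (fun t => ?_) fun t => ?_
    · obtain ⟨i | i, rfl⟩ := E.surjective t <;> simpa using hP _
    · obtain ⟨i | i, rfl⟩ := E.surjective t <;> simp [tp]
  have h0 : (Bridge.dg (xf L P) : ℂ) / G.m ^ r ≠ 0 :=
    div_ne_zero (Nat.cast_ne_zero.2 hd) (pow_ne_zero _ (Nat.cast_ne_zero.2 G.pm.pos.ne'))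
  refine (mul_eq_zero.1 ?_).resolve_left h0
  have e3 := map_sum (Polynomial.lsum (R := ℂ) fun j => LinearMap.mulRight ℂ (v (j + t)))
    (fun π => Polynomial.monomial (x π + (Y - y π))
      (((Equiv.Perm.sign π : ℤ) : ℂ) * (c π * ((q : ℂ) ^ dd) ^ (2 * y π)))) Finset.univ
  simp only [Polynomial.lsum_apply, LinearMap.mulRight_apply] at e3
  rw [e3, ← h, Finset.mul_sum]
  refine Finset.sum_congr rfl fun π _ => ?_
  rw [key, Polynomial.sum_monomial_index _ (fun j a => a * v (j + t)) (zero_mul _)]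
  ring

end ZRc

open ZRc in
theorem ZR_thm [ALT K p dd] [XC] [XV K p dd] [XW K p dd] [XF K p dd] [ZS K p dd] : ZR K p dd where
  rel {G q} hq hF ζ η hζ hη hη1 n r hn sd E s1 s2 e he hne := by
    subst hn
    obtain ⟨f, f1, fe, f2⟩ := rel hq hF hζ hη hη1 sd E s1 s2 e he hne
    obtain ⟨g, g1, g2⟩ := Polynomial.exists_eq_pow_rootMultiplicity_mul_and_not_dvd f
      (fun h => f1 (by rw [h, Polynomial.eval_zero])) 0
    rw [Polynomial.dvd_iff_isRoot] at g2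
    generalize Polynomial.rootMultiplicity 0 f = s at g1
    rw [Polynomial.C_0, sub_zero] at g1
    subst g1
    have hs : Even s := fe s (by
      have h := Polynomial.coeff_X_pow_mul g s 0
      rw [zero_add] at h
      rw [h, Polynomial.coeff_zero_eq_eval_zero]
      exact g2)
    refine ⟨g, fun h => f1 (by rw [Polynomial.eval_mul, h, mul_zero]), g2,
      fun φ η' _ a1 a2 v hv t => ?_⟩
    obtain ⟨ψ, b0, b1, b2⟩ := XV.desc hF φ fun b => bif b then s else 0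
    have b3 : EqP ζ (fun b => bif b then η else η') ψ.a := by
      have := b1 ζ _ hζ.pow_eq_one a1
      convert this using 1
      funext b
      cases b
      · show η' = η' ^ q ^ 0
        rw [pow_zero, pow_one]
      · exact (pw_even (pw_q hF.2 hη) hs).symm
    choose w hw hw' using fun j => XW.val hF.1 ψ hζ b3 fun b => bif b then j else 0
    have h := f2 ψ η' b3 (b2 _ a2) (fun j => if s ≤ j then v (j - s) else w j) (fun j => ?_) t
    · rw [ZRa.sum_shift g s t fun j => if s ≤ j then v (j - s) else w j] at h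
      simpa using h
    · split_ifs with hj
      · intro L P g1 g2 g3
        rw [← hv (j - s) L P g1 g2 g3, b0, cfg_cfg]
        congr 2
        funext b
        cases b
        · rfl
        · exact (Nat.sub_add_cancel hj).symm
      · exact hw j

end Pool.Agent.Lib.MP_557161_ag.HG.HN.HC
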