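import Pool.Agent.Lib.MP_557161_ag.HC.StY
import Pool.Agent.Lib.MP_557161_ag.HG.XS

/-!
One contraction with the diagonal, and the values on diagrams.
-/

namespace Pool.Agent.Lib.MP_557161_ag.HG.HN.HC

open Pool.Agent.Lib.MP_557161_ag.DL IntermediateField
open Bridge (dg dg_map)

namespace ZSA

variable {K : Type} [Field K] {dd : ℕ} {G : GD K dd} {p q : ℕ} {T : Type} {L : Fld K}

lemma cfg_cfg (e f : T → ℕ) (P : T → (xz dd).X L) :
    cfg q f L (cfg q e L P) = cfg q (fun t => e t + f t) L P := by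
  funext t
  simp only [cfg, frb, ← pow_mul, pow_add]

lemma frb_zero (y : (xz dd).X L) : frb (q ^ 0) L y = y := by simp only [frb, pow_zero, pow_one]

lemma frb_map {M : Fld K} (κ : L →ₐ[K] M) (Q : ℕ) (y : (xz dd).X L) :
    (xz dd).map κ (frb Q L y) = frb Q M ((xz dd).map κ y) :=
  Prod.ext (funext fun _ => map_pow κ _ _) (map_pow κ _ _)

lemma mlt_mem {ξ : K} (hξ : ξ ^ G.m = 1) {y : (xz dd).X L} (h : G.UU.mem L y) :
    G.UU.mem L (mlt ξ L y) :=
  ⟨h.1, h.2.1, Eq.trans (by simp only [mlt, mul_pow, ← map_pow, hξ, map_one, one_mul]) h.2.2⟩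

lemma pw2 {m : ℕ} {x : ℂ} (hx : x ^ m = 1) (hq : m ∣ q + 1) (k : ℕ) : (x ^ q ^ k) ^ q ^ k = x := by
  have h1 : q * q + q ≡ 1 + q [MOD m] :=
    ((Nat.modEq_zero_iff_dvd.2 (Dvd.dvd.mul_left hq q)).trans
      (add_comm q 1 ▸ (Nat.modEq_zero_iff_dvd.2 hq).symm) :)
  have h2 := (Nat.ModEq.add_right_cancel' q h1).pow k
  rw [← pow_mul, ← mul_pow, pow_eq_pow_of_modEq h2 hx, one_pow, pow_one]

lemma pw1 {m Q : ℕ} {x : ℂ} (hm : m.Prime) (hx : x ^ m = 1) (h1 : x ≠ 1) (h : x ^ Q = x) :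
    Q ≡ 1 [MOD m] := by
  have := Fact.mk hm
  rw [← orderOf_eq_prime hx h1,
    ← (isOfFinOrder_iff_pow_eq_one.2 ⟨m, hm.pos, hx⟩).pow_eq_pow_iff_modEq, h, pow_one]

lemma eqp_pow [DecidableEq T] {ζ : K} {c : T → ℂ} {a : ∀ L : Fld K, (T → (xz dd).X L) → ℂ}
    (h : EqP ζ c a) (i : T) (x : T → (xz dd).X L) (s : ℕ) :
    a L (Function.update x i (mlt (ζ ^ s) L (x i))) = c i ^ s * a L x := by
  induction s with
  | zero => rw [pow_zero, mlt_one, Function.update_eq_self, pow_zero, one_mul]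
  | succ s ih =>
    have h1 := h i L (Function.update x i (mlt (ζ ^ s) L (x i)))
    rw [Function.update_idem, Function.update_self, mlt_mlt, ← pow_succ', ih] at h1
    rw [h1, pow_succ', mul_assoc]

lemma alg_pt {F : IntermediateField K L} {y : (xz dd).X L} (hy : G.UU.mem L y) (h : ∀ i, y.1 i ∈ F) :
    (xz dd).all (IsAlgebraic F) y :=
  ⟨fun i => isAlgebraic_algebraMap (⟨_, h i⟩ : F), IsAlgebraic.of_pow G.pm.pos
    (hy.2.2 ▸ isAlgebraic_algebraMap
      (⟨_, (Rel.aeval (R := Rel.ofSub F) (fun i => ⟨h i, rfl⟩) _).1⟩ : F))⟩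

lemma mem_of {F : IntermediateField K L} {y : (xz dd).X L} (hy : G.UU.mem L y)
    (h : ∀ i : Fin (2 * dd), y.1 i.succ ∈ F) (i : Vr dd) : y.1 i ∈ F :=
  Fin.cases (hy.2.1 ▸ one_mem F) h i

/-- The two halves of the affine coordinates. -/
def hf (b : Prop) [Decidable b] (k : Fin dd) : Vr dd :=
  ⟨(if b then 0 else dd) + k + 1, by have := k.2; split_ifs <;> omega⟩

lemma mem_hf {F : IntermediateField K L} {y : (xz dd).X L} (hy : G.UU.mem L y) {b c : Prop}
    [Decidable b] [Decidable c] (e : b ↔ ¬ c) (h1 : ∀ k, y.1 (hf b k) ∈ F)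
    (h2 : ∀ k, y.1 (hf c k) ∈ F) : ∀ i, y.1 i ∈ F := by
  refine mem_of hy fun i => ?_
  have k : ∀ (d : Prop) [Decidable d] (k : Fin dd), (if d then 0 else dd) + k.1 = i.1 →
      y.1 (hf d k) ∈ F → y.1 i.succ ∈ F := fun d _ k a h =>
    (show hf d k = i.succ from Fin.ext (congrArg (· + 1) a)) ▸ h
  have := i.2
  by_cases u : i.1 < dd <;> by_cases v : c
  · exact k c ⟨i, u⟩ (by simp [v]) (h2 _)
  · exact k b ⟨i, u⟩ (by simp [e.2 v]) (h1 _)
  · exact k b ⟨i - dd, by omega⟩ (by simp [e, v]; omega) (h1 _)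
  · exact k c ⟨i - dd, by omega⟩ (by simp [v]; omega) (h2 _)

/-- The splitting of the two new slots. -/
def spl (L : Fld K) (x : Option (Option T) → (xz dd).X L) : ((xz dd).X L × (xz dd).X L) × (T → (xz dd).X L) :=
  ((x none, x (some none)), fun t => x (some (some t)))

variable [Finite T]

lemma card2 : dd * Nat.card (Option (Option T)) = dd * Nat.card T + 2 * dd := by
  rw [Finite.card_option, Finite.card_option]
  ring

lemma ex_pull (Φ : AF (dd * Nat.card T + 2 * dd) ((G.UU.prod G.UU).prod (G.UU.pi T))) :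
    ∃ Ψ : AF (dd * Nat.card (Option (Option T))) (G.UU.pi (Option (Option T))),
      ∀ L x, Ψ.a L x = Φ.a L (spl L x) := by
  rw [card2]
  have h1 : Mp (G.UU.pi (Option (Option T))) ((G.UU.prod G.UU).prod (G.UU.pi T)) spl :=
    ⟨fun _ _ _ _ _ _ _ e => ⟨⟨e _, e _⟩, fun _ => e _⟩, fun _ _ h => ⟨⟨h _, h _⟩, fun _ => h _⟩⟩
  have h2 : Mp ((G.UU.prod G.UU).prod (G.UU.pi T)) (G.UU.pi (Option (Option T)))
      fun _ x t => t.elim x.1.1 fun t => t.elim x.1.2 x.2 :=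
    ⟨fun _ _ _ _ _ _ _ e => by rintro (_ | _ | t); exacts [e.1.1, e.1.2, e.2 t],
      fun _ _ h => by rintro (_ | _ | t); exacts [h.1.1, h.1.2, h.2 t]⟩
  refine ⟨Φ.pull h1.mor (Pro.mor h1 (Pro.of_left h2 h1 fun L x _ => funext ?_)), fun L x => ?_⟩
  · rintro (_ | _ | t) <;> rfl
  · by_cases h : (G.UU.pi (Option (Option T))).mem L x
    · exact Fe.pull_of_mem _ _ _ ⟨x, rfl, h⟩
    · refine (if_neg fun e => h ((ASp.sp_some _).1 e)).trans (by_contra fun e => h ?_)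
      have h3 := (ASp.sp_some _).1 (Φ.supp L _ (Ne.symm e)).2
      rintro (_ | _ | t)
      exacts [h3.1.1, h3.1.2, h3.2 t]

lemma cfg_mp [XV K p dd] (hq : G.Fr p q) (e : T → ℕ) : Mp (G.UU.pi T) (G.UU.pi T) (cfg q e) ∧
    Pro (G.UU.pi T) (G.UU.pi T) (cfg q e) := by
  have h := fun t => XV.mp (XV.pow hq (e t))
  refine ⟨⟨fun _ _ R _ _ m m' r t => (h t).1.reg R (m t) (m' t) (r t),
    fun L x m t => (h t).1.mem L _ (m t)⟩, fun M O x z hO m m' r => ?_⟩
  choose x' h1 h2 using fun t => (h t).2.1 M O (x t) (z t) hO (m t) (m' t) (r t)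
  exact ⟨x', h1, h2⟩

lemma dg_zero [FA3 K] [XV K p dd] (hq : G.Fr p q) (ψ : AF (dd * Nat.card T) (G.UU.pi T)) (e : T → ℕ)
    {P : T → (xz dd).X L} (hL : Good (dd * Nat.card T) L) (hP : ∀ i, G.UU.mem L (P i))
    (h0 : dg (xf L P) = 0) : ψ.a L (cfg q e L P) = 0 := by
  obtain ⟨m, hm⟩ : ∃ m, Good m (L.sub (xf L P)) := good_adjoin L _ (Set.finite_range _)
  have h1 := tr_le (L := L.sub (xf L P)) (L' := L) (xf L P).val
  rw [hm.2, hL.2, Nat.cast_le] at h1
  refine FA3.low' ψ.toPre (FA3.dm_alg (c := .vec (T × Vr dd)) (x := fun s => (P s.1).1 s.2)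
    ⟨xf L P, fun s => subset_adjoin _ _ ⟨s, rfl⟩, hm.2.le⟩ fun F hF t =>
      alg_pt ((cfg_mp hq e).1.mem L P hP t) fun i => pow_mem (hF (t, i)) _)
    (h1.lt_of_ne fun e => ((deg_pos_iff _).2 (hL.fin _ (e ▸ hm.2))).ne' h0)

lemma split [FA1 K] [FA3 K] [XG K dd] {T' : Type} {τ : T → T} (hτ : Inv τ)
    (hL : Good (dd * Nat.card T + 2 * dd) L) {P : T' → (xz dd).X L} {W : T → (xz dd).X L} {y : (xz dd).X L}
    (hW : ∀ t, G.UU.mem L (W t)) (hy : G.UU.mem L y) (hi : ∀ t, W (τ t) = W t)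
    (h1 : ∀ s, P s = y ∨ ∃ t, P s = W t) (h2 : ∃ s, P s = y) (h3 : ∀ t, ∃ s, P s = W t)
    (h0 : dg (xf L P) ≠ 0) : ∃ (L₁ M : Fld K) (α : L₁ →ₐ[K] M) (κ : M →ₐ[K] L) (y' : (xz dd).X M)
      (W' : T → (xz dd).X L₁), G.GenU (dd * Nat.card T) α y' ∧ (xz dd).map κ y' = y ∧
      (∀ t, (xz dd).map κ ((xz dd).map α (W' t)) = W t) ∧ dg (xf L P) = G.m * dg (xf L₁ W') * deg κ := by
  classical
  let E₁ := adjoin K (Set.range ((Cd.pi T (xz dd)).co W))
  let E₂ := gen (L := L.sub E₁) E₁.val ((xz dd).co y)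
  have m1 : ∀ s, (Cd.pi T (xz dd)).co W s ∈ E₁ := fun s => subset_adjoin _ _ ⟨s, rfl⟩
  have m2 : E₁ ≤ E₂ := fun a ha => subset_adjoin _ _ (Or.inl ⟨⟨a, ha⟩, rfl⟩)
  have m3 : ∀ s, (xz dd).co y s ∈ E₂ := fun s => subset_adjoin _ _ (Or.inr ⟨s, rfl⟩)
  let W' : T → (xz dd).X (L.sub E₁) := fun t => (fun i => ⟨_, m1 (t, .inl i)⟩, ⟨_, m1 (t, .inr ())⟩)
  let y' : (xz dd).X (L.sub E₂) := (fun i => ⟨_, m3 (.inl i)⟩, ⟨_, m3 (.inr ())⟩)
  let α : L.sub E₁ →ₐ[K] L.sub E₂ := inclusion m2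
  have e1 : xf L P = adjoin K ((Set.range fun s : T × Vr dd => (W s.1).1 s.2) ∪ Set.range y.1) := by
    refine congrArg (adjoin K) (Set.ext fun a => ⟨?_, ?_⟩)
    · rintro ⟨s, rfl⟩
      obtain e | ⟨t, e⟩ := h1 s.1
      exacts [Or.inr ⟨s.2, by rw [← e]⟩, Or.inl ⟨(t, s.2), by simp only [e]⟩]
    · rintro (⟨s, rfl⟩ | ⟨i, rfl⟩)
      · exact (h3 s.1).elim fun t e => ⟨(t, s.2), by simp only [e]⟩
      · exact h2.elim fun t e => ⟨(t, i), by simp only [e]⟩
  have t1 : (L.sub (xf L P)).tr = (dd * Nat.card T + 2 * dd : ℕ) :=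
    ((deg_pos_iff _).1 (Nat.pos_of_ne_zero h0)).tr_eq.symm.trans hL.2
  have g2 : Good (dd * Nat.card T + 2 * dd) (L.sub E₂) := by
    refine hL.down (ι := E₂.val) (le_antisymm ((tr_le (L := L.sub E₂) E₂.val).trans hL.2.le)
      (t1.ge.trans (tr_le (L := L.sub (xf L P)) (L' := L.sub E₂) (inclusion ?_))))
    rw [e1, adjoin_le_iff]
    rintro _ (⟨s, rfl⟩ | ⟨i, rfl⟩)
    exacts [m2 (m1 (s.1, .inl s.2)), m3 (.inl i)]
  obtain ⟨m, g1⟩ : ∃ m, Good m (L.sub E₁) := good_adjoin L _ (Set.finite_range _)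
  obtain rfl : m = dd * Nat.card T := by
    refine le_antisymm ?_ ?_
    · obtain ⟨f, hf'⟩ := Countable.exists_injective_nat T
      obtain ⟨F, k1, k2⟩ : (Cd.pi T (xz dd)).Dm L W (Nat.card (Fin dd × T)) := FA3.dm_alg
        (FA3.dm_vec fun s : Fin dd × T => (W s.2).1 (hf (f s.2 < f (τ s.2)) s.1)) fun F hF t => by
          have k1 := fun k => hF (k, t)
          have k2 := fun k => hF (k, τ t)
          simp only [hi] at k1 k2
          have c : f (τ t) ≠ f t := hf'.ne (hτ t).2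
          have c' : f t < f (τ t) ↔ ¬ f (τ t) < f (τ (τ t)) := by rw [(hτ t).1]; omega
          exact alg_pt (hW t) (mem_hf (hW t) c' k1 k2)
      rw [Nat.card_prod, Nat.card_eq_fintype_card (α := Fin dd), Fintype.card_fin] at k2
      have k3 := (tr_le (L := L.sub E₁) (L' := L.sub F) (inclusion (adjoin_le_iff.2 (by
        rintro _ ⟨s, rfl⟩
        exact (Cd.all_iff _ _ _).1 k1 s)))).trans k2
      rwa [g1.2, Nat.cast_le] at k3
    · have k1 := FA1.tr_gen (L := L.sub E₁) E₁.val fun i : Fin (2 * dd) => y.1 i.succ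
      have k2 := (t1.ge.trans (tr_le (L := L.sub (xf L P))
        (L' := L.sub (gen (L := L.sub E₁) E₁.val fun i : Fin (2 * dd) => y.1 i.succ)) (inclusion (by
          rw [e1, adjoin_le_iff]
          rintro _ (⟨s, rfl⟩ | ⟨i, rfl⟩)
          · exact subset_adjoin _ _ (Or.inl ⟨⟨_, m1 (s.1, .inl s.2)⟩, rfl⟩)
          · exact mem_of hy (fun i => subset_adjoin _ _ (Or.inr ⟨i, rfl⟩)) i)))).trans k1
      rw [g1.2, Nat.card_eq_fintype_card (α := Fin (2 * dd)), Fintype.card_fin] at k2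
      exact Nat.le_of_add_le_add_right (by exact_mod_cast k2)
  have g3 : G.GenU (dd * Nat.card T) α y' := ⟨g1, g2, (G.UU.map_iff (M := L.sub E₂) E₂.val y').1 hy,
    XSA.gen_top m2 (U := (xz dd).co y) (by rintro (s | s) <;> rfl) le_rfl⟩
  refine ⟨_, _, α, E₂.val, y', W', g3, rfl, fun _ => rfl, ?_⟩
  rw [e1, xf, ← XG.dgr g3, ← dg_map, adjoin_map, Set.image_union, ← Set.range_comp, ← Set.range_comp,
    ← Set.range_comp]
  rfl

lemma shift [DecidableEq T] [XW K p dd] (hq : G.Fr p q) (φ : AF (dd * Nat.card T) (G.UU.pi T))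
    {τ : T → T} (hτ : Inv τ) (e : T → ℕ) (i : T) (m : ℕ) (v : ℂ) :
    DV G q φ.a τ (fun t => e t + if t = i ∨ t = τ i then m else 0) (((q : ℂ) ^ dd) ^ (2 * m) * v) ↔
      DV G q φ.a τ e v :=
  XW.shift hq φ hτ e _ i m v (by simp) (by simp) fun t h h' => by simp [h, h']

variable {AC : CRel G} {φ : AF (dd * Nat.card T) (G.UU.pi T)}
  {Φ : AF (dd * Nat.card T + 2 * dd) ((G.UU.prod G.UU).prod (G.UU.pi T))}
  {Ψ : AF (dd * Nat.card (Option (Option T))) (G.UU.pi (Option (Option T)))}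
  {τ : Option (Option T) → Option (Option T)} {e : Option (Option T) → ℕ} {v : ℂ}
  {ζ : K} {γ : ℂ} {c : T → ℂ}

lemma upd_mp [DecidableEq T] {ξ : K} (hξ : ξ ^ G.m = 1) (i : T) :
    Mp (G.UU.pi T) (G.UU.pi T) fun L w => Function.update w i (mlt ξ L (w i)) :=
  ⟨fun _ _ R _ _ _ _ e => Rel.update (q := fun _ => (xz dd).lift _) e i (mlt_rel ξ R (e i)),
    fun L w m t => Rel.update (q := fun _ a (_ : (xz dd).X L) => G.UU.mem L a) (x' := w) m i
      (u' := w i) (mlt_mem hξ (m i)) t⟩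

lemma anti [DecidableEq T] (hA : ConL G p ζ γ AC) (hc : AC φ Φ) (hζ : ζ ^ G.m = 1)
    (hm : ∀ i, c i ^ G.m = 1) (h : EqP ζ c φ.a) :
    EqP ζ (ext2 γ c) fun L x => Φ.a L (spl L x) := by
  rintro (_ | _ | i) L x
  · exact (hA.eqv hc L _ _ _).1
  · exact (hA.eqv hc L _ _ _).2
  have z0 : ζ ≠ 0 := fun e => by simp [e, G.pm.ne_zero] at hζ
  have c0 : c i ≠ 0 := fun e => by simpa [e, G.pm.ne_zero] using hm i
  have h1 := upd_mp (G := G) hζ i
  have h1' := upd_mp (G := G) (ξ := ζ⁻¹) (by rw [inv_pow, hζ, inv_one]) i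
  have h2 : ∀ (L : Fld K) (w : T → (xz dd).X L),
      Function.update (Function.update w i (mlt ζ L (w i))) i
        (mlt ζ⁻¹ L (Function.update w i (mlt ζ L (w i)) i)) = w := fun L w => by
    rw [Function.update_idem, Function.update_self, mlt_mlt, inv_mul_cancel₀ z0, mlt_one,
      Function.update_eq_self]
  have h3 : spl L (Function.update x (some (some i)) (mlt ζ L (x (some (some i))))) =
      ((spl L x).1, Function.update (spl L x).2 i (mlt ζ L ((spl L x).2 i))) :=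
    Prod.ext rfl (funext fun t => by simp [spl, Function.update_apply])
  simp only [h3]
  by_cases m : (G.UU.pi T).mem L (spl L x).2
  · rw [show Φ.a L (spl L x) = _ from hA.nat hc hc h1 (Pro.of_left h1' h1 fun L w _ => h2 L w)
      (c i)⁻¹ (fun L w _ => by rw [h i L w, inv_mul_cancel_left₀ c0]) L _ _ _ m]
    exact (mul_inv_cancel_left₀ c0 _).symm
  · rw [show Φ.a L (spl L x) = 0 from by_contra fun e =>
      m ((ASp.sp_some _).1 (Φ.supp L _ e).2).2, mul_zero]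
    refine by_contra fun e => m ?_
    have h4 := h1'.mem L _ ((ASp.sp_some _).1 (Φ.supp L _ e).2).2
    rwa [h2] at h4

lemma kills (hA : ConL G p ζ γ AC) (hc : AC φ Φ) (sd : T → Bool) (s : Bool) (h : KlS sd φ.a) :
    KlS (fun t : Option (Option T) => (Option.bind t id).elim s sd) fun L x => Φ.a L (spl L x) := by
  intro L L₁ L₂ ι₁ ι₂ x h1 h2 h3
  rw [card2] at h3
  cases s
  · refine hA.kills hc (fun s => ¬ sd s.1 = true) (fun L L₁ L₂ ι₁ ι₂ w k1 k2 k3 =>
      h L L₂ L₁ ι₂ ι₁ w (fun i hi => k2 i (not_not.2 hi)) k1 (add_comm L₁.tr _ ▸ k3))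
      L L₂ L₁ ι₂ ι₁ _ ?_ ?_ (add_comm L₁.tr _ ▸ h3)
    · rintro ((s | s) | s) k
      exacts [h2 (none, s) Bool.false_ne_true, h2 (some none, s) Bool.false_ne_true,
        h2 (some (some s.1), s.2) k]
    · rintro (s | s) k
      exacts [absurd trivial k, h1 (some (some s.1), s.2) (not_not.1 k)]
  · refine hA.kills hc _ h L L₁ L₂ ι₁ ι₂ _ ?_ ?_ h3
    · rintro ((s | s) | s) k
      exacts [h1 (none, s) rfl, h1 (some none, s) rfl, h1 (some (some s.1), s.2) k]
    · rintro (s | s) k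
      exacts [absurd trivial k, h2 (some (some s.1), s.2) k]

variable [FA1 K] [FA3 K] [XG K dd] [XV K p dd]

lemma path0 [DecidableEq T] (hA : ConL G p ζ γ AC) (hc : AC φ Φ)
    (hΨ : ∀ L x, Ψ.a L x = Φ.a L (spl L x)) (hq : G.Fr p q) (ha : EqP ζ c φ.a) {τ' : T → T}
    (hτ : Inv τ') {i : T} (t1 : τ none = some (some i)) (t2 : τ (some none) = some (some (τ' i)))
    (t3 : ∀ t, t ≠ i → t ≠ τ' i → τ (some (some t)) = some (some (τ' t))) (e1 : e none = 0)
    (e2 : e (some none) = 0) (g0 : γ ≠ 0) (hγ : c (τ' i) ^ q ^ e (some (some (τ' i))) = γ)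
    (h : DV G q φ.a τ' (fun t => e (some (some t))) v) : DV G q Ψ.a τ e (v / G.m) := by
  intro L P hL hP hi
  by_cases h0 : dg (xf L P) = 0
  · rw [dg_zero hq Ψ e hL hP h0, h0, Nat.cast_zero, zero_mul]
  rw [card2] at hL
  have n1 : i ≠ τ' i := (hτ i).2.symm
  have a1 : P (some (some i)) = P none := t1 ▸ hi none
  have a2 : P (some (some (τ' i))) = P (some none) := t2 ▸ hi (some none)
  set V := Function.update (fun t => P (some (some t))) (τ' i) (P none) with hV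
  have a3 : ∀ t, t ≠ τ' i → V t = P (some (some t)) := fun t h => Function.update_of_ne h _ _
  have a4 : V (τ' i) = P none := Function.update_self _ _ _
  have a5 : ∀ t, ∃ s, P s = V t := fun t => by
    by_cases c : t = τ' i
    exacts [⟨none, c ▸ a4.symm⟩, ⟨_, (a3 t c).symm⟩]
  have a6 : ∀ t, V (τ' t) = V t := fun t => by
    by_cases c : t = i
    · rw [c, a4, a3 i n1, a1]
    by_cases c' : t = τ' i
    · rw [c', (hτ i).1, a4, a3 i n1, a1]
    rw [a3 t c', a3 _ fun k => c (by rw [← (hτ t).1, k, (hτ i).1]), ← t3 t c c', hi]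
  obtain ⟨L₁, M, α, κ, y, W, g1, g2, g3, g4⟩ := split hτ hL (P := P) (y := P (some none)) (W := V)
    (fun t => (a5 t).elim fun s k => k ▸ hP s) (hP _) a6 (by
      rintro (_ | _ | t)
      · exact Or.inr ⟨_, a4.symm⟩
      · exact Or.inl rfl
      · by_cases c : t = τ' i
        exacts [Or.inl (c ▸ a2), Or.inr ⟨t, (a3 t c).symm⟩]) ⟨_, rfl⟩ a5 h0
  have k1 : ∀ t, G.UU.mem L₁ (W t) := fun t =>
    (G.UU.map_iff α _).1 ((G.UU.map_iff κ _).1 (g3 t ▸ (a5 t).elim fun s k => k ▸ hP s))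
  have k0 : ∀ t, W (τ' t) = W t := fun t => (xz dd).map_inj α.injective ((xz dd).map_inj κ.injective
    (((g3 _).trans (a6 t)).trans (g3 _).symm))
  have k2 := h L₁ W g1.gL k1 k0
  let S : ASp K (Cd.pi T (xz dd)) := (G.UU.pi T).cl (fun _ u => u (τ' i) = u i)
    fun _ _ _ _ _ _ _ r k => Cd.lift_eq (r _) (r _) k
  have m1 : Mp (G.UU.prod S) (G.UU.pi T) fun _ x => Function.update x.2 (τ' i) x.1 :=
    ⟨fun _ _ _ _ _ _ _ r => Rel.update (q := fun _ => (xz dd).lift _) r.2 _ r.1,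
      fun L x m t => Rel.update (q := fun _ a (_ : (xz dd).X L) => G.UU.mem L a) (x' := x.2) m.2.1 _
        (u' := x.1) m.1 t⟩
  obtain ⟨m2, m3⟩ := cfg_mp hq fun t => e (some (some t))
  have k3 := hA.unit hc (m2.comp m1) (fun M O x z hO m m' r => by
    obtain ⟨x', r1, r2⟩ := m3 M O _ z hO (m1.mem M x m) m' r
    refine ⟨(x' (τ' i), Function.update x' (τ' i) (x' i)), ⟨r1 _, fun t => Rel.update
      (q := fun _ a (_ : (xz dd).X O.res) => G.UU.mem _ a) (x' := x') r1 _ (u' := x' i) (r1 i) t,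
      by simp only [Function.update_self, Function.update_of_ne n1]⟩,
      by simpa only [Function.update_self] using r2 (τ' i), fun t => ?_⟩
    by_cases c : t = τ' i
    · simpa only [c, Function.update_self, Function.update_of_ne n1, m.2.2] using r2 i
    · simpa only [Function.update_of_ne c] using r2 t) g1 (W (τ' i)) W (k1 _) ⟨k1, k0 i⟩
  obtain ⟨ψ, p1, p2, -⟩ := XV.pull hq φ fun t => e (some (some t))
  have k4 := eqp_pow (p2 ζ c ha) (τ' i) W
  simp only [p1, hγ] at k4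
  simp only [k4, k2, ← mul_assoc, ← mul_pow, inv_mul_cancel₀ g0, one_pow, one_mul, Finset.sum_const,
    Finset.card_range, nsmul_eq_mul] at k3
  refine (hΨ _ _).trans ((Eq.trans (congrArg (Φ.a L) ?_) (Φ.ext κ (some _) g1.gM hL)).trans
    ((congrArg _ k3).trans ?_))
  · refine Prod.ext (Prod.ext ?_ ?_) (funext fun t => ?_)
    · exact (congrArg (frb · L _) (by rw [e1])).trans ((frb_zero _).trans (a4.symm.trans (g3 _).symm))
    · exact (congrArg (frb · L _) (by rw [e2])).trans ((frb_zero _).trans g2.symm)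
    · refine Eq.trans (congrArg (frb _ L) ?_) (frb_map κ _ _).symm
      by_cases c : t = τ' i
      · simp only [c, Function.update_self, a2]
        exact g2.symm
      · simp only [Function.update_of_ne c]
        exact (a3 t c).symm.trans (g3 t).symm
  · rw [g4]
    push_cast
    ring

lemma ZS_loop (hA : ConL G p ζ γ AC) (hc : AC φ Φ)
    (hΨ : ∀ L x, Ψ.a L x = Φ.a L (spl L x)) (h1 : 1 < q) (hq : G.Fr p q) {τ' : T → T}
    (hτ : Inv τ') (t1 : τ none = some none)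
    (t2 : ∀ t, τ (some (some t)) = some (some (τ' t))) {m : ℕ}
    (he : e none = m ∧ e (some none) = 0 ∨ e none = 0 ∧ e (some none) = m)
    (hQ : q ^ m ≡ 1 [MOD G.m]) (hs : G.PP ζ γ⁻¹ q m = G.PP ζ γ q m)
    (h : DV G q φ.a τ' (fun t => e (some (some t))) v) :
    DV G q Ψ.a τ e (G.PP ζ γ q m * v / G.m) := by
  intro L P hL hP hi
  by_cases h0 : dg (xf L P) = 0
  · rw [dg_zero hq Ψ e hL hP h0, h0, Nat.cast_zero, zero_mul]
  rw [card2] at hL
  have e1 : P (some none) = P none := t1 ▸ hi none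
  obtain ⟨L₁, M, α, κ, y, W, g1, g2, g3, g4⟩ := split hτ hL (P := P) (y := P none)
    (W := fun t => P (some (some t))) (fun _ => hP _) (hP _) (fun t => t2 t ▸ hi _)
    (by rintro (_ | _ | t); exacts [Or.inl rfl, Or.inl e1, Or.inr ⟨t, rfl⟩]) ⟨_, rfl⟩
    (fun _ => ⟨_, rfl⟩) h0
  have k1 : ∀ t, G.UU.mem L₁ (W t) := fun t =>
    (G.UU.map_iff α _).1 ((G.UU.map_iff κ _).1 (g3 t ▸ hP _))
  have k2 := h L₁ W g1.gL k1 fun t => (xz dd).map_inj α.injective ((xz dd).map_inj κ.injective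
    (((g3 _).trans (t2 t ▸ hi _)).trans (g3 _).symm))
  have k5 := (cfg_mp hq fun t => e (some (some t))).1.mem L₁ W k1
  have k3 : ∀ w, (G.UU.pi T).mem L₁ w →
      Φ.a M ((frb (q ^ m) M y, y), (Cd.pi T (xz dd)).map α w) = G.PP ζ γ q m * φ.a L₁ w ∧
      Φ.a M ((y, frb (q ^ m) M y), (Cd.pi T (xz dd)).map α w) = G.PP ζ γ q m * φ.a L₁ w :=
      fun w hw => by
    rcases eq_or_ne m 0 with rfl | hm
    · rw [frb_zero, and_self, GD.PP, if_pos rfl]
      exact hA.diag hc g1 w hw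
    · have k := hA.loop hc (Nat.one_lt_pow hm h1) (XV.pow hq m) hQ g1 w hw
      refine ⟨?_, ?_⟩
      · rw [← hs, GD.PP, if_neg hm]
        exact k.1
      · rw [GD.PP, if_neg hm]
        exact k.2
  have k4 : ∀ A B : (xz dd).X M, cfg q e L P none = (xz dd).map κ A → cfg q e L P (some none) = (xz dd).map κ B →
      Ψ.a L (cfg q e L P) = deg κ * Φ.a M ((A, B),
        (Cd.pi T (xz dd)).map α (cfg q (fun t => e (some (some t))) L₁ W)) := fun A B a b => by
    refine (hΨ _ _).trans (Eq.trans (congrArg (Φ.a L) ?_) (Φ.ext κ (some _) g1.gM hL))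
    refine Prod.ext (Prod.ext a b) (funext fun t => ?_)
    exact ((frb_map κ _ _).symm.trans (congrArg _ (frb_map α _ _).symm)).symm.trans
      (congrArg _ (g3 t)) |>.symm
  have m0 : (G.m : ℂ) ≠ 0 := Nat.cast_ne_zero.2 G.pm.ne_zero
  rw [g4]
  rcases he with he | he
  · rw [k4 (frb (q ^ m) M y) y (by rw [cfg, he.1, frb_map, g2]) (by rw [cfg, he.2, frb_zero, e1, g2]),
      (k3 _ k5).1, k2]
    push_cast
    field_simp
  · rw [k4 y (frb (q ^ m) M y) (by rw [cfg, he.1, frb_zero, g2])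
      (by rw [cfg, he.2, frb_map, e1, g2]), (k3 _ k5).2, k2]
    push_cast
    field_simp

end ZSA

open ZSA in
theorem ZS_thm {K : Type} [Field K] {p dd : ℕ} [FA1 K] [FA3 K] [XG K dd] [XV K p dd] [XW K p dd]
    [XF K p dd] [ZO K p dd] : ZS K p dd := ⟨fun {G q} h1 hq' ζ γ hζ hγ γ1 T _ _ φ cc hcc ha => by
  have hq := hq'.1
  have g0 : γ ≠ 0 := fun e => by simp [e, G.pm.ne_zero] at hγ
  obtain ⟨AC, hA⟩ := ZO.ex (p := p) G hζ hγ γ1
  obtain ⟨Φ, hc⟩ := hA.ex φ
  obtain ⟨Ψ, hΨ⟩ := ex_pull Φ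
  have e0 : Ψ.a = fun L x => Φ.a L (spl L x) := funext₂ hΨ
  refine ⟨Ψ, e0 ▸ anti hA hc hζ.pow_eq_one hcc ha, fun sd s h => e0 ▸ kills hA hc sd s h,
    fun τ e v hτ hM h => ?_⟩
  by_cases c : Lp τ
  · have t0 : τ none = some none := c
    have t1 : τ (some none) = none := t0 ▸ (hτ _).1
    have t2 := fun t : T => XSA.ss hτ e (t := t) (by simp [t0]) (by simp [t1])
    have hτ' : Inv (rτ τ) := fun t => ⟨by simpa [(t2 _).1] using (hτ (some (some t))).1,
      by simpa [(t2 _).1] using (hτ (some (some t))).2⟩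
    rw [funext fun t => (t2 t).2] at h
    obtain ⟨x, m, he, hv⟩ : ∃ x m, (e none = x + m ∧ e (some none) = x ∨
        e none = x ∧ e (some none) = x + m) ∧
        lamP ((q : ℂ) ^ dd) (G.PP ζ γ q) (e none) (e (some none)) =
          ((q : ℂ) ^ dd) ^ (2 * x) * G.PP ζ γ q m := by
      rcases le_total (e none) (e (some none)) with k | k
      · exact ⟨_, _, Or.inr ⟨rfl, (Nat.add_sub_cancel' k).symm⟩,
          by rw [lamP, min_eq_left k, max_eq_right k]⟩
      · exact ⟨_, _, Or.inl ⟨(Nat.add_sub_cancel' k).symm, rfl⟩,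
          by rw [lamP, min_eq_right k, max_eq_left k]⟩
    have hQ : q ^ m ≡ 1 [MOD G.m] := by
      have k1 : γ ^ q ^ e none = γ ^ q ^ e (some none) := by
        have k2 := hM none
        rw [t0] at k2
        exact (mul_inv_eq_one₀ (pow_ne_zero _ g0)).1 (inv_pow γ _ ▸ k2)
      have k3 : (γ ^ q ^ m) ^ q ^ x = γ ^ q ^ x := by
        rw [← pow_mul, ← pow_add, add_comm]
        rcases he with he | he
        · rw [← he.1, k1, he.2]
        · rw [← he.2, ← k1, he.1]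
      refine pw1 G.pm hγ γ1 ?_
      rw [← pw2 (x := γ ^ q ^ m) (by rw [← pow_mul, mul_comm, pow_mul, hγ, one_pow]) hq'.2 x, k3,
        pw2 hγ hq'.2]
    have k := (XW.shift hq Ψ hτ (fun t => t.elim (e none - x) fun t =>
      t.elim (e (some none) - x) fun t => e (some (some t))) e none x _ (by simp; omega)
      (by simp [t0]; omega) (by rintro (_ | _ | t) a b <;> simp_all)).2
      (ZS_loop hA hc hΨ h1 hq hτ' t0 (fun t => (t2 t).1) (m := m) (by simp; omega) hQ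
        (XF.sym hq' hζ hγ m) h)
    rwa [if_pos c, hv, mul_assoc, mul_div_assoc]
  obtain ⟨i, t1⟩ : ∃ i, τ none = some (some i) := by
    rcases k : τ none with _ | _ | i
    exacts [absurd k (hτ _).2, absurd k c, ⟨i, rfl⟩]
  obtain ⟨j, t2⟩ : ∃ i, τ (some none) = some (some i) := by
    rcases k : τ (some none) with _ | _ | i
    exacts [absurd ((congrArg τ k).symm.trans (hτ _).1) c, absurd k (hτ _).2, ⟨i, rfl⟩]
  have t3 : τ (some (some i)) = none := t1 ▸ (hτ _).1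
  have t4 : τ (some (some j)) = some none := t2 ▸ (hτ _).1
  have n : i ≠ j := fun k => by simp [← k, t3] at t4
  have r1 : rτ τ i = j := by simp [rτ, t2, t3]
  have r2 : rτ τ j = i := by simp [rτ, t1, t4]
  have t5 := fun (t : T) (a : t ≠ i) (b : t ≠ j) =>
    XSA.ss hτ e (t := t) (by simp [t1, a.symm]) (by simp [t2, b.symm])
  have hτ' : Inv (rτ τ) := fun t => by
    by_cases a : t = i
    · simp [a, r1, r2, n.symm]
    by_cases b : t = j
    · simp [b, r1, r2, n]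
    have k := hτ (some (some t))
    rw [(t5 t a b).1] at k
    rw [(t5 _ (fun u => by simp [u, t3] at k) fun u => by simp [u, t4] at k).1] at k
    simpa using k
  let f : T → ℕ := fun t => (if t = i then e none else 0) + if t = j then e (some none) else 0
  obtain ⟨φ', d1, d2, -⟩ := XV.desc hq' φ f
  have hj : (cc j ^ q ^ f j) ^ q ^ e (some (some j)) = γ := by
    have k1 := hM (some none)
    rw [t2] at k1
    have k2 : γ ^ q ^ e (some none) = cc j ^ q ^ e (some (some j)) :=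
      (inv_mul_eq_one₀ (pow_ne_zero _ g0)).1 (inv_pow γ _ ▸ k1)
    rw [show f j = e (some none) by simp [f, n.symm], ← pow_mul, mul_comm, pow_mul, ← k2,
      pw2 hγ hq'.2]
  obtain ⟨Φ', hc'⟩ := hA.ex φ'
  obtain ⟨Ψ', hΨ'⟩ := ex_pull Φ'
  obtain ⟨w, rfl⟩ : ∃ w, v = ((q : ℂ) ^ dd) ^ (2 * (e none + e (some none))) * w :=
    ⟨_, (mul_div_cancel₀ _ (pow_ne_zero _ (pow_ne_zero _ (Nat.cast_ne_zero.2 (by omega))))).symm⟩
  have k1 := (XW.shift hq φ' hτ' (fun t => e (some (some t))) (fun t => re τ e t + f t) i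
    (e none + e (some none)) w (by simp [re, t3, f, n]; omega)
    (by simp [r1, re, t4, f, n.symm]; omega)
    fun t a b => by simp [(t5 t a (r1 ▸ b)).2, f, a, r1 ▸ b]).1
    fun L P a b c => by rw [← cfg_cfg, ← d1]; exact h L P a b c
  have k2 := (shift hq Ψ' hτ _ (some none) (e (some none)) _).2 ((shift hq Ψ' hτ _ none (e none) _).2
    (path0 (e := fun t => (Option.bind t id).elim 0 fun t => e (some (some t))) hA hc' hΨ' hq
      (d2 ζ cc hζ.pow_eq_one ha) hτ' t1 (r1 ▸ t2) (fun t a b => (t5 t a (r1 ▸ b)).1) rfl rfl g0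
      (r1 ▸ hj) k1))
  intro L P a b u
  refine Eq.trans ?_ ((k2 L P a b u).trans (by rw [if_neg c]; ring))
  rw [hΨ, hΨ']
  refine (hA.nat hc' hc (cfg_mp hq f).1 (cfg_mp hq f).2 1 (fun L w _ => by rw [one_mul, d1]) L _ _ _
    ((cfg_mp hq fun t => e (some (some t))).1.mem L _ fun t => b _)).trans
    ((one_mul _).trans (congrArg (Φ'.a L) ?_))
  rw [cfg_cfg]
  refine Prod.ext (Prod.ext ?_ ?_) (funext fun t => ?_) <;>
    simp [spl, cfg, f, t1, t2, add_assoc]⟩

end Pool.Agent.Lib.MP_557161_ag.HG.HN.HC
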