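import Pool.Agent.Lib.MP_557161_ag.HC.All1
import Pool.Agent.Lib.MP_557161_ag.HG.XC
import Pool.Agent.Lib.MP_557161_ag.HG.XH
import Pool.Agent.Lib.MP_557161_ag.HG.XT
import Pool.Agent.Lib.MP_557161_ag.HG.XZ
import Pool.Agent.Lib.MP_557161_ag.HG.ZB
import Pool.Agent.Lib.MP_557161_ag.HG.ZD
import Pool.Agent.Lib.MP_557161_ag.HG.ZT
import Pool.Agent.Lib.MP_557161_ag.HN.TA
import Pool.Agent.Lib.MP_557161_ag.HN.TB
import Pool.Agent.Lib.MP_557161_ag.HN.TC
import Pool.Agent.Lib.MP_557161_ag.HN.TD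
import Pool.Agent.Lib.MP_557161_ag.HC.FN
import Pool.Agent.Lib.MP_557161_ag.HC.X0
import Pool.Agent.Lib.MP_557161_ag.HC.XA
import Pool.Agent.Lib.MP_557161_ag.HC.XF
import Pool.Agent.Lib.MP_557161_ag.HC.XG
import Pool.Agent.Lib.MP_557161_ag.HC.XI
import Pool.Agent.Lib.MP_557161_ag.HC.XJ
import Pool.Agent.Lib.MP_557161_ag.HC.XK
import Pool.Agent.Lib.MP_557161_ag.HC.XQ
import Pool.Agent.Lib.MP_557161_ag.HC.XV
import Pool.Agent.Lib.MP_557161_ag.HC.XW
import Pool.Agent.Lib.MP_557161_ag.HC.YA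
import Pool.Agent.Lib.MP_557161_ag.HC.YD
import Pool.Agent.Lib.MP_557161_ag.HC.YL
import Pool.Agent.Lib.MP_557161_ag.HC.YM
import Pool.Agent.Lib.MP_557161_ag.HC.YN
import Pool.Agent.Lib.MP_557161_ag.HC.YP
import Pool.Agent.Lib.MP_557161_ag.HC.YQ
import Pool.Agent.Lib.MP_557161_ag.HC.YT
import Pool.Agent.Lib.MP_557161_ag.HC.YU
import Pool.Agent.Lib.MP_557161_ag.HC.YW
import Pool.Agent.Lib.MP_557161_ag.HC.ZA
import Pool.Agent.Lib.MP_557161_ag.HC.ZC
import Pool.Agent.Lib.MP_557161_ag.HC.ZE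
import Pool.Agent.Lib.MP_557161_ag.HC.ZG
import Pool.Agent.Lib.MP_557161_ag.HC.ZO
import Pool.Agent.Lib.MP_557161_ag.HC.ZP
import Pool.Agent.Lib.MP_557161_ag.HC.ZR
import Pool.Agent.Lib.MP_557161_ag.HC.ZS
import Pool.Agent.Lib.MP_557161_ag.HC.ZX

/-!
The conjecture of Tate in the middle codimension for the cyclic covers, assembled.
-/

namespace Pool.Agent.Lib.MP_557161_ag.HG.HN.HC

open Pool.Agent.Lib.MP_557161_ag.DL

theorem geo {K : Type} [Field K] [Base K] {p dd : ℕ} [Fact p.Prime] [CharP K p] :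
    XA K dd ∧ XI K p dd ∧ XV K p dd ∧ XF K p dd ∧ ZR K p dd ∧ XQ K p dd := by
  have : FW0 K := FW0_thm
  have : FWp K p := FWp_thm
  obtain ⟨_, _, _, _, _, _, _, _, _, _, _, _⟩ := tools (K := K)
  have : X0 dd := X0_thm
  have : XJ dd := XJ_thm
  have : XH K := XH_thm
  have : XC := XC_thm
  have xa : XA K dd := XA_thm
  have : XG K dd := XG_thm
  have xi : XI K p dd := XI_thm
  have xf : XF K p dd := XF_thm
  have xv : XV K p dd := XV_thm
  have : XW K p dd := XW_thm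
  have : YA K dd := YA_thm
  have : YT K dd := YT_thm
  have : YD K dd := YD_thm
  have : YN K dd := YN_thm
  have : YP K dd := YP_thm
  have : YU K dd := YU_thm
  have : YL K dd p := YL_thm
  have : YM K dd p := YM_thm
  have : YW K dd := YW_thm p
  have : YQ K dd := YQ_thm
  have : TA K := TA_thm
  have : TB K := TB_thm
  have : TC K := TC_thm
  have : TD K := TD_thm
  have : ZX K dd := ZX_thm
  have : ZG K dd := ZG_thm
  have : ZP K dd := ZP_thm
  have : ZO K p dd := ZO_thm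
  have : ZS K p dd := ZS_thm
  have : ALT K p dd := ALT_thm
  exact ⟨xa, xi, xv, xf, ZR_thm, XQ_thm⟩

theorem final {k : Type} [Field k] [Finite k] {dd : ℕ} (G : GD k dd) (hm : G.m ∣ Nat.card k + 1)
    (L : ℕ → Type) [∀ m, Field (L m)] [∀ m, Algebra k (L m)]
    (hL : ∀ m, Module.finrank k (L m) = m + 1) :
    SmProj (dpI G.m G.e G.F) (2 * dd) ∧ ∃ ζ : ℂ → ℂ, IsZeta (dpI G.m G.e G.F) (2 * dd) L ζ ∧
    (((-3 * (G.m - 1) : ℤ) : WithTop ℤ) ≤ meromorphicOrderAt ζ dd +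
      meromorphicOrderAt ζ (dd + Real.pi * Complex.I / Real.log (Nat.card k)) →
    (∀ F : ∀ P : Var (dpI G.m G.e G.F) dd, Res (dpI G.m G.e G.F) P.1, ∃ ρ : ℕ,
      Module.rank ℤ (Num (dpI G.m G.e G.F) dd dd F) = ρ ∧
        meromorphicOrderAt ζ dd = (-(ρ : ℤ) : ℤ)) ∧
    ([ZY] → TateAt (Nat.card k) dd (upI (dpI G.m G.e G.F)))) := by
  have hb := T0.fbar k
  have : Fact (ringChar k).Prime := ⟨hb.prime⟩
  have := hb.char
  obtain ⟨_, _, _, _, _, _⟩ := geo (K := AlgebraicClosure k) (p := ringChar k) (dd := dd)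
  have : X0 dd := X0_thm
  have : XJ dd := XJ_thm
  have : XK dd := XK_thm
  have : XT := XT_thm
  have : XZ := XZ_thm
  have : ZA := ZA_thm
  have : ZB := ZB_thm
  have : ZC := ZC_thm
  have : ZD := ZD_thm
  have : ZE := ZE_thm
  have : ZT := ZT_thm
  obtain ⟨ζ, h1, h2⟩ := zeta_dec (p := ringChar k) G hm L hL
  exact ⟨⟨G.hI, G.hs, G.hd, fun i P => nonempty_res G.hI P.2.2.1 P.2.2.2.1,
    fun i n h P Q F => chi_eventually G.hI G.hs G.hd h P Q F⟩, ζ, h1, h2⟩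

end Pool.Agent.Lib.MP_557161_ag.HG.HN.HC
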