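import Pool.Agent.Lib.MP_557161_ag.HC.All2
import Pool.Agent.Lib.MP_557161_ag.HN.All2

/-!
The conjecture of Tate in the middle codimension for the cyclic covers of any prime degree.
-/

namespace Pool.Agent.Lib.MP_557161_ag.HG.HN.HC

open Pool.Agent.Lib.MP_557161_ag.DL MvPolynomial

theorem all {k : Type} [Field k] [Finite k] {d m e u n : ℕ} {a w : Fin (2 * d + 1) → ℕ} {lam : k}
    (hd : 0 < d) (hm : m.Prime) (hq : m ∣ Nat.card k + 1) (hu : u + 1 = m * e)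
    (hn : n * (u + 1) = u ^ (2 * d + 1) + 1) (hw : ∀ i, n * w i = u * a i + a (i - 1))
    (hod : ∀ i, Odd (a i)) (hsum : ∑ i, w i = m * e) (hcop : Finset.univ.gcd a = 1)
    (hnd : ¬ m ∣ n * ∏ i, a i) (hch : ((m * e * n * ∏ i, a i : ℕ) : k) ≠ 0) (h0 : lam ≠ 0)
    (hdisc : lam ^ n * ∏ i, (a i : k) ^ a i ≠ (-(n : k)) ^ n)
    (L : ℕ → Type) [∀ j, Field (L j)] [∀ j, Algebra k (L j)]
    (hL : ∀ j, Module.finrank k (L j) = j + 1) :
    SmProj (dpI m e (brF u w lam)) (2 * d) ∧ ∃ ζ : ℂ → ℂ,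
    IsZeta (dpI m e (brF u w lam)) (2 * d) L ζ ∧
    (((-3 * (m - 1) : ℤ) : WithTop ℤ) ≤ meromorphicOrderAt ζ d +
      meromorphicOrderAt ζ (d + Real.pi * Complex.I / Real.log (Nat.card k)) →
    (∀ F : ∀ P : Var (dpI m e (brF u w lam)) d, Res (dpI m e (brF u w lam)) P.1, ∃ ρ : ℕ,
      Module.rank ℤ (Num (dpI m e (brF u w lam)) d d F) = ρ ∧
        meromorphicOrderAt ζ d = (-(ρ : ℤ) : ℤ)) ∧
    ([ZY] → TateAt (Nat.card k) d (upI (dpI m e (brF u w lam))))) := by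
  by_cases h2 : m = 2
  · subst h2
    have n1 : Odd n := Nat.not_even_iff_odd.1 fun h => hnd (h.two_dvd.mul_right _)
    have u1 : Odd u := ⟨e - 1, by omega⟩
    have ev : ∀ i, Even (w i) := fun i => by
      have h : Even (n * w i) := hw i ▸ (u1.mul (hod i)).add_odd (hod _)
      exact (Nat.even_mul.1 h).resolve_left (Nat.not_even_iff_odd.2 n1)
    exact HN.final ⟨e, u, n, a, w, lam, hd, hu, hn, hw, ev, hsum, hcop, hch, h0, hdisc⟩ L hL
  · exact final ⟨m, e, u, n, a, w, lam, hd, hm, h2, hu, hn, hw, hod, hsum, hcop, hnd, hch, h0,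
      hdisc⟩ hq L hL

end Pool.Agent.Lib.MP_557161_ag.HG.HN.HC
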