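import Pool.Agent.Lib.MP_557161_ag.HN.Defs

/-!
The cyclic cover `z ^ m = F (x)` of a projective space in its Veronese embedding.
-/

namespace Pool.Agent.Lib.MP_557161_ag.HG.HN.HC

open MvPolynomial

/-- The homogeneous ideal of the cyclic cover `z ^ m = F (x)`, `F` a form of degree `m e`: the
kernel of `k[y] → k[x, z] / (z ^ m - F)`. -/
noncomputable def dpI {k : Type} [Field k] {σ : Type} (m e : ℕ) (F : MvPolynomial σ k) :
    Ideal (MvPolynomial (Option (Fin e → σ)) k) :=
  (Ideal.span {X none ^ m - rename some F}).comap (aeval (R := k) (nuP k e))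

end Pool.Agent.Lib.MP_557161_ag.HG.HN.HC
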