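import Pool.Agent.Lib.MP_557161_ag.HN.StV
import Pool.Agent.Lib.MP_557161_ag.HN.St4

/-!
Cyclic covers of prime degree of projective spaces of even dimension, and the statement that links
the two halves of the proof.
-/

namespace Pool.Agent.Lib.MP_557161_ag.HG.HN.HC

open Pool.Agent.Lib.MP_557161_ag.DL MvPolynomial

variable {K : Type} [Field K] {dd : ℕ} {c d : Cd}

/-- The data of a cyclic cover in a hypergeometric family. -/
structure GD (K : Type) [Field K] (dd : ℕ) where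
  m : ℕ
  e : ℕ
  u : ℕ
  n : ℕ
  a : Vr dd → ℕ
  w : Vr dd → ℕ
  lam : K
  pos : 0 < dd
  pm : m.Prime
  m2 : m ≠ 2
  hu : u + 1 = m * e
  hn : n * (u + 1) = u ^ (2 * dd + 1) + 1
  hw : ∀ i, n * w i = u * a i + a (i - 1)
  od : ∀ i, Odd (a i)
  sw : ∑ i, w i = m * e
  cop : Finset.univ.gcd a = 1
  nd : ¬ m ∣ n * ∏ i, a i
  ch : ((m * e * n * ∏ i, a i : ℕ) : K) ≠ 0
  l0 : lam ≠ 0
  disc : lam ^ n * ∏ i, (a i : K) ^ a i ≠ (-(n : K)) ^ n

/-- The multiplication of the last coordinate by a constant. -/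
def mlt (ξ : K) (L : Fld K) (x : (c.prod .one).X L) : (c.prod .one).X L :=
  (x.1, algebraMap K L ξ * x.2)

lemma mlt_one (L : Fld K) (x : (c.prod .one).X L) : mlt (1 : K) L x = x := by
  simp only [mlt, map_one, one_mul]

lemma mlt_mlt (ξ ξ' : K) (L : Fld K) (x : (c.prod .one).X L) :
    mlt ξ L (mlt ξ' L x) = mlt (ξ * ξ') L x := by
  simp only [mlt, map_mul, mul_assoc]

lemma mlt_rel (ξ : K) {M L : Fld K} (R : Rel M L) {x : (c.prod .one).X M} {x' : (c.prod .one).X L}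
    (e : (c.prod .one).lift R.r x x') : (c.prod .one).lift R.r (mlt ξ M x) (mlt ξ L x') :=
  ⟨e.1, R.mul (R.const ξ) e.2⟩

/-- The part of the cover over the torus. -/
noncomputable def GD.UU (G : GD K dd) : ASp K (xz dd) :=
  ((ASp.univ K (xz dd)).opn (fun _ x => ∀ i, x.1 i ≠ 0)
    fun _ _ _ _ _ _ _ e h i => Rel.ne_zero (e.1 i) (h i)).cl
    (fun _ x => x.1 0 = 1 ∧ x.2 ^ G.m = aeval x.1 (brF G.u G.w G.lam))
    fun _ _ _ _ _ _ _ e h => ⟨Rel.eq (e.1 0) (Rel.one _) h.1,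
      Rel.eq (Rel.pow e.2 _) (Rel.aeval e.1 _) h.2⟩

/-- The map `τ` on any factor multiplies the functional by `η`. -/
def EqA {j : ℕ} {U : ASp K c} {κ : Type} [Finite κ] [DecidableEq κ] {W : ASp K d}
    (τ : ∀ L : Fld K, c.X L → c.X L) (η : ℂ) (Φ : AF j ((U.pi κ).prod W)) : Prop :=
  ∀ (i : κ) (L : Fld K) (x : κ → c.X L) (w : d.X L),
    Φ.a L (Function.update x i (τ L (x i)), w) = η * Φ.a L (x, w)

/-- Alternating functionals vanish. -/
def AltV (U : ASp K c) (τ : ∀ L : Fld K, c.X L → c.X L) (η : ℂ) (κ : Type) [Fintype κ]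
    [DecidableEq κ] : Prop :=
  ∀ {d : Cd} (W : ASp K d) (j : ℕ) (Φ : AF j ((U.pi κ).prod W)), KillsA Φ → EqA τ η Φ →
    (∀ (σ : Equiv.Perm κ) (L : Fld K) (x : κ → c.X L) (w : d.X L),
      Φ.a L (fun i => x (σ i), w) = ((Equiv.Perm.sign σ : ℤ) : ℂ) * Φ.a L (x, w)) →
    ∀ (L : Fld K) (x : κ → c.X L) (w : d.X L), Φ.a L (x, w) = 0

/-- Alternating sums vanish. -/
def AltS (U : ASp K c) (τ : ∀ L : Fld K, c.X L → c.X L) (η : ℂ) (κ : Type) [Fintype κ]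
    [DecidableEq κ] : Prop :=
  ∀ {d : Cd} (W : ASp K d) (j : ℕ) (Φ : AF j ((U.pi κ).prod W)), KillsA Φ → EqA τ η Φ →
    ∀ (L : Fld K) (x : κ → c.X L) (w : d.X L),
      ∑ σ : Equiv.Perm κ, ((Equiv.Perm.sign σ : ℤ) : ℂ) * Φ.a L (fun i => x (σ i), w) = 0

/-- The top exterior power of each isotypic part of the motive of the cover is a sum of products. -/
class ALT (K : Type) [Field K] (p dd : ℕ) : Prop where
  alt : ∀ (G : GD K dd), (∃ s, 0 < s ∧ G.m ∣ p ^ s + 1) → ∀ {ζ : K} {η : ℂ},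
    IsPrimitiveRoot ζ G.m → η ^ G.m = 1 → η ≠ 1 →
    ∀ (κ : Type) [Fintype κ] [DecidableEq κ], Nat.card κ = G.n → AltS G.UU (mlt ζ) η κ

end Pool.Agent.Lib.MP_557161_ag.HG.HN.HC
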