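import Pool.Agent.Lib.MP_557161_ag.HC.StY

/-!
The intersection with the diagonal of the cyclic cover, by deformation to the normal cone in the
join; the self intersection of the diagonal. Definitions and statements.
-/

namespace Pool.Agent.Lib.MP_557161_ag.HG.HN.HC

open Pool.Agent.Lib.MP_557161_ag.DL MvPolynomial

section Defs

variable {K : Type} [Field K] {dd : ℕ} {d : Cd}

namespace GD

variable (G : GD K dd)

/-- The weights of the coordinates of tangent vectors. -/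
def ωK : Option (Vr dd) → ℤ := fun s => s.elim G.e fun _ => 1

/-- The weights on the product with `W`. -/
abbrev Γ1 (d : Cd) : Wt ((xz dd).prod d) := G.Γ.prod (.triv d)

/-- The product of the cyclic cover with `W`. -/
noncomputable abbrev B1 (W : ASp K d) : QS K (G.Γ1 d) := G.CC.pw W

/-- The row `(m τ z ^ (m - 1), -∇ F)`. -/
noncomputable def row {L : Fld K} (τ : L) (y : (xz dd).X L) : Option (Vr dd) → L :=
  fun s => s.elim (G.m * τ * y.2 ^ (G.m - 1)) fun i => -aeval y.1 (pderiv i G.F)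

/-- The Euler vector. -/
def eul {L : Fld K} (y : (xz dd).X L) : Option (Vr dd) → L := fun s => s.elim (G.e * y.2) y.1

lemma row_scl [X0 dd] {L : Fld K} (τ a : L) (h0 : a ≠ 0) (y : (xz dd).X L) (μ : Option (Vr dd)) :
    G.row τ (G.Γ.scl a y) μ = a ^ ((G.m * G.e : ℤ) - G.ωK μ) * G.row τ y μ := by
  cases μ with
  | none =>
    show G.m * τ * (a ^ G.e * y.2) ^ (G.m - 1) =
      a ^ ((G.m * G.e : ℤ) - G.e) * (G.m * τ * y.2 ^ (G.m - 1))
    rw [show (G.m * G.e : ℤ) - G.e = (G.e * (G.m - 1) : ℕ) by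
      rw [Nat.cast_mul, Nat.cast_sub G.pm.one_le]; ring, zpow_natCast]; ring
  | some i =>
    show -aeval (a • y.1) (pderiv i G.F) = a ^ ((G.m * G.e : ℤ) - 1) * -aeval y.1 (pderiv i G.F)
    rw [aeval_smul_of_isHomogeneous (X0.pd G i), show (G.m * G.e : ℤ) - 1 = G.u by
      have := congrArg (Nat.cast : ℕ → ℤ) G.hu; push_cast at this; omega, zpow_natCast]; ring

lemma row_rel {M L : Fld K} (R : Rel M L) {τ : M} {τ' : L} (h : R.r τ τ') {y : (xz dd).X M}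
    {y' : (xz dd).X L} (e : (xz dd).lift R.r y y') (μ : Option (Vr dd)) :
    R.r (G.row τ y μ) (G.row τ' y' μ) := by
  cases μ with
  | none => exact R.mul (R.mul (R.natCast _) h) (Rel.pow e.2 _)
  | some i => exact Rel.neg (Rel.aeval e.1 _)

/-- For `t = 1` the tangent bundle of the cone. -/
noncomputable def kb [X0 dd] (W : ASp K d) (t : ℕ) :
    KB (G.B1 W) (Option (Vr dd)) G.ωK (G.m * G.e) where
  n _ b := G.row t b.1
  hom μ := ⟨fun _ _ R _ _ _ _ e => G.row_rel R (R.natCast t) e.1 μ,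
    fun _ a x h0 _ => G.row_scl t a h0 x.1 μ⟩
  uni L b h := (X0.sm G L b.1.1 h.1.1).elim fun i hi => ⟨some i, neg_ne_zero.2 hi⟩

/-- The weights on the join times `W` times the line. -/
abbrev ΓJ (d : Cd) : Wt ((((xz dd).prod d).prod (xz dd)).prod .one) :=
  ((G.Γ1 d).prod G.Γ.aff).prod (.triv .one)

/-- The points `(((y', w), y), t)`, `y'` on the punctured cone, `y` on the cone, `t ≠ 0`. -/
noncomputable def JT (W : ASp K d) : QS K (G.ΓJ d) where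
  S := ((G.B1 W).S.prod G.C0).prod (.gm K)
  inv L a x h0 h := ⟨⟨(G.B1 W).inv L a _ h0 h.1.1, trivial, Cn0.scl h.1.2.2 a⟩, h.2⟩
  nz L x h := ((G.B1 W).nz L _ h.1.1).elim fun i hi => ⟨Sum.inl (Sum.inl i), hi⟩

variable {W : ASp K d} {j : ℕ}

/-- `θ` is the composition of the intersection with the zero section, of the projection to `W` and
of `φ`. -/
def Th [X0 dd] (t : ℕ) (φ : AF j W) (θ : QF (j + (2 * dd + 1)) (G.kb W t).tot) : Prop :=
  ∃ φ₁ : QF j (G.B1 W), (∀ L y w, G.Cn L y → φ₁.q L (y, w) = φ.a L w) ∧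
    IsUp (G.kb W t).tot (2 * dd + 1) j φ₁.q θ.q

open Classical in
/-- `Ψ` is the composition of the specialisation to the normal cone and of `θ`. -/
def IsDf [X0 dd] (θ : QF j (G.kb W 1).tot) (Ψ : QF (j + 1) (G.JT W)) : Prop :=
  ∀ (M : Fld K) (y' y : (xz dd).X M) (w : d.X M) (t : M), Good (j + 1) M → G.Cn M y' → W.mem M w →
    G.Cn0 M y → t ≠ 0 → HasS (fun O : Dv M j => if 0 < O.1.ord t then
      (O.1.ord t : ℂ) * θ.r O.1 ((y', w), t⁻¹ • (vz y - vz y')) else 0) (Ψ.q M (((y', w), y), t))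

/-- `Ψ` is the composition of the intersection with the diagonal, of the projection to `W` and of
`φ`. -/
def Con [X0 dd] (φ : AF j W) (Ψ : QF (j + (2 * dd + 1) + 1) (G.JT W)) : Prop :=
  ∃ θ, G.Th 1 φ θ ∧ G.IsDf θ Ψ

/-- The point of the join over `(y, y', w)` with parameters `T`. -/
noncomputable def jp {M N : Fld K} (β : M →ₐ[K] N) (T : Bool → N) (y y' : (xz dd).X M)
    (w : d.X M) : ((((xz dd).prod d).prod (xz dd)).prod .one).X N :=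
  ((((xz dd).map β y', d.map β w), G.Γ.scl (T true) ((xz dd).map β y)), T false)

/-- `Φ` is the restriction of `c` times an isotypic part of `Ψ`. -/
def IsAff (ζ : K) (γ c : ℂ) (Ψ : QF (j + 2) (G.JT W)) (Φ : AF j ((G.UU.prod G.UU).prod W)) :
    Prop :=
  ∀ (L M : Fld K) (α : L →ₐ[K] M) (T : Bool → M) (A B : (xz dd).X L) (w : d.X L), Free j α T →
    G.UU.mem L A → G.UU.mem L B → W.mem L w →
    Φ.a L ((A, B), w) = c * ∑ s ∈ Finset.range G.m, ∑ s' ∈ Finset.range G.m, γ⁻¹ ^ s * γ ^ s' *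
      Ψ.q M (G.jp α T (mlt (ζ ^ s) L A) (mlt (ζ ^ s') L B) w)

/-- `(y, t)` is a generic point of the product of the cone with a line. -/
structure GenC (j : ℕ) {L M : Fld K} (α : L →ₐ[K] M) (y : (xz dd).X M) (t : M) : Prop where
  gL : Good j L
  gM : Good (j + (2 * dd + 1) + 1) M
  mem : G.Cn0 M y
  top : gen α (Sum.elim (vz y) fun _ : Unit => t) = ⊤

/-- `ϖ` is the value of `θ` on the plane bundle over the ramification divisor. -/
def IsPl (i : ℕ) (θ : ∀ L : Fld K, (((xz dd).prod d).prod (.vec (Option (Vr dd)))).X L → ℂ)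
    (W : ASp K d) (ϖ : ∀ N : Fld K, ((G.Γ1 d).amb K).pt N → ℂ) : Prop :=
  (∀ (N N' : Fld K) (α : N →ₐ[K] N') (T : Bool → N') (y : (xz dd).X N) (w : d.X N), Free i α T →
    G.Cn N y → y.2 = 0 → W.mem N w → ϖ N ((G.Γ1 d).pt (y, w)) =
      θ N' (((xz dd).map α y, d.map α w), pln T ((xz dd).map α y))) ∧
  ∀ (N : Fld K) (E : ((G.Γ1 d).amb K).pt N), ϖ N E ≠ 0 → Good i N ∧
    ∃ y w, G.Cn N y ∧ y.2 = 0 ∧ W.mem N w ∧ E = (G.Γ1 d).pt (y, w)

/-- The terms of the intersection with the ramification divisor. -/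
noncomputable def ramT (ϖ : ∀ N : Fld K, ((G.Γ1 d).amb K).pt N → ℂ) {M : Fld K} (y : (xz dd).X M)
    (w : d.X M) (O : Pl M) : ℂ :=
  ((G.Γ1 d).ow O G.e y.2 (y, w) : ℂ) * ϖ O.res (((G.Γ1 d).amb K).red O ((G.Γ1 d).pt (y, w)))

end GD

end Defs

variable (K : Type) [Field K] (dd : ℕ) [X0 dd]

/-- Points of the cyclic cover. -/
class YA : Prop where
  cmp : ∀ {G : GD K dd} {M : Fld K} (O : Pl M) {y : (xz dd).X M}, G.Cn M y → ∃ i y', y.1 i ≠ 0 ∧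
    G.Cn O.res y' ∧ (xz dd).lift (Rel.ofPl O).r (G.Γ.scl (y.1 i)⁻¹ y) y'
  int : ∀ {G : GD K dd} {M : Fld K} (O : Pl M) {y : (xz dd).X M}, G.Cn0 M y → IntV O y.1 →
    y.2 ∈ O.O
  uu : ∀ {G : GD K dd} {L : Fld K} {y : (xz dd).X L}, G.UU.mem L y → G.Cn L y
  taylor : ∀ G : GD K dd, ∃ H : MvPolynomial ((Option (Vr dd) ⊕ Option (Vr dd)) ⊕ Unit) K,
    ∀ (L : Fld K) (y y' : (xz dd).X L) (v : Option (Vr dd) → L) (t : L),
      (vz y = vz y' + t • v → t * aeval (Sum.elim (Sum.elim (vz y') v) fun _ => t) H =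
        (y.2 ^ G.m - aeval y.1 G.F) - (y'.2 ^ G.m - aeval y'.1 G.F)) ∧
      aeval (Sum.elim (Sum.elim (vz y') v) fun _ => (0 : L)) H = ∑ μ, G.row (1 : L) y' μ * v μ ∧
      ∀ a : L, a ≠ 0 → aeval (Sum.elim (Sum.elim (vz (G.Γ.scl a y')) fun μ => a ^ G.ωK μ * v μ)
        fun _ => t) H = a ^ (G.m * G.e) * aeval (Sum.elim (Sum.elim (vz y') v) fun _ => t) H
  kerC : ∀ {G : GD K dd} {i : ℕ} {L M : Fld K} {α : L →ₐ[K] M} {y : (xz dd).X M}, Good i L →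
    Good (i + (2 * dd + 1)) M → G.Cn0 M y → gen α (vz y) = ⊤ →
    ∀ f : MvPolynomial (Option (Vr dd)) L, eval₂ α.toRingHom (vz y) f = 0 →
      X none ^ G.m - rename some (MvPolynomial.map (algebraMap K L) G.F) ∣ f
  genC : ∀ {G : GD K dd} {j : ℕ} {L M N : Fld K} {α : L →ₐ[K] M} {y : (xz dd).X M}, G.GenU j α y →
    ∀ (β : M →ₐ[K] N) (b t : N), Good (j + (2 * dd + 1) + 1) N → b ≠ 0 → gen β ![b, t] = ⊤ →
      G.GenC j (β.comp α) (G.Γ.scl b ((xz dd).map β y)) t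

/-- The intersection with the zero section of the tangent bundle. -/
class YT : Prop where
  ex : ∀ (G : GD K dd) {d : Cd} {W : ASp K d} {j : ℕ} (t : ℕ) (φ : AF j W), ∃ θ, G.Th t φ θ
  kills : ∀ {G : GD K dd} {d : Cd} {W : ASp K d} {j t : ℕ} {φ : AF j W} {θ}, G.Th t φ θ →
    ∀ q : d.ι → Prop, KlP d q j φ.a → KlP (((xz dd).prod d).prod (.vec (Option (Vr dd))))
      (Sum.elim (Sum.elim (fun _ => True) q) fun _ => True) (j + (2 * dd + 1)) θ.q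
  nat : ∀ {G : GD K dd} {d d' : Cd} {W : ASp K d} {W' : ASp K d'} {j t : ℕ} {φ : AF j W}
    {φ' : AF j W'} {θ θ'}, G.Th t φ θ → G.Th t φ' θ' → ∀ {g : ∀ L : Fld K, d'.X L → d.X L},
    Mp W' W g → Pro W' W g → ∀ χ : ℂ, (∀ L w, W'.mem L w → φ'.a L w = χ * φ.a L (g L w)) →
    ∀ (L : Fld K) y (w : d'.X L) v, W'.mem L w →
      θ'.q L ((y, w), v) = χ * θ.q L ((y, g L w), v)
  low : ∀ {G : GD K dd} {d : Cd} {W : ASp K d} {j t m : ℕ}
    (θ : QF (j + (2 * dd + 1)) (G.kb W t).tot) {L : Fld K} {b : ((xz dd).prod d).X L} (v),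
    ((xz dd).prod d).Dm L b m → m < j → θ.q L (b, v) = 0
  val : ∀ {G : GD K dd} {d : Cd} {W : ASp K d} {j t : ℕ} {φ : AF j W} {θ}, G.Th t φ θ →
    ∀ {L M : Fld K} {α : L →ₐ[K] M} {y : (xz dd).X L} (w : d.X L) {v : Option (Vr dd) → M},
    Good j L → Good (j + (2 * dd + 1)) M → gen α v = ⊤ → G.Cn L y → W.mem L w →
    ∑ μ, G.row (t : M) ((xz dd).map α y) μ * v μ = 0 →
    θ.q M (((xz dd).map α y, d.map α w), v) = φ.a L w
  ram : ∀ {G : GD K dd} {d : Cd} {W : ASp K d} {j : ℕ} {φ : AF j W} {θ₀ θ₁}, G.Th 0 φ θ₀ →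
    G.Th 1 φ θ₁ → ∀ (L : Fld K) (y : (xz dd).X L) w v, y.2 = 0 →
      θ₀.q L ((y, w), v) = θ₁.q L ((y, w), v)
  pl : ∀ {G : GD K dd} {d : Cd} {W : ASp K d} {i k t : ℕ} (θ : QF k (G.kb W t).tot), k = i + 2 →
    ∃ ϖ, G.IsPl i θ.q W ϖ

/-- The specialisation to the normal cone. -/
class YD : Prop where
  ex : ∀ (G : GD K dd) {d : Cd} {W : ASp K d} {j : ℕ} (θ : QF j (G.kb W 1).tot), ∃ Ψ, G.IsDf θ Ψ

/-- Naturality and exterior products. -/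
class YN : Prop where
  nat : ∀ {G : GD K dd} {d d' : Cd} {W : ASp K d} {W' : ASp K d'} {j : ℕ} {φ : AF j W}
    {φ' : AF j W'} {Ψ Ψ'}, G.Con φ Ψ → G.Con φ' Ψ' → ∀ {g : ∀ L : Fld K, d'.X L → d.X L},
    Mp W' W g → Pro W' W g → ∀ χ : ℂ, (∀ L w, W'.mem L w → φ'.a L w = χ * φ.a L (g L w)) →
    ∀ (L : Fld K) y' y t (w : d'.X L), W'.mem L w →
      Ψ'.q L (((y', w), y), t) = χ * Ψ.q L (((y', g L w), y), t)
  kills : ∀ {G : GD K dd} {d : Cd} {W : ASp K d} {j : ℕ} {φ : AF j W} {Ψ}, G.Con φ Ψ →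
    ∀ q : d.ι → Prop, KlP d q j φ.a → KlP ((((xz dd).prod d).prod (xz dd)).prod .one)
      (Sum.elim (Sum.elim (Sum.elim (fun _ => True) q) fun _ => True) fun _ => True)
      (j + (2 * dd + 1) + 1) Ψ.q

/-- The place of the blow-up of a rational point. -/
class YP : Prop where
  pt : ∀ {G : GD K dd} {j : ℕ} {L M : Fld K} {α : L →ₐ[K] M} {y : (xz dd).X M} {t : M},
    G.GenC j α y t → ∀ R : (xz dd).X L, G.Cn L R → ∀ v : Option (Vr dd) → M,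
    v = t⁻¹ • (vz ((xz dd).map α R) - vz y) →
    ∃ (O : Dv M (j + (2 * dd + 1))) (h : Pl.Triv α O.1), O.1.ord t = 1 ∧ IntV O.1 v ∧
      gen h.hom (rdV O.1 v) = ⊤ ∧ ∑ μ, G.row (1 : O.1.res) ((xz dd).map h.hom R) μ * rdV O.1 v μ = 0 ∧
      ∀ (O' : Pl M) (h' : Pl.Triv α O'), O'.IsDVR → O' ≠ O.1 → t ∈ O'.O → O'.rd t = 0 → IntV O' v →
        (O'.res.sub (gen h'.hom (rdV O' v))).tr ≤ (j + 2 * dd : ℕ)

/-- The diagonal is the unit. -/
class YU : Prop where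
  unit : ∀ {G : GD K dd} {c d : Cd} {S : ASp K c} {W : ASp K d} {j : ℕ} {φ : AF j W} {Ψ},
    G.Con φ Ψ → ∀ {g : ∀ L : Fld K, ((xz dd).prod c).X L → d.X L}, Mp (G.UU.prod S) W g →
    Pro (G.UU.prod S) W g → ∀ {L M N : Fld K} {α : L →ₐ[K] M} {y : (xz dd).X M}, G.GenU j α y →
    ∀ (R : (xz dd).X L) (u : c.X L), G.UU.mem L R → S.mem L u → ∀ (β : M →ₐ[K] N) (T : Bool → N),
      Free (j + 2 * dd) β T →
      Ψ.q N (G.jp β T ((xz dd).map α R) y (g M (y, c.map α u))) = φ.a L (g L (R, u))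

/-- The fixed point formula. -/
class YL (p : ℕ) : Prop where
  loop : ∀ {G : GD K dd} {d : Cd} {W : ASp K d} {j : ℕ} {φ : AF j W} {Ψ}, G.Con φ Ψ → ∀ {Q : ℕ},
    1 < Q → G.Fr p Q → ∀ {L M N : Fld K} {α : L →ₐ[K] M} {y : (xz dd).X M}, G.GenU j α y →
    ∀ w : d.X L, W.mem L w → ∀ ξ : K, ξ ^ G.m = 1 → ∀ (β : M →ₐ[K] N) (T : Bool → N),
      Free (j + 2 * dd) β T →
      Ψ.q N (G.jp β T (mlt ξ M (frb Q M y)) y (d.map α w)) = G.fx Q ξ * φ.a L w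

/-- The fixed point formula, for the transpose. -/
class YM (p : ℕ) : Prop where
  loop : ∀ {G : GD K dd} {d : Cd} {W : ASp K d} {j : ℕ} {φ : AF j W} {Ψ}, G.Con φ Ψ → ∀ {Q : ℕ},
    1 < Q → G.Fr p Q → ∀ {L M N : Fld K} {α : L →ₐ[K] M} {y : (xz dd).X M}, G.GenU j α y →
    ∀ w : d.X L, W.mem L w → ∀ ξ : K, ξ ^ G.m = 1 → ∀ (β : M →ₐ[K] N) (T : Bool → N),
      Free (j + 2 * dd) β T →
      Ψ.q N (G.jp β T y (mlt ξ M (frb Q M y)) (d.map α w)) = G.fx Q ξ * φ.a L w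

/-- Isotypic parts live on the part over the torus. -/
class YW : Prop where
  aff : ∀ (G : GD K dd) {ζ : K} {γ : ℂ}, ζ ^ G.m = 1 → γ ^ G.m = 1 → γ ≠ 1 →
    ∀ {d : Cd} {W : ASp K d} {j : ℕ} (c : ℂ) (Ψ : QF (j + 2) (G.JT W)), ∃ Φ, G.IsAff ζ γ c Ψ Φ

/-- Functionals that vanish on exterior products have no invariant part; isotypic functionals live
over the torus. -/
class YQ : Prop where
  anti : ∀ (G : GD K dd) {ζ : K}, IsPrimitiveRoot ζ G.m → ∀ {j : ℕ}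
    (φ : Fn j (G.CC.sp.prod G.CC.sp)), φ.Kills → ∀ (L : Fld K)
    (y : (xz dd).X L) (E : (G.Γ.amb K).pt L), G.Cn L y →
      ∑ s ∈ Finset.range G.m, φ.v L (G.Γ.pt (mlt (ζ ^ s) L y), E) = 0 ∧
      ∑ s ∈ Finset.range G.m, φ.v L (E, G.Γ.pt (mlt (ζ ^ s) L y)) = 0
  aff : ∀ (G : GD K dd) {ζ : K} {η η' : ℂ}, ζ ^ G.m = 1 → η ≠ 1 → η' ≠ 1 → ∀ {j : ℕ}
    (φ : Fe j (G.CC.sp.prod G.CC.sp)), (∀ (L : Fld K)
    (y : (xz dd).X L) (E : (G.Γ.amb K).pt L), G.Cn L y →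
      φ.v L (G.Γ.pt (mlt ζ L y), E) = η * φ.v L (G.Γ.pt y, E) ∧
      φ.v L (E, G.Γ.pt (mlt ζ L y)) = η' * φ.v L (E, G.Γ.pt y)) →
    ∃ Φ : AF j (G.UU.pi Bool), ∀ L x, (G.UU.pi Bool).mem L x →
      Φ.a L x = φ.v L (G.Γ.pt (x true), G.Γ.pt (x false))

/-- The self intersection of the diagonal, and its intersection with the graphs of the covering
transformations. -/
class ZX : Prop where
  dg : ∀ {G : GD K dd} {d : Cd} {W : ASp K d} {i k : ℕ} {θ : QF k (G.kb W 1).tot} {Ψ},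
    k = i + 1 → G.IsDf θ Ψ → ∀ {M N M₁ : Fld K} {y : (xz dd).X M} {w : d.X M}, G.Cn M y → W.mem M w →
    ∀ (β : M →ₐ[K] N) (T : Bool → N), Free i β T → ∀ (β₁ : M →ₐ[K] M₁) (s : M₁),
      Free i β₁ (fun _ : Unit => s) → Ψ.q N (G.jp β T y y w) =
        θ.q M₁ (((xz dd).map β₁ y, d.map β₁ w), s • G.eul ((xz dd).map β₁ y))
  gr : ∀ {G : GD K dd} {d : Cd} {W : ASp K d} {i k : ℕ} {θ : QF k (G.kb W 1).tot} {Ψ},
    k = i + 2 → G.IsDf θ Ψ → ∀ {ϖ}, G.IsPl i θ.q W ϖ → ∀ {M N : Fld K} {y : (xz dd).X M} {w : d.X M},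
    G.Cn M y → y.2 ≠ 0 → W.mem M w → ∀ ξ : K, ξ ^ G.m = 1 → ξ ≠ 1 →
    ∀ (β : M →ₐ[K] N) (T : Bool → N), Free (i + 1) β T →
      HasS (fun O : Dv M i => G.ramT ϖ y w O.1) (Ψ.q N (G.jp β T (mlt ξ M y) y w))

/-- The degeneration of the Euler line bundle. -/
class ZG : Prop where
  deg : ∀ {G : GD K dd} {d : Cd} {W : ASp K d} {j i : ℕ} {φ : AF j W} {θ₀ θ₁}, G.Th 0 φ θ₀ →
    G.Th 1 φ θ₁ → i + 1 = j + 2 * dd → ∀ {ϖ}, G.IsPl i θ₀.q W ϖ →
    ∀ {M M₁ : Fld K} {y : (xz dd).X M} {w : d.X M}, G.Cn M y → y.2 ≠ 0 → W.mem M w →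
    ∀ (β₁ : M →ₐ[K] M₁) (s : M₁), Free (i + 1) β₁ (fun _ : Unit => s) →
      HasS (fun O : Dv M i => G.ramT ϖ y w O.1)
        (θ₁.q M₁ (((xz dd).map β₁ y, d.map β₁ w), s • G.eul ((xz dd).map β₁ y)) -
          θ₀.q M₁ (((xz dd).map β₁ y, d.map β₁ w), zl s))

/-- The top Chern class of the logarithmic tangent bundle. -/
class ZP : Prop where
  val : ∀ {G : GD K dd} {d : Cd} {W : ASp K d} {j : ℕ} {φ : AF j W} {θ₀}, G.Th 0 φ θ₀ →
    ∀ {L M M₁ : Fld K} {α : L →ₐ[K] M} {y : (xz dd).X M}, G.GenU j α y → ∀ w : d.X L, W.mem L w →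
    ∀ (β₁ : M →ₐ[K] M₁) (s : M₁), Free (j + 2 * dd) β₁ (fun _ : Unit => s) →
      θ₀.q M₁ (((xz dd).map β₁ y, d.map β₁ (d.map α w)), zl s) = G.m * G.n * φ.a L w

end Pool.Agent.Lib.MP_557161_ag.HG.HN.HC
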