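import Pool.Agent.Lib.MP_557161_ag.HC.Itf
import Pool.Agent.Lib.MP_557161_ag.HC.Defs

/-!
The cyclic cover: points, Frobenius, contraction laws, diagrams; statements.
-/

namespace Pool.Agent.Lib.MP_557161_ag.HG.HN.HC

open Pool.Agent.Lib.MP_557161_ag.DL MvPolynomial
open Pool.Agent.Lib.MP_60ec62_ag.DL (Cyc)

section Defs

variable {K : Type} [Field K] {dd : ℕ} {c d d' : Cd}

namespace GD

variable (G : GD K dd)

/-- The branch polynomial. -/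
noncomputable abbrev F : MvPolynomial (Vr dd) K := brF G.u G.w G.lam

lemma homF : G.F.IsHomogeneous (G.m * G.e) := by
  refine IsHomogeneous.add (IsHomogeneous.sum _ _ _ fun i _ => ?_) ?_
  · rw [← G.hu]
    simpa using ((isHomogeneous_X K i).pow G.u).mul (isHomogeneous_X K (i + 1))
  · rw [← G.sw]
    simpa using (isHomogeneous_C _ G.lam).mul (IsHomogeneous.prod Finset.univ _ (fun i => G.w i)
      fun i _ => by simpa using (isHomogeneous_X K i).pow (G.w i))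

/-- The coordinates of the embedding. -/
abbrev σ : Type := Option (Fin G.e → Vr dd)

/-- The embedding. -/
def nu {L : Type} [CommRing L] (y : (xz dd).X L) : G.σ → L :=
  fun s => s.elim y.2 fun m => ∏ i, y.1 (m i)

/-- The weights of `(x, z)`. -/
abbrev Γ : Wt (xz dd) := (Wt.proj (Vr dd)).prod (.nat G.e)

/-- The affine cone. -/
def Cn0 (L : Fld K) (y : (xz dd).X L) : Prop := y.2 ^ G.m = aeval y.1 G.F

/-- Points of the punctured cone. -/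
def Cn (L : Fld K) (y : (xz dd).X L) : Prop := y.1 ≠ 0 ∧ G.Cn0 L y

lemma Cn0.scl {G : GD K dd} {L : Fld K} {y : (xz dd).X L} (h : G.Cn0 L y) (a : L) :
    G.Cn0 L (G.Γ.scl a y) := by
  show (a ^ G.e * y.2) ^ G.m = aeval (a • y.1) G.F
  rw [aeval_smul_of_isHomogeneous G.homF, ← show y.2 ^ G.m = _ from h]; ring

/-- The affine cone. -/
noncomputable def C0 : ASp K (xz dd) :=
  (ASp.univ K (xz dd)).cl G.Cn0 fun _ _ _ _ _ _ _ e h => Rel.eq (Rel.pow e.2 _) (Rel.aeval e.1 _) h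

/-- The cyclic cover. -/
noncomputable def CC : QS K G.Γ where
  S := (G.C0.opn (fun _ y => y.1 ≠ 0) fun _ _ _ _ _ _ _ e h h' =>
    h (funext fun i => Rel.eq_zero (e.1 i) (congrFun h' i))).copy G.Cn
      fun _ _ => ⟨fun h => ⟨⟨trivial, h.2⟩, h.1⟩, fun h => ⟨h.2, h.1.2⟩⟩
  inv _ a _ h0 h := ⟨smul_ne_zero h0 h.1, h.2.scl a⟩
  nz _ _ h := (Function.ne_iff.1 h.1).elim fun i hi => ⟨Sum.inl i, trivial, hi⟩

/-- `Q` is a power of the characteristic and the cyclic cover is defined over the field with `Q`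
elements. -/
def Fr (p Q : ℕ) : Prop := (∃ f, Q = p ^ f) ∧ G.lam ^ Q = G.lam

/-- Moreover `q` is `-1` modulo the degree. -/
def Fq (p q : ℕ) : Prop := G.Fr p q ∧ G.m ∣ q + 1

/-- The number of fixed points of the composition of Frobenius with `z ↦ ξ z`. -/
noncomputable def fx (Q : ℕ) (ξ : K) : ℕ :=
  Nat.card {E : (G.Γ.amb K).pt (.base K) // ∃ y, G.Cn (.base K) y ∧ E = G.Γ.pt y ∧
    E = G.Γ.pt (mlt ξ (.base K) (frb Q (.base K) y))}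

/-- The trace of Frobenius on an isotypic part. -/
noncomputable def tr (ζ : K) (η : ℂ) (Q : ℕ) : ℂ :=
  (∑ s ∈ Finset.range G.m, η ^ s * G.fx Q (ζ ^ s)) / G.m

/-- The trace of the powers of Frobenius on an isotypic part. -/
noncomputable def PP (ζ : K) (η : ℂ) (q j : ℕ) : ℂ := if j = 0 then G.n else G.tr ζ η (q ^ j)

/-- `y` is a generic point of the cyclic cover over `L`, and `M` is its function field. -/
structure GenU (j : ℕ) {L M : Fld K} (α : L →ₐ[K] M) (y : (xz dd).X M) : Prop where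
  gL : Good j L
  gM : Good (j + 2 * dd) M
  mem : G.UU.mem M y
  top : gen α ((xz dd).co y) = ⊤

end GD

/-- The type of relations between functionals on `W` and on `U × U × W`. -/
abbrev CRel (G : GD K dd) : Type 1 :=
  ∀ ⦃d : Cd⦄ ⦃W : ASp K d⦄ ⦃j : ℕ⦄, AF j W → AF (j + 2 * dd) ((G.UU.prod G.UU).prod W) → Prop

/-- The laws of the contraction with the diagonal. -/
structure ConL (G : GD K dd) (p : ℕ) (ζ : K) (γ : ℂ) (AC : CRel G) : Prop where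
  ex : ∀ {d : Cd} {W : ASp K d} {j : ℕ} (φ : AF j W), ∃ Φ, AC φ Φ
  eqv : ∀ {d : Cd} {W : ASp K d} {j : ℕ} {φ : AF j W} {Φ}, AC φ Φ → ∀ (L : Fld K)
    (A B : (xz dd).X L) (w : d.X L), Φ.a L ((mlt ζ L A, B), w) = γ * Φ.a L ((A, B), w) ∧
      Φ.a L ((A, mlt ζ L B), w) = γ⁻¹ * Φ.a L ((A, B), w)
  nat : ∀ {d d' : Cd} {W : ASp K d} {W' : ASp K d'} {j : ℕ} {φ : AF j W} {φ' : AF j W'} {Φ Φ'},
    AC φ Φ → AC φ' Φ' → ∀ {g : ∀ L : Fld K, d'.X L → d.X L}, Mp W' W g → Pro W' W g → ∀ χ : ℂ,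
    (∀ L w, W'.mem L w → φ'.a L w = χ * φ.a L (g L w)) →
    ∀ (L : Fld K) (A B : (xz dd).X L) (w : d'.X L), W'.mem L w →
      Φ'.a L ((A, B), w) = χ * Φ.a L ((A, B), g L w)
  kills : ∀ {d : Cd} {W : ASp K d} {j : ℕ} {φ : AF j W} {Φ}, AC φ Φ → ∀ q : d.ι → Prop,
    KlP d q j φ.a →
    KlP (((xz dd).prod (xz dd)).prod d) (Sum.elim (fun _ => True) q) (j + 2 * dd) Φ.a
  unit : ∀ {c d : Cd} {S : ASp K c} {W : ASp K d} {j : ℕ} {φ : AF j W} {Φ}, AC φ Φ →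
    ∀ {g : ∀ L : Fld K, ((xz dd).prod c).X L → d.X L}, Mp (G.UU.prod S) W g →
    Pro (G.UU.prod S) W g →
    ∀ {L M : Fld K} {α : L →ₐ[K] M} {y : (xz dd).X M}, G.GenU j α y →
    ∀ (R : (xz dd).X L) (u : c.X L), G.UU.mem L R → S.mem L u →
      Φ.a M (((xz dd).map α R, y), g M (y, c.map α u)) =
        (∑ s ∈ Finset.range G.m, γ⁻¹ ^ s * φ.a L (g L (mlt (ζ ^ s) L R, u))) / G.m
  loop : ∀ {d : Cd} {W : ASp K d} {j : ℕ} {φ : AF j W} {Φ}, AC φ Φ → ∀ {Q : ℕ}, 1 < Q → G.Fr p Q →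
    Q ≡ 1 [MOD G.m] →
    ∀ {L M : Fld K} {α : L →ₐ[K] M} {y : (xz dd).X M}, G.GenU j α y → ∀ w : d.X L, W.mem L w →
      Φ.a M ((frb Q M y, y), d.map α w) = G.tr ζ γ⁻¹ Q * φ.a L w ∧
      Φ.a M ((y, frb Q M y), d.map α w) = G.tr ζ γ Q * φ.a L w
  diag : ∀ {d : Cd} {W : ASp K d} {j : ℕ} {φ : AF j W} {Φ}, AC φ Φ →
    ∀ {L M : Fld K} {α : L →ₐ[K] M} {y : (xz dd).X M}, G.GenU j α y → ∀ w : d.X L, W.mem L w →
      Φ.a M ((y, y), d.map α w) = G.n * φ.a L w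

section Diagrams

variable {T : Type}

/-- The normalised value of `a` on the product of graphs of Frobenius given by `τ` and `e`. -/
def DV (G : GD K dd) (q : ℕ) (a : ∀ L : Fld K, (T → (xz dd).X L) → ℂ) (τ : T → T) (e : T → ℕ)
    (v : ℂ) : Prop :=
  ∀ (L : Fld K) (P : T → (xz dd).X L), Good (dd * Nat.card T) L → (∀ i, G.UU.mem L (P i)) →
    (∀ i, P (τ i) = P i) → a L (cfg q e L P) = Bridge.dg (xf L P) * v

/-- The map `z ↦ ζ z` on the factor `i` multiplies the functional by `c i`. -/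
def EqP [DecidableEq T] (ζ : K) (c : T → ℂ) (a : ∀ L : Fld K, (T → (xz dd).X L) → ℂ) : Prop :=
  ∀ (i : T) (L : Fld K) (x : T → (xz dd).X L),
    a L (Function.update x i (mlt ζ L (x i))) = c i * a L x

/-- The eigenvalues match on every strand. -/
def Mt (q : ℕ) (c : T → ℂ) (τ : T → T) (e : T → ℕ) : Prop :=
  ∀ i, c i ^ q ^ e i * c (τ i) ^ q ^ e (τ i) = 1

/-- The eigenvalues after one contraction. -/
noncomputable def ext2 (γ : ℂ) (c : T → ℂ) (t : Option (Option T)) : ℂ :=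
  t.elim γ fun t' => t'.elim γ⁻¹ c

/-- Every contracted pair of slots has odd total exponent, the open slots have even exponents. -/
def OddP : ∀ r, (Tw r → ℕ) → Prop
  | 0, e => Even (e true) ∧ Even (e false)
  | r + 1, e => Odd (e none + e (some none)) ∧ OddP r fun t => e (some (some t))

end Diagrams

end Defs

/-- The ideal of the cyclic cover. -/
class XJ (dd : ℕ) : Prop where
  hom : ∀ {k : Type} [Field k] {m e : ℕ} {F : MvPolynomial (Vr dd) k}, 0 < e →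
    F.IsHomogeneous (m * e) → Homog (dpI m e F)
  up : ∀ {k : Type} [Field k] (m e : ℕ) (F : MvPolynomial (Vr dd) k),
    upI (dpI m e F) = dpI m e (MvPolynomial.map (algebraMap k (AlgebraicClosure k)) F)
  dim : ∀ {k : Type} [Field k] {m e : ℕ} {F : MvPolynomial (Vr dd) k}, m.Prime → 0 < e →
    (∀ g : MvPolynomial (Vr dd) k, g ^ m ≠ F) → (dpI m e F).IsPrime ∧
    ringKrullDim (MvPolynomial (Option (Fin e → Vr dd)) k ⧸ dpI m e F) = (2 * dd + 1 : ℕ)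

/-- The cyclic cover is smooth. -/
class XK (dd : ℕ) : Prop where
  smooth : ∀ {k : Type} [Field k] {m e : ℕ} {F : MvPolynomial (Vr dd) k}, 0 < e → (m : k) ≠ 0 →
    F.IsHomogeneous (m * e) → (∀ x : Vr dd → AlgebraicClosure k, x ≠ 0 → aeval x F = 0 →
      ∃ i, aeval x (pderiv i F) ≠ 0) → ∀ s, Algebra.Smooth k (Chart (dpI m e F) s)

/-- The branch hypersurface is smooth. -/
class X0 (dd : ℕ) : Prop where
  num : ∀ {k : Type} [Field k] (G : GD k dd), 0 < G.e ∧ Odd G.n ∧ 2 ≤ G.u ∧ (G.m : k) ≠ 0 ∧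
    (G.e : k) ≠ 0 ∧ (∀ i, 0 < G.w i) ∧
    (G.n : ℤ) = ∑ i ∈ Finset.range (2 * dd + 1), (-(G.u : ℤ)) ^ i
  sm : ∀ {k : Type} [Field k] (G : GD k dd) (L : Type) [Field L] [Algebra k L] (x : Vr dd → L),
    x ≠ 0 → ∃ i, aeval x (pderiv i G.F) ≠ 0
  pd : ∀ {k : Type} [Field k] (G : GD k dd) (i : Vr dd), (pderiv i G.F).IsHomogeneous G.u
  eul : ∀ {k : Type} [Field k] (G : GD k dd) (L : Type) [Field L] [Algebra k L] (x : Vr dd → L),
    ∑ i, aeval x (pderiv i G.F) * x i = G.m * G.e * aeval x G.F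
  e0 : ∀ {k : Type} [Field k] (G : GD k dd) (L : Type) [Field L] [Algebra k L] (i : Vr dd),
    aeval (Pi.single i (1 : L) : Vr dd → L) G.F = 0
  bd : ∀ {k : Type} [Field k] (G : GD k dd) (i : Vr dd), ∃ c : Vr dd → ℤ,
    ∀ (L : Type) [Field L] [Algebra k L] (t : L) (x : Vr dd → L), t ≠ 0 → x i = 0 →
      aeval (fun l => t ^ (G.m * c l) * x l) G.F = t ^ G.m * aeval x G.F

section Geo

variable (K : Type) [Field K]

/-- The branch polynomial is not a power. -/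
class XA (dd : ℕ) : Prop where
  nsq : ∀ (G : GD K dd) (L : Fld K) (g : MvPolynomial (Vr dd) L),
    g ^ G.m ≠ MvPolynomial.map (algebraMap K L) G.F
  nsq' : ∀ (G : GD K dd) {j : ℕ} {L M : Fld K} {α : L →ₐ[K] M} (x : Vr dd → M) (k : Vr dd),
    x k = 1 → Free j α (fun i : {i // i ≠ k} => x i) → ∀ z : M, z ^ G.m ≠ aeval x G.F
  frob : ∀ (G : GD K dd) {p Q : ℕ} [Fact p.Prime] [CharP K p], G.Fr p Q → ∀ (L : Fld K)
    (x : Vr dd → L), aeval (fun i => x i ^ Q) G.F = aeval x G.F ^ Q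

/-- Generic points of the cyclic cover. -/
class XG (dd : ℕ) : Prop where
  ex : ∀ (G : GD K dd) {j : ℕ} {L : Fld K}, Good j L →
    ∃ (M : Fld K) (α : L →ₐ[K] M) (y : (xz dd).X M), G.GenU j α y
  neg : ∀ {G : GD K dd} {j : ℕ} {L M : Fld K} {α : L →ₐ[K] M} {y : (xz dd).X M}, G.GenU j α y →
    ∀ ξ : K, ξ ^ G.m = 1 → G.GenU j α (mlt ξ M y)
  chart : ∀ {G : GD K dd} {j : ℕ} {L M : Fld K} {α : L →ₐ[K] M} {y : (xz dd).X M}, G.GenU j α y →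
    ∀ k : Vr dd, ∃ (M₀ : Fld K) (α₀ : L →ₐ[K] M₀) (β : M₀ →ₐ[K] M) (x : Vr dd → M₀),
      β.comp α₀ = α ∧ x k = 1 ∧ (∀ i, β (x i) = y.1 i / y.1 k) ∧
      Free j α₀ (fun i : {i // i ≠ k} => x i) ∧ deg β = G.m ∧ Gen β (y.2 / y.1 k ^ G.e)
  ker : ∀ {G : GD K dd} {j : ℕ} {L M : Fld K} {α : L →ₐ[K] M} {y : (xz dd).X M}, G.GenU j α y →
    ∀ (k : Vr dd) (f : MvPolynomial (Option (Vr dd)) L),
      eval₂ α.toRingHom (fun s => s.elim (y.2 / y.1 k ^ G.e) fun i => y.1 i / y.1 k) f = 0 →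
      f ∈ Ideal.span {X (some k) - 1,
        X none ^ G.m - rename some (MvPolynomial.map (algebraMap K L) G.F)}
  dgr : ∀ {G : GD K dd} {j : ℕ} {L M : Fld K} {α : L →ₐ[K] M} {y : (xz dd).X M}, G.GenU j α y →
    ∀ s : Set L, Bridge.dg (IntermediateField.adjoin K (α '' s ∪ Set.range y.1)) =
      G.m * Bridge.dg (IntermediateField.adjoin K s)

/-- The ideal of the cyclic cover over an algebraically closed field. -/
class XI (p dd : ℕ) : Prop where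
  zl : ∀ (G : GD K dd) (L : Fld K) (y : (xz dd).X L), G.Cn0 L y →
    G.nu y ∈ zeroLocus L (dpI G.m G.e G.F)
  fix : ∀ (G : GD K dd) (Y : Sm K G.σ), Y.I = dpI G.m G.e G.F → ∀ Q, G.Fr p Q →
    Y.fixed Q = G.fx Q 1
  cnt : ∀ (G : GD K dd) (Q : ℕ), 1 < Q → G.Fr p Q → ∀ {ζ : K}, IsPrimitiveRoot ζ G.m →
    ∑ s ∈ Finset.range G.m, G.fx Q (ζ ^ s) = G.m * ∑ i ∈ Finset.range (2 * dd + 1), Q ^ i
  gr : ∀ (G : GD K dd) (Y : Sm K G.σ), Y.I = dpI G.m G.e G.F → ∀ Q, G.Fr p Q → ∀ {M : Fld K}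
    {α : Fld.base K →ₐ[K] M} {y : (xz dd).X M}, G.GenU 0 α y →
    Y.grC Q = Finsupp.single (Bridge.PP (G.nu (frb Q M y)) (G.nu y)) 1

/-- Symmetries of the numbers of fixed points. -/
class XF (p dd : ℕ) : Prop where
  sym : ∀ {G : GD K dd} {q : ℕ}, G.Fq p q → ∀ {ζ : K} {η : ℂ}, IsPrimitiveRoot ζ G.m →
    η ^ G.m = 1 → ∀ j, G.PP ζ η⁻¹ q j = G.PP ζ η q j
  odd : ∀ {G : GD K dd} {q : ℕ}, G.Fq p q → ∀ {ζ : K} {η : ℂ}, IsPrimitiveRoot ζ G.m →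
    η ^ G.m = 1 → η ≠ 1 → ∀ j, Odd j → G.PP ζ η q j = 0

/-- Frobenius. -/
class XV (p dd : ℕ) : Prop where
  mp : ∀ {G : GD K dd} {Q : ℕ}, G.Fr p Q → Mp G.UU G.UU (frb Q) ∧ Pro G.UU G.UU (frb Q) ∧
    Srj G.UU G.UU (frb Q) ∧ ∀ L : Fld K, Function.Injective (frb (dd := dd) Q L)
  pow : ∀ {G : GD K dd} {q : ℕ}, G.Fr p q → ∀ m, G.Fr p (q ^ m)
  pull : ∀ {G : GD K dd} {q : ℕ}, G.Fr p q → ∀ {T : Type} [Finite T] [DecidableEq T] {j : ℕ}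
    (φ : AF j (G.UU.pi T)) (e : T → ℕ), ∃ ψ : AF j (G.UU.pi T),
      (∀ L x, ψ.a L x = φ.a L (cfg q e L x)) ∧
      (∀ (ζ : K) (c : T → ℂ), EqP ζ c φ.a → EqP ζ (fun i => c i ^ q ^ e i) ψ.a) ∧
      ∀ sd : T → Bool, KlS sd φ.a → KlS sd ψ.a
  desc : ∀ {G : GD K dd} {q : ℕ}, G.Fq p q → ∀ {T : Type} [Finite T] [DecidableEq T] {j : ℕ}
    (φ : AF j (G.UU.pi T)) (e : T → ℕ), ∃ ψ : AF j (G.UU.pi T),
      (∀ L x, φ.a L x = ψ.a L (cfg q e L x)) ∧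
      (∀ (ζ : K) (c : T → ℂ), ζ ^ G.m = 1 → EqP ζ c φ.a → EqP ζ (fun i => c i ^ q ^ e i) ψ.a) ∧
      ∀ sd : T → Bool, KlS sd φ.a → KlS sd ψ.a

/-- Normalised values. -/
class XW (p dd : ℕ) : Prop where
  shift : ∀ {G : GD K dd} {q : ℕ}, G.Fr p q → ∀ {T : Type} [Finite T]
    (φ : AF (dd * Nat.card T) (G.UU.pi T)) {τ : T → T}, Inv τ →
    ∀ (e e' : T → ℕ) (i : T) (m : ℕ) (v : ℂ),
    e' i = e i + m → e' (τ i) = e (τ i) + m → (∀ t, t ≠ i → t ≠ τ i → e' t = e t) →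
    (DV G q φ.a τ e' (((q : ℂ) ^ dd) ^ (2 * m) * v) ↔ DV G q φ.a τ e v)
  val : ∀ {G : GD K dd} {q : ℕ}, G.Fr p q → ∀ φ : AF (dd * Nat.card Bool) (G.UU.pi Bool),
    ∀ {ζ : K} {c : Bool → ℂ}, IsPrimitiveRoot ζ G.m → EqP ζ c φ.a → ∀ e : Bool → ℕ,
    ∃ v, DV G q φ.a not e v ∧ (¬ Mt q c not e → v = 0)
  gen : ∀ (G : GD K dd) (κ : Type) [Finite κ], ∃ (L : Fld K) (P : κ → (xz dd).X L),
    Good (dd * (2 * Nat.card κ)) L ∧ (∀ i, G.UU.mem L (P i)) ∧ Bridge.dg (xf L P) ≠ 0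

/-- The contraction with the diagonal exists. -/
class ZO (p dd : ℕ) : Prop where
  ex : ∀ (G : GD K dd) {ζ : K} {γ : ℂ}, IsPrimitiveRoot ζ G.m → γ ^ G.m = 1 → γ ≠ 1 →
    ∃ AC : CRel G, ConL G p ζ γ AC

open Classical in
/-- One contraction. -/
class ZS (p dd : ℕ) : Prop where
  step : ∀ {G : GD K dd} {q : ℕ}, 1 < q → G.Fq p q → ∀ {ζ : K} {γ : ℂ}, IsPrimitiveRoot ζ G.m →
    γ ^ G.m = 1 → γ ≠ 1 →
    ∀ {T : Type} [Finite T] [DecidableEq T] (φ : AF (dd * Nat.card T) (G.UU.pi T)) (c : T → ℂ),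
    (∀ i, c i ^ G.m = 1) → EqP ζ c φ.a →
    ∃ Φ : AF (dd * Nat.card (Option (Option T))) (G.UU.pi (Option (Option T))),
      EqP ζ (ext2 γ c) Φ.a ∧
      (∀ (sd : T → Bool) (s : Bool), KlS sd φ.a →
        KlS (fun t : Option (Option T) => (Option.bind t id).elim s sd) Φ.a) ∧
      ∀ (τ : Option (Option T) → Option (Option T)) (e : Option (Option T) → ℕ) (v : ℂ), Inv τ →
        Mt q (ext2 γ c) τ e → DV G q φ.a (rτ τ) (re τ e) v →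
        DV G q Φ.a τ e ((if Lp τ then lamP ((q : ℂ) ^ dd) (G.PP ζ γ q) (e none) (e (some none))
          else 1) * v / G.m)

/-- The relation between the graphs of the powers of Frobenius. -/
class ZR (p dd : ℕ) : Prop where
  rel : ∀ {G : GD K dd} {q : ℕ}, 1 < q → G.Fq p q → ∀ {ζ : K} {η : ℂ}, IsPrimitiveRoot ζ G.m →
    η ^ G.m = 1 → η ≠ 1 → ∀ {n r : ℕ}, n = G.n → ∀ (sd : ℕ → Bool)
    (E : Fin n ⊕ Fin n ≃ Tw r), (∀ i, side sd r (E (Sum.inl i)) = true) →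
    (∀ i, side sd r (E (Sum.inr i)) = false) → ∀ e : Tw r → ℕ, OddP r e →
    dsum E (lamP ((q : ℂ) ^ dd) (G.PP ζ η q)) ((q : ℂ) ^ dd) e ≠ 0 →
    ∃ f : Polynomial ℂ, f.eval ((q : ℂ) ^ dd) ≠ 0 ∧ f.eval 0 ≠ 0 ∧
      ∀ (φ : AF (dd * Nat.card Bool) (G.UU.pi Bool)) (η' : ℂ), η' ^ G.m = 1 →
      EqP ζ (fun b => bif b then η else η') φ.a → KlS id φ.a → ∀ v : ℕ → ℂ,
      (∀ j, DV G q φ.a not (fun b => bif b then j else 0) (v j)) →
      ∀ t, (f.sum fun j a => a * v (j + t)) = 0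

/-- From linear forms on cycles to functionals. -/
class XQ [Base K] (p dd : ℕ) : Prop where
  brg : ∀ (G : GD K dd) (Y : Sm K G.σ), Y.I = dpI G.m G.e G.F → ∀ q, G.Fr p q →
    ∀ {ζ : K} {ω : ℂ}, IsPrimitiveRoot ζ G.m → IsPrimitiveRoot ω G.m →
    ∀ b : Cyc (MvPolynomial (G.σ ⊕ G.σ) K) →ₗ[ℚ] ℚ,
    RatB Y.I ⊔ ⨆ δ, ProdB Y.I δ ≤ LinearMap.ker b →
    ∃ (φ : ℕ → ℕ → AF (dd * Nat.card Bool) (G.UU.pi Bool)) (v : ℕ → ℕ → ℕ → ℂ),
      (∀ s ∈ Finset.Ico 1 G.m, ∀ s' ∈ Finset.Ico 1 G.m,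
        EqP ζ (fun b => bif b then ω ^ s else ω ^ s') (φ s s').a ∧ KlS id (φ s s').a ∧
        ∀ j, DV G q (φ s s').a not (fun b => bif b then j else 0) (v s s' j)) ∧
      ∀ j, ∑ s ∈ Finset.Ico 1 G.m, ∑ s' ∈ Finset.Ico 1 G.m, v s s' j =
        (b (Y.grC (q ^ j)) : ℂ) / G.m

end Geo

/-- The sum of the diagrams, with the parities of the exponents. -/
class ZA : Prop where
  frob : ∀ r₀ : ℕ, ∃ (r : ℕ) (sd : ℕ → Bool) (E : Fin (2 * r₀ + 1) ⊕ Fin (2 * r₀ + 1) ≃ Tw r),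
    (∀ i, side sd r (E (Sum.inl i)) = true) ∧ (∀ i, side sd r (E (Sum.inr i)) = false) ∧
    ∀ a : Fin r₀ → ℕ, ∃ e : Tw r → ℕ, ((∀ k, Even (a k)) → OddP r e) ∧
      ∀ (q : ℂ) (P : ℕ → ℂ) (σ : Polynomial ℂ →ₗ[ℂ] ℂ), q ≠ 0 →
      (∀ m : ℕ, σ (chC m) = P m / q ^ m) → dsum E (lamP q P) q e =
        (-1) ^ r₀ * r₀.factorial * q ^ (∑ k, (a k + 2)) * phi σ r₀ (chD a)

/-- Linear forms whose form of Frobenius vanishes on even exponents. -/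
class ZC : Prop where
  cnt : ∀ (σ : Polynomial ℂ →ₗ[ℂ] ℂ) (r₀ : ℕ),
    (∀ a : Fin r₀ → ℕ, (∀ k, Even (a k)) → phi σ r₀ (chD a) = 0) → σ (chC 0) = 2 * r₀ + 1 →
    ∃ ν : ℂ →₀ ℕ, ν 0 = 0 ∧ 3 ≤ ν 1 ∧
      ∀ j : ℕ, σ (chC (2 * j : ℕ)) = ν.sum fun z c => c * z ^ j

/-- Conjugation of the root of unity. -/
class ZE : Prop where
  gal : ∀ {m : ℕ} {η η' : ℂ}, 0 < m → IsPrimitiveRoot η m → IsPrimitiveRoot η' m →
    ∀ (R : ℕ → Polynomial ℚ) (Q : ℚ) {n r : ℕ} (E : Fin n ⊕ Fin n ≃ Tw r) (e : Tw r → ℕ),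
    dsum E (lamP Q fun j => Polynomial.aeval η (R j)) Q e = 0 →
    dsum E (lamP Q fun j => Polynomial.aeval η' (R j)) Q e = 0

end Pool.Agent.Lib.MP_557161_ag.HG.HN.HC
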