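import Pool.Agent.Lib.MP_557161_ag.HC.St4

/-!
Pairing of the indices along the cycles of an injective map.
-/

namespace Pool.Agent.Lib.MP_557161_ag.HG.HN.HC

namespace TPa

open Finset

theorem key {I : Type} [DecidableEq I] (N q : ℕ) (E : I → ℕ) (n : ℕ) : ∀ (S : Finset I),
    S.card ≤ n → ∀ φ : I → I, (∀ i ∈ S, φ i ∈ S) → Set.InjOn φ S →
    (∀ i ∈ S, ∃ r, Odd r ∧ N ∣ E (φ i) + q ^ r * E i) →
    ∃ (τ : I → I) (s : I → ℕ) (r : ℕ), Function.Involutive τ ∧ Odd r ∧ (∀ i, i ∉ S → τ i = i) ∧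
      ∀ i ∈ S, (τ i ≠ i → N ∣ q ^ s i * E i + q ^ s (τ i) * E (τ i)) ∧
        (τ i = i → N ∣ (q ^ r + 1) * E i) := by
  have base : ∀ (S : Finset I) (φ : I → I), (∀ i ∈ S, φ i = i) →
      (∀ i ∈ S, ∃ r, Odd r ∧ N ∣ E (φ i) + q ^ r * E i) →
      ∃ (τ : I → I) (s : I → ℕ) (r : ℕ), Function.Involutive τ ∧ Odd r ∧ (∀ i, i ∉ S → τ i = i) ∧
        ∀ i ∈ S, (τ i ≠ i → N ∣ q ^ s i * E i + q ^ s (τ i) * E (τ i)) ∧
          (τ i = i → N ∣ (q ^ r + 1) * E i) := fun S φ h0 h => by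
    choose! r hr using h
    have ho : ∀ T : Finset I, T ⊆ S → Odd (∏ i ∈ T, r i) := fun T hT =>
      Finset.prod_induction _ _ (fun _ _ => Odd.mul) odd_one fun i hi => (hr i (hT hi)).1
    refine ⟨id, 0, ∏ i ∈ S, r i, fun _ => rfl, ho _ le_rfl, fun _ _ => rfl,
      fun i hi => ⟨fun h => absurd rfl h, fun _ => ?_⟩⟩
    have h1 := (hr i hi).2
    rw [h0 i hi] at h1
    have h2 := (ho _ (erase_subset i S)).nat_add_dvd_pow_add_pow (q ^ r i) 1
    rw [one_pow, ← pow_mul, mul_prod_erase _ _ hi] at h2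
    refine dvd_trans ?_ (mul_dvd_mul_right h2 _)
    rwa [add_mul, one_mul, add_comm]
  induction n with
  | zero =>
    intro S hS φ _ _ h
    exact base S φ (fun i hi => absurd (card_pos.2 ⟨i, hi⟩) (by omega)) h
  | succ n ih =>
    intro S hS φ h1 h2 h3
    by_cases hf : ∀ i ∈ S, φ i = i
    · exact base S φ hf h3
    push Not at hf
    obtain ⟨i, hi, hij⟩ := hf
    obtain ⟨ri, ho, hd⟩ := h3 i hi
    obtain ⟨rj, hoj, hdj⟩ := h3 _ (h1 i hi)
    have hm : ∀ k, k ∈ (S.erase i).erase (φ i) ↔ k ∈ S ∧ k ≠ i ∧ k ≠ φ i := fun k => by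
      simp only [mem_erase]; tauto
    obtain ⟨τ, s, r, a1, a2, a3, a4⟩ := ih ((S.erase i).erase (φ i))
      ((card_erase_le).trans (by rw [card_erase_of_mem hi]; omega))
      (fun k => if φ k = i then φ (φ i) else φ k) (fun k hk => by
        obtain ⟨b1, b2, b3⟩ := (hm k).1 hk
        rw [hm]
        split_ifs with h
        · exact ⟨h1 _ (h1 _ hi), fun e => b3 (h2 b1 (h1 _ hi) (h.trans e.symm)),
            fun e => hij (h2 (h1 _ hi) hi e)⟩
        · exact ⟨h1 _ b1, h, fun e => b2 (h2 b1 hi e)⟩) (fun k hk l hl e => by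
        obtain ⟨b1, b2, b3⟩ := (hm k).1 hk
        obtain ⟨c1, c2, c3⟩ := (hm l).1 hl
        simp only at e
        split_ifs at e with h h' h'
        · exact h2 b1 c1 (h.trans h'.symm)
        · exact absurd (h2 (h1 _ hi) c1 e).symm c3
        · exact absurd (h2 b1 (h1 _ hi) e) b3
        · exact h2 b1 c1 e) (fun k hk => by
        obtain ⟨b1, b2, b3⟩ := (hm k).1 hk
        obtain ⟨rk, hok, hdk⟩ := h3 k b1
        split_ifs with h
        · rw [h] at hdk
          refine ⟨rk + ri + rj, (hok.add_odd ho).add_odd hoj, ?_⟩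
          refine (Nat.dvd_add_left (hd.mul_left (q ^ rj))).1 ?_
          have e : E (φ (φ i)) + q ^ (rk + ri + rj) * E k + q ^ rj * (E (φ i) + q ^ ri * E i) =
              (E (φ (φ i)) + q ^ rj * E (φ i)) + q ^ (ri + rj) * (E i + q ^ rk * E k) := by ring
          rw [e]
          exact dvd_add hdj (hdk.mul_left _)
        · exact ⟨rk, hok, hdk⟩)
    have ti : τ i = i := a3 i (by simp [hm])
    have tj : τ (φ i) = φ i := a3 _ (by simp [hm])
    have tk : ∀ k, k ≠ i → k ≠ φ i → τ k ≠ i ∧ τ k ≠ φ i := fun k b2 b3 =>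
      ⟨fun e => b2 (a1.injective (e.trans ti.symm)), fun e => b3 (a1.injective (e.trans tj.symm))⟩
    refine ⟨fun k => if k = i then φ i else if k = φ i then i else τ k,
      fun k => if k = i then ri else if k = φ i then 0 else s k, r, fun k => ?_, a2,
      fun k hk => ?_, fun k hk => ?_⟩
    · by_cases b2 : k = i
      · simp [b2, hij]
      by_cases b3 : k = φ i
      · simp [b3, hij]
      simp [b2, b3, tk k b2 b3, a1 k]
    · have b2 : k ≠ i := fun e => hk (e ▸ hi)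
      have b3 : k ≠ φ i := fun e => hk (e ▸ h1 i hi)
      simp only [b2, b3, if_false]
      exact a3 k fun h => hk ((hm k).1 h).1
    · by_cases b2 : k = i
      · simpa [b2, hij, add_comm] using hd
      by_cases b3 : k = φ i
      · simpa [b3, hij, hij.symm] using hd
      simpa only [b2, b3, tk k b2 b3, if_false] using a4 k ((hm k).2 ⟨hk, b2, b3⟩)

end TPa

theorem TP_thm : TP where
  pair {I} _ N q E φ hφ h := by
    classical
    have := Fintype.ofFinite I
    obtain ⟨τ, s, r, a1, a2, -, a4⟩ := TPa.key N q E _ Finset.univ le_rfl φ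
      (fun _ _ => Finset.mem_univ _) hφ.injOn fun i _ => ⟨1, odd_one, by simpa using h i⟩
    exact ⟨τ, s, r, a1, a2, fun i => a4 i (Finset.mem_univ _)⟩

end Pool.Agent.Lib.MP_557161_ag.HG.HN.HC
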