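import Pool.Agent.Lib.MP_557161_ag.HC.StV
import Pool.Agent.Lib.MP_557161_ag.HC.XG
import Pool.Agent.Lib.MP_557161_ag.HN.YA

/-!
Points of the cyclic cover.
-/

namespace Pool.Agent.Lib.MP_557161_ag.HG.HN.HC

open Pool.Agent.Lib.MP_557161_ag.DL MvPolynomial

variable {K : Type} [Field K] {dd : ℕ}

namespace Yc

variable {G : GD K dd} {L M N : Fld K}

lemma int (O : Pl M) {y : (xz dd).X M} (h : G.Cn0 M y) (hy : IntV O y.1) : y.2 ∈ O.O := by
  have h1 : y.2 ^ G.m ∈ O.O :=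
    h ▸ (Rel.aeval (R := Rel.ofPl O) (x' := rdV O y.1) (fun i => ⟨hy i, rfl⟩) G.F).1
  rwa [← ValuationSubring.valuation_le_one_iff, map_pow, pow_le_one_iff G.pm.ne_zero,
    ValuationSubring.valuation_le_one_iff] at h1

lemma cmp (O : Pl M) {y : (xz dd).X M} (h : G.Cn M y) : ∃ i y', y.1 i ≠ 0 ∧
    G.Cn O.res y' ∧ (xz dd).lift (Rel.ofPl O).r (G.Γ.scl (y.1 i)⁻¹ y) y' := by
  obtain ⟨i, hi⟩ := Finite.exists_max fun i => O.O.valuation (y.1 i)
  have h0 : y.1 i ≠ 0 := fun e => h.1 (funext fun l => by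
    have := hi l
    rwa [e, map_zero, le_zero_iff, map_eq_zero] at this)
  have h1 : IntV O (G.Γ.scl (y.1 i)⁻¹ y).1 := fun l => by
    show (y.1 i)⁻¹ * y.1 l ∈ O.O
    rw [← ValuationSubring.valuation_le_one_iff, map_mul, map_inv₀,
      inv_mul_le_one₀ (zero_lt_iff.2 ((map_ne_zero _).2 h0))]
    exact hi l
  have h2 := h.2.scl (y.1 i)⁻¹
  have e : (xz dd).lift (Rel.ofPl O).r (G.Γ.scl (y.1 i)⁻¹ y)
      (rdV O (G.Γ.scl (y.1 i)⁻¹ y).1, O.rd (G.Γ.scl (y.1 i)⁻¹ y).2) :=
    ⟨fun l => ⟨h1 l, rfl⟩, int O h2 h1, rfl⟩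
  refine ⟨i, _, h0, ⟨fun h3 => ?_, Rel.eq (Rel.pow e.2 G.m) (Rel.aeval e.1 _) h2⟩, e⟩
  exact one_ne_zero ((Rel.eq (Rel.ofPl O).one (e.1 i) (inv_mul_cancel₀ h0).symm).trans
    (congrFun h3 i))

lemma geo {A : Type} [CommRing A] (m : ℕ) (c z w t : A) :
    (∑ k ∈ Finset.range m, (c * z + t * (c * w)) ^ k * (c * z) ^ (m - 1 - k)) * (c * w) =
      c ^ m * ((∑ k ∈ Finset.range m, (z + t * w) ^ k * z ^ (m - 1 - k)) * w) := by
  rw [Finset.sum_mul, Finset.sum_mul, Finset.mul_sum]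
  refine Finset.sum_congr rfl fun k hk => ?_
  obtain ⟨r, rfl⟩ := Nat.exists_eq_add_of_lt (Finset.mem_range.1 hk)
  rw [Nat.add_sub_cancel, Nat.add_sub_cancel_left, show c * z + t * (c * w) = c * (z + t * w) by
    ring, mul_pow]
  ring

lemma taylor [X0 dd] (G : GD K dd) :
    ∃ H : MvPolynomial ((Option (Vr dd) ⊕ Option (Vr dd)) ⊕ Unit) K,
    ∀ (L : Fld K) (y y' : (xz dd).X L) (v : Option (Vr dd) → L) (t : L),
      (vz y = vz y' + t • v → t * aeval (Sum.elim (Sum.elim (vz y') v) fun _ => t) H =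
        (y.2 ^ G.m - aeval y.1 G.F) - (y'.2 ^ G.m - aeval y'.1 G.F)) ∧
      aeval (Sum.elim (Sum.elim (vz y') v) fun _ => (0 : L)) H = ∑ μ, G.row (1 : L) y' μ * v μ ∧
      ∀ a : L, a ≠ 0 → aeval (Sum.elim (Sum.elim (vz (G.Γ.scl a y')) fun μ => a ^ G.ωK μ * v μ)
        fun _ => t) H = a ^ (G.m * G.e) * aeval (Sum.elim (Sum.elim (vz y') v) fun _ => t) H := by
  obtain ⟨H, h⟩ := Ya.tay G.F
  refine ⟨(∑ k ∈ Finset.range G.m, (X (.inl (.inl none)) + X (.inr ()) * X (.inl (.inr none))) ^ k *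
    X (.inl (.inl none)) ^ (G.m - 1 - k)) * X (.inl (.inr none)) -
    rename (Sum.map (Sum.map some some) id) H, fun L y y' v t => ?_⟩
  have e : ∀ (y : (xz dd).X L) (v : Option (Vr dd) → L) (t : L),
      aeval (Sum.elim (Sum.elim (vz y) v) fun _ : Unit => t)
        ((∑ k ∈ Finset.range G.m, (X (.inl (.inl none)) + X (.inr ()) * X (.inl (.inr none))) ^ k *
          X (.inl (.inl none)) ^ (G.m - 1 - k)) * X (.inl (.inr none)) -
          rename (Sum.map (Sum.map some some) id) H) =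
        (∑ k ∈ Finset.range G.m, (y.2 + t * v none) ^ k * y.2 ^ (G.m - 1 - k)) * v none -
        aeval (Sum.elim (Sum.elim y.1 fun i => v (some i)) fun _ => t) H := fun y v t => by
    simp only [map_sub, map_add, map_mul, map_pow, map_sum, aeval_X, aeval_rename]
    congr 3
    funext s
    rcases s with (s | s) | s <;> rfl
  refine ⟨fun hy => ?_, ?_, fun a ha => ?_⟩
  · have h1 : y.1 = y'.1 + t • fun i => v (some i) := funext fun i => congrFun hy (some i)
    have h2 : y.2 = y'.2 + t * v none := congrFun hy none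
    rw [e, mul_sub, (h L _ _ t).1, ← h1, h2]
    linear_combination geom_sum₂_mul (y'.2 + t * v none) y'.2 G.m
  · rw [e, (h L _ _ t).2, Fintype.sum_option, zero_mul, add_zero, geom_sum₂_self]
    simp only [GD.row, Option.elim, neg_mul, Finset.sum_neg_distrib]
    ring
  · have h1 : (fun i => a ^ G.ωK (some i) * v (some i)) = a • fun i => v (some i) :=
      funext fun i => congrArg (· * v (some i)) (zpow_one a)
    have h2 : a ^ G.ωK none = a ^ G.e := zpow_natCast a _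
    rw [e, e, h1, h2]
    show (∑ k ∈ Finset.range G.m, (a ^ G.e * y'.2 + _) ^ k * (a ^ G.e * y'.2) ^ (G.m - 1 - k)) * _ -
      aeval (Sum.elim (Sum.elim (a • y'.1) _) _) H = _
    rw [Ya.tay_hom G.homF fun y v t => (h _ y v t).1, geo]
    ring

lemma red₁ {R : Type} [CommRing R] (f : MvPolynomial (Option (Vr dd)) R) :
    ∃ P : Polynomial (MvPolynomial (Vr dd) R), f = P.eval₂ (rename some).toRingHom (X none) := by
  induction f using MvPolynomial.induction_on with
  | C c => exact ⟨Polynomial.C (C c), by simp⟩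
  | add p q hp hq =>
    obtain ⟨a, rfl⟩ := hp
    obtain ⟨a', rfl⟩ := hq
    exact ⟨a + a', by rw [Polynomial.eval₂_add]⟩
  | mul_X p s hp =>
    obtain ⟨a, rfl⟩ := hp
    cases s with
    | none => exact ⟨a * Polynomial.X, by rw [Polynomial.eval₂_mul_X]⟩
    | some i => exact ⟨a * Polynomial.C (X i), by
        rw [Polynomial.eval₂_mul, Polynomial.eval₂_C]; exact congrArg _ (rename_X _ _).symm⟩

lemma red {R : Type} [CommRing R] [Nontrivial R] (F : MvPolynomial (Vr dd) R) {m : ℕ} (hm : 0 < m)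
    (f : MvPolynomial (Option (Vr dd)) R) : ∃ (P : Polynomial (MvPolynomial (Vr dd) R)) (g : _),
      P.degree < m ∧
      f = P.eval₂ (rename some).toRingHom (X none) + (X none ^ m - rename some F) * g := by
  obtain ⟨P, rfl⟩ := red₁ f
  have h1 := Polynomial.monic_X_pow_sub_C F hm.ne'
  refine ⟨P %ₘ (Polynomial.X ^ m - Polynomial.C F), (P /ₘ (Polynomial.X ^ m - Polynomial.C F)).eval₂
    (rename some).toRingHom (X none), ?_, ?_⟩
  · rw [← Polynomial.degree_X_pow_sub_C hm F]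
    exact Polynomial.degree_modByMonic_lt P h1
  · conv_lhs => rw [← Polynomial.modByMonic_add_div P (Polynomial.X ^ m - Polynomial.C F)]
    rw [Polynomial.eval₂_add, Polynomial.eval₂_mul, Polynomial.eval₂_sub, Polynomial.eval₂_X_pow,
      Polynomial.eval₂_C]
    rfl

lemma kerC [XA K dd] {i : ℕ} {α : L →ₐ[K] M} {y : (xz dd).X M} (hL : Good i L)
    (hM : Good (i + (2 * dd + 1)) M) (h : G.Cn0 M y) (ht : gen α (vz y) = ⊤)
    (f : MvPolynomial (Option (Vr dd)) L) (hf : eval₂ α.toRingHom (vz y) f = 0) :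
    X none ^ G.m - rename some (MvPolynomial.map (algebraMap K L) G.F) ∣ f := by
  obtain ⟨α₀, β, x, hc, hx, ht₀⟩ := Fa1.exists_sub α y.1
  have hs : y.2 ^ G.m = β (aeval x G.F) := by
    rw [Xg.map_aeval, funext hx]; exact h
  have hg : Gen β y.2 := by
    rw [← Xg.gen_one, eq_top_iff, ← ht]
    refine Fa1.gen_le (fun a => ?_) ?_
    · rw [← show β (α₀ a) = α a from AlgHom.congr_fun hc a]; exact Fa1.left_mem β _ _
    · rintro (_ | l)
      · exact Fa1.right_mem β (fun _ : Unit => y.2) ()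
      · show y.1 l ∈ _
        rw [← hx l]; exact Fa1.left_mem β _ _
  have hF : Free i α₀ x := by
    refine ⟨hL, ?_, ht₀⟩
    rw [Nat.card_eq_fintype_card, Fintype.card_fin]
    exact hM.down (ι := β) ((Xc.fin_pw G.pm.pos hs hg).tr_eq.symm.trans hM.2)
  let φ : MvPolynomial (Vr dd) L →+* _ := eval₂Hom α₀.toRingHom x
  have h1 : Function.Injective φ := (injective_iff_map_eq_zero φ).2 fun a ha =>
    by_contra fun h0 => Fa1.ne hF a h0 ha
  have h2 : φ (MvPolynomial.map (algebraMap K L) G.F) = aeval x G.F := by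
    show eval₂ _ _ _ = _
    rw [eval₂_map, aeval_def]
    congr 1
    exact RingHom.ext fun c => α₀.commutes c
  have h3 : ∀ z, z ^ G.m ≠ aeval x G.F := fun z hz => by
    let _ := φ.toAlgebra
    have := Fa1.isFrac hF
    obtain ⟨g, hg⟩ := IsIntegrallyClosed.exists_algebraMap_eq_of_isIntegral_pow
      (R := MvPolynomial (Vr dd) L) G.pm.pos (x := z) (by
        rw [hz, ← h2]
        exact isIntegral_algebraMap)
    exact XA.nsq G L g (h1 (by rw [map_pow, h2, ← hz, ← hg]; rfl))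
  let ev : MvPolynomial (Option (Vr dd)) L →+* M := eval₂Hom α.toRingHom (vz y)
  have h4 : ev.comp (rename some).toRingHom = β.toRingHom.comp φ := RingHom.ext fun a => by
    show eval₂ _ _ (rename _ a) = β (eval₂ _ _ _)
    rw [Fa1.map_ev, hc, funext hx, eval₂_rename]
    rfl
  obtain ⟨P, g, hP, rfl⟩ := red (MvPolynomial.map (algebraMap K L) G.F) G.pm.pos f
  change ev _ = 0 at hf
  have h5 : ev (rename some (MvPolynomial.map (algebraMap K L) G.F)) = y.2 ^ G.m :=
    (RingHom.congr_fun h4 _).trans ((congrArg β h2).trans hs.symm)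
  have h6 : ev (X none) = y.2 := eval₂Hom_X' _ _ _
  rw [map_add, map_mul, map_sub, map_pow, h5, h6, sub_self, zero_mul, add_zero,
    Polynomial.hom_eval₂, h4, ← Polynomial.eval₂_map, h6] at hf
  have h7 := Xc.ind_pw G.pm hs h3 (Polynomial.degree_map_le.trans_lt hP) hf
  rw [Polynomial.map_eq_zero_iff h1] at h7
  exact ⟨g, by rw [h7, Polynomial.eval₂_zero, zero_add]⟩

lemma genC {j : ℕ} {α : L →ₐ[K] M} {y : (xz dd).X M} (h : G.GenU j α y) (β : M →ₐ[K] N) (b t : N)
    (hN : Good (j + (2 * dd + 1) + 1) N) (hb : b ≠ 0) (ht : gen β ![b, t] = ⊤) :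
    G.GenC j (β.comp α) (G.Γ.scl b ((xz dd).map β y)) t := by
  refine ⟨h.gL, hN, GD.Cn0.scl ?_ b, ?_⟩
  · show β y.2 ^ G.m = aeval (fun i => β (y.1 i)) G.F
    rw [← Xg.map_aeval, ← map_pow, h.mem.2.2]
  set T : Option (Vr dd) ⊕ Unit → N :=
    Sum.elim (vz (G.Γ.scl b ((xz dd).map β y))) fun _ : Unit => t
  have h1 : ∀ i, b * β (y.1 i) ∈ gen (β.comp α) T := fun i =>
    Fa1.right_mem (β.comp α) T (.inl (some i))
  have h2 : b ∈ gen (β.comp α) T := by
    have := h1 0
    rwa [h.mem.2.1, map_one, mul_one] at this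
  have h3 : gen α ((xz dd).co y) ≤ (gen (β.comp α) T).comap β := by
    refine Fa1.gen_le (fun a => Fa1.left_mem (β.comp α) T a) ?_
    rintro (i | i)
    · have := mul_mem (inv_mem h2) (h1 i)
      rwa [inv_mul_cancel_left₀ hb] at this
    · have h4 : b ^ G.e * β y.2 ∈ gen (β.comp α) T := Fa1.right_mem (β.comp α) T (.inl none)
      have := mul_mem (inv_mem (pow_mem h2 G.e)) h4
      rwa [inv_mul_cancel_left₀ (pow_ne_zero _ hb)] at this
  rw [h.top] at h3
  rw [eq_top_iff, ← ht]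
  refine Fa1.gen_le (fun a => h3 IntermediateField.mem_top) fun i => ?_
  fin_cases i
  · exact h2
  · exact Fa1.right_mem (β.comp α) T (.inr ())

end Yc

theorem YA_thm [X0 dd] [XA K dd] : YA K dd where
  cmp := Yc.cmp
  int := Yc.int
  uu h := ⟨fun e => h.1.2 0 (congrFun e 0), h.2.2⟩
  taylor := Yc.taylor
  kerC := Yc.kerC
  genC := Yc.genC

end Pool.Agent.Lib.MP_557161_ag.HG.HN.HC
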