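import Pool.Agent.Lib.MP_557161_ag.HC.StY
import Pool.Agent.Lib.MP_557161_ag.HG.ZA

/-!
The sum of the diagrams is a rational polynomial in the root of unity.
-/

namespace Pool.Agent.Lib.MP_557161_ag.HG.HN.HC

namespace ZEa

open Polynomial

/-- Rational polynomial functions. -/
def RP (F : ℂ → ℂ) : Prop := ∃ p : ℚ[X], ∀ η, F η = aeval η p

theorem RP.const (c : ℚ) : RP fun _ => c := ⟨C c, by simp⟩

theorem RP.mul {F G : ℂ → ℂ} (h : RP F) (h' : RP G) : RP fun η => F η * G η := by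
  obtain ⟨p, hp⟩ := h
  obtain ⟨q, hq⟩ := h'
  exact ⟨p * q, fun η => by simp only [map_mul, hp, hq]⟩

theorem RP.sum {ι : Type} (s : Finset ι) {f : ι → ℂ → ℂ} (h : ∀ i, RP (f i)) :
    RP fun η => ∑ i ∈ s, f i η := by
  choose p hp using h
  exact ⟨∑ i ∈ s, p i, fun η => by simp only [map_sum, hp]⟩

theorem RP.ev {lam : ℂ → ℕ → ℕ → ℂ} (h : ∀ x y, RP fun η => lam η x y) (r : ℕ)
    (τ : Tw r → Tw r) (e : Tw r → ℕ) : RP fun η => (ev (lam η) r τ e).1 := by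
  induction r with
  | zero => exact ⟨1, fun η => (map_one _).symm⟩
  | succ r ih =>
    refine RP.mul ?_ (ih _ _)
    split_ifs
    exacts [h _ _, ⟨1, fun η => (map_one _).symm⟩]

theorem main (R : ℕ → ℚ[X]) (Q : ℚ) {n r : ℕ} (E : Fin n ⊕ Fin n ≃ Tw r) (e : Tw r → ℕ) :
    RP fun η => dsum E (lamP Q fun j => aeval η (R j)) Q e := by
  refine RP.sum _ fun π => RP.mul ⟨C ((Equiv.Perm.sign π : ℤ) : ℚ), fun η => by simp⟩ ?_
  simp only [ZA_ev _ 0]
  exact RP.mul (RP.ev (fun x y => RP.mul ⟨C (Q ^ (2 * min x y)), fun η => by simp⟩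
    ⟨_, fun _ => rfl⟩) _ _ _) ⟨C (Q ^ _), fun η => by rw [aeval_C, map_pow]; rfl⟩

end ZEa

theorem ZE_thm : ZE where
  gal hm h h' R Q _ _ E e h0 := by
    obtain ⟨p, hp⟩ := ZEa.main R Q E e
    obtain ⟨g, hg⟩ := minpoly.dvd ℚ _ ((hp _).symm.trans h0)
    rw [← Polynomial.cyclotomic_eq_minpoly_rat h hm, Polynomial.cyclotomic_eq_minpoly_rat h' hm] at hg
    refine (hp _).trans ?_
    rw [hg, map_mul, minpoly.aeval, zero_mul]

end Pool.Agent.Lib.MP_557161_ag.HG.HN.HC
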