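import Pool.Agent.Lib.MP_557161_ag.HC.StV
import Pool.Agent.Lib.MP_557161_ag.HN.WG
import Pool.Agent.Lib.MP_557161_ag.HN.SE

/-!
Secant vectors of the cone and their reductions.
-/

namespace Pool.Agent.Lib.MP_557161_ag.HG.HN.HC

open Pool.Agent.Lib.MP_557161_ag.DL

namespace ZX1

lemma transfer {α β : Type} (g : α → ℂ) (g' : β → ℂ) (R : α → β → Prop)
    (h1 : ∀ a, g a ≠ 0 → ∃ b, R a b) (h2 : ∀ b, g' b ≠ 0 → ∃ a, R a b)
    (h3 : ∀ a b, R a b → g a = g' b) (h4 : ∀ a b b', R a b → R a b' → b = b')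
    (h5 : ∀ a a' b, R a b → R a' b → a = a') {c : ℂ} (h : HasS g' c) : HasS g c := by
  refine ⟨(h.1.biUnion (t := fun b => {a | R a b}) fun b _ =>
    Set.Subsingleton.finite fun a ha a' ha' => h5 a a' b ha ha').subset fun a ha => ?_,
    (WG1.transfer g g' R h1 h2 h3 h4 h5).trans h.2⟩
  obtain ⟨b, hb⟩ := h1 a ha
  exact Set.mem_biUnion (x := b) (fun e => ha ((h3 a b hb).trans e)) hb

variable {K : Type} [Field K] {dd : ℕ} (G : GD K dd) {d : Cd} {W : ASp K d} {L M N : Fld K}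

/-- A family with two members. -/
def fam {L : Type} (s t : L) : Bool → L := fun b => bif b then s else t

/-- The secant vector. -/
noncomputable def vv (a t : L) (y y' : (xz dd).X L) : Option (Vr dd) → L :=
  t⁻¹ • (vz (G.Γ.scl a y) - vz y')

lemma vv_none (a t : L) (y y' : (xz dd).X L) :
    vv G a t y y' none = t⁻¹ * (a ^ G.e * y.2 - y'.2) := rfl

lemma vv_some (a t : L) (y y' : (xz dd).X L) (i : Vr dd) :
    vv G a t y y' (some i) = t⁻¹ * (a * y.1 i - y'.1 i) := rfl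

lemma vv_scl (c a t : L) (y y' : (xz dd).X L) :
    (fun μ => c ^ G.ωK μ * vv G a t y y' μ) = vv G a t (G.Γ.scl c y) (G.Γ.scl c y') := by
  funext μ
  cases μ with
  | none =>
    show c ^ (G.e : ℤ) * (t⁻¹ * (a ^ G.e * y.2 - y'.2)) =
      t⁻¹ * (a ^ G.e * (c ^ G.e * y.2) - c ^ G.e * y'.2)
    rw [zpow_natCast]
    ring
  | some i =>
    show c ^ (1 : ℤ) * (t⁻¹ * (a * y.1 i - y'.1 i)) = t⁻¹ * (a * (c * y.1 i) - c * y'.1 i)
    rw [zpow_one]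
    ring

/-- The covering transformations commute with the scaling. -/
lemma sg_scl (ε : K) (c : L) (y : (xz dd).X L) :
    mlt ε L (G.Γ.scl c y) = G.Γ.scl c (mlt ε L y) :=
  Prod.ext rfl (mul_left_comm _ _ _)

lemma sg_fst (ε : K) (y : (xz dd).X L) : (mlt ε L y).1 = y.1 := rfl

lemma vv_x {a t s : L} (ht : t ≠ 0) (ha : a = 1 + s * t) (ε : K) (y : (xz dd).X L)
    (i : Vr dd) : vv G a t (mlt ε L y) y (some i) = s * y.1 i := by
  rw [vv_some, sg_fst, ha]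
  field_simp
  ring

lemma vv_dg {a t s : L} (ht : t ≠ 0) (ha : a = 1 + s * t) (y : (xz dd).X L) :
    vv G a t (mlt (1 : K) L y) y none = s * ((∑ l ∈ Finset.range G.e, a ^ l) * y.2) := by
  have h := geom_sum_mul a G.e
  rw [mlt_one]
  show t⁻¹ * (a ^ G.e * y.2 - y.2) = _
  rw [show a ^ G.e * y.2 - y.2 = (a ^ G.e - 1) * y.2 by ring, ← h, show a - 1 = s * t by
    rw [ha]; ring]
  field_simp

lemma vv_gr (ξ : K) (a t : L) (y : (xz dd).X L) :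
    vv G a t (mlt ξ L y) y none = (a ^ G.e * algebraMap K L ξ - 1) * (y.2 / t) := by
  show t⁻¹ * (a ^ G.e * (algebraMap K L ξ * y.2) - y.2) = _
  ring

section Rel

variable {R : Rel M L} {a t s : M} {s' : L} {y : (xz dd).X M} {y' : (xz dd).X L}

lemma rel_a (ha : a = 1 + s * t) (hs : R.r s s') (h0 : R.r t 0) : R.r a 1 := by
  have := R.add R.one (R.mul hs h0)
  rwa [mul_zero, add_zero, ← ha] at this

lemma rel_two (ξ : K) (ha : a = 1 + s * t) (hs : R.r s s') (h0 : R.r t 0) :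
    R.r (a ^ G.e * algebraMap K M ξ - 1) (algebraMap K L (ξ - 1)) := by
  have := Rel.sub (R.mul (Rel.pow (rel_a ha hs h0) G.e) (R.const ξ)) R.one
  rwa [one_pow, one_mul, ← map_one (algebraMap K L), ← map_sub] at this

lemma rel_dg (ht : t ≠ 0) (ha : a = 1 + s * t) (hs : R.r s s') (h0 : R.r t 0)
    (e : (xz dd).lift R.r y y') (μ : Option (Vr dd)) :
    R.r (vv G a t (mlt (1 : K) M y) y μ) ((s' • G.eul y') μ) := by
  cases μ with
  | none =>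
    rw [vv_dg G ht ha]
    have := Rel.sum (Finset.range G.e) fun l _ => Rel.pow (rel_a ha hs h0) l
    simp only [one_pow, Finset.sum_const, Finset.card_range, nsmul_eq_mul, mul_one] at this
    exact R.mul hs (R.mul this e.2)
  | some i =>
    rw [vv_x G ht ha]
    exact R.mul hs (e.1 i)

lemma rel_gr {ξ : K} {r' : L} (ht : t ≠ 0) (ha : a = 1 + s * t) (hs : R.r s s') (h0 : R.r t 0)
    (hr : R.r (y.2 / t) r') (e : (xz dd).lift R.r y y') (μ : Option (Vr dd)) :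
    R.r (vv G a t (mlt ξ M y) y μ) (pln (fam s' (algebraMap K L (ξ - 1) * r')) y' μ) := by
  cases μ with
  | none =>
    rw [vv_gr]
    exact R.mul (rel_two G ξ ha hs h0) hr
  | some i =>
    rw [vv_x G ht ha]
    exact R.mul hs (e.1 i)

lemma rel_s (ht : t ≠ 0) (ha : a = 1 + s * t) {ε : K} (e : (xz dd).lift R.r y y')
    (h : y'.1 ≠ 0) {v : Option (Vr dd) → L} (e' : ∀ μ, R.r (vv G a t (mlt ε M y) y μ) (v μ)) :
    ∃ s', R.r s s' := by
  obtain ⟨i, hi⟩ := Function.ne_iff.1 h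
  have h1 := Rel.div (e' (some i)) (e.1 i) hi
  rw [vv_x G ht ha, mul_div_cancel_right₀ _ (Rel.ne_zero (e.1 i) hi)] at h1
  exact ⟨_, h1⟩

lemma rel_r {ξ : K} (h2 : algebraMap K L (ξ - 1) ≠ 0) (ha : a = 1 + s * t) (hs : R.r s s') (h0 : R.r t 0) {v : L}
    (e' : R.r (vv G a t (mlt ξ M y) y none) v) : ∃ r', R.r (y.2 / t) r' := by
  have h3 := rel_two G ξ ha hs h0
  have h1 := Rel.div e' h3 h2
  rw [vv_gr, mul_div_cancel_left₀ _ (Rel.ne_zero h3 h2)] at h1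
  exact ⟨_, h1⟩

end Rel

lemma down {c : Cd} {β : M →ₐ[K] N} {O : Pl M} {O' : Pl N} (h : Pl.Over β O O') {x : c.X M}
    {x₁ : c.X O'.res} (e : c.lift (Rel.ofPl O').r (c.map β x) x₁) :
    ∃ x', c.lift (Rel.ofPl O).r x x' ∧ c.map h.resHom x' = x₁ :=
  have h5 := (Cd.lift_pl O).2 ⟨(Cd.all_over h).1 ((Cd.lift_pl O').1 e).1, rfl⟩
  ⟨_, h5, Cd.lift_eq (Cd.lift_over h h5) e rfl⟩

/-- The point over `(y, w)` with the secant vector. -/
noncomputable def pnt (β : M →ₐ[K] N) (a t : N) (ε : K) (y : (xz dd).X M) (w : d.X M) :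
    (((xz dd).prod d).prod (.vec (Option (Vr dd)))).X N :=
  (((xz dd).map β y, d.map β w), vv G a t (mlt ε N ((xz dd).map β y)) ((xz dd).map β y))

lemma pnt_scl (β : M →ₐ[K] N) (a t : N) (ε : K) (c : M) (y : (xz dd).X M) (w : d.X M) :
    pnt G β a t ε (G.Γ.scl c y) w =
      ((G.Γ1 d).prod (.vec G.ωK)).scl (β c) (pnt G β a t ε y w) := by
  have e : (xz dd).map β (G.Γ.scl c y) = G.Γ.scl (β c) ((xz dd).map β y) :=
    G.Γ.map_scl β.toRingHom c y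
  refine Prod.ext (Prod.ext e rfl) ?_
  show vv G a t (mlt ε N ((xz dd).map β (G.Γ.scl c y))) ((xz dd).map β (G.Γ.scl c y)) = _
  rw [e, sg_scl, ← vv_scl]
  rfl

variable {G} [X0 dd] {k : ℕ} (θ : Pre k (G.kb W 1).tot.sp)

lemma r_scl (β : M →ₐ[K] N) (a t : N) (ε : K) {c : M} (h0 : c ≠ 0) (y : (xz dd).X M)
    (w : d.X M) (O : Pl N) : θ.r O (pnt G β a t ε (G.Γ.scl c y) w) = θ.r O (pnt G β a t ε y w) := by
  rw [Pre.r, pnt_scl, Wt.pt_scl _ ((map_ne_zero β).2 h0)]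

variable [WB K]

/-- At a place with nonzero value one can normalise by a scalar from the small field. -/
lemma norm {β : M →ₐ[K] N} {a t : N} {ε : K} {y : (xz dd).X M} {w : d.X M} {O : Pl M}
    {O' : Pl N} (h : Pl.Over β O O') (hn : θ.r O' (pnt G β a t ε y w) ≠ 0) :
    ∃ (c : M) (y' : (xz dd).X O.res), c ≠ 0 ∧ (xz dd).lift (Rel.ofPl O).r (G.Γ.scl c y) y' ∧
      G.Cn O.res y' := by
  obtain ⟨i, x, hi, i0, e, m, -⟩ := WB.r_ne θ hn
  obtain ((i | i) | i) | i := i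
  · replace i0 : β (y.1 i) ≠ 0 := i0
    replace e : (xz dd).lift (Rel.ofPl O').r (G.Γ.scl (β (y.1 i))⁻¹ ((xz dd).map β y)) x.1.1 :=
      e.1.1
    rw [← map_inv₀, ← show (xz dd).map β _ = G.Γ.scl (β _) ((xz dd).map β y) from
      G.Γ.map_scl β.toRingHom _ y] at e
    obtain ⟨y', h1, h2⟩ := down h e
    refine ⟨_, y', inv_ne_zero ((map_ne_zero β).1 i0), h1, (G.CC.S.map_iff h.resHom y').1 ?_⟩
    rw [h2]
    exact m.1.1.1
  all_goals exact hi.elim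

/-- At a place with nonzero value, a normalised point has a reduction. -/
lemma drop {x : (((xz dd).prod d).prod (.vec (Option (Vr dd)))).X N} {O : Pl N}
    (hn : θ.r O x ≠ 0) {y' : (xz dd).X O.res} (e : (xz dd).lift (Rel.ofPl O).r x.1.1 y')
    (h : G.Cn O.res y') : ∃ w' v', d.lift (Rel.ofPl O).r x.1.2 w' ∧ W.mem O.res w' ∧
      (∀ μ, (Rel.ofPl O).r (x.2 μ) (v' μ)) ∧ θ.q O.res ((y', w'), v') ≠ 0 := by
  obtain ⟨l, x₁, -, h2, h3, h4, h5⟩ := WB.r_ne θ hn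
  obtain ⟨u, u0, hu⟩ := G.Γ.unit_of_lift (inv_ne_zero h2) e h3.1.1 (G.CC.nz _ _ h)
    (G.CC.nz _ _ h4.1.1.1)
  have h7 := ((G.Γ1 d).prod (.vec G.ωK)).lift_scl ((Rel.ofPl O).inv hu u0) (inv_ne_zero u0) h3
  rw [Wt.scl_inv _ (inv_ne_zero h2)] at h7
  have h8 := (G.kb W 1).tot.inv _ _ _ (inv_ne_zero u0) h4
  have h9 : θ.q _ (((G.Γ1 d).prod (.vec G.ωK)).scl u⁻¹ x₁) = θ.q _ x₁ :=
    congrArg (θ.v _) (Wt.pt_scl _ (inv_ne_zero u0) x₁)
  generalize ((G.Γ1 d).prod (.vec G.ωK)).scl u⁻¹ x₁ = z at h7 h8 h9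
  obtain ⟨⟨y₁, w'⟩, v'⟩ := z
  obtain rfl : y' = y₁ := Cd.lift_eq e h7.1.1 rfl
  exact ⟨w', v', h7.1.2, h8.1.1.2, h7.2, fun h0 => hn (h5.trans (h9.symm.trans h0))⟩

lemma r_eq {x : (((xz dd).prod d).prod (.vec (Option (Vr dd)))).X N} {O : Pl N}
    {x' : (((xz dd).prod d).prod (.vec (Option (Vr dd)))).X O.res}
    (e : (((xz dd).prod d).prod (.vec (Option (Vr dd)))).lift (Rel.ofPl O).r x x')
    (h : G.Cn O.res x'.1.1) : θ.r O x = θ.q O.res x' := by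
  obtain ⟨i, hi, i0⟩ := G.CC.nz _ _ h
  exact WB.r_eq θ one_ne_zero (by rw [Wt.scl_one]; exact e) ⟨.inl (.inl i), hi, i0⟩

lemma low (ρ : L →ₐ[K] M) {κ : Type} (T : κ → M) (y : (xz dd).X L) (w : d.X L)
    {v : Option (Vr dd) → M} (hv : ∀ μ, v μ ∈ gen ρ T) {m : ℕ} (hm : m < k)
    (ht : (M.sub (gen ρ T)).tr ≤ m) : θ.q M (((xz dd).map ρ y, d.map ρ w), v) = 0 :=
  WB.low θ ⟨gen ρ T, ⟨⟨⟨fun _ => Se.gl _ _ _, Se.gl _ _ _⟩, (d.all_iff _ _).2 fun l => by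
    rw [d.co_map]
    exact Se.gl _ _ _⟩, hv⟩, ht⟩ hm

end ZX1

end Pool.Agent.Lib.MP_557161_ag.HG.HN.HC
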